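import Pool.Agent.H539R2.Goto

/-!
Simulation of goto code by a bounded one-dimensional cellular automaton.
-/

set_option linter.unusedSimpArgs false

namespace Pool.Agent.H539R2

/-- digits of the registers in one cell -/
abbrev Dig (K D : ℕ) := Fin K → Fin (D + 2)
/-- the head -/
abbrev Hd (M : ℕ) := Fin (M + 1) × Bool
/-- cell states: `none` is the boundary, `some none` the fresh state -/
abbrev St (K D M : ℕ) := Option (Option (Dig K D × Option (Hd M)))

/-- digit of register `r` -/
def getD {K D : ℕ} (d : Dig K D) (r : ℕ) : ℕ := if h : r < K then (d ⟨r, h⟩ : ℕ) else 0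

/-- set the digit of register `r` -/
def setD {K D : ℕ} (d : Dig K D) (r v : ℕ) : Dig K D :=
  fun i => if (i : ℕ) = r then Fin.ofNat (D + 2) v else d i

theorem getD_lt {K D : ℕ} (d : Dig K D) (r : ℕ) : getD d r < D + 2 := by
  unfold getD
  split_ifs
  · exact Fin.is_lt _
  · omega

theorem getD_set {K D : ℕ} (d : Dig K D) (r v : ℕ) (hr : r < K) (hv : v < D + 2) :
    getD (setD d r v) r = v := by
  unfold getD setD
  simp [hr, Nat.mod_eq_of_lt hv]

theorem getD_set_ne {K D : ℕ} (d : Dig K D) (r r' v : ℕ) (h : r' ≠ r) :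
    getD (setD d r v) r' = getD d r' := by
  unfold getD setD
  split_ifs <;> simp_all

/-- address as an element of `Fin` -/
def nx (M x : ℕ) : Fin (M + 1) := Fin.ofNat (M + 1) x

theorem nx_val (M x : ℕ) (h : x ≤ M) : ((nx M x : Fin (M + 1)) : ℕ) = x := by
  unfold nx
  simp [Nat.mod_eq_of_lt (Nat.lt_succ_of_le h)]

/-- action of a scanning head on a cell: new digits and the next address if it stops -/
def act {K D : ℕ} (M : ℕ) (C : ℕ → Ins) (pc : ℕ) (d : Dig K D) : Dig K D × Option (Fin (M + 1)) :=
  match C pc with
  | .inc r => if getD d r = D + 1 then (setD d r 0, none)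
      else (setD d r (getD d r + 1), some (nx M (pc + 1)))
  | .dec r => if getD d r = 0 then (setD d r (D + 1), none)
      else (setD d r (getD d r - 1), some (nx M (pc + 1)))
  | .jz r _ => if getD d r = 0 then (d, none) else (d, some (nx M (pc + 1)))
  | .jmp t => (d, some (nx M t))

/-- the address after a full scan -/
def endp (M : ℕ) (C : ℕ → Ins) (pc : ℕ) : Fin (M + 1) :=
  match C pc with
  | .jz _ t => nx M t
  | _ => 0

/-- head coming from the right -/
def inhR {K D M : ℕ} (r : St K D M) : Option (Hd M) :=
  match r with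
  | some (some (_, some (pc, false))) => some (pc, false)
  | _ => none

/-- head coming from a neighbour -/
def inh {K D M : ℕ} (C : ℕ → Ins) (l r : St K D M) : Option (Hd M) :=
  match l with
  | some (some (dl, some (pc, true))) =>
      if (act M C pc dl).2 = none then some (pc, true) else inhR r
  | _ => inhR r

/-- the initial digits -/
def dig0 (K D : ℕ) : Dig K D := fun i => if (i : ℕ) = 0 then 1 else 0

/-- the local rule -/
def delta {K D M : ℕ} (C : ℕ → Ins) (l c r : St K D M) : St K D M :=
  match c with
  | none => none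
  | some none => some (some (dig0 K D, if l = none then some (0, true) else none))
  | some (some (d, some (pc, true))) =>
      match (act M C pc d).2 with
      | some q => some (some ((act M C pc d).1, some (q, false)))
      | none => if r = none then some (some ((act M C pc d).1, some (endp M C pc, false)))
          else some (some ((act M C pc d).1, none))
  | some (some (d, some (pc, false))) =>
      if l = none then some (some (d, some (pc, true))) else some (some (d, none))
  | some (some (d, none)) => some (some (d, inh C l r))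

/-- configurations with one head -/
def cfg {K D M : ℕ} (n : ℕ) (G : ℕ → Dig K D) (h : ℕ) (hd : Hd M) : ℕ → St K D M :=
  fun i => if 1 ≤ i ∧ i ≤ n then some (some (G i, if i = h then some hd else none)) else none

/-- global map -/
def stp {K D M : ℕ} (C : ℕ → Ins) (n : ℕ) (c : ℕ → St K D M) : ℕ → St K D M :=
  fun i => if 1 ≤ i ∧ i ≤ n then delta C (c (i - 1)) (c i) (c (i + 1)) else none

theorem cfg_in {K D M : ℕ} (n : ℕ) (G : ℕ → Dig K D) (h : ℕ) (hd : Hd M) (i : ℕ)
    (hi : 1 ≤ i ∧ i ≤ n) : cfg n G h hd i = some (some (G i, if i = h then some hd else none)) := by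
  simp [cfg, hi]

theorem inhR_cfg_true {K D M : ℕ} (n : ℕ) (G : ℕ → Dig K D) (h : ℕ) (pc : Fin (M + 1)) (i : ℕ) :
    inhR (cfg n G h (pc, true) i) = none := by
  unfold cfg
  split_ifs <;> simp [inhR]

theorem stp_stop {K D M : ℕ} (C : ℕ → Ins) (n : ℕ) (G : ℕ → Dig K D) (h : ℕ) (pc q : Fin (M + 1))
    (hh : 1 ≤ h ∧ h ≤ n) (hq : (act M C pc (G h)).2 = some q) :
    stp C n (cfg n G h (pc, true)) =
      cfg n (Function.update G h (act M C pc (G h)).1) h (q, false) := by
  funext i
  by_cases hi : 1 ≤ i ∧ i ≤ n
  · rw [cfg_in _ _ _ _ _ hi]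
    unfold stp
    rw [if_pos hi]
    rw [cfg_in _ _ _ _ _ hi]
    by_cases hih : i = h
    · subst hih
      simp only [if_true, delta, hq, Function.update_self]
    · simp only [hih, if_false, delta]
      rw [Function.update_of_ne hih]
      congr 3
      by_cases h1 : i - 1 = h
      · have h2 : cfg n G h (pc, true) (i - 1) = some (some (G h, some (pc, true))) := by
          rw [cfg_in _ _ _ _ _ (by omega)]; simp [h1]
        rw [h2]
        simp only [inh, hq]
        rw [if_neg (by simp)]
        exact inhR_cfg_true _ _ _ _ _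
      · have h2 : inh C (cfg n G h (pc, true) (i - 1)) (cfg n G h (pc, true) (i + 1)) =
            inhR (cfg n G h (pc, true) (i + 1)) := by
          unfold cfg
          rw [if_neg h1]
          split_ifs <;> simp [inh]
        rw [h2]
        exact inhR_cfg_true _ _ _ _ _
  · simp [stp, cfg, hi]

theorem stp_go {K D M : ℕ} (C : ℕ → Ins) (n : ℕ) (G : ℕ → Dig K D) (h : ℕ) (pc : Fin (M + 1))
    (hh : 1 ≤ h ∧ h < n) (hq : (act M C pc (G h)).2 = none) :
    stp C n (cfg n G h (pc, true)) =
      cfg n (Function.update G h (act M C pc (G h)).1) (h + 1) (pc, true) := by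
  funext i
  by_cases hi : 1 ≤ i ∧ i ≤ n
  · rw [cfg_in _ _ _ _ _ hi]
    unfold stp
    rw [if_pos hi]
    rw [cfg_in _ _ _ _ _ hi]
    by_cases hih : i = h
    · subst hih
      have h3 : cfg n G i (pc, true) (i + 1) ≠ none := by
        rw [cfg_in _ _ _ _ _ (by omega)]; simp
      simp only [if_true, delta, hq, Function.update_self]
      rw [if_neg h3, if_neg (by omega)]
    · simp only [hih, if_false, delta]
      rw [Function.update_of_ne hih]
      congr 3
      by_cases h1 : i - 1 = h
      · have h2 : cfg n G h (pc, true) (i - 1) = some (some (G h, some (pc, true))) := by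
          rw [cfg_in _ _ _ _ _ (by omega)]; simp [h1]
        rw [h2]
        simp only [inh, hq, if_true]
        rw [if_pos (by omega)]
      · have h2 : inh C (cfg n G h (pc, true) (i - 1)) (cfg n G h (pc, true) (i + 1)) =
            inhR (cfg n G h (pc, true) (i + 1)) := by
          unfold cfg
          rw [if_neg h1]
          split_ifs <;> simp [inh]
        rw [h2, if_neg (by omega)]
        exact inhR_cfg_true _ _ _ _ _
  · simp [stp, cfg, hi]

theorem stp_end {K D M : ℕ} (C : ℕ → Ins) (n : ℕ) (G : ℕ → Dig K D) (pc : Fin (M + 1))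
    (hh : 1 ≤ n) (hq : (act M C pc (G n)).2 = none) :
    stp C n (cfg n G n (pc, true)) =
      cfg n (Function.update G n (act M C pc (G n)).1) n (endp M C pc, false) := by
  funext i
  by_cases hi : 1 ≤ i ∧ i ≤ n
  · rw [cfg_in _ _ _ _ _ hi]
    unfold stp
    rw [if_pos hi]
    rw [cfg_in _ _ _ _ _ hi]
    by_cases hih : i = n
    · subst hih
      have h3 : cfg i G i (pc, true) (i + 1) = none := by
        simp [cfg]
      simp only [if_true, delta, hq, Function.update_self]
      rw [if_pos h3]
    · simp only [hih, if_false, delta]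
      rw [Function.update_of_ne hih]
      congr 3
      have h1 : i - 1 ≠ n := by omega
      have h2 : inh C (cfg n G n (pc, true) (i - 1)) (cfg n G n (pc, true) (i + 1)) =
          inhR (cfg n G n (pc, true) (i + 1)) := by
        unfold cfg
        rw [if_neg h1]
        split_ifs <;> simp [inh]
      rw [h2]
      exact inhR_cfg_true _ _ _ _ _
  · simp [stp, cfg, hi]

theorem inh_cfg_false_l {K D M : ℕ} (C : ℕ → Ins) (n : ℕ) (G : ℕ → Dig K D) (h : ℕ)
    (pc : Fin (M + 1)) (i : ℕ) (r : St K D M) :
    inh C (cfg n G h (pc, false) i) r = inhR r := by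
  unfold cfg
  split_ifs <;> simp [inh]

theorem stp_back {K D M : ℕ} (C : ℕ → Ins) (n : ℕ) (G : ℕ → Dig K D) (h : ℕ) (pc : Fin (M + 1))
    (hh : 1 ≤ h ∧ h + 1 ≤ n) :
    stp C n (cfg n G (h + 1) (pc, false)) = cfg n G h (pc, false) := by
  funext i
  by_cases hi : 1 ≤ i ∧ i ≤ n
  · rw [cfg_in _ _ _ _ _ hi]
    unfold stp
    rw [if_pos hi]
    rw [cfg_in _ _ _ _ _ hi]
    by_cases hih : i = h + 1
    · subst hih
      have h3 : cfg n G (h + 1) (pc, false) (h + 1 - 1) ≠ none := by
        rw [cfg_in _ _ _ _ _ (by omega)]; simp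
      simp only [if_true, delta]
      rw [if_neg h3, if_neg (by omega)]
    · simp only [hih, if_false, delta]
      congr 3
      rw [inh_cfg_false_l]
      by_cases h1 : i = h
      · subst h1
        rw [cfg_in _ _ _ _ _ (by omega)]
        simp [inhR]
      · rw [if_neg h1]
        unfold cfg
        split_ifs <;> first | (exfalso; omega) | simp [inhR]
  · simp [stp, cfg, hi]

theorem stp_back1 {K D M : ℕ} (C : ℕ → Ins) (n : ℕ) (G : ℕ → Dig K D) (pc : Fin (M + 1))
    (hh : 1 ≤ n) :
    stp C n (cfg n G 1 (pc, false)) = cfg n G 1 (pc, true) := by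
  funext i
  by_cases hi : 1 ≤ i ∧ i ≤ n
  · rw [cfg_in _ _ _ _ _ hi]
    unfold stp
    rw [if_pos hi]
    rw [cfg_in _ _ _ _ _ hi]
    by_cases hih : i = 1
    · subst hih
      have h3 : cfg n G 1 (pc, false) (1 - 1) = none := by
        simp [cfg]
      simp only [if_true, delta]
      rw [if_pos h3]
    · simp only [hih, if_false, delta]
      congr 3
      rw [inh_cfg_false_l]
      unfold cfg
      split_ifs <;> first | (exfalso; omega) | simp [inhR]
  · simp [stp, cfg, hi]

/-- `c` reaches `c'` -/
def Reach {K D M : ℕ} (C : ℕ → Ins) (n : ℕ) (c c' : ℕ → St K D M) : Prop :=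
  ∃ t, (stp C n)^[t] c = c'

theorem Reach.refl {K D M : ℕ} (C : ℕ → Ins) (n : ℕ) (c : ℕ → St K D M) : Reach C n c c := ⟨0, rfl⟩

theorem Reach.trans {K D M : ℕ} {C : ℕ → Ins} {n : ℕ} {c c' c'' : ℕ → St K D M}
    (h1 : Reach C n c c') (h2 : Reach C n c' c'') : Reach C n c c'' := by
  obtain ⟨t, ht⟩ := h1
  obtain ⟨s, hs⟩ := h2
  refine ⟨s + t, ?_⟩
  rw [Function.iterate_add_apply, ht, hs]

theorem Reach.of {K D M : ℕ} {C : ℕ → Ins} {n : ℕ} {c c' : ℕ → St K D M} (h : stp C n c = c') :
    Reach C n c c' := ⟨1, h⟩

theorem reach_back {K D M : ℕ} (C : ℕ → Ins) (n : ℕ) (G : ℕ → Dig K D) (pc : Fin (M + 1)) :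
    ∀ h, 1 ≤ h → h ≤ n → Reach C n (cfg n G h (pc, false)) (cfg n G 1 (pc, true)) := by
  intro h
  induction h with
  | zero => intro h1; omega
  | succ h ih =>
    intro h1 h2
    by_cases hh : h = 0
    · subst hh
      exact Reach.of (stp_back1 C n G pc (by omega))
    · exact (Reach.of (stp_back C n G h pc (by omega))).trans (ih (by omega) (by omega))

/-- the number stored in register `r` in the `m` cells starting at `h` -/
def val {K D : ℕ} (G : ℕ → Dig K D) (r : ℕ) : ℕ → ℕ → ℕ
  | 0, _ => 0
  | (m + 1), h => getD (G h) r + (D + 2) * val G r m (h + 1)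

theorem val_congr {K D : ℕ} (G G' : ℕ → Dig K D) (r : ℕ) : ∀ (m h : ℕ),
    (∀ i, h ≤ i → getD (G i) r = getD (G' i) r) → val G r m h = val G' r m h := by
  intro m
  induction m with
  | zero => intro h _; rfl
  | succ m ih =>
    intro h hG
    simp only [val]
    rw [hG h le_rfl, ih (h + 1) (fun i hi => hG i (by omega))]

theorem val_lt {K D : ℕ} (G : ℕ → Dig K D) (r : ℕ) : ∀ (m h : ℕ), val G r m h < (D + 2) ^ m := by
  intro m
  induction m with
  | zero => intro h; simp [val]
  | succ m ih =>
    intro h
    simp only [val, pow_succ]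
    have h1 := ih (h + 1)
    have h2 := getD_lt (G h) r
    nlinarith

theorem reach_inc {K D M : ℕ} (C : ℕ → Ins) (n : ℕ) (pc r : ℕ) (hpc : pc ≤ M) (hr : r < K)
    (hC : C pc = .inc r) : ∀ (m h : ℕ) (G : ℕ → Dig K D), h + m = n + 1 → 1 ≤ h →
    val G r m h + 1 < (D + 2) ^ m →
    ∃ G' h', Reach C n (cfg n G h ((nx M pc, true) : Hd M)) (cfg n G' h' (nx M (pc + 1), false)) ∧
      1 ≤ h' ∧ h' ≤ n ∧ val G' r m h = val G r m h + 1 ∧ (∀ i < h, G' i = G i) ∧
      (∀ r' ≠ r, ∀ i, getD (G' i) r' = getD (G i) r') := by
  intro m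
  induction m with
  | zero => intro h G _ _ hv; simp [val] at hv
  | succ m ih =>
    intro h G hm h1 hv
    have hpcv : ((nx M pc : Fin (M + 1)) : ℕ) = pc := nx_val M pc hpc
    by_cases hd : getD (G h) r = D + 1
    · -- carry
      have hact : act M C (nx M pc) (G h) = (setD (G h) r 0, none) := by
        unfold act
        rw [hpcv, hC]
        simp [hd]
      have hm0 : 0 < m := by
        rcases Nat.eq_zero_or_pos m with h0 | h0
        · subst h0
          simp [val, hd] at hv
        · exact h0
      have hs := stp_go C n G h (nx M pc) (by omega) (by rw [hact])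
      rw [hact] at hs
      set G1 := Function.update G h (setD (G h) r 0) with hG1
      have hvG1 : val G1 r m (h + 1) = val G r m (h + 1) :=
        val_congr _ _ _ _ _ (fun i hi => by rw [hG1, Function.update_of_ne (by omega)])
      simp only [val, hd, pow_succ] at hv
      have hv' : val G1 r m (h + 1) + 1 < (D + 2) ^ m := by
        rw [hvG1]
        by_contra hcon
        push Not at hcon
        nlinarith
      obtain ⟨G', h', hR, hh1, hh2, hvv, hlo, hoth⟩ := ih (h + 1) G1 (by omega) (by omega) hv'
      refine ⟨G', h', (Reach.of hs).trans hR, hh1, hh2, ?_, ?_, ?_⟩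
      · simp only [val]
        rw [hvv, hvG1, hlo h (by omega), hd]
        rw [hG1, Function.update_self, getD_set _ _ _ hr (by omega)]
        ring
      · intro i hi
        rw [hlo i (by omega), hG1, Function.update_of_ne (by omega)]
      · intro r' hr' i
        rw [hoth r' hr' i, hG1]
        by_cases hih : i = h
        · subst hih
          rw [Function.update_self, getD_set_ne _ _ _ _ hr']
        · rw [Function.update_of_ne hih]
    · have hlt := getD_lt (G h) r
      have hact : act M C (nx M pc) (G h) =
          (setD (G h) r (getD (G h) r + 1), some (nx M (pc + 1))) := by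
        unfold act
        rw [hpcv, hC]
        simp [hd]
      have hs := stp_stop C n G h (nx M pc) (nx M (pc + 1)) (by omega) (by rw [hact])
      rw [hact] at hs
      refine ⟨_, h, Reach.of hs, h1, by omega, ?_, ?_, ?_⟩
      · simp only [val]
        rw [Function.update_self, getD_set _ _ _ hr (by omega)]
        rw [val_congr (Function.update G h (setD (G h) r (getD (G h) r + 1))) G r m (h + 1)
          (fun i hi => by rw [Function.update_of_ne (by omega)])]
        ring
      · intro i hi
        rw [Function.update_of_ne (by omega)]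
      · intro r' hr' i
        by_cases hih : i = h
        · subst hih
          rw [Function.update_self, getD_set_ne _ _ _ _ hr']
        · rw [Function.update_of_ne hih]

theorem reach_dec {K D M : ℕ} (C : ℕ → Ins) (n : ℕ) (pc r : ℕ) (hpc : pc ≤ M) (hr : r < K)
    (hC : C pc = .dec r) : ∀ (m h : ℕ) (G : ℕ → Dig K D), h + m = n + 1 → 1 ≤ h →
    val G r m h ≠ 0 →
    ∃ G' h', Reach C n (cfg n G h ((nx M pc, true) : Hd M)) (cfg n G' h' (nx M (pc + 1), false)) ∧
      1 ≤ h' ∧ h' ≤ n ∧ val G' r m h = val G r m h - 1 ∧ (∀ i < h, G' i = G i) ∧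
      (∀ r' ≠ r, ∀ i, getD (G' i) r' = getD (G i) r') := by
  intro m
  induction m with
  | zero => intro h G _ _ hv; simp [val] at hv
  | succ m ih =>
    intro h G hm h1 hv
    have hpcv : ((nx M pc : Fin (M + 1)) : ℕ) = pc := nx_val M pc hpc
    by_cases hd : getD (G h) r = 0
    · -- borrow
      have hact : act M C (nx M pc) (G h) = (setD (G h) r (D + 1), none) := by
        unfold act
        rw [hpcv, hC]
        simp [hd]
      have hm0 : 0 < m := by
        rcases Nat.eq_zero_or_pos m with h0 | h0
        · subst h0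
          simp [val, hd] at hv
        · exact h0
      have hs := stp_go C n G h (nx M pc) (by omega) (by rw [hact])
      rw [hact] at hs
      set G1 := Function.update G h (setD (G h) r (D + 1)) with hG1
      have hvG1 : val G1 r m (h + 1) = val G r m (h + 1) :=
        val_congr _ _ _ _ _ (fun i hi => by rw [hG1, Function.update_of_ne (by omega)])
      simp only [val, hd] at hv
      have hv' : val G1 r m (h + 1) ≠ 0 := by
        rw [hvG1]
        intro hcon
        rw [hcon] at hv
        simp at hv
      obtain ⟨G', h', hR, hh1, hh2, hvv, hlo, hoth⟩ := ih (h + 1) G1 (by omega) (by omega) hv'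
      refine ⟨G', h', (Reach.of hs).trans hR, hh1, hh2, ?_, ?_, ?_⟩
      · simp only [val]
        rw [hvv, hvG1, hlo h (by omega), hd]
        rw [hG1, Function.update_self, getD_set _ _ _ hr (by omega)]
        rw [hvG1] at hv'
        obtain ⟨v, hvs⟩ := Nat.exists_eq_succ_of_ne_zero hv'
        rw [hvs]
        simp only [Nat.succ_eq_add_one, Nat.add_sub_cancel, zero_add]
        rw [Nat.mul_add]
        omega
      · intro i hi
        rw [hlo i (by omega), hG1, Function.update_of_ne (by omega)]
      · intro r' hr' i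
        rw [hoth r' hr' i, hG1]
        by_cases hih : i = h
        · subst hih
          rw [Function.update_self, getD_set_ne _ _ _ _ hr']
        · rw [Function.update_of_ne hih]
    · have hlt := getD_lt (G h) r
      have hact : act M C (nx M pc) (G h) =
          (setD (G h) r (getD (G h) r - 1), some (nx M (pc + 1))) := by
        unfold act
        rw [hpcv, hC]
        simp [hd]
      have hs := stp_stop C n G h (nx M pc) (nx M (pc + 1)) (by omega) (by rw [hact])
      rw [hact] at hs
      refine ⟨_, h, Reach.of hs, h1, by omega, ?_, ?_, ?_⟩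
      · simp only [val]
        rw [Function.update_self, getD_set _ _ _ hr (by omega)]
        rw [val_congr (Function.update G h (setD (G h) r (getD (G h) r - 1))) G r m (h + 1)
          (fun i hi => by rw [Function.update_of_ne (by omega)])]
        omega
      · intro i hi
        rw [Function.update_of_ne (by omega)]
      · intro r' hr' i
        by_cases hih : i = h
        · subst hih
          rw [Function.update_self, getD_set_ne _ _ _ _ hr']
        · rw [Function.update_of_ne hih]

theorem reach_jzn {K D M : ℕ} (C : ℕ → Ins) (n : ℕ) (pc r tg : ℕ) (hpc : pc ≤ M)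
    (hC : C pc = .jz r tg) : ∀ (m h : ℕ) (G : ℕ → Dig K D), h + m = n + 1 → 1 ≤ h →
    val G r m h ≠ 0 →
    ∃ h', Reach C n (cfg n G h ((nx M pc, true) : Hd M)) (cfg n G h' (nx M (pc + 1), false)) ∧
      1 ≤ h' ∧ h' ≤ n := by
  intro m
  induction m with
  | zero => intro h G _ _ hv; simp [val] at hv
  | succ m ih =>
    intro h G hm h1 hv
    have hpcv : ((nx M pc : Fin (M + 1)) : ℕ) = pc := nx_val M pc hpc
    by_cases hd : getD (G h) r = 0
    · have hact : act M C (nx M pc) (G h) = (G h, none) := by
        unfold act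
        rw [hpcv, hC]
        simp [hd]
      have hm0 : 0 < m := by
        rcases Nat.eq_zero_or_pos m with h0 | h0
        · subst h0
          simp [val, hd] at hv
        · exact h0
      have hs := stp_go C n G h (nx M pc) (by omega) (by rw [hact])
      rw [hact, Function.update_eq_self] at hs
      simp only [val, hd] at hv
      have hv' : val G r m (h + 1) ≠ 0 := by
        intro hcon
        rw [hcon] at hv
        simp at hv
      obtain ⟨h', hR, hh1, hh2⟩ := ih (h + 1) G (by omega) (by omega) hv'
      exact ⟨h', (Reach.of hs).trans hR, hh1, hh2⟩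
    · have hact : act M C (nx M pc) (G h) = (G h, some (nx M (pc + 1))) := by
        unfold act
        rw [hpcv, hC]
        simp [hd]
      have hs := stp_stop C n G h (nx M pc) (nx M (pc + 1)) (by omega) (by rw [hact])
      rw [hact, Function.update_eq_self] at hs
      exact ⟨h, Reach.of hs, h1, by omega⟩

theorem reach_jzz {K D M : ℕ} (C : ℕ → Ins) (n : ℕ) (pc r tg : ℕ) (hpc : pc ≤ M)
    (hC : C pc = .jz r tg) : ∀ (m h : ℕ) (G : ℕ → Dig K D), h + m = n → 1 ≤ h →
    val G r (m + 1) h = 0 →
    Reach C n (cfg n G h ((nx M pc, true) : Hd M)) (cfg n G n (nx M tg, false)) := by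
  intro m
  induction m with
  | zero =>
    intro h G hm h1 hv
    have hpcv : ((nx M pc : Fin (M + 1)) : ℕ) = pc := nx_val M pc hpc
    have : h = n := by omega
    subst this
    have hd : getD (G h) r = 0 := by simp [val] at hv; exact hv
    have hact : act M C (nx M pc) (G h) = (G h, none) := by
      unfold act
      rw [hpcv, hC]
      simp [hd]
    have hs := stp_end C h G (nx M pc) h1 (by rw [hact])
    rw [hact, Function.update_eq_self] at hs
    have he : endp M C (nx M pc) = nx M tg := by
      unfold endp
      rw [hpcv, hC]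
    rw [he] at hs
    exact Reach.of hs
  | succ m ih =>
    intro h G hm h1 hv
    have hpcv : ((nx M pc : Fin (M + 1)) : ℕ) = pc := nx_val M pc hpc
    have hv2 : getD (G h) r + (D + 2) * val G r (m + 1) (h + 1) = 0 := hv
    have hd : getD (G h) r = 0 := by omega
    have hd' : val G r (m + 1) (h + 1) = 0 := by
      rw [hd, zero_add] at hv2
      rcases Nat.mul_eq_zero.1 hv2 with h3 | h3
      · omega
      · exact h3
    have hact : act M C (nx M pc) (G h) = (G h, none) := by
      unfold act
      rw [hpcv, hC]
      simp [hd]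
    have hs := stp_go C n G h (nx M pc) (by omega) (by rw [hact])
    rw [hact, Function.update_eq_self] at hs
    exact (Reach.of hs).trans (ih (h + 1) G (by omega) (by omega) hd')

/-- the digits represent the registers -/
def Rep {K D : ℕ} (n : ℕ) (G : ℕ → Dig K D) (σ : ℕ → ℕ) : Prop := ∀ r < K, val G r n 1 = σ r

theorem reach_step {K D M N : ℕ} (C : ℕ → Ins) (n : ℕ) (hn : 1 ≤ n) (hN : N < (D + 2) ^ n)
    (hK : ∀ pc ≤ M, (C pc).reg < K) {pc pc' : ℕ} {σ σ' : ℕ → ℕ}
    (h : GStep M N C pc σ pc' σ') (G : ℕ → Dig K D) (hG : Rep n G σ) :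
    ∃ G' : ℕ → Dig K D, Rep n G' σ' ∧
      Reach C n (cfg n G 1 ((nx M pc, true) : Hd M)) (cfg n G' 1 (nx M pc', true)) := by
  cases h with
  | inc hC hM h =>
    rename_i r
    have hr : r < K := by have := hK pc (by omega); rw [hC] at this; exact this
    obtain ⟨G', h', hR, hh1, hh2, hvv, _, hoth⟩ := reach_inc (M := M) C n pc r (by omega) hr hC n 1
      G (by omega) le_rfl (by rw [hG r hr]; omega)
    refine ⟨G', ?_, hR.trans (reach_back C n G' _ h' hh1 hh2)⟩
    intro r' hr'
    by_cases hrr : r' = r
    · subst hrr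
      rw [hvv, hG r' hr', Function.update_self]
    · rw [Function.update_of_ne hrr, ← hG r' hr']
      exact val_congr _ _ _ _ _ (fun i _ => hoth r' hrr i)
  | dec hC hM h =>
    rename_i r
    have hr : r < K := by have := hK pc (by omega); rw [hC] at this; exact this
    obtain ⟨G', h', hR, hh1, hh2, hvv, _, hoth⟩ := reach_dec (M := M) C n pc r (by omega) hr hC n 1
      G (by omega) le_rfl (by rw [hG r hr]; exact h)
    refine ⟨G', ?_, hR.trans (reach_back C n G' _ h' hh1 hh2)⟩
    intro r' hr'
    by_cases hrr : r' = r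
    · subst hrr
      rw [hvv, hG r' hr', Function.update_self]
    · rw [Function.update_of_ne hrr, ← hG r' hr']
      exact val_congr _ _ _ _ _ (fun i _ => hoth r' hrr i)
  | jzz hC hM hM' h =>
    rename_i r
    have hr : r < K := by have := hK pc (by omega); rw [hC] at this; exact this
    have := reach_jzz (M := M) C n pc r pc' (by omega) hC (n - 1) 1 G (by omega) le_rfl (by
      rw [Nat.sub_add_cancel hn, hG r hr]; exact h)
    exact ⟨G, hG, this.trans (reach_back C n G _ n hn le_rfl)⟩
  | jzn hC hM h =>
    rename_i r t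
    have hr : r < K := by have := hK pc (by omega); rw [hC] at this; exact this
    obtain ⟨h', hR, hh1, hh2⟩ := reach_jzn (M := M) C n pc r t (by omega) hC n 1 G (by omega)
      le_rfl (by rw [hG r hr]; exact h)
    exact ⟨G, hG, hR.trans (reach_back C n G _ h' hh1 hh2)⟩
  | jmp hC hM hM' =>
    have hpcv : ((nx M pc : Fin (M + 1)) : ℕ) = pc := nx_val M pc hM
    have hact : act M C (nx M pc) (G 1) = (G 1, some (nx M pc')) := by
      unfold act
      rw [hpcv, hC]
    have hs := stp_stop C n G 1 (nx M pc) (nx M pc') (by omega) (by rw [hact])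
    rw [hact, Function.update_eq_self] at hs
    exact ⟨G, hG, (Reach.of hs).trans (reach_back C n G _ 1 le_rfl hn)⟩

theorem reach_steps {K D M N : ℕ} (C : ℕ → Ins) (n : ℕ) (hn : 1 ≤ n) (hN : N < (D + 2) ^ n)
    (hK : ∀ pc ≤ M, (C pc).reg < K) {pc pc' : ℕ} {σ σ' : ℕ → ℕ}
    (h : GSteps M N C pc σ pc' σ') (G : ℕ → Dig K D) (hG : Rep n G σ) :
    ∃ G' : ℕ → Dig K D, Rep n G' σ' ∧
      Reach C n (cfg n G 1 ((nx M pc, true) : Hd M)) (cfg n G' 1 (nx M pc', true)) := by
  induction h with
  | refl => exact ⟨G, hG, Reach.refl _ _ _⟩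
  | tail _ h ih =>
    obtain ⟨G1, hG1, hR1⟩ := ih hG
    obtain ⟨G2, hG2, hR2⟩ := reach_step C n hn hN hK h G1 hG1
    exact ⟨G2, hG2, hR1.trans hR2⟩

end Pool.Agent.H539R2
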