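import Pool.Agent.H539R2.LSLib

/-!
The Cook-Mertz tree evaluation procedure with fan-in three, as a flat sequence of
primitive operations on catalytic registers.
-/

set_option linter.unusedSimpArgs false
set_option linter.unusedVariables false

namespace Pool.Agent.H539R2

/-- number with given digits -/
def digs (β N : ℕ) (f : ℕ → ℕ) : ℕ := ∑ i ∈ Finset.range N, f i * β ^ i

theorem digs_succ (β N : ℕ) (f : ℕ → ℕ) : digs β (N + 1) f = digs β N f + f N * β ^ N := by
  unfold digs; rw [Finset.sum_range_succ]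

theorem digs_lt (β N : ℕ) (f : ℕ → ℕ) (hf : ∀ i < N, f i < β) : digs β N f < β ^ N := by
  induction N with
  | zero => simp [digs]
  | succ N ih =>
    rw [digs_succ, pow_succ]
    have h1 := ih (fun i hi => hf i (by omega))
    have h2 := hf N (by omega)
    have h3 : f N * β ^ N + β ^ N ≤ β ^ N * β := by
      have : (f N + 1) * β ^ N ≤ β * β ^ N := Nat.mul_le_mul_right _ h2
      nlinarith
    omega

theorem digs_div (β N : ℕ) (hβ : 0 < β) (f : ℕ → ℕ) (hf : ∀ i < N, f i < β) :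
    ∀ i < N, digs β N f / β ^ i % β = f i := by
  induction N with
  | zero => intro i hi; omega
  | succ N ih =>
    intro i hi
    rw [digs_succ]
    have hlt := digs_lt β N f (fun i hi => hf i (by omega))
    by_cases h : i = N
    · subst h
      rw [Nat.add_mul_div_right _ _ (by positivity), Nat.div_eq_of_lt hlt, zero_add]
      exact Nat.mod_eq_of_lt (hf i (by omega))
    · have hi' : i < N := by omega
      have e : β ^ N = β ^ i * (β * β ^ (N - i - 1)) := by
        rw [← pow_succ', ← pow_add]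
        congr 1
        omega
      have : f N * β ^ N = (f N * β ^ (N - i - 1) * β) * β ^ i := by rw [e]; ring
      rw [this, Nat.add_mul_div_right _ _ (by positivity), Nat.add_mul_mod_self_right]
      exact ih (fun i hi => hf i (by omega)) i hi'

theorem dg_digs (β N : ℕ) (hβ : 0 < β) (f : ℕ → ℕ) (hf : ∀ i < N, f i < β) (i : ℕ) (hi : i < N) :
    dg β (digs β N f) i = f i := digs_div β N hβ f hf i hi

theorem digs_dg (β : ℕ) (hβ : 0 < β) : ∀ (N a : ℕ), digs β N (dg β a) = a % β ^ N := by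
  intro N
  induction N with
  | zero => intro a; simp [digs, Nat.mod_one]
  | succ N ih =>
    intro a
    rw [digs_succ, ih, pow_succ]
    unfold dg
    rw [Nat.mod_mul, mul_comm]

theorem dg_ext (β N : ℕ) (hβ : 0 < β) {a b : ℕ} (ha : a < β ^ N) (hb : b < β ^ N)
    (h : ∀ i < N, dg β a i = dg β b i) : a = b := by
  have h1 := digs_dg β hβ N a
  have h2 := digs_dg β hβ N b
  rw [Nat.mod_eq_of_lt ha] at h1
  rw [Nat.mod_eq_of_lt hb] at h2
  rw [← h1, ← h2]
  unfold digs
  apply Finset.sum_congr rfl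
  intro i hi
  rw [h i (Finset.mem_range.1 hi)]

/-- iterate operations `f 0, f 1, ..., f (n-1)` -/
def run {S : Type} (f : ℕ → S → S) : ℕ → S → S
  | 0, ρ => ρ
  | (n + 1), ρ => f n (run f n ρ)

theorem run_add {S : Type} (f : ℕ → S → S) (a b : ℕ) (ρ : S) :
    run f (a + b) ρ = run (fun i => f (a + i)) b (run f a ρ) := by
  induction b with
  | zero => rfl
  | succ b ih => rw [← add_assoc, run, run, ih]

theorem run_mul {S : Type} (f : ℕ → S → S) (n k : ℕ) (ρ : S) :
    run f (n * k) ρ = run (fun d => run (fun r => f (d * k + r)) k) n ρ := by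
  induction n with
  | zero => simp [run]
  | succ n ih => rw [Nat.succ_mul, run_add, ih, run]

theorem run_congr {S : Type} {f h : ℕ → S → S} (n : ℕ) (ρ : S) (hfh : ∀ i < n, f i = h i) :
    run f n ρ = run h n ρ := by
  induction n with
  | zero => rfl
  | succ n ih => rw [run, run, ih (fun i hi => hfh i (by omega)), hfh n (by omega)]

theorem run_first {S : Type} (X : S → S) (n : ℕ) (hn : 0 < n) (ρ : S) :
    run (fun r => if r = 0 then X else id) n ρ = X ρ := by
  induction n with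
  | zero => omega
  | succ n ih =>
    rw [run]
    by_cases h : n = 0
    · subst h; simp [run]
    · rw [ih (by omega)]; simp [h]

section CM

variable {R : Type} [CommRing R]

/-- the key identity -/
theorem sum_scaled (g : R) (m N : ℕ)
    (hsum : ∀ k, 1 ≤ k → k ≤ N → ∑ i ∈ Finset.range m, (g ^ (i + 1)) ^ k = 0)
    (a b : ℕ → R) :
    ∑ i ∈ Finset.range m, ∏ z ∈ Finset.range N, (g ^ (i + 1) * a z + b z) =
      (m : R) * ∏ z ∈ Finset.range N, b z := by
  classical
  have h1 : ∀ i, ∏ z ∈ Finset.range N, (g ^ (i + 1) * a z + b z) =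
      ∑ t ∈ (Finset.range N).powerset, (g ^ (i + 1)) ^ t.card *
        ((∏ z ∈ t, a z) * ∏ z ∈ Finset.range N \ t, b z) := by
    intro i
    rw [Finset.prod_add]
    apply Finset.sum_congr rfl
    intro t _
    rw [Finset.prod_mul_distrib, Finset.prod_const, mul_assoc]
  simp_rw [h1]
  rw [Finset.sum_comm]
  simp_rw [← Finset.sum_mul]
  rw [Finset.sum_eq_single ∅]
  · simp
  · intro t ht hne
    rw [hsum t.card, zero_mul]
    · exact Finset.card_pos.2 (Finset.nonempty_iff_ne_empty.2 hne)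
    · have := Finset.card_le_card (Finset.mem_powerset.1 ht)
      simpa using this
  · intro h
    exact absurd (Finset.empty_mem_powerset _) h

/-- output block of a node -/
def blk (u s : ℕ) : ℕ := (u + 3 * s) % 4

/-- block values: the tree to be evaluated -/
def Z (q B : ℕ) (F : ℕ → ℕ → ℕ → ℕ) (Z0 : ℕ → ℕ) : ℕ → ℕ → ℕ
  | u, 0 => Z0 u
  | u, (s + 1) => F u s (digs q (3 * B) (fun z => dg q (Z q B F Z0 (u + z / B) s) (z % B)))

/-- the window number at a node -/
def Y (q B : ℕ) (F : ℕ → ℕ → ℕ → ℕ) (Z0 : ℕ → ℕ) (u s : ℕ) : ℕ :=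
  digs q (3 * B) (fun z => dg q (Z q B F Z0 (u + z / B) s) (z % B))

/-- one-hot encoding of a number -/
def oneh (R : Type) [CommRing R] (q Zv x σ : ℕ) : R := if dg q Zv x = σ then 1 else 0

/-- the polynomial -/
def P (q B : ℕ) (F : ℕ → ℕ → ℕ → ℕ) (u s : ℕ) (ρ : ℕ → ℕ → ℕ → R) (x σ : ℕ) : R :=
  ∑ y ∈ Finset.range (q ^ (3 * B)), oneh R q (F u s y) x σ *
    ∏ z ∈ Finset.range (3 * B), ρ (blk (u + z / B) s) (z % B) (dg q y z)

/-- leaf operation -/
def leafOp (q : ℕ) (Z0 : ℕ → ℕ) (u : ℕ) (ε : R) (ρ : ℕ → ℕ → ℕ → R) : ℕ → ℕ → ℕ → R :=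
  fun o x σ => if o = blk u 0 then ρ o x σ + ε * oneh R q (Z0 u) x σ else ρ o x σ

/-- scaling operation -/
def scaleOp (g : R) (u s : ℕ) (ρ : ℕ → ℕ → ℕ → R) : ℕ → ℕ → ℕ → R :=
  fun o x σ => if o = blk u s then ρ o x σ else g * ρ o x σ

/-- polynomial operation at the node `(u, s + 1)` -/
def polyOp (q B : ℕ) (F : ℕ → ℕ → ℕ → ℕ) (κ : R) (u s : ℕ) (ε : R) (ρ : ℕ → ℕ → ℕ → R) :
    ℕ → ℕ → ℕ → R :=
  fun o x σ => if o = blk u (s + 1) then ρ o x σ + κ * ε * P q B F u s ρ x σ else ρ o x σ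

/-- the operation with index `τ` in the evaluation of a node of height `s` -/
def opS (q B m : ℕ) (F : ℕ → ℕ → ℕ → ℕ) (Z0 : ℕ → ℕ) (g κ : R) :
    ℕ → ℕ → R → ℕ → (ℕ → ℕ → ℕ → R) → (ℕ → ℕ → ℕ → R)
  | 0, u, ε, _ => leafOp q Z0 u ε
  | (s + 1), u, ε, τ =>
    if (τ / (8 * m) ^ s) % 4 = 0 then
      (if τ % (8 * m) ^ s = 0 then
        (if (τ / (8 * m) ^ s) % 8 = 0 then scaleOp g u (s + 1) else polyOp q B F κ u s ε)
      else id)
    else opS q B m F Z0 g κ s (u + ((τ / (8 * m) ^ s) % 4 - 1))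
      (if (τ / (8 * m) ^ s) / 4 % 2 = 0 then 1 else -1) (τ % (8 * m) ^ s)

/-- the effect of the evaluation of a node -/
def EV (q B : ℕ) (F : ℕ → ℕ → ℕ → ℕ) (Z0 : ℕ → ℕ) (s u : ℕ) (ε : R) (ρ : ℕ → ℕ → ℕ → R) :
    ℕ → ℕ → ℕ → R :=
  fun o x σ => if o = blk u s then ρ o x σ + ε * oneh R q (Z q B F Z0 u s) x σ else ρ o x σ

theorem prod_oneh (q B : ℕ) (hq : 0 < q) (hB : 0 < B) (F : ℕ → ℕ → ℕ → ℕ) (Z0 : ℕ → ℕ)
    (u s y : ℕ) (hy : y < q ^ (3 * B)) :
    ∏ z ∈ Finset.range (3 * B), oneh R q (Z q B F Z0 (u + z / B) s) (z % B) (dg q y z) =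
      if y = Y q B F Z0 u s then 1 else 0 := by
  have hYd : ∀ z < 3 * B, dg q (Y q B F Z0 u s) z = dg q (Z q B F Z0 (u + z / B) s) (z % B) := by
    intro z hz
    unfold Y
    rw [dg_digs q (3 * B) hq _ _ z hz]
    intro i _
    exact dg_lt _ _ _ hq
  have hYlt : Y q B F Z0 u s < q ^ (3 * B) := by
    unfold Y
    exact digs_lt _ _ _ (fun i _ => dg_lt _ _ _ hq)
  by_cases h : y = Y q B F Z0 u s
  · rw [if_pos h]
    apply Finset.prod_eq_one
    intro z hz
    unfold oneh
    rw [if_pos]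
    rw [h, hYd z (Finset.mem_range.1 hz)]
  · rw [if_neg h]
    have : ∃ z < 3 * B, dg q y z ≠ dg q (Y q B F Z0 u s) z := by
      by_contra hcon
      push Not at hcon
      exact h (dg_ext q (3 * B) hq hy hYlt hcon)
    obtain ⟨z, hz, hne⟩ := this
    apply Finset.prod_eq_zero (Finset.mem_range.2 hz)
    unfold oneh
    rw [if_neg]
    rw [← hYd z hz]
    exact fun h' => hne h'.symm

theorem P_sum (q B m : ℕ) (hq : 0 < q) (hB : 0 < B) (F : ℕ → ℕ → ℕ → ℕ) (Z0 : ℕ → ℕ) (g : R)
    (hsum : ∀ k, 1 ≤ k → k ≤ 3 * B → ∑ i ∈ Finset.range m, (g ^ (i + 1)) ^ k = 0)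
    (u s : ℕ) (ρ : ℕ → ℕ → ℕ → R) (x σ : ℕ) :
    ∑ i ∈ Finset.range m, ∑ y ∈ Finset.range (q ^ (3 * B)), oneh R q (F u s y) x σ *
      ∏ z ∈ Finset.range (3 * B), (g ^ (i + 1) * ρ (blk (u + z / B) s) (z % B) (dg q y z) +
        oneh R q (Z q B F Z0 (u + z / B) s) (z % B) (dg q y z)) =
      (m : R) * oneh R q (Z q B F Z0 u (s + 1)) x σ := by
  rw [Finset.sum_comm]
  simp_rw [← Finset.mul_sum]
  have h1 : ∀ y ∈ Finset.range (q ^ (3 * B)), oneh R q (F u s y) x σ *
      ∑ i ∈ Finset.range m, ∏ z ∈ Finset.range (3 * B),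
        (g ^ (i + 1) * ρ (blk (u + z / B) s) (z % B) (dg q y z) +
        oneh R q (Z q B F Z0 (u + z / B) s) (z % B) (dg q y z)) =
      if y = Y q B F Z0 u s then oneh R q (F u s y) x σ * (m : R) else 0 := by
    intro y hy
    rw [sum_scaled g m (3 * B) hsum (fun z => ρ (blk (u + z / B) s) (z % B) (dg q y z))
      (fun z => oneh R q (Z q B F Z0 (u + z / B) s) (z % B) (dg q y z)),
      prod_oneh q B hq hB F Z0 u s y (Finset.mem_range.1 hy)]
    split_ifs <;> simp
  rw [Finset.sum_congr rfl h1]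
  have hYlt : Y q B F Z0 u s < q ^ (3 * B) := by
    unfold Y
    exact digs_lt _ _ _ (fun i _ => dg_lt _ _ _ hq)
  rw [Finset.sum_ite_eq' , if_pos (Finset.mem_range.2 hYlt), mul_comm]
  rfl

/-- one round at a node of height `s + 1` -/
def round (q B : ℕ) (F : ℕ → ℕ → ℕ → ℕ) (Z0 : ℕ → ℕ) (g κ : R) (s u : ℕ) (ε : R)
    (ρ : ℕ → ℕ → ℕ → R) : ℕ → ℕ → ℕ → R :=
  EV q B F Z0 s (u + 2) (-1) (EV q B F Z0 s (u + 1) (-1) (EV q B F Z0 s (u + 0) (-1)
    (polyOp q B F κ u s ε
      (EV q B F Z0 s (u + 2) 1 (EV q B F Z0 s (u + 1) 1 (EV q B F Z0 s (u + 0) 1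
        (scaleOp g u (s + 1) ρ)))))))

theorem blk_ne (u s c : ℕ) (hc : c < 3) : blk (u + c) s ≠ blk u (s + 1) := by
  unfold blk; omega

theorem blk_inj (u s c c' : ℕ) (hc : c < 3) (hc' : c' < 3) (h : blk (u + c) s = blk (u + c') s) :
    c = c' := by
  unfold blk at h; omega

theorem round_eq (q B : ℕ) (F : ℕ → ℕ → ℕ → ℕ) (hB : 0 < B) (Z0 : ℕ → ℕ) (g κ : R) (s u : ℕ) (ε : R)
    (ρ : ℕ → ℕ → ℕ → R) :
    round q B F Z0 g κ s u ε ρ = fun o x σ => if o = blk u (s + 1) then
      ρ o x σ + κ * ε * ∑ y ∈ Finset.range (q ^ (3 * B)), oneh R q (F u s y) x σ *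
      ∏ z ∈ Finset.range (3 * B), (g * ρ (blk (u + z / B) s) (z % B) (dg q y z) +
        oneh R q (Z q B F Z0 (u + z / B) s) (z % B) (dg q y z))
      else g * ρ o x σ := by
  have n0 : blk (u + 0) s ≠ blk u (s + 1) := blk_ne u s 0 (by omega)
  have n1 : blk (u + 1) s ≠ blk u (s + 1) := blk_ne u s 1 (by omega)
  have n2 : blk (u + 2) s ≠ blk u (s + 1) := blk_ne u s 2 (by omega)
  have m01 : blk (u + 0) s ≠ blk (u + 1) s := fun h => by
    have := blk_inj u s 0 1 (by omega) (by omega) h; omega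
  have m02 : blk (u + 0) s ≠ blk (u + 2) s := fun h => by
    have := blk_inj u s 0 2 (by omega) (by omega) h; omega
  have m12 : blk (u + 1) s ≠ blk (u + 2) s := fun h => by
    have := blk_inj u s 1 2 (by omega) (by omega) h; omega
  set ρ' := EV q B F Z0 s (u + 2) 1 (EV q B F Z0 s (u + 1) 1 (EV q B F Z0 s (u + 0) 1
        (scaleOp g u (s + 1) ρ))) with hρ'
  -- values of ρ' on the child blocks
  have hc : ∀ c < 3, ∀ x σ, ρ' (blk (u + c) s) x σ = g * ρ (blk (u + c) s) x σ +
      oneh R q (Z q B F Z0 (u + c) s) x σ := by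
    intro c hc x σ
    have : c = 0 ∨ c = 1 ∨ c = 2 := by omega
    rcases this with rfl | rfl | rfl
    · simp only [hρ', EV, scaleOp, if_neg m02, if_neg m01, if_neg n0, if_true, one_mul]
    · simp only [hρ', EV, scaleOp, if_neg m12, if_neg m01.symm, if_neg n1, if_true, one_mul]
    · simp only [hρ', EV, scaleOp, if_neg m02.symm, if_neg m12.symm, if_neg n2, if_true, one_mul]
  have hP : ∀ x σ, P q B F u s ρ' x σ = ∑ y ∈ Finset.range (q ^ (3 * B)),
      oneh R q (F u s y) x σ *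
      ∏ z ∈ Finset.range (3 * B), (g * ρ (blk (u + z / B) s) (z % B) (dg q y z) +
        oneh R q (Z q B F Z0 (u + z / B) s) (z % B) (dg q y z)) := by
    intro x σ
    unfold P
    apply Finset.sum_congr rfl
    intro y _
    congr 1
    apply Finset.prod_congr rfl
    intro z hz
    rw [Finset.mem_range] at hz
    apply hc
    rw [Nat.div_lt_iff_lt_mul hB]
    exact hz
  funext o x σ
  unfold round
  rw [← hρ']
  by_cases ho : o = blk u (s + 1)
  · subst ho
    simp only [EV, if_neg n0.symm, if_neg n1.symm, if_neg n2.symm, polyOp, if_true, hP]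
    simp only [hρ', EV, scaleOp, if_neg n0.symm, if_neg n1.symm, if_neg n2.symm, if_true]
  · rw [if_neg ho]
    simp only [EV, polyOp, if_neg ho]
    simp only [hρ', EV, scaleOp, if_neg ho]
    by_cases h0 : o = blk (u + 0) s
    · subst h0
      simp only [if_neg m02, if_neg m01, if_true]
      ring
    · by_cases h1 : o = blk (u + 1) s
      · subst h1
        simp only [if_neg m12, if_neg m01.symm, if_true]
        ring
      · by_cases h2 : o = blk (u + 2) s
        · subst h2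
          simp only [if_neg m02.symm, if_neg m12.symm, if_true]
          ring
        · simp only [if_neg h0, if_neg h1, if_neg h2]

theorem run_round (q B m : ℕ) (hq : 0 < q) (hB : 0 < B) (F : ℕ → ℕ → ℕ → ℕ) (Z0 : ℕ → ℕ) (g κ : R)
    (hg : g ^ m = 1) (hκ : κ * m = 1)
    (hsum : ∀ k, 1 ≤ k → k ≤ 3 * B → ∑ i ∈ Finset.range m, (g ^ (i + 1)) ^ k = 0)
    (s u : ℕ) (ε : R) (ρ : ℕ → ℕ → ℕ → R) :
    run (fun _ => round q B F Z0 g κ s u ε) m ρ = EV q B F Z0 (s + 1) u ε ρ := by
  have key : ∀ j, run (fun _ => round q B F Z0 g κ s u ε) j ρ = fun o x σ =>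
      if o = blk u (s + 1) then ρ o x σ + κ * ε * ∑ i ∈ Finset.range j,
        ∑ y ∈ Finset.range (q ^ (3 * B)), oneh R q (F u s y) x σ *
      ∏ z ∈ Finset.range (3 * B), (g ^ (i + 1) * ρ (blk (u + z / B) s) (z % B) (dg q y z) +
        oneh R q (Z q B F Z0 (u + z / B) s) (z % B) (dg q y z))
      else g ^ j * ρ o x σ := by
    intro j
    induction j with
    | zero =>
      funext o x σ
      simp [run]
    | succ j ih =>
      rw [run, ih, round_eq q B F hB]
      funext o x σ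
      by_cases ho : o = blk u (s + 1)
      · simp only [if_pos ho]
        rw [Finset.sum_range_succ, mul_add, ← add_assoc]
        congr 2
        apply Finset.sum_congr rfl
        intro y _
        congr 1
        apply Finset.prod_congr rfl
        intro z hz
        rw [Finset.mem_range] at hz
        have hz3 : z / B < 3 := by
          rw [Nat.div_lt_iff_lt_mul hB]
          exact hz
        rw [if_neg (blk_ne u s _ hz3), ← mul_assoc, ← pow_succ']
      · simp only [if_neg ho]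
        rw [← mul_assoc, ← pow_succ']
  rw [key m]
  funext o x σ
  rw [P_sum q B m hq hB F Z0 g hsum]
  unfold EV
  by_cases ho : o = blk u (s + 1)
  · simp only [if_pos ho]
    congr 1
    calc κ * ε * (↑m * oneh R q (Z q B F Z0 u (s + 1)) x σ)
        = (κ * m) * (ε * oneh R q (Z q B F Z0 u (s + 1)) x σ) := by ring
      _ = _ := by rw [hκ, one_mul]
  · simp only [if_neg ho]
    rw [hg, one_mul]

/-- correctness of the procedure -/
theorem run_opS (q B m : ℕ) (hq : 0 < q) (hB : 0 < B) (hm : 0 < m) (F : ℕ → ℕ → ℕ → ℕ) (Z0 : ℕ → ℕ)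
    (g κ : R) (hg : g ^ m = 1) (hκ : κ * m = 1)
    (hsum : ∀ k, 1 ≤ k → k ≤ 3 * B → ∑ i ∈ Finset.range m, (g ^ (i + 1)) ^ k = 0) :
    ∀ (s u : ℕ) (ε : R) (ρ : ℕ → ℕ → ℕ → R),
      run (opS q B m F Z0 g κ s u ε) ((8 * m) ^ s) ρ = EV q B F Z0 s u ε ρ := by
  intro s
  induction s with
  | zero =>
    intro u ε ρ
    simp only [pow_zero, run, opS]
    rfl
  | succ s ih =>
    intro u ε ρ
    set K := 8 * m with hK
    have hKpos : 0 < K ^ s := by positivity
    rw [pow_succ', hK, run_mul, ← hK]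
    -- the action of the digit d
    have hG : ∀ d ρ, run (fun r => opS q B m F Z0 g κ (s + 1) u ε (d * K ^ s + r)) (K ^ s) ρ =
        if d % 4 = 0 then (if d % 8 = 0 then scaleOp g u (s + 1) ρ else polyOp q B F κ u s ε ρ)
        else EV q B F Z0 s (u + (d % 4 - 1)) (if d / 4 % 2 = 0 then 1 else -1) ρ := by
      intro d ρ
      have e1 : ∀ r < K ^ s, (d * K ^ s + r) / K ^ s = d := by
        intro r hr
        rw [mul_comm, Nat.mul_add_div hKpos, Nat.div_eq_of_lt hr, add_zero]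
      have e2 : ∀ r < K ^ s, (d * K ^ s + r) % K ^ s = r := by
        intro r hr
        rw [mul_comm, Nat.mul_add_mod, Nat.mod_eq_of_lt hr]
      by_cases h4 : d % 4 = 0
      · rw [if_pos h4]
        have : run (fun r => opS q B m F Z0 g κ (s + 1) u ε (d * K ^ s + r)) (K ^ s) ρ =
            run (fun r => if r = 0 then (if d % 8 = 0 then scaleOp g u (s + 1) else
              polyOp q B F κ u s ε) else id) (K ^ s) ρ := by
          apply run_congr
          intro r hr
          rw [opS, ← hK, e1 r hr, e2 r hr, if_pos h4]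
        rw [this, run_first _ _ hKpos]
        split_ifs <;> rfl
      · rw [if_neg h4, ← ih]
        apply run_congr
        intro r hr
        rw [opS, ← hK, e1 r hr, e2 r hr, if_neg h4]
    have hfun : (fun d => run (fun r => opS q B m F Z0 g κ (s + 1) u ε (d * K ^ s + r)) (K ^ s)) =
        (fun d ρ => if d % 4 = 0 then (if d % 8 = 0 then scaleOp g u (s + 1) ρ else
          polyOp q B F κ u s ε ρ)
        else EV q B F Z0 s (u + (d % 4 - 1)) (if d / 4 % 2 = 0 then 1 else -1) ρ) := by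
      funext d ρ
      exact hG d ρ
    rw [hfun, hK, mul_comm 8 m, run_mul]
    have hround : (fun i => run (fun e => (fun (d : ℕ) (ρ : ℕ → ℕ → ℕ → R) =>
        if d % 4 = 0 then (if d % 8 = 0 then scaleOp g u (s + 1) ρ else
          polyOp q B F κ u s ε ρ)
        else EV q B F Z0 s (u + (d % 4 - 1)) (if d / 4 % 2 = 0 then 1 else -1) ρ) (i * 8 + e)) 8) =
        fun _ => round q B F Z0 g κ s u ε := by
      funext i ρ
      have d0 : (i * 8 + 0) % 4 = 0 := by omega
      have d0' : (i * 8 + 0) % 8 = 0 := by omega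
      have d1 : (i * 8 + 1) % 4 = 1 := by omega
      have d1' : (i * 8 + 1) / 4 % 2 = 0 := by omega
      have d2 : (i * 8 + 2) % 4 = 2 := by omega
      have d2' : (i * 8 + 2) / 4 % 2 = 0 := by omega
      have d3 : (i * 8 + 3) % 4 = 3 := by omega
      have d3' : (i * 8 + 3) / 4 % 2 = 0 := by omega
      have d4 : (i * 8 + 4) % 4 = 0 := by omega
      have d4' : (i * 8 + 4) % 8 = 4 := by omega
      have d5 : (i * 8 + 5) % 4 = 1 := by omega
      have d5' : (i * 8 + 5) / 4 % 2 = 1 := by omega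
      have d6 : (i * 8 + 6) % 4 = 2 := by omega
      have d6' : (i * 8 + 6) / 4 % 2 = 1 := by omega
      have d7 : (i * 8 + 7) % 4 = 3 := by omega
      have d7' : (i * 8 + 7) / 4 % 2 = 1 := by omega
      simp only [run, d0, d0', d1, d1', d2, d2', d3, d3', d4, d4', d5, d5', d6, d6', d7, d7',
        if_true, one_ne_zero, if_false, Nat.sub_self, OfNat.ofNat_ne_zero, Nat.add_one_sub_one,
        Nat.reduceSub, Nat.reduceEqDiff]
      rfl
    rw [hround]
    exact run_round q B m hq hB F Z0 g κ hg hκ hsum s u ε ρ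

end CM

end Pool.Agent.H539R2
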