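import Pool.Agent.H539R2.CM

/-!
The Cook-Mertz tree evaluation procedure with arbitrary fan-in `f`, children `u + off c`, and
register blocks given by labels `lab u s`.
-/

set_option linter.unusedSimpArgs false
set_option linter.unusedVariables false

namespace Pool.Agent.H539R2.DD

open Pool.Agent.H539R2

section CM

variable {R : Type} [CommRing R]

/-- block values: the tree to be evaluated -/
def Z (q B f : ℕ) (off : ℕ → ℕ) (F : ℕ → ℕ → ℕ → ℕ) (Z0 : ℕ → ℕ) : ℕ → ℕ → ℕ
  | u, 0 => Z0 u
  | u, (s + 1) => F u s (digs q (f * B) (fun z => dg q (Z q B f off F Z0 (u + off (z / B)) s)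
      (z % B)))

/-- the window number at a node -/
def Y (q B f : ℕ) (off : ℕ → ℕ) (F : ℕ → ℕ → ℕ → ℕ) (Z0 : ℕ → ℕ) (u s : ℕ) : ℕ :=
  digs q (f * B) (fun z => dg q (Z q B f off F Z0 (u + off (z / B)) s) (z % B))

/-- the polynomial -/
def P (q B f : ℕ) (off : ℕ → ℕ) (lab : ℕ → ℕ → ℕ) (F : ℕ → ℕ → ℕ → ℕ) (u s : ℕ)
    (ρ : ℕ → ℕ → ℕ → R) (x σ : ℕ) : R :=
  ∑ y ∈ Finset.range (q ^ (f * B)), oneh R q (F u s y) x σ *
    ∏ z ∈ Finset.range (f * B), ρ (lab (u + off (z / B)) s) (z % B) (dg q y z)

/-- leaf operation -/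
def leafOp (q : ℕ) (lab : ℕ → ℕ → ℕ) (Z0 : ℕ → ℕ) (u : ℕ) (ε : R) (ρ : ℕ → ℕ → ℕ → R) :
    ℕ → ℕ → ℕ → R :=
  fun o x σ => if o = lab u 0 then ρ o x σ + ε * oneh R q (Z0 u) x σ else ρ o x σ

/-- scaling operation -/
def scaleOp (lab : ℕ → ℕ → ℕ) (g : R) (u s : ℕ) (ρ : ℕ → ℕ → ℕ → R) : ℕ → ℕ → ℕ → R :=
  fun o x σ => if o = lab u s then ρ o x σ else g * ρ o x σ

/-- polynomial operation at the node `(u, s + 1)` -/
def polyOp (q B f : ℕ) (off : ℕ → ℕ) (lab : ℕ → ℕ → ℕ) (F : ℕ → ℕ → ℕ → ℕ) (κ : R) (u s : ℕ)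
    (ε : R) (ρ : ℕ → ℕ → ℕ → R) : ℕ → ℕ → ℕ → R :=
  fun o x σ => if o = lab u (s + 1) then ρ o x σ + κ * ε * P q B f off lab F u s ρ x σ
    else ρ o x σ

/-- the operation with index `τ` in the evaluation of a node of height `s` -/
def opS (q B f m : ℕ) (off : ℕ → ℕ) (lab : ℕ → ℕ → ℕ) (F : ℕ → ℕ → ℕ → ℕ) (Z0 : ℕ → ℕ)
    (g κ : R) : ℕ → ℕ → R → ℕ → (ℕ → ℕ → ℕ → R) → (ℕ → ℕ → ℕ → R)
  | 0, u, ε, _ => leafOp q lab Z0 u ε
  | (s + 1), u, ε, τ =>
    if (τ / (2 * (f + 1) * m) ^ s) % (f + 1) = 0 then
      (if τ % (2 * (f + 1) * m) ^ s = 0 then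
        (if (τ / (2 * (f + 1) * m) ^ s) % (2 * (f + 1)) = 0 then scaleOp lab g u (s + 1)
          else polyOp q B f off lab F κ u s ε)
      else id)
    else opS q B f m off lab F Z0 g κ s (u + off ((τ / (2 * (f + 1) * m) ^ s) % (f + 1) - 1))
      (if (τ / (2 * (f + 1) * m) ^ s) / (f + 1) % 2 = 0 then 1 else -1)
      (τ % (2 * (f + 1) * m) ^ s)

/-- the effect of the evaluation of a node -/
def EV (q B f : ℕ) (off : ℕ → ℕ) (lab : ℕ → ℕ → ℕ) (F : ℕ → ℕ → ℕ → ℕ) (Z0 : ℕ → ℕ)
    (s u : ℕ) (ε : R) (ρ : ℕ → ℕ → ℕ → R) : ℕ → ℕ → ℕ → R :=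
  fun o x σ => if o = lab u s then ρ o x σ + ε * oneh R q (Z q B f off F Z0 u s) x σ
    else ρ o x σ

variable (q B f m : ℕ) (off : ℕ → ℕ) (lab : ℕ → ℕ → ℕ) (F : ℕ → ℕ → ℕ → ℕ) (Z0 : ℕ → ℕ)
  (g κ : R)

theorem Y_lt (hq : 0 < q) (u s : ℕ) : Y q B f off F Z0 u s < q ^ (f * B) := by
  unfold Y
  exact digs_lt _ _ _ (fun i _ => dg_lt _ _ _ hq)

theorem prod_oneh (hq : 0 < q) (u s y : ℕ) (hy : y < q ^ (f * B)) :
    ∏ z ∈ Finset.range (f * B), oneh R q (Z q B f off F Z0 (u + off (z / B)) s) (z % B)
      (dg q y z) = if y = Y q B f off F Z0 u s then 1 else 0 := by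
  have hYd : ∀ z < f * B, dg q (Y q B f off F Z0 u s) z =
      dg q (Z q B f off F Z0 (u + off (z / B)) s) (z % B) := by
    intro z hz
    unfold Y
    rw [dg_digs q (f * B) hq _ _ z hz]
    intro i _
    exact dg_lt _ _ _ hq
  by_cases h : y = Y q B f off F Z0 u s
  · rw [if_pos h]
    apply Finset.prod_eq_one
    intro z hz
    unfold oneh
    rw [if_pos]
    rw [h, hYd z (Finset.mem_range.1 hz)]
  · rw [if_neg h]
    have : ∃ z < f * B, dg q y z ≠ dg q (Y q B f off F Z0 u s) z := by
      by_contra hcon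
      push Not at hcon
      exact h (dg_ext q (f * B) hq hy (Y_lt q B f off F Z0 hq u s) hcon)
    obtain ⟨z, hz, hne⟩ := this
    apply Finset.prod_eq_zero (Finset.mem_range.2 hz)
    unfold oneh
    rw [if_neg]
    rw [← hYd z hz]
    exact fun h' => hne h'.symm

theorem P_sum (hq : 0 < q)
    (hsum : ∀ k, 1 ≤ k → k ≤ f * B → ∑ i ∈ Finset.range m, (g ^ (i + 1)) ^ k = 0)
    (u s : ℕ) (ρ : ℕ → ℕ → ℕ → R) (x σ : ℕ) :
    ∑ i ∈ Finset.range m, ∑ y ∈ Finset.range (q ^ (f * B)), oneh R q (F u s y) x σ *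
      ∏ z ∈ Finset.range (f * B),
        (g ^ (i + 1) * ρ (lab (u + off (z / B)) s) (z % B) (dg q y z) +
        oneh R q (Z q B f off F Z0 (u + off (z / B)) s) (z % B) (dg q y z)) =
      (m : R) * oneh R q (Z q B f off F Z0 u (s + 1)) x σ := by
  rw [Finset.sum_comm]
  simp_rw [← Finset.mul_sum]
  have h1 : ∀ y ∈ Finset.range (q ^ (f * B)), oneh R q (F u s y) x σ *
      ∑ i ∈ Finset.range m, ∏ z ∈ Finset.range (f * B),
        (g ^ (i + 1) * ρ (lab (u + off (z / B)) s) (z % B) (dg q y z) +
        oneh R q (Z q B f off F Z0 (u + off (z / B)) s) (z % B) (dg q y z)) =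
      if y = Y q B f off F Z0 u s then oneh R q (F u s y) x σ * (m : R) else 0 := by
    intro y hy
    rw [sum_scaled g m (f * B) hsum
      (fun z => ρ (lab (u + off (z / B)) s) (z % B) (dg q y z))
      (fun z => oneh R q (Z q B f off F Z0 (u + off (z / B)) s) (z % B) (dg q y z)),
      prod_oneh q B f off F Z0 hq u s y (Finset.mem_range.1 hy)]
    split_ifs <;> simp
  rw [Finset.sum_congr rfl h1]
  rw [Finset.sum_ite_eq' , if_pos (Finset.mem_range.2 (Y_lt q B f off F Z0 hq u s)), mul_comm]
  rfl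

/-- the sum added by the evaluation of all children -/
def chS (s u : ℕ) (o x σ : ℕ) : R :=
  ∑ c ∈ Finset.range f, if o = lab (u + off c) s then
    oneh R q (Z q B f off F Z0 (u + off c) s) x σ else 0

theorem run_children (s u : ℕ) (ε : R) (ρ : ℕ → ℕ → ℕ → R) (j : ℕ) :
    run (fun c => EV q B f off lab F Z0 s (u + off c) ε) j ρ = fun o x σ =>
      ρ o x σ + ε * ∑ c ∈ Finset.range j, if o = lab (u + off c) s then
        oneh R q (Z q B f off F Z0 (u + off c) s) x σ else 0 := by
  induction j with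
  | zero =>
    funext o x σ
    simp [run]
  | succ j ih =>
    rw [run, ih]
    funext o x σ
    unfold EV
    rw [Finset.sum_range_succ]
    by_cases h : o = lab (u + off j) s
    · simp only [if_pos h]
      ring
    · simp only [if_neg h]
      ring

/-- one round at a node of height `s + 1` -/
def round (s u : ℕ) (ε : R) (ρ : ℕ → ℕ → ℕ → R) : ℕ → ℕ → ℕ → R :=
  run (fun c => EV q B f off lab F Z0 s (u + off c) (-1)) f (polyOp q B f off lab F κ u s ε
    (run (fun c => EV q B f off lab F Z0 s (u + off c) 1) f (scaleOp lab g u (s + 1) ρ)))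

variable (hne : ∀ u s c, c < f → lab (u + off c) s ≠ lab u (s + 1))
  (hinj : ∀ u s c c', c < f → c' < f → lab (u + off c) s = lab (u + off c') s → c = c')

include hne hinj

theorem round_eq (hB : 0 < B) (s u : ℕ) (ε : R) (ρ : ℕ → ℕ → ℕ → R) :
    round q B f off lab F Z0 g κ s u ε ρ = fun o x σ => if o = lab u (s + 1) then
      ρ o x σ + κ * ε * ∑ y ∈ Finset.range (q ^ (f * B)), oneh R q (F u s y) x σ *
      ∏ z ∈ Finset.range (f * B), (g * ρ (lab (u + off (z / B)) s) (z % B) (dg q y z) +
        oneh R q (Z q B f off F Z0 (u + off (z / B)) s) (z % B) (dg q y z))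
      else g * ρ o x σ := by
  set ρ' := run (fun c => EV q B f off lab F Z0 s (u + off c) 1) f
    (scaleOp lab g u (s + 1) ρ) with hρ'
  have hρ'' : ρ' = fun o x σ => scaleOp lab g u (s + 1) ρ o x σ + 1 *
      ∑ c ∈ Finset.range f, if o = lab (u + off c) s then
        oneh R q (Z q B f off F Z0 (u + off c) s) x σ else 0 := by
    rw [hρ', run_children]
  have hc : ∀ c < f, ∀ x σ, ρ' (lab (u + off c) s) x σ = g * ρ (lab (u + off c) s) x σ +
      oneh R q (Z q B f off F Z0 (u + off c) s) x σ := by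
    intro c hc x σ
    rw [hρ'']
    have h1 : scaleOp lab g u (s + 1) ρ (lab (u + off c) s) x σ =
        g * ρ (lab (u + off c) s) x σ := by
      unfold scaleOp
      rw [if_neg (hne u s c hc)]
    simp only [h1, one_mul]
    congr 1
    rw [Finset.sum_eq_single c]
    · simp
    · intro c' hc' hcc
      rw [if_neg]
      intro h
      exact hcc (hinj u s c c' hc (Finset.mem_range.1 hc') h).symm
    · intro h
      exact absurd (Finset.mem_range.2 hc) h
  have hP : ∀ x σ, P q B f off lab F u s ρ' x σ = ∑ y ∈ Finset.range (q ^ (f * B)),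
      oneh R q (F u s y) x σ *
      ∏ z ∈ Finset.range (f * B), (g * ρ (lab (u + off (z / B)) s) (z % B) (dg q y z) +
        oneh R q (Z q B f off F Z0 (u + off (z / B)) s) (z % B) (dg q y z)) := by
    intro x σ
    unfold P
    apply Finset.sum_congr rfl
    intro y _
    congr 1
    apply Finset.prod_congr rfl
    intro z hz
    rw [Finset.mem_range] at hz
    apply hc
    rw [Nat.div_lt_iff_lt_mul hB]
    exact hz
  funext o x σ
  unfold round
  rw [← hρ', run_children]
  simp only
  have h2 : ρ' o x σ = scaleOp lab g u (s + 1) ρ o x σ + 1 *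
      ∑ c ∈ Finset.range f, if o = lab (u + off c) s then
        oneh R q (Z q B f off F Z0 (u + off c) s) x σ else 0 := by
    rw [hρ'']
  by_cases ho : o = lab u (s + 1)
  · have h3 : ∑ c ∈ Finset.range f, (if o = lab (u + off c) s then
        oneh R q (Z q B f off F Z0 (u + off c) s) x σ else 0) = 0 := by
      apply Finset.sum_eq_zero
      intro c hc
      rw [if_neg]
      rw [ho]
      exact (hne u s c (Finset.mem_range.1 hc)).symm
    rw [h3, if_pos ho]
    unfold polyOp
    rw [if_pos ho, hP, h2, h3]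
    unfold scaleOp
    rw [if_pos ho]
    ring
  · rw [if_neg ho]
    unfold polyOp
    rw [if_neg ho, h2]
    unfold scaleOp
    rw [if_neg ho]
    ring

theorem run_round (hq : 0 < q) (hB : 0 < B) (hg : g ^ m = 1) (hκ : κ * m = 1)
    (hsum : ∀ k, 1 ≤ k → k ≤ f * B → ∑ i ∈ Finset.range m, (g ^ (i + 1)) ^ k = 0)
    (s u : ℕ) (ε : R) (ρ : ℕ → ℕ → ℕ → R) :
    run (fun _ => round q B f off lab F Z0 g κ s u ε) m ρ =
      EV q B f off lab F Z0 (s + 1) u ε ρ := by
  have key : ∀ j, run (fun _ => round q B f off lab F Z0 g κ s u ε) j ρ = fun o x σ =>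
      if o = lab u (s + 1) then ρ o x σ + κ * ε * ∑ i ∈ Finset.range j,
        ∑ y ∈ Finset.range (q ^ (f * B)), oneh R q (F u s y) x σ *
      ∏ z ∈ Finset.range (f * B),
        (g ^ (i + 1) * ρ (lab (u + off (z / B)) s) (z % B) (dg q y z) +
        oneh R q (Z q B f off F Z0 (u + off (z / B)) s) (z % B) (dg q y z))
      else g ^ j * ρ o x σ := by
    intro j
    induction j with
    | zero =>
      funext o x σ
      simp [run]
    | succ j ih =>
      rw [run, ih, round_eq q B f off lab F Z0 g κ hne hinj hB]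
      funext o x σ
      by_cases ho : o = lab u (s + 1)
      · simp only [if_pos ho]
        rw [Finset.sum_range_succ, mul_add, ← add_assoc]
        congr 2
        apply Finset.sum_congr rfl
        intro y _
        congr 1
        apply Finset.prod_congr rfl
        intro z hz
        rw [Finset.mem_range] at hz
        have hz3 : z / B < f := by
          rw [Nat.div_lt_iff_lt_mul hB]
          exact hz
        rw [if_neg (hne u s _ hz3), ← mul_assoc, ← pow_succ']
      · simp only [if_neg ho]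
        rw [← mul_assoc, ← pow_succ']
  rw [key m]
  funext o x σ
  rw [P_sum q B f m off lab F Z0 g hq hsum]
  unfold EV
  by_cases ho : o = lab u (s + 1)
  · simp only [if_pos ho]
    congr 1
    calc κ * ε * (↑m * oneh R q (Z q B f off F Z0 u (s + 1)) x σ)
        = (κ * m) * (ε * oneh R q (Z q B f off F Z0 u (s + 1)) x σ) := by ring
      _ = _ := by rw [hκ, one_mul]
  · simp only [if_neg ho]
    rw [hg, one_mul]

/-- correctness of the procedure -/
theorem run_opS (hq : 0 < q) (hB : 0 < B) (hm : 0 < m) (hg : g ^ m = 1) (hκ : κ * m = 1)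
    (hsum : ∀ k, 1 ≤ k → k ≤ f * B → ∑ i ∈ Finset.range m, (g ^ (i + 1)) ^ k = 0) :
    ∀ (s u : ℕ) (ε : R) (ρ : ℕ → ℕ → ℕ → R),
      run (opS q B f m off lab F Z0 g κ s u ε) ((2 * (f + 1) * m) ^ s) ρ =
        EV q B f off lab F Z0 s u ε ρ := by
  intro s
  induction s with
  | zero =>
    intro u ε ρ
    simp only [pow_zero, run, opS]
    rfl
  | succ s ih =>
    intro u ε ρ
    set K := 2 * (f + 1) * m with hK
    have hKpos : 0 < K ^ s := by positivity
    have hf1 : 0 < f + 1 := Nat.succ_pos f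
    rw [pow_succ', hK, run_mul, ← hK]
    -- the action of the digit d
    set A : ℕ → (ℕ → ℕ → ℕ → R) → (ℕ → ℕ → ℕ → R) := fun d ρ =>
      if d % (f + 1) = 0 then (if d % (2 * (f + 1)) = 0 then scaleOp lab g u (s + 1) ρ else
          polyOp q B f off lab F κ u s ε ρ)
        else EV q B f off lab F Z0 s (u + off (d % (f + 1) - 1))
          (if d / (f + 1) % 2 = 0 then 1 else -1) ρ with hA
    have hG : ∀ d ρ, run (fun r => opS q B f m off lab F Z0 g κ (s + 1) u ε (d * K ^ s + r))
        (K ^ s) ρ = A d ρ := by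
      intro d ρ
      have e1 : ∀ r < K ^ s, (d * K ^ s + r) / K ^ s = d := by
        intro r hr
        rw [mul_comm, Nat.mul_add_div hKpos, Nat.div_eq_of_lt hr, add_zero]
      have e2 : ∀ r < K ^ s, (d * K ^ s + r) % K ^ s = r := by
        intro r hr
        rw [mul_comm, Nat.mul_add_mod, Nat.mod_eq_of_lt hr]
      simp only [hA]
      by_cases h4 : d % (f + 1) = 0
      · rw [if_pos h4]
        have : run (fun r => opS q B f m off lab F Z0 g κ (s + 1) u ε (d * K ^ s + r))
            (K ^ s) ρ =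
            run (fun r => if r = 0 then (if d % (2 * (f + 1)) = 0 then
              scaleOp lab g u (s + 1) else
              polyOp q B f off lab F κ u s ε) else id) (K ^ s) ρ := by
          apply run_congr
          intro r hr
          rw [opS, ← hK, e1 r hr, e2 r hr, if_pos h4]
        rw [this, run_first _ _ hKpos]
        split_ifs <;> rfl
      · rw [if_neg h4, ← ih]
        apply run_congr
        intro r hr
        rw [opS, ← hK, e1 r hr, e2 r hr, if_neg h4]
    have hfun : (fun d => run (fun r => opS q B f m off lab F Z0 g κ (s + 1) u ε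
        (d * K ^ s + r)) (K ^ s)) = A := by
      funext d ρ
      exact hG d ρ
    have hK2 : K = m * (2 * (f + 1)) := by rw [hK]; ring
    rw [hfun, hK2, run_mul]
    have hround : (fun i => run (fun e => A (i * (2 * (f + 1)) + e)) (2 * (f + 1))) =
        fun _ => round q B f off lab F Z0 g κ s u ε := by
      funext i ρ
      have e0 : ∀ e, (i * (2 * (f + 1)) + e) % (f + 1) = e % (f + 1) := by
        intro e
        have : i * (2 * (f + 1)) + e = e + (2 * i) * (f + 1) := by ring
        rw [this, Nat.add_mul_mod_self_right]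
      have e1 : ∀ e, (i * (2 * (f + 1)) + e) % (2 * (f + 1)) = e % (2 * (f + 1)) := by
        intro e
        rw [add_comm, Nat.add_mul_mod_self_right]
      have e2 : ∀ e, (i * (2 * (f + 1)) + e) / (f + 1) % 2 = e / (f + 1) % 2 := by
        intro e
        have : i * (2 * (f + 1)) + e = e + (2 * i) * (f + 1) := by ring
        rw [this, Nat.add_mul_div_right _ _ hf1]
        omega
      -- the action depends only on e
      have hAe : ∀ e, A (i * (2 * (f + 1)) + e) = A e := by
        intro e
        funext ρ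
        simp only [hA]
        rw [e0, e1, e2]
      have h1 : run (fun e => A (i * (2 * (f + 1)) + e)) (2 * (f + 1)) ρ =
          run A ((f + 1) + (f + 1)) ρ := by
        have h0 : (fun e => A (i * (2 * (f + 1)) + e)) = A := funext hAe
        rw [h0, two_mul]
      rw [h1, run_add]
      -- first half
      have hfirst : ∀ ρ, run A (f + 1) ρ = run (fun c => EV q B f off lab F Z0 s (u + off c) 1) f
          (scaleOp lab g u (s + 1) ρ) := by
        intro ρ
        rw [add_comm f 1, run_add]
        have h2 : run A 1 ρ = scaleOp lab g u (s + 1) ρ := by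
          simp only [run, hA]
          simp
        rw [h2]
        apply run_congr
        intro c hc
        funext ρ
        simp only [hA]
        have h3 : (1 + c) % (f + 1) = c + 1 := by
          rw [Nat.mod_eq_of_lt (by omega)]; omega
        have h4 : (1 + c) / (f + 1) = 0 := Nat.div_eq_of_lt (by omega)
        rw [h3, h4]
        simp
      have hsecond : ∀ ρ, run (fun e => A (f + 1 + e)) (f + 1) ρ =
          run (fun c => EV q B f off lab F Z0 s (u + off c) (-1)) f
          (polyOp q B f off lab F κ u s ε ρ) := by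
        intro ρ
        have hr : run (fun e => A (f + 1 + e)) (1 + f) ρ =
          run (fun c => EV q B f off lab F Z0 s (u + off c) (-1)) f
          (polyOp q B f off lab F κ u s ε ρ) := by
          rw [run_add]
          have h2 : run (fun e => A (f + 1 + e)) 1 ρ = polyOp q B f off lab F κ u s ε ρ := by
            simp only [run, hA, add_zero]
            rw [if_pos (Nat.mod_self _), if_neg]
            rw [Nat.mod_eq_of_lt (by omega)]
            omega
          rw [h2]
          apply run_congr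
          intro c hc
          funext ρ
          simp only [hA]
          have h3 : (f + 1 + (1 + c)) % (f + 1) = c + 1 := by
            rw [Nat.add_mod_left, Nat.mod_eq_of_lt (by omega)]; omega
          have h4 : (f + 1 + (1 + c)) / (f + 1) = 1 := by
            rw [Nat.add_div_left _ hf1, Nat.div_eq_of_lt (by omega)]
          rw [h3, h4]
          simp
        rw [add_comm f 1] at *
        exact hr
      rw [hsecond, hfirst]
      rfl
    rw [hround]
    exact run_round q B f m off lab F Z0 g κ hne hinj hq hB hg hκ hsum s u ε ρ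

end CM

end Pool.Agent.H539R2.DD
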