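import Mathlib

/-!
Definitions of the machine models used in the results on `DLINSPACE` versus polynomial time:
deterministic linear bounded automata, and one-dimensional cellular automata with a witness.
-/

namespace Pool.Agent.H539R2

/-- head moves -/
inductive Mv : Type
  | left : Mv
  | stay : Mv
  | right : Mv

/-- A deterministic linear bounded automaton with input alphabet `Bool`: a one-tape Turing machine
with finite state set `Q` and finite tape alphabet `Γ`, whose tape consists of the `n` input cells
between two end markers.  `step s none` is the action in state `s` on an end marker (nothing can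
be written there), `step s (some x)` the action on a cell holding `x`; an action consists of
a new state, a symbol to be written (`none`: leave the cell unchanged) and a head move. -/
structure LBA where
  Q : Type
  finQ : Fintype Q
  Γ : Type
  finΓ : Fintype Γ
  inp : Bool → Γ
  start : Q
  acc : Q → Prop
  step : Q → Option Γ → Q × Option Γ × Mv

namespace LBA

/-- configurations: state, head position in `0, ..., n + 1`, and contents of the cells
`1, ..., n` (positions `0` and `n + 1` are the end markers; `tape` is never read outside
`1, ..., n`) -/
structure Cfg (A : LBA) where
  q : A.Q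
  pos : ℕ
  tape : ℕ → A.Γ

/-- the symbol under the head (`none` on the end markers) -/
def rd (A : LBA) (n : ℕ) (c : A.Cfg) : Option A.Γ :=
  if 1 ≤ c.pos ∧ c.pos ≤ n then some (c.tape c.pos) else none

/-- the new head position; the head never leaves `0, ..., n + 1` -/
def shift (n : ℕ) (m : Mv) (pos : ℕ) : ℕ :=
  match m with
  | .left => pos - 1
  | .stay => pos
  | .right => min (pos + 1) (n + 1)

/-- one step on a tape with `n` cells -/
def next (A : LBA) (n : ℕ) (c : A.Cfg) : A.Cfg where
  q := (A.step c.q (A.rd n c)).1
  pos := shift n (A.step c.q (A.rd n c)).2.2 c.pos
  tape := fun i => if i = c.pos ∧ 1 ≤ i ∧ i ≤ n then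
      ((A.step c.q (A.rd n c)).2.1).getD (c.tape i) else c.tape i

/-- initial configuration on the input `w`: the head is on the left end marker, cell `i` holds
the `i`-th input letter -/
def init (A : LBA) (w : List Bool) : A.Cfg :=
  { q := A.start, pos := 0, tape := fun i => A.inp (w.getD (i - 1) false) }

/-- the automaton accepts the word `w`: it enters an accepting state -/
def Acc (A : LBA) (w : List Bool) : Prop :=
  ∃ t : ℕ, A.acc ((A.next w.length)^[t] (A.init w)).q

end LBA

/-- A one-dimensional (two-way infinite) cellular automaton used as a verifier: finite state set
`Q`, a state `blank` for the cells outside the input, an input map reading the input letter and a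
witness symbol from an alphabet of size `K`, a local rule with radius one, and accepting
states.  For `K = 1` this is an ordinary deterministic cellular automaton. -/
structure VCA (K : ℕ) where
  Q : Type
  finQ : Fintype Q
  blank : Q
  inp : Bool → Fin K → Q
  δ : Q → Q → Q → Q
  acc : Q → Prop

namespace VCA

variable {K : ℕ}

/-- initial configuration on the input `x` with witness `y` (only the first `|x|` symbols of `y`
are used): cell `i` holds the `i`-th letter of `x` and of `y` (`0 ≤ i < |x|`), all other cells are
blank -/
def init (V : VCA K) (x : List Bool) (y : ℕ → Fin K) : ℤ → V.Q :=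
  fun i => if 0 ≤ i ∧ i < x.length then V.inp (x.getD i.toNat false) (y i.toNat) else V.blank

/-- one synchronous step of all cells -/
def step (V : VCA K) (c : ℤ → V.Q) : ℤ → V.Q := fun i => V.δ (c (i - 1)) (c i) (c (i + 1))

/-- configuration at time `t` -/
def run (V : VCA K) (x : List Bool) (y : ℕ → Fin K) (t : ℕ) : ℤ → V.Q :=
  V.step^[t] (V.init x y)

/-- `V` accepts `x` with witness `y` at time `t`: cell `0` is in an accepting state -/
def AccAt (V : VCA K) (x : List Bool) (y : ℕ → Fin K) (t : ℕ) : Prop := V.acc (V.run x y t 0)

/-- `V` accepts `x`: with some witness, cell `0` is at some time in an accepting state -/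
def Acc (V : VCA K) (x : List Bool) : Prop := ∃ (y : ℕ → Fin K) (t : ℕ), V.AccAt x y t

/-- `V` works in time `T`: every accepted word is accepted, with some witness, within
`T |x|` steps -/
def InTime (V : VCA K) (T : ℕ → ℕ) : Prop :=
  ∀ x, V.Acc x → ∃ (y : ℕ → Fin K) (t : ℕ), t ≤ T x.length ∧ V.AccAt x y t

end VCA

end Pool.Agent.H539R2
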