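import Mathlib
import Pool.Agent.H539R2.Defs

/-!
Cellular automata of arbitrary dimension `d`, working on the grid `ℤ^d`.
-/

namespace Pool.Agent.H539R2

/-- A deterministic cellular automaton on the grid `ℤ^d` as an acceptor of words over `{0,1}`:
finite state set `Q`, a state `blank` for the cells outside the input, an input map, a local rule
`δ` reading the `3^d` cells of the box of radius one around a cell (the cell itself corresponds to
`e = (1, ..., 1)`), and accepting states. -/
structure DCA (d : ℕ) where
  Q : Type
  finQ : Fintype Q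
  blank : Q
  inp : Bool → Q
  δ : ((Fin d → Fin 3) → Q) → Q
  acc : Q → Prop

/-- the neighbour of the cell `v` in direction `e` (a vector with entries `0, 1, 2` standing for
`-1, 0, 1`) -/
def nbr {d : ℕ} (v : Fin d → ℤ) (e : Fin d → Fin 3) : Fin d → ℤ :=
  fun j => v j + ((e j : ℕ) : ℤ) - 1

namespace DCA

variable {d : ℕ} [NeZero d]

/-- initial configuration on the input `x`: the cell `(i, 0, ..., 0)` holds the `i`-th letter of
`x` (`0 ≤ i < |x|`), all other cells are blank -/
def init (M : DCA d) (x : List Bool) : (Fin d → ℤ) → M.Q := fun v =>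
  if (∀ j, j ≠ 0 → v j = 0) ∧ 0 ≤ v 0 ∧ v 0 < x.length then M.inp (x.getD (v 0).toNat false)
  else M.blank

/-- one synchronous step of all cells -/
def step (M : DCA d) (c : (Fin d → ℤ) → M.Q) : (Fin d → ℤ) → M.Q :=
  fun v => M.δ (fun e => c (nbr v e))

/-- configuration at time `t` -/
def run (M : DCA d) (x : List Bool) (t : ℕ) : (Fin d → ℤ) → M.Q := M.step^[t] (M.init x)

/-- `M` accepts `x` at time `t`: the cell `(0, ..., 0)` is in an accepting state -/
def AccAt (M : DCA d) (x : List Bool) (t : ℕ) : Prop := M.acc (M.run x t (fun _ => 0))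

/-- `M` accepts `x`: the cell `(0, ..., 0)` is at some time in an accepting state -/
def Acc (M : DCA d) (x : List Bool) : Prop := ∃ t : ℕ, M.AccAt x t

/-- `M` works in time `T`: every accepted word is accepted within `T |x|` steps -/
def InTime (M : DCA d) (T : ℕ → ℕ) : Prop :=
  ∀ x, M.Acc x → ∃ t : ℕ, t ≤ T x.length ∧ M.AccAt x t

end DCA

/-- A `d`-dimensional cellular automaton used as a verifier: as `DCA`, but the input cells also
hold a witness symbol from an alphabet of size `K`. -/
structure VDCA (d K : ℕ) where
  Q : Type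
  finQ : Fintype Q
  blank : Q
  inp : Bool → Fin K → Q
  δ : ((Fin d → Fin 3) → Q) → Q
  acc : Q → Prop

namespace VDCA

variable {d K : ℕ} [NeZero d]

/-- initial configuration on the input `x` with witness `y` (only the first `|x|` symbols of `y`
are used): the cell `(i, 0, ..., 0)` holds the `i`-th letter of `x` and of `y` (`0 ≤ i < |x|`),
all other cells are blank -/
def init (V : VDCA d K) (x : List Bool) (y : ℕ → Fin K) : (Fin d → ℤ) → V.Q := fun v =>
  if (∀ j, j ≠ 0 → v j = 0) ∧ 0 ≤ v 0 ∧ v 0 < x.length then
    V.inp (x.getD (v 0).toNat false) (y (v 0).toNat)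
  else V.blank

/-- one synchronous step of all cells -/
def step (V : VDCA d K) (c : (Fin d → ℤ) → V.Q) : (Fin d → ℤ) → V.Q :=
  fun v => V.δ (fun e => c (nbr v e))

/-- configuration at time `t` -/
def run (V : VDCA d K) (x : List Bool) (y : ℕ → Fin K) (t : ℕ) : (Fin d → ℤ) → V.Q :=
  V.step^[t] (V.init x y)

/-- `V` accepts `x` with witness `y` at time `t`: the cell `(0, ..., 0)` is in an accepting
state -/
def AccAt (V : VDCA d K) (x : List Bool) (y : ℕ → Fin K) (t : ℕ) : Prop :=
  V.acc (V.run x y t (fun _ => 0))

end VDCA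

end Pool.Agent.H539R2
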