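import Mathlib
import Pool.Agent.H539R2.DefsD

/-!
Cellular automata reading, besides the input word, `k` further words of the same length, and
prefixes of quantifiers over such words.
-/

namespace Pool.Agent.H539R2

/-- A deterministic cellular automaton on the grid `ℤ^d` reading an input word over `{0,1}`
together with `k` words over an alphabet of size `K` (every input cell holds one letter of each
word): finite state set `Q`, a state `blank` for the cells outside the input, an input map, a
local rule `δ` reading the `3^d` cells of the box of radius one around a cell, and accepting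
states. -/
structure QCA (d k K : ℕ) where
  Q : Type
  finQ : Fintype Q
  blank : Q
  inp : Bool → (Fin k → Fin K) → Q
  δ : ((Fin d → Fin 3) → Q) → Q
  acc : Q → Prop

namespace QCA

variable {d k K : ℕ} [NeZero d]

/-- initial configuration on the input `x` and the words `y 0, ..., y (k-1)` of length `|x|`: the
cell `(i, 0, ..., 0)` holds the `i`-th letters of `x` and of the words `y j` (`0 ≤ i < |x|`), all
other cells are blank -/
def init (V : QCA d k K) (x : List Bool) (y : Fin k → Fin x.length → Fin K) :
    (Fin d → ℤ) → V.Q := fun v =>
  if h : (∀ j, j ≠ 0 → v j = 0) ∧ 0 ≤ v 0 ∧ v 0 < x.length then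
    V.inp (x.get ⟨(v 0).toNat, by omega⟩) (fun j => y j ⟨(v 0).toNat, by omega⟩)
  else V.blank

/-- one synchronous step of all cells -/
def step (V : QCA d k K) (c : (Fin d → ℤ) → V.Q) : (Fin d → ℤ) → V.Q :=
  fun v => V.δ (fun e => c (nbr v e))

/-- configuration at time `t` -/
def run (V : QCA d k K) (x : List Bool) (y : Fin k → Fin x.length → Fin K) (t : ℕ) :
    (Fin d → ℤ) → V.Q :=
  V.step^[t] (V.init x y)

/-- `V` accepts `(x, y)` at time `t`: the cell `(0, ..., 0)` is in an accepting state -/
def AccAt (V : QCA d k K) (x : List Bool) (y : Fin k → Fin x.length → Fin K) (t : ℕ) : Prop :=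
  V.acc (V.run x y t (fun _ => 0))

/-- `V` accepts `(x, y)`: the cell `(0, ..., 0)` is at some time in an accepting state -/
def Acc (V : QCA d k K) (x : List Bool) (y : Fin k → Fin x.length → Fin K) : Prop :=
  ∃ t : ℕ, V.AccAt x y t

/-- `V` works in time `T`: whenever `V` accepts `(x, y)`, it does so within `T |x|` steps -/
def InTime (V : QCA d k K) (T : ℕ → ℕ) : Prop :=
  ∀ x y, V.Acc x y → ∃ t : ℕ, t ≤ T x.length ∧ V.AccAt x y t

end QCA

/-- `Alt n K k b P` is the statement `Q₁ y₁ Q₂ y₂ ... Q_k y_k P (y₁, ..., y_k)`, where the `y_i`
range over all words of length `n` over an alphabet with `K` letters and the quantifiers alternate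
between `∃` and `∀`, the first one being `∃` if `b = true` and `∀` if `b = false`. -/
def Alt (n K : ℕ) : (k : ℕ) → Bool → ((Fin k → Fin n → Fin K) → Prop) → Prop
  | 0, _, P => P (fun j => j.elim0)
  | k + 1, true, P => ∃ y : Fin n → Fin K, Alt n K k false (fun ys => P (Fin.cons y ys))
  | k + 1, false, P => ∀ y : Fin n → Fin K, Alt n K k true (fun ys => P (Fin.cons y ys))

/-- `Maj n K k P` is the statement `M y₁ M y₂ ... M y_k P (y₁, ..., y_k)`, where the `y_i` range
over all words of length `n` over an alphabet with `K` letters and `M` is the majority quantifier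
for more than half of all words. -/
def Maj (n K : ℕ) : (k : ℕ) → ((Fin k → Fin n → Fin K) → Prop) → Prop
  | 0, P => P (fun j => j.elim0)
  | k + 1, P => K ^ n <
      2 * Nat.card {y : Fin n → Fin K // Maj n K k (fun ys => P (Fin.cons y ys))}

end Pool.Agent.H539R2
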