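import Mathlib
import Pool.Agent.H539R2.Defs

/-!
Turing machines with a prescribed number of tape cells, and the tower function.
-/

namespace Pool.Agent.H539R2

/-- A deterministic one-tape Turing machine with a blank symbol: states, tape alphabet and
transitions as for an `LBA` (finite state set, finite tape alphabet; on a cell the machine may write
a symbol, then it changes its state and moves the head). -/
structure STM extends LBA where
  blank : Γ

namespace STM

/-- initial configuration on the input `w`: the head is on the left end marker (position `0`), the
cells `1, ..., |w|` hold the letters of `w`, all further cells are blank -/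
def init (A : STM) (w : List Bool) : A.Cfg :=
  { q := A.start, pos := 0,
    tape := fun i => if i ≤ w.length then A.inp (w.getD (i - 1) false) else A.blank }

/-- the machine accepts the word `w` on a tape with `S |w|` cells (between two end markers, at the
positions `0` and `S |w| + 1`): it enters an accepting state -/
def Acc (A : STM) (S : ℕ → ℕ) (w : List Bool) : Prop :=
  ∃ t : ℕ, A.acc ((A.next (S w.length))^[t] (A.init w)).q

end STM

/-- the tower function: `tower 0 y = y`, `tower (i + 1) y = 2 ^ tower i y` -/
def tower : ℕ → ℕ → ℕ
  | 0, y => y
  | i + 1, y => 2 ^ tower i y

end Pool.Agent.H539R2
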