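import Mathlib
import Pool.Agent.H539R2.DefsD

/-!
Cellular automata verifying witnesses that may be longer than the input.
-/

namespace Pool.Agent.H539R2

/-- A deterministic cellular automaton on the grid `ℤ^d` used as a verifier for witnesses over an
alphabet of size `K`: finite state set `Q`, a state `blank`, an input map reading an input letter
(`none` beyond the end of the input) and a witness letter, a local rule `δ` reading the `3^d` cells
of the box of radius one around a cell, and accepting states. -/
structure WCA (d K : ℕ) where
  Q : Type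
  finQ : Fintype Q
  blank : Q
  inp : Option Bool → Fin K → Q
  δ : ((Fin d → Fin 3) → Q) → Q
  acc : Q → Prop

namespace WCA

variable {d K : ℕ} [NeZero d]

/-- initial configuration on the input `x` with a witness of length `m` (the first `m` symbols of
`y`): the cell `(i, 0, ..., 0)`, `0 ≤ i < m`, holds the `i`-th letter of `x` (`none` if there is
none) and of `y`; all other cells are blank -/
def init (V : WCA d K) (m : ℕ) (x : List Bool) (y : ℕ → Fin K) : (Fin d → ℤ) → V.Q := fun v =>
  if (∀ j, j ≠ 0 → v j = 0) ∧ 0 ≤ v 0 ∧ v 0 < m then V.inp (x[(v 0).toNat]?) (y (v 0).toNat)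
  else V.blank

/-- one synchronous step of all cells -/
def step (V : WCA d K) (c : (Fin d → ℤ) → V.Q) : (Fin d → ℤ) → V.Q :=
  fun v => V.δ (fun e => c (nbr v e))

/-- configuration at time `t` -/
def run (V : WCA d K) (m : ℕ) (x : List Bool) (y : ℕ → Fin K) (t : ℕ) : (Fin d → ℤ) → V.Q :=
  V.step^[t] (V.init m x y)

/-- `V` accepts `x` with witness `y` of length `m` at time `t`: the cell `(0, ..., 0)` is in an
accepting state -/
def AccAt (V : WCA d K) (m : ℕ) (x : List Bool) (y : ℕ → Fin K) (t : ℕ) : Prop :=
  V.acc (V.run m x y t (fun _ => 0))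

/-- `V` accepts `x`, for witnesses of length `S |x|`: with some witness the cell `(0, ..., 0)` is
at some time in an accepting state -/
def Acc (V : WCA d K) (S : ℕ → ℕ) (x : List Bool) : Prop :=
  ∃ (y : ℕ → Fin K) (t : ℕ), V.AccAt (S x.length) x y t

/-- `V` works in time `T`, for witnesses of length `S |x|`: every accepted word is accepted, with
some witness, within `T |x|` steps -/
def InTime (V : WCA d K) (S T : ℕ → ℕ) : Prop :=
  ∀ x, V.Acc S x → ∃ (y : ℕ → Fin K) (t : ℕ), t ≤ T x.length ∧ V.AccAt (S x.length) x y t

end WCA

end Pool.Agent.H539R2
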