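import Pool.Agent.H539R2.Prg

/-!
Closure properties of the class `LS`.
-/

set_option linter.unusedSimpArgs false

namespace Pool.Agent.H539R2

theorem LS.congr {f g : (ℕ → ℕ) → ℕ} (hf : LS f) (h : ∀ ρ, f ρ = g ρ) : LS g := by
  have : f = g := funext h
  rw [← this]; exact hf

theorem LS.comp1 {F : ℕ → ℕ} (hF : LS (fun ρ => F (ρ 0))) {g : (ℕ → ℕ) → ℕ} (hg : LS g) :
    LS (fun ρ => F (g ρ)) := LS.lett hg hF

theorem LS.comp2 {F : ℕ → ℕ → ℕ} (hF : LS (fun ρ => F (ρ 0) (ρ 1))) {g h : (ℕ → ℕ) → ℕ}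
    (hg : LS g) (hh : LS h) : LS (fun ρ => F (g ρ) (h ρ)) :=
  LS.lett (f := fun ρ' => F (g (tl ρ')) (ρ' 0)) hh (LS.lett hg.wk hF)

theorem LS.comp3 {F : ℕ → ℕ → ℕ → ℕ} (hF : LS (fun ρ => F (ρ 0) (ρ 1) (ρ 2)))
    {g h k : (ℕ → ℕ) → ℕ}
    (hg : LS g) (hh : LS h) (hk : LS k) : LS (fun ρ => F (g ρ) (h ρ) (k ρ)) :=
  LS.lett (f := fun ρ' => F (g (tl ρ')) (h (tl ρ')) (ρ' 0)) hk
    (LS.lett (f := fun ρ' => F (g (tl (tl ρ'))) (ρ' 0) (ρ' 1)) hh.wk
      (LS.lett hg.wk.wk hF))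

/-- recursion on naturals -/
def nrec (a : ℕ) (f : ℕ → ℕ → ℕ) : ℕ → ℕ
  | 0 => a
  | (m + 1) => f m (nrec a f m)

@[simp] theorem nrec_zero (a : ℕ) (f : ℕ → ℕ → ℕ) : nrec a f 0 = a := rfl
@[simp] theorem nrec_succ (a : ℕ) (f : ℕ → ℕ → ℕ) (m : ℕ) :
    nrec a f (m + 1) = f m (nrec a f m) := rfl

theorem It_eq_nrec (a : (ℕ → ℕ) → ℕ) (b : ℕ → ℕ → (ℕ → ℕ) → ℕ) (ρ : ℕ → ℕ) (m : ℕ) :
    It a (fun ρ' => b (ρ' 1) (ρ' 0) (tl (tl ρ'))) ρ m = nrec (a ρ) (fun i acc => b i acc ρ) m := by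
  induction m with
  | zero => rfl
  | succ m ih =>
    rw [It_succ, nrec_succ, ← ih]
    rfl

/-- raw recursion with a polynomial bound -/
theorem LS.nrecX {c a : (ℕ → ℕ) → ℕ} {b : ℕ → ℕ → (ℕ → ℕ) → ℕ} (hc : LS c) (ha : LS a)
    (hb : LS (fun ρ => b (ρ 1) (ρ 0) (tl (tl ρ))))
    (hbd : ∃ d : ℕ, ∀ X : ℕ, 2 ≤ X → ∀ ρ : ℕ → ℕ, (∀ i, ρ i ≤ X) → ∀ m ≤ c ρ,
      nrec (a ρ) (fun i acc => b i acc ρ) m ≤ X ^ d) :
    LS (fun ρ => nrec (a ρ) (fun i acc => b i acc ρ) (c ρ)) := by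
  have := LS.iter hc ha hb (by
    obtain ⟨d, hd⟩ := hbd
    refine ⟨d, ?_⟩
    intro X hX ρ hρ m hm
    rw [It_eq_nrec]
    exact hd X hX ρ hρ m hm)
  exact this.congr (fun ρ => It_eq_nrec a b ρ (c ρ))

/-- recursion bounded by an `LS` function -/
theorem LS.nrecB {c a : (ℕ → ℕ) → ℕ} {b : ℕ → ℕ → (ℕ → ℕ) → ℕ} {g : (ℕ → ℕ) → ℕ}
    (hc : LS c) (ha : LS a)
    (hb : LS (fun ρ => b (ρ 1) (ρ 0) (tl (tl ρ)))) (hg : LS g)
    (hle : ∀ ρ, ∀ m ≤ c ρ, nrec (a ρ) (fun i acc => b i acc ρ) m ≤ g ρ) :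
    LS (fun ρ => nrec (a ρ) (fun i acc => b i acc ρ) (c ρ)) := by
  apply LS.nrecX hc ha hb
  obtain ⟨d, hd⟩ := hg.bound
  exact ⟨d, fun X hX ρ hρ m hm => (hle ρ m hm).trans (hd X hX ρ hρ)⟩

theorem LS.pred : LS (fun ρ => ρ 0 - 1) := by
  have := LS.nrecB (c := fun ρ => ρ 0) (a := fun _ => 0) (b := fun i _ _ => i) (g := fun ρ => ρ 0)
    (LS.var 0) LS.zero (LS.var 1) (LS.var 0) (by
      intro ρ m hm
      cases m with
      | zero => simp
      | succ m => simp only [nrec_succ]; omega)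
  apply this.congr
  intro ρ
  cases h : ρ 0 with
  | zero => simp
  | succ m => simp

theorem nrec_add (x y : ℕ) : nrec x (fun _ acc => acc + 1) y = x + y := by
  induction y with
  | zero => simp
  | succ y ih => simp [ih]; omega

theorem LS.add0 : LS (fun ρ => ρ 0 + ρ 1) := by
  have := LS.nrecX (c := fun ρ => ρ 1) (a := fun ρ => ρ 0) (b := fun _ acc _ => acc + 1)
    (LS.var 1) (LS.var 0) (LS.var 0).succ (by
      refine ⟨2, ?_⟩
      intro X hX ρ hρ m hm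
      rw [nrec_add]
      have h0 := hρ 0
      have h1 := hρ 1
      nlinarith)
  exact this.congr (fun ρ => nrec_add _ _)

theorem LS.add {f g : (ℕ → ℕ) → ℕ} (hf : LS f) (hg : LS g) : LS (fun ρ => f ρ + g ρ) :=
  LS.comp2 (F := fun x y => x + y) LS.add0 hf hg

theorem nrec_mul (x y : ℕ) : nrec 0 (fun _ acc => acc + x) y = x * y := by
  induction y with
  | zero => simp
  | succ y ih => simp [ih]; ring

theorem LS.mul0 : LS (fun ρ => ρ 0 * ρ 1) := by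
  have := LS.nrecX (c := fun ρ => ρ 1) (a := fun _ => 0) (b := fun _ acc ρ => acc + ρ 0)
    (LS.var 1) LS.zero ((LS.var 0).add (LS.var 2)) (by
      refine ⟨2, ?_⟩
      intro X hX ρ hρ m hm
      rw [nrec_mul]
      have h0 := hρ 0
      have h1 := hρ 1
      rw [pow_two]
      exact Nat.mul_le_mul h0 (hm.trans h1))
  exact this.congr (fun ρ => nrec_mul _ _)

theorem LS.mul {f g : (ℕ → ℕ) → ℕ} (hf : LS f) (hg : LS g) : LS (fun ρ => f ρ * g ρ) :=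
  LS.comp2 (F := fun x y => x * y) LS.mul0 hf hg

theorem nrec_sub (x y : ℕ) : nrec x (fun _ acc => acc - 1) y = x - y := by
  induction y with
  | zero => simp
  | succ y ih => simp [ih]; omega

theorem LS.sub0 : LS (fun ρ => ρ 0 - ρ 1) := by
  have := LS.nrecB (c := fun ρ => ρ 1) (a := fun ρ => ρ 0) (b := fun _ acc _ => acc - 1)
    (g := fun ρ => ρ 0)
    (LS.var 1) (LS.var 0) (LS.comp1 (F := fun x => x - 1) LS.pred (LS.var 0)) (LS.var 0) (by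
      intro ρ m hm
      rw [nrec_sub]; omega)
  exact this.congr (fun ρ => nrec_sub _ _)

theorem LS.sub {f g : (ℕ → ℕ) → ℕ} (hf : LS f) (hg : LS g) : LS (fun ρ => f ρ - g ρ) :=
  LS.comp2 (F := fun x y => x - y) LS.sub0 hf hg

theorem LS.min {f g : (ℕ → ℕ) → ℕ} (hf : LS f) (hg : LS g) : LS (fun ρ => min (f ρ) (g ρ)) := by
  apply (hf.sub (hf.sub hg)).congr
  intro ρ
  omega

theorem LS.max {f g : (ℕ → ℕ) → ℕ} (hf : LS f) (hg : LS g) : LS (fun ρ => max (f ρ) (g ρ)) := by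
  apply (hf.add (hg.sub hf)).congr
  intro ρ
  omega

/-- decidable predicates in `LS` -/
def LSP (P : (ℕ → ℕ) → Prop) : Prop := ∃ f, LS f ∧ ∀ ρ, (f ρ ≠ 0 ↔ P ρ)

theorem nrec_const (b c : ℕ) (m : ℕ) : nrec b (fun _ _ => c) m = if m = 0 then b else c := by
  cases m with
  | zero => simp
  | succ m => simp

theorem LS.ite0 {a b c : (ℕ → ℕ) → ℕ} (ha : LS a) (hb : LS b) (hc : LS c) :
    LS (fun ρ => if a ρ = 0 then b ρ else c ρ) := by
  have := LS.nrecB (c := a) (a := b) (b := fun _ _ ρ => c ρ) (g := fun ρ => b ρ + c ρ)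
    ha hb hc.wk.wk (hb.add hc) (by
      intro ρ m hm
      rw [nrec_const]
      split_ifs <;> omega)
  exact this.congr (fun ρ => nrec_const _ _ _)

theorem LS.ite {P : (ℕ → ℕ) → Prop} [DecidablePred P] (hP : LSP P) {b c : (ℕ → ℕ) → ℕ}
    (hb : LS b) (hc : LS c) : LS (fun ρ => if P ρ then b ρ else c ρ) := by
  obtain ⟨f, hf, hfP⟩ := hP
  apply (LS.ite0 hf hc hb).congr
  intro ρ
  by_cases h : P ρ
  · have := (hfP ρ).2 h
    simp [h, this]
  · have : f ρ = 0 := by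
      by_contra h'
      exact h ((hfP ρ).1 h')
    simp [h, this]

theorem LSP.not {P : (ℕ → ℕ) → Prop} (hP : LSP P) : LSP (fun ρ => ¬ P ρ) := by
  obtain ⟨f, hf, hfP⟩ := hP
  refine ⟨fun ρ => 1 - f ρ, (LS.const 1).sub hf, ?_⟩
  intro ρ
  show 1 - f ρ ≠ 0 ↔ ¬ P ρ
  rw [← hfP ρ]
  omega

theorem LSP.and {P Q : (ℕ → ℕ) → Prop} (hP : LSP P) (hQ : LSP Q) : LSP (fun ρ => P ρ ∧ Q ρ) := by
  obtain ⟨f, hf, hfP⟩ := hP
  obtain ⟨g, hg, hgQ⟩ := hQ
  refine ⟨fun ρ => f ρ * g ρ, hf.mul hg, ?_⟩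
  intro ρ
  show f ρ * g ρ ≠ 0 ↔ P ρ ∧ Q ρ
  rw [← hfP ρ, ← hgQ ρ]
  exact Nat.mul_ne_zero_iff

theorem LSP.or {P Q : (ℕ → ℕ) → Prop} (hP : LSP P) (hQ : LSP Q) : LSP (fun ρ => P ρ ∨ Q ρ) := by
  obtain ⟨f, hf, hfP⟩ := hP
  obtain ⟨g, hg, hgQ⟩ := hQ
  refine ⟨fun ρ => f ρ + g ρ, hf.add hg, ?_⟩
  intro ρ
  show f ρ + g ρ ≠ 0 ↔ P ρ ∨ Q ρ
  rw [← hfP ρ, ← hgQ ρ]
  omega

theorem LSP.le {f g : (ℕ → ℕ) → ℕ} (hf : LS f) (hg : LS g) : LSP (fun ρ => f ρ ≤ g ρ) := by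
  refine ⟨fun ρ => g ρ + 1 - f ρ, (hg.succ).sub hf, ?_⟩
  intro ρ
  show g ρ + 1 - f ρ ≠ 0 ↔ f ρ ≤ g ρ
  omega

theorem LSP.lt {f g : (ℕ → ℕ) → ℕ} (hf : LS f) (hg : LS g) : LSP (fun ρ => f ρ < g ρ) := by
  refine ⟨fun ρ => g ρ - f ρ, hg.sub hf, ?_⟩
  intro ρ
  show g ρ - f ρ ≠ 0 ↔ f ρ < g ρ
  omega

theorem LSP.eq {f g : (ℕ → ℕ) → ℕ} (hf : LS f) (hg : LS g) : LSP (fun ρ => f ρ = g ρ) := by
  refine ⟨fun ρ => 1 - ((f ρ - g ρ) + (g ρ - f ρ)),
    (LS.const 1).sub ((hf.sub hg).add (hg.sub hf)), ?_⟩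
  intro ρ
  show 1 - ((f ρ - g ρ) + (g ρ - f ρ)) ≠ 0 ↔ f ρ = g ρ
  omega

theorem LSP.congr {P Q : (ℕ → ℕ) → Prop} (hP : LSP P) (h : ∀ ρ, P ρ ↔ Q ρ) : LSP Q := by
  obtain ⟨f, hf, hfP⟩ := hP
  exact ⟨f, hf, fun ρ => (hfP ρ).trans (h ρ)⟩

/-- greatest `a ≤ m` with `P`-monotone test; used for division and square root -/
theorem nrec_div (x y : ℕ) (hy : 0 < y) : ∀ m, nrec 0 (fun _ acc => if (acc + 1) * y ≤ x then
    acc + 1 else acc) m = min m (x / y) := by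
  intro m
  induction m with
  | zero => simp
  | succ m ih =>
    rw [nrec_succ, ih]
    have key : ∀ a, (a + 1) * y ≤ x ↔ a + 1 ≤ x / y := by
      intro a
      rw [Nat.le_div_iff_mul_le hy]
    split_ifs with h
    · rw [key] at h; omega
    · rw [key] at h; omega

theorem LS.div0 : LS (fun ρ => ρ 0 / ρ 1) := by
  have := LS.nrecB (c := fun ρ => ρ 0) (a := fun _ => 0)
    (b := fun _ acc ρ => if (acc + 1) * ρ 1 ≤ ρ 0 then acc + 1 else acc)
    (g := fun ρ => ρ 0)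
    (LS.var 0) LS.zero
    (LS.ite (LSP.le ((LS.var 0).succ.mul (LS.var 3)) (LS.var 2)) (LS.var 0).succ (LS.var 0))
    (LS.var 0) (by
      intro ρ m hm
      have : ∀ m, nrec 0 (fun _ acc => if (acc + 1) * ρ 1 ≤ ρ 0 then acc + 1 else acc) m ≤ m := by
        intro m
        induction m with
        | zero => simp
        | succ m ih =>
          rw [nrec_succ]
          split_ifs <;> omega
      exact (this m).trans hm)
  have h2 := LS.ite (LSP.eq (LS.var 1) LS.zero) LS.zero this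
  apply h2.congr
  intro ρ
  by_cases h : ρ 1 = 0
  · simp [h]
  · simp only [h, if_false]
    rw [nrec_div _ _ (Nat.pos_of_ne_zero h)]
    exact min_eq_right (Nat.div_le_self _ _)

theorem LS.div {f g : (ℕ → ℕ) → ℕ} (hf : LS f) (hg : LS g) : LS (fun ρ => f ρ / g ρ) :=
  LS.comp2 (F := fun x y => x / y) LS.div0 hf hg

theorem LS.mod {f g : (ℕ → ℕ) → ℕ} (hf : LS f) (hg : LS g) : LS (fun ρ => f ρ % g ρ) := by
  apply (hf.sub (hg.mul (hf.div hg))).congr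
  intro ρ
  have := Nat.div_add_mod (f ρ) (g ρ)
  omega

theorem nrec_sqrt (x : ℕ) : ∀ m, nrec 0 (fun _ acc => if (acc + 1) * (acc + 1) ≤ x then
    acc + 1 else acc) m = min m (Nat.sqrt x) := by
  intro m
  induction m with
  | zero => simp
  | succ m ih =>
    rw [nrec_succ, ih]
    have key : ∀ a, (a + 1) * (a + 1) ≤ x ↔ a + 1 ≤ Nat.sqrt x := by
      intro a
      rw [Nat.le_sqrt]
    split_ifs with h
    · rw [key] at h; omega
    · rw [key] at h; omega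

theorem LS.sqrt {f : (ℕ → ℕ) → ℕ} (hf : LS f) : LS (fun ρ => Nat.sqrt (f ρ)) := by
  refine LS.comp1 (F := fun x => Nat.sqrt x) ?_ hf
  have := LS.nrecB (c := fun ρ => ρ 0) (a := fun _ => 0)
    (b := fun _ acc ρ => if (acc + 1) * (acc + 1) ≤ ρ 0 then acc + 1 else acc)
    (g := fun ρ => ρ 0)
    (LS.var 0) LS.zero
    (LS.ite (LSP.le ((LS.var 0).succ.mul (LS.var 0).succ) (LS.var 2)) (LS.var 0).succ (LS.var 0))
    (LS.var 0) (by
      intro ρ m hm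
      rw [nrec_sqrt]
      exact (min_le_left _ _).trans hm)
  apply this.congr
  intro ρ
  rw [nrec_sqrt]
  exact min_eq_right (Nat.sqrt_le_self _)

theorem LS.unpair1 {f : (ℕ → ℕ) → ℕ} (hf : LS f) : LS (fun ρ => (Nat.unpair (f ρ)).1) := by
  have hs := hf.sqrt
  have := LS.ite (LSP.lt (hf.sub (hs.mul hs)) hs) (hf.sub (hs.mul hs)) hs
  apply this.congr
  intro ρ
  simp only [Nat.unpair]
  split_ifs <;> rfl

theorem LS.unpair2 {f : (ℕ → ℕ) → ℕ} (hf : LS f) : LS (fun ρ => (Nat.unpair (f ρ)).2) := by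
  have hs := hf.sqrt
  have := LS.ite (LSP.lt (hf.sub (hs.mul hs)) hs) hs ((hf.sub (hs.mul hs)).sub hs)
  apply this.congr
  intro ρ
  simp only [Nat.unpair]
  split_ifs <;> rfl

/-- truncated power -/
def powT (X b i : ℕ) : ℕ := nrec 1 (fun _ acc => min (acc * b) X) i

theorem powT_le (X b i : ℕ) : powT X b i ≤ X + 1 := by
  unfold powT
  cases i with
  | zero => simp
  | succ i =>
    rw [nrec_succ]
    exact (min_le_right _ _).trans (Nat.le_succ _)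

theorem powT_eq (X b i : ℕ) (hb : 0 < b) (h : b ^ i ≤ X) : powT X b i = b ^ i := by
  unfold powT
  induction i with
  | zero => simp
  | succ i ih =>
    have h1 : b ^ i ≤ X := (Nat.pow_le_pow_right hb (Nat.le_succ i)).trans h
    rw [nrec_succ, ih h1, ← pow_succ]
    exact min_eq_left h

theorem LS.powT {X b i : (ℕ → ℕ) → ℕ} (hX : LS X) (hb : LS b) (hi : LS i) :
    LS (fun ρ => powT (X ρ) (b ρ) (i ρ)) := by
  refine LS.nrecB (c := i) (a := fun _ => 1) (b := fun _ acc ρ => Nat.min (acc * b ρ) (X ρ))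
    (g := fun ρ => X ρ + 1) hi (LS.const 1) ?_ hX.succ ?_
  · exact LS.min ((LS.var 0).mul hb.wk.wk) hX.wk.wk
  · intro ρ m hm
    exact powT_le _ _ _

/-- digits -/
def dg (b R i : ℕ) : ℕ := R / b ^ i % b

theorem nrec_shift (b R i : ℕ) : nrec R (fun _ acc => acc / b) i = R / b ^ i := by
  induction i with
  | zero => simp
  | succ i ih => rw [nrec_succ, ih, Nat.div_div_eq_div_mul, pow_succ]

theorem LS.shift {b R i : (ℕ → ℕ) → ℕ} (hb : LS b) (hR : LS R) (hi : LS i) :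
    LS (fun ρ => R ρ / b ρ ^ i ρ) := by
  have := LS.nrecB (c := i) (a := R) (b := fun _ acc ρ => acc / b ρ)
    (g := R) hi hR ((LS.var 0).div hb.wk.wk) hR (by
      intro ρ m hm
      rw [nrec_shift]
      exact Nat.div_le_self _ _)
  exact this.congr (fun ρ => nrec_shift _ _ _)

theorem LS.dg {b R i : (ℕ → ℕ) → ℕ} (hb : LS b) (hR : LS R) (hi : LS i) :
    LS (fun ρ => dg (b ρ) (R ρ) (i ρ)) := (LS.shift hb hR hi).mod hb

theorem dg_le (b R i : ℕ) : dg b R i ≤ R :=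
  (Nat.mod_le _ _).trans (Nat.div_le_self _ _)

theorem dg_lt (b R i : ℕ) (hb : 0 < b) : dg b R i < b := Nat.mod_lt _ hb

theorem nrec_sum (F : ℕ → ℕ) (m : ℕ) : nrec 0 (fun i acc => acc + F i) m =
    ∑ i ∈ Finset.range m, F i := by
  induction m with
  | zero => simp
  | succ m ih => rw [nrec_succ, ih, Finset.sum_range_succ]

theorem LS.sum {m : (ℕ → ℕ) → ℕ} {F : ℕ → (ℕ → ℕ) → ℕ} (hm : LS m)
    (hF : LS (fun ρ => F (ρ 0) (tl ρ))) : LS (fun ρ => ∑ i ∈ Finset.range (m ρ), F i ρ) := by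
  have := LS.nrecX (c := m) (a := fun _ => 0) (b := fun i acc ρ => acc + F i ρ) hm LS.zero
    ((LS.var 0).add hF.wk) (by
      obtain ⟨d, hd⟩ := hm.bound
      obtain ⟨e, he⟩ := hF.bound
      refine ⟨d + (d + 1) * e, ?_⟩
      intro X hX ρ hρ k hk
      rw [nrec_sum]
      have h1 : ∀ i ∈ Finset.range k, F i ρ ≤ (X ^ (d + 1)) ^ e := by
        intro i hi
        rw [Finset.mem_range] at hi
        have hX1 : X ≤ X ^ (d + 1) := by
          calc X = X ^ 1 := (pow_one X).symm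
            _ ≤ X ^ (d + 1) := Nat.pow_le_pow_right (by omega) (by omega)
        have := he (X ^ (d + 1)) (hX.trans hX1) (cons i ρ) (by
          intro j
          cases j with
          | zero =>
            rw [cons_zero]
            have : i ≤ X ^ d := by
              have := hd X hX ρ hρ
              omega
            exact this.trans (Nat.pow_le_pow_right (by omega) (by omega))
          | succ j => exact (hρ j).trans hX1)
        exact this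
      calc ∑ i ∈ Finset.range k, F i ρ ≤ ∑ i ∈ Finset.range k, (X ^ (d + 1)) ^ e :=
            Finset.sum_le_sum h1
        _ = k * (X ^ (d + 1)) ^ e := by simp
        _ ≤ X ^ d * (X ^ (d + 1)) ^ e := Nat.mul_le_mul_right _ (hk.trans (hd X hX ρ hρ))
        _ = X ^ (d + (d + 1) * e) := by rw [← pow_mul, ← pow_add])
  exact this.congr (fun ρ => nrec_sum _ _)

/-- truncated modular product -/
def pmod (p : ℕ) (F : ℕ → ℕ) (m : ℕ) : ℕ := nrec 1 (fun i acc => min (acc * F i % p) p) m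

theorem pmod_le (p : ℕ) (F : ℕ → ℕ) (m : ℕ) : pmod p F m ≤ p + 1 := by
  unfold pmod
  cases m with
  | zero => simp
  | succ m =>
    rw [nrec_succ]
    exact (min_le_right _ _).trans (Nat.le_succ _)

theorem LS.pmod {p m : (ℕ → ℕ) → ℕ} {F : ℕ → (ℕ → ℕ) → ℕ} (hp : LS p) (hm : LS m)
    (hF : LS (fun ρ => F (ρ 0) (tl ρ))) : LS (fun ρ => pmod (p ρ) (fun i => F i ρ) (m ρ)) := by
  refine LS.nrecB (c := m) (a := fun _ => 1)
    (b := fun i acc ρ => Nat.min (acc * F i ρ % p ρ) (p ρ))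
    (g := fun ρ => p ρ + 1) hm (LS.const 1) ?_ hp.succ ?_
  · exact LS.min (((LS.var 0).mul hF.wk).mod hp.wk.wk) hp.wk.wk
  · intro ρ k hk
    exact pmod_le _ _ _

theorem pmod_cast (p : ℕ) (hp : 0 < p) (F : ℕ → ℕ) (m : ℕ) :
    ((pmod p F m : ℕ) : ZMod p) = ∏ i ∈ Finset.range m, ((F i : ℕ) : ZMod p) := by
  unfold pmod
  induction m with
  | zero => simp
  | succ m ih =>
    rw [nrec_succ, Finset.prod_range_succ, ← ih,
      min_eq_left (Nat.mod_lt _ hp).le, ZMod.natCast_mod, Nat.cast_mul]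

end Pool.Agent.H539R2
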