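import Pool.Agent.H539R2.CA
import Pool.Agent.H539R2.LSLib

/-!
Every `LS` function gives a unary language accepted by a bounded cellular automaton.
-/

set_option linter.unusedSimpArgs false
set_option linter.unusedVariables false

namespace Pool.Agent.H539R2

/-- repeated decrement -/
def decs (r : ℕ) : ℕ → Prg
  | 0 => .skip
  | (k + 1) => .seq (.dec r) (decs r k)

theorem run_decs (N r : ℕ) : ∀ (k : ℕ) (σ : ℕ → ℕ), k ≤ σ r →
    Run N (decs r k) σ (Function.update σ r (σ r - k)) := by
  intro k
  induction k with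
  | zero =>
    intro σ h
    simp only [decs, Nat.sub_zero, Function.update_eq_self]
    exact Run.skip σ
  | succ k ih =>
    intro σ h
    have h1 := Run.dec (N := N) r σ (by omega)
    have h2 := ih (Function.update σ r (σ r - 1)) (by rw [Function.update_self]; omega)
    rw [Function.update_idem, Function.update_self] at h2
    have : σ r - 1 - k = σ r - (k + 1) := by omega
    rw [this] at h2
    exact Run.seq h1 h2

/-- repunits -/
def repU (β : ℕ) : ℕ → ℕ
  | 0 => 0
  | (m + 1) => 1 + β * repU β m

theorem repU_lt (β : ℕ) (hβ : 2 ≤ β) (m : ℕ) : repU β m < β ^ m := by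
  induction m with
  | zero => simp [repU]
  | succ m ih =>
    simp only [repU, pow_succ]
    nlinarith

/-- division loop -/
def divl (β : ℕ) : Prg := .wh 0 (.seq (decs 0 β) (.inc 3))

theorem run_divl (N β : ℕ) (hβ : 1 ≤ β) : ∀ (k : ℕ) (σ : ℕ → ℕ), σ 0 = β * k → σ 3 + k ≤ N →
    Run N (divl β) σ (Function.update (Function.update σ 0 0) 3 (σ 3 + k)) := by
  intro k
  induction k with
  | zero =>
    intro σ h0 h3
    have : Function.update (Function.update σ 0 0) 3 (σ 3 + 0) = σ := by
      funext x
      by_cases hx : x = 3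
      · subst hx; simp
      · by_cases hy : x = 0
        · subst hy; simp [h0]
        · simp [Function.update_apply, hx, hy]
    rw [this]
    exact Run.whz (by simpa using h0)
  | succ k ih =>
    intro σ h0 h3
    have e0 : β * (k + 1) = β * k + β := by ring
    have h1 := run_decs N 0 β σ (by omega)
    have h2 := Run.inc (N := N) 3 (Function.update σ 0 (σ 0 - β)) (by
      rw [Function.update_of_ne (by omega)]; omega)
    rw [Function.update_of_ne (by omega)] at h2
    have h4 := ih (Function.update (Function.update σ 0 (σ 0 - β)) 3 (σ 3 + 1)) (by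
      rw [Function.update_of_ne (by omega), Function.update_self]; omega) (by
      rw [Function.update_self]; omega)
    have : Function.update (Function.update (Function.update (Function.update σ 0 (σ 0 - β)) 3
        (σ 3 + 1)) 0 0) 3 (Function.update (Function.update σ 0 (σ 0 - β)) 3 (σ 3 + 1) 3 + k) =
        Function.update (Function.update σ 0 0) 3 (σ 3 + (k + 1)) := by
      funext x
      by_cases hx : x = 3
      · subst hx; simp; omega
      · by_cases hy : x = 0
        · subst hy; simp [Function.update_apply]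
        · simp [Function.update_apply, hx, hy]
    rw [this] at h4
    exact Run.whs (by omega) (Run.seq h1 h2) h4

/-- first phase: compute the length from the repunit -/
def phase1 (β : ℕ) : Prg := .wh 0 (.seq (.dec 0) (.seq (divl β) (.seq (mv 3 0) (.inc 1))))

theorem run_phase1 (N β : ℕ) (hβ : 1 ≤ β) : ∀ (m : ℕ) (σ : ℕ → ℕ), σ 0 = repU β m → σ 3 = 0 →
    σ 1 + m ≤ N → repU β m ≤ N →
    Run N (phase1 β) σ (Function.update (Function.update σ 0 0) 1 (σ 1 + m)) := by
  intro m
  induction m with
  | zero =>
    intro σ h0 h3 h1 hN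
    have : Function.update (Function.update σ 0 0) 1 (σ 1 + 0) = σ := by
      funext x
      by_cases hx : x = 1
      · subst hx; simp
      · by_cases hy : x = 0
        · subst hy; simp [h0, repU]
        · simp [Function.update_apply, hx, hy]
    rw [this]
    exact Run.whz (by simpa [repU] using h0)
  | succ m ih =>
    intro σ h0 h3 h1 hN
    simp only [repU] at h0 hN
    have hle : repU β m ≤ β * repU β m := Nat.le_mul_of_pos_left _ (by omega)
    have e1 := Run.dec (N := N) 0 σ (by omega)
    set σ1 := Function.update σ 0 (σ 0 - 1) with hσ1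
    have e2 := run_divl N β hβ (repU β m) σ1 (by rw [hσ1, Function.update_self]; omega) (by
      rw [hσ1, Function.update_of_ne (by omega), h3]; omega)
    set σ2 := Function.update (Function.update σ1 0 0) 3 (σ1 3 + repU β m) with hσ2
    have hσ23 : σ2 3 = repU β m := by
      rw [hσ2, Function.update_self, hσ1, Function.update_of_ne (by omega), h3]; omega
    have hσ20 : σ2 0 = 0 := by
      rw [hσ2, Function.update_of_ne (by omega), Function.update_self]
    have e3 := run_mv N 3 0 (by omega) (repU β m) σ2 hσ23 (by rw [hσ20]; omega)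
    rw [hσ20, zero_add] at e3
    set σ3 := Function.update (Function.update σ2 3 0) 0 (repU β m) with hσ3
    have hσ31 : σ3 1 = σ 1 := by
      simp [hσ3, hσ2, hσ1, Function.update_apply]
    have e4 := Run.inc (N := N) 1 σ3 (by rw [hσ31]; omega)
    rw [hσ31] at e4
    have e5 := ih (Function.update σ3 1 (σ 1 + 1)) (by simp [hσ3, Function.update_apply])
      (by simp [hσ3, Function.update_apply]) (by simp; omega) (by omega)
    have : Function.update (Function.update (Function.update σ3 1 (σ 1 + 1)) 0 0) 1
        (Function.update σ3 1 (σ 1 + 1) 1 + m) =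
        Function.update (Function.update σ 0 0) 1 (σ 1 + (m + 1)) := by
      funext x
      by_cases hx : x = 1
      · subst hx; simp; omega
      · by_cases hy : x = 0
        · subst hy; simp [Function.update_apply]
        · by_cases hz : x = 3
          · subst hz; simp [hσ3, Function.update_apply, h3]
          · simp [hσ3, hσ2, hσ1, Function.update_apply, hx, hy, hz]
    rw [this] at e5
    exact Run.whs (by omega) (Run.seq e1 (Run.seq e2 (Run.seq e3 e4))) e5

/-- doubling loop -/
def dbl : Prg := .wh 2 (.seq (.dec 2) (.seq (.inc 4) (.inc 4)))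

theorem run_dbl (N : ℕ) : ∀ (k : ℕ) (σ : ℕ → ℕ), σ 2 = k → σ 4 + 2 * k ≤ N →
    Run N dbl σ (Function.update (Function.update σ 2 0) 4 (σ 4 + 2 * k)) := by
  intro k
  induction k with
  | zero =>
    intro σ h0 h3
    have : Function.update (Function.update σ 2 0) 4 (σ 4 + 2 * 0) = σ := by
      funext x
      by_cases hx : x = 4
      · subst hx; simp
      · by_cases hy : x = 2
        · subst hy; simp [h0]
        · simp [Function.update_apply, hx, hy]
    rw [this]
    exact Run.whz h0
  | succ k ih =>
    intro σ h0 h3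
    have h1 := Run.dec (N := N) 2 σ (by omega)
    set σ1 := Function.update σ 2 (σ 2 - 1) with hσ1
    have hσ14 : σ1 4 = σ 4 := by rw [hσ1, Function.update_of_ne (by omega)]
    have h2 := Run.inc (N := N) 4 σ1 (by omega)
    have h2' := Run.inc (N := N) 4 (Function.update σ1 4 (σ1 4 + 1)) (by
      rw [Function.update_self]; omega)
    rw [Function.update_idem, Function.update_self] at h2'
    have h4 := ih (Function.update σ1 4 (σ1 4 + 1 + 1)) (by
      rw [Function.update_of_ne (by omega), hσ1, Function.update_self]; omega) (by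
      rw [Function.update_self]; omega)
    have : Function.update (Function.update (Function.update σ1 4 (σ1 4 + 1 + 1)) 2 0) 4
        (Function.update σ1 4 (σ1 4 + 1 + 1) 4 + 2 * k) =
        Function.update (Function.update σ 2 0) 4 (σ 4 + 2 * (k + 1)) := by
      funext x
      by_cases hx : x = 4
      · subst hx; simp [hσ14]; omega
      · by_cases hy : x = 2
        · subst hy; simp [Function.update_apply]
        · simp [hσ1, Function.update_apply, hx, hy]
    rw [this] at h4
    exact Run.whs (by omega) (Run.seq h1 (Run.seq h2 h2')) h4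

/-- power loop -/
def powl : Prg := .wh 3 (.seq (.dec 3) (.seq dbl (mv 4 2)))

theorem run_powl (N : ℕ) : ∀ (m : ℕ) (σ : ℕ → ℕ), σ 3 = m → σ 4 = 0 → σ 2 * 2 ^ m ≤ N →
    Run N powl σ (Function.update (Function.update σ 3 0) 2 (σ 2 * 2 ^ m)) := by
  intro m
  induction m with
  | zero =>
    intro σ h0 h4 hN
    have : Function.update (Function.update σ 3 0) 2 (σ 2 * 2 ^ 0) = σ := by
      funext x
      by_cases hx : x = 2
      · subst hx; simp
      · by_cases hy : x = 3
        · subst hy; simp [h0]
        · simp [Function.update_apply, hx, hy]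
    rw [this]
    exact Run.whz h0
  | succ m ih =>
    intro σ h0 h4 hN
    have hp : 1 ≤ 2 ^ m := Nat.one_le_two_pow
    rw [pow_succ] at hN
    have hN2 : 2 * σ 2 ≤ N := by nlinarith
    have e1 := Run.dec (N := N) 3 σ (by omega)
    set σ1 := Function.update σ 3 (σ 3 - 1) with hσ1
    have hσ12 : σ1 2 = σ 2 := by rw [hσ1, Function.update_of_ne (by omega)]
    have hσ14 : σ1 4 = 0 := by rw [hσ1, Function.update_of_ne (by omega), h4]
    have e2 := run_dbl N (σ 2) σ1 hσ12 (by omega)
    rw [hσ14, zero_add] at e2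
    set σ2 := Function.update (Function.update σ1 2 0) 4 (2 * σ 2) with hσ2
    have hσ22 : σ2 2 = 0 := by simp [hσ2, Function.update_apply]
    have e3 := run_mv N 4 2 (by omega) (2 * σ 2) σ2 (by simp [hσ2]) (by omega)
    rw [hσ22, zero_add] at e3
    set σ3 := Function.update (Function.update σ2 4 0) 2 (2 * σ 2) with hσ3
    have e5 := ih σ3 (by simp [hσ3, hσ2, hσ1, Function.update_apply]; omega)
      (by simp [hσ3, Function.update_apply]) (by simp [hσ3]; nlinarith)
    have : Function.update (Function.update σ3 3 0) 2 (σ3 2 * 2 ^ m) =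
        Function.update (Function.update σ 3 0) 2 (σ 2 * 2 ^ (m + 1)) := by
      funext x
      by_cases hx : x = 2
      · subst hx; simp [hσ3]; ring
      · by_cases hy : x = 3
        · subst hy; simp [Function.update_apply]
        · by_cases hz : x = 4
          · subst hz; simp [hσ3, Function.update_apply, h4]
          · simp [hσ3, hσ2, hσ1, Function.update_apply, hx, hy, hz]
    rw [this] at e5
    exact Run.whs (by omega) (Run.seq e1 (Run.seq e2 e3)) e5

/-- the environment of the main program -/
def env0 : ℕ → ℕ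
  | 0 => 2
  | 1 => 1
  | _ => 0

theorem ls_prg {F : ℕ → ℕ → ℕ} (hF : LS (fun ρ => F (ρ 0) (ρ 1))) :
    ∃ (D : ℕ) (P : Prg), ∀ n, 1 ≤ n → ∀ σ : ℕ → ℕ, σ 0 = repU (D + 2) n → (∀ r, 1 ≤ r → σ r = 0) →
      ∃ τ, Run ((D + 2) ^ n - 1) P σ τ ∧ τ 3 = F (2 ^ n) n := by
  obtain ⟨c, hb, hp⟩ := hF
  obtain ⟨P3, hP3⟩ := hp env0 3 4
    (fun i => by rcases i with _ | _ | i <;> simp [env0])
    (by omega)
    (fun i => by rcases i with _ | _ | i <;> simp [env0])
  refine ⟨2 ^ (c + 2) - 2, .seq (phase1 (2 ^ (c + 2))) (.seq (cp 1 3 4) (.seq (.inc 2)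
    (.seq powl P3))), ?_⟩
  intro n hn σ h0 hz
  have hD : 2 ^ (c + 2) - 2 + 2 = 2 ^ (c + 2) := by
    have : 2 ^ 1 ≤ 2 ^ (c + 2) := Nat.pow_le_pow_right (by omega) (by omega)
    omega
  rw [hD] at h0 ⊢
  set β := 2 ^ (c + 2) with hβ
  set N := β ^ n - 1 with hN
  have hβ2 : 2 ≤ β := by
    rw [hβ, pow_succ]
    have : 1 ≤ 2 ^ (c + 1) := Nat.one_le_two_pow
    omega
  have hβn : β ^ n = 2 ^ ((c + 2) * n) := by rw [hβ, ← pow_mul]
  have hrep : repU β n ≤ N := by
    have := repU_lt β hβ2 n
    omega
  have hXc : (2 ^ n) ^ c ≤ N := by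
    have h1 : (2 ^ n) ^ c < β ^ n := by
      rw [hβn, ← pow_mul]
      apply Nat.pow_lt_pow_right (by omega)
      nlinarith
    omega
  have hX : 2 ^ n ≤ N := by
    have h1 : 2 ^ n < β ^ n := by
      rw [hβn]
      apply Nat.pow_lt_pow_right (by omega)
      nlinarith
    omega
  have hnN : n ≤ N := (Nat.lt_two_pow_self).le.trans hX
  -- phase 1
  have e1 := run_phase1 N β (by omega) n σ h0 (hz 3 (by omega)) (by rw [hz 1 (by omega)]; omega)
    hrep
  rw [hz 1 (by omega), zero_add] at e1
  set σ1 := Function.update (Function.update σ 0 0) 1 n with hσ1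
  have e2 := run_cp N 1 3 4 (by omega) (by omega) (by omega) σ1
    (by simp [hσ1, Function.update_apply, hz 3 (by omega)])
    (by simp [hσ1, Function.update_apply, hz 4 (by omega)])
    (by simp [hσ1]; exact hnN)
  have hσ11 : σ1 1 = n := by simp [hσ1]
  rw [hσ11] at e2
  set σ2 := Function.update σ1 3 n with hσ2
  have hσ22 : σ2 2 = 0 := by
    simp [hσ2, hσ1, Function.update_apply, hz 2 (by omega)]
  have e3 := Run.inc (N := N) 2 σ2 (by
    rw [hσ22]
    have : 1 ≤ 2 ^ n := Nat.one_le_two_pow
    omega)
  rw [hσ22, zero_add] at e3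
  set σ3 := Function.update σ2 2 1 with hσ3
  have e4 := run_powl N n σ3 (by simp [hσ3, hσ2, Function.update_apply])
    (by simp [hσ3, hσ2, hσ1, Function.update_apply, hz 4 (by omega)])
    (by simp [hσ3]; exact hX)
  have hσ32 : σ3 2 = 1 := by simp [hσ3]
  rw [hσ32, one_mul] at e4
  set σ4 := Function.update (Function.update σ3 3 0) 2 (2 ^ n) with hσ4
  have henv : (fun i => σ4 (env0 i)) = fun i => if i = 0 then 2 ^ n else if i = 1 then n else 0 := by
    funext i
    rcases i with _ | _ | i
    · simp [env0, hσ4]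
    · simp [env0, hσ4, hσ3, hσ2, hσ1, Function.update_apply]
    · simp [env0, hσ4, hσ3, hσ2, hσ1, Function.update_apply]
  have e5 := hP3 (2 ^ n) σ4 (by
      calc 2 = 2 ^ 1 := rfl
        _ ≤ 2 ^ n := Nat.pow_le_pow_right (by omega) hn)
    (fun i => by
      have h5 : σ4 (env0 i) = if i = 0 then 2 ^ n else if i = 1 then n else 0 := congrFun henv i
      rw [h5]
      split_ifs
      · exact le_rfl
      · exact Nat.lt_two_pow_self.le
      · exact Nat.zero_le _)
    (fun r hr => by
      simp only [hσ4, hσ3, hσ2, hσ1]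
      rw [Function.update_of_ne (by omega), Function.update_of_ne (by omega),
        Function.update_of_ne (by omega), Function.update_of_ne (by omega),
        Function.update_of_ne (by omega), Function.update_of_ne (by omega)]
      exact hz r (by omega))
    (by simp [hσ4, Function.update_apply])
  rw [henv] at e5
  refine ⟨_, Run.seq e1 (Run.seq e2 (Run.seq e3 (Run.seq e4 (e5.mono hXc)))), ?_⟩
  simp

/-- the initial configuration -/
def init {K D M : ℕ} (n : ℕ) : ℕ → St K D M :=
  fun i => if 1 ≤ i ∧ i ≤ n then some none else none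

theorem stp_init {K D M : ℕ} (C : ℕ → Ins) (n : ℕ) :
    stp C n (init n) = cfg n (fun _ => dig0 K D) 1 ((0, true) : Hd M) := by
  funext i
  by_cases hi : 1 ≤ i ∧ i ≤ n
  · rw [cfg_in _ _ _ _ _ hi]
    unfold stp
    rw [if_pos hi]
    have h1 : (init n i : St K D M) = some none := by simp [init, hi]
    rw [h1]
    simp only [delta]
    by_cases h2 : i = 1
    · subst h2
      have h3 : (init n 0 : St K D M) = none := by simp [init]
      simp [h3]
    · have h3 : (init n (i - 1) : St K D M) ≠ none := by
        simp only [init]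
        rw [if_pos (by omega)]
        simp
      simp [h3, h2]
  · simp [stp, cfg, hi]

theorem val_dig0 {K D : ℕ} (hK : 0 < K) (r : ℕ) : ∀ m h,
    val (fun _ => dig0 K D) r m h = if r = 0 then repU (D + 2) m else 0 := by
  intro m
  induction m with
  | zero => intro h; simp [val, repU]
  | succ m ih =>
    intro h
    simp only [val, ih, repU]
    unfold getD dig0
    by_cases hr : r = 0
    · subst hr
      simp [hK]
    · simp [hr]

/-- accepting states -/
def Acc {K D M : ℕ} (a : Fin (M + 1)) (x : St K D M) : Prop :=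
  ∃ d m, x = some (some (d, some (a, m)))

theorem acc_absorb {K D M : ℕ} (C : ℕ → Ins) (n : ℕ) (hn : 1 ≤ n) (a : ℕ) (ha : a ≤ M)
    (hC : C a = .jmp a) (c : ℕ → St K D M) (h0 : c 0 = none) (h : Acc (nx M a) (c 1)) :
    Acc (nx M a) (stp C n c 1) := by
  obtain ⟨d, m, hdm⟩ := h
  unfold stp
  rw [if_pos (by omega), hdm]
  cases m with
  | false =>
    simp only [delta]
    rw [if_pos (by simpa using h0)]
    exact ⟨d, true, rfl⟩
  | true =>
    have hact : act M C (nx M a) d = (d, some (nx M a)) := by
      unfold act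
      rw [nx_val M a ha, hC]
    simp only [delta, hact]
    exact ⟨d, false, rfl⟩

theorem iter_zero_none {K D M : ℕ} (C : ℕ → Ins) (n : ℕ) (t : ℕ) :
    (stp C n)^[t] (init n) 0 = (none : St K D M) := by
  cases t with
  | zero => simp [init]
  | succ t => rw [Function.iterate_succ_apply']; simp [stp]

theorem acc_later {K D M : ℕ} (C : ℕ → Ins) (n : ℕ) (hn : 1 ≤ n) (a : ℕ) (ha : a ≤ M)
    (hC : C a = .jmp a) (t s : ℕ) (h : Acc (nx M a) ((stp C n)^[t] (init n : ℕ → St K D M) 1)) :
    Acc (nx M a) ((stp C n)^[t + s] (init n : ℕ → St K D M) 1) := by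
  induction s with
  | zero => exact h
  | succ s ih =>
    rw [← add_assoc, Function.iterate_succ_apply']
    exact acc_absorb C n hn a ha hC _ (iter_zero_none C n (t + s)) ih

theorem rej_loop {K D M : ℕ} (C : ℕ → Ins) (n : ℕ) (hn : 1 ≤ n) (a : ℕ) (ha : a ≤ M)
    (hC : C a = .jmp a) (G : ℕ → Dig K D) (j : ℕ) :
    (stp C n)^[2 * j] (cfg n G 1 (nx M a, true)) = cfg n G 1 (nx M a, true) := by
  have h2 : (stp C n)^[2] (cfg n G 1 (nx M a, true)) = cfg n G 1 (nx M a, true) := by
    have hact : act M C (nx M a) (G 1) = (G 1, some (nx M a)) := by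
      unfold act
      rw [nx_val M a ha, hC]
    have hs := stp_stop C n G 1 (nx M a) (nx M a) (by omega) (by rw [hact])
    rw [hact, Function.update_eq_self] at hs
    show stp C n (stp C n _) = _
    rw [hs]
    exact stp_back1 C n G _ hn
  rw [Function.iterate_mul]
  exact Function.iterate_fixed h2 j

theorem ls_stp {F : ℕ → ℕ → ℕ} (hF : LS (fun ρ => F (ρ 0) (ρ 1))) :
    ∃ (K D M : ℕ) (C : ℕ → Ins) (a : Fin (M + 1)), ∀ n, 1 ≤ n →
      (F (2 ^ n) n ≠ 0 ↔ ∃ t, Acc a ((stp C n)^[t] (init n : ℕ → St K D M) 1)) := by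
  obtain ⟨D, P, hP⟩ := ls_prg hF
  set l := comp P 0 with hl
  set A := l.length with hA
  set L := l ++ [Ins.jz 3 (A + 2), Ins.jmp (A + 1), Ins.jmp (A + 2)] with hL
  obtain ⟨K', hK'⟩ := exists_reg_bound L
  set K := max K' 4 with hKdef
  set C : ℕ → Ins := fun i => L.getD i (Ins.jmp 0) with hC
  set M := A + 2 with hM
  have hlen : L.length = A + 3 := by simp [hL, hA]
  have hCreg : ∀ pc ≤ M, (C pc).reg < K := by
    intro pc hpc
    have h1 : C pc = L[pc]'(by omega) := by
      simp only [hC]
      rw [List.getD_eq_getElem _ _ (by omega)]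
    rw [h1]
    have := hK' (L[pc]'(by omega)) (List.getElem_mem _)
    omega
  have hAt : At C 0 l := by
    intro i hi
    simp only [hC, hL, zero_add]
    rw [List.getD_eq_getElem _ _ (by simp; omega), List.getElem_append_left hi]
  have hCA : C A = .jz 3 (A + 2) := by
    simp only [hC, hL]
    rw [List.getD_eq_getElem _ _ (by simp [hA]), List.getElem_append_right (by omega)]
    simp [hA, hM]
  have hCA1 : C (A + 1) = .jmp (A + 1) := by
    simp only [hC, hL]
    rw [List.getD_eq_getElem _ _ (by simp [hA]), List.getElem_append_right (by omega)]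
    simp [hA, hM]
  have hCA2 : C (A + 2) = .jmp (A + 2) := by
    simp only [hC, hL]
    rw [List.getD_eq_getElem _ _ (by simp [hA]), List.getElem_append_right (by omega)]
    simp [hA, hM]
  refine ⟨K, D, M, C, nx M (A + 1), ?_⟩
  intro n hn
  set σ0 : ℕ → ℕ := fun r => if r = 0 then repU (D + 2) n else 0 with hσ0
  obtain ⟨τ, hτ, hτ3⟩ := hP n hn σ0 (by simp [hσ0]) (by intro r hr; simp [hσ0]; omega)
  have hsteps := comp_sound (M := M) (C := C) hτ 0 hAt (by rw [← hl]; omega)
  rw [zero_add] at hsteps
  have hNlt : (D + 2) ^ n - 1 < (D + 2) ^ n := by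
    have : 0 < (D + 2) ^ n := by positivity
    omega
  have hrep0 : Rep n (fun _ => dig0 K D) σ0 := by
    intro r hr
    rw [val_dig0 (by omega)]
  obtain ⟨G, hG, hR⟩ := reach_steps (M := M) C n hn hNlt hCreg hsteps (fun _ => dig0 K D) hrep0
  have hnx0 : nx M 0 = 0 := by simp [nx]
  rw [hnx0, ← stp_init C n] at hR
  have hR0 : Reach C n (init n) (cfg n G 1 ((nx M A, true) : Hd M)) :=
    (Reach.of rfl).trans hR
  constructor
  · intro hne
    have hst := GStep.jzn (M := M) (N := (D + 2) ^ n - 1) (σ := τ) hCA (by omega)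
      (by rw [hτ3]; exact hne)
    obtain ⟨G', hG', hR'⟩ := reach_step C n hn hNlt hCreg hst G hG
    obtain ⟨t, ht⟩ := hR0.trans hR'
    refine ⟨t, ?_⟩
    rw [ht, cfg_in _ _ _ _ _ (by omega)]
    exact ⟨G' 1, true, by simp⟩
  · rintro ⟨t, ht⟩ heq
    have hst := GStep.jzz (M := M) (N := (D + 2) ^ n - 1) (σ := τ) hCA (by omega) (by omega)
      (by rw [hτ3]; exact heq)
    obtain ⟨G', hG', hR'⟩ := reach_step C n hn hNlt hCreg hst G hG
    obtain ⟨t', ht'⟩ := hR0.trans hR'
    have h1 := acc_later C n hn (A + 1) (by omega) hCA1 t (t' + 2 * t - t) ht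
    have h2 : t + (t' + 2 * t - t) = 2 * t + t' := by omega
    rw [h2, Function.iterate_add_apply, ht', rej_loop C n hn (A + 2) (by omega) hCA2,
      cfg_in _ _ _ _ _ (by omega)] at h1
    obtain ⟨d, m, hdm⟩ := h1
    simp only [if_true, Option.some.injEq, Prod.mk.injEq] at hdm
    have h3 : nx M (A + 2) = nx M (A + 1) := hdm.2.1
    have h4 := congrArg (fun x : Fin (M + 1) => (x : ℕ)) h3
    simp only [nx_val M (A + 2) (by omega), nx_val M (A + 1) (by omega)] at h4
    omega

/-- transport of automata along a finite enumeration of the states -/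
theorem transport {S : Type} [Fintype S] (m : ℕ) (inpS : Fin m → S) (bS : S)
    (δS : S → S → S → S) (accS : S → Prop) :
    ∃ (k : ℕ) (inp : Fin m → Fin k) (b : Fin k) (δ : Fin k → Fin k → Fin k → Fin k)
        (F : Finset (Fin k)), ∀ (w : List (Fin m)) (t : ℕ),
        (accS ((Nat.iterate
          (fun (c : ℕ → S) (i : ℕ) =>
            if 1 ≤ i ∧ i ≤ w.length then δS (c (i - 1)) (c i) (c (i + 1)) else bS) t
          (fun (i : ℕ) => if 1 ≤ i ∧ i ≤ w.length then (w.map inpS).getD (i - 1) bS else bS)) 1) ↔
        (Nat.iterate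
          (fun (c : ℕ → Fin k) (i : ℕ) =>
            if 1 ≤ i ∧ i ≤ w.length then δ (c (i - 1)) (c i) (c (i + 1)) else b) t
          (fun (i : ℕ) => if 1 ≤ i ∧ i ≤ w.length then (w.map inp).getD (i - 1) b else b)) 1 ∈ F)
          := by
  classical
  set e := Fintype.equivFin S with he
  refine ⟨Fintype.card S, fun x => e (inpS x), e bS,
    fun x y z => e (δS (e.symm x) (e.symm y) (e.symm z)),
    Finset.univ.filter (fun x => accS (e.symm x)), ?_⟩
  intro w t
  have key : ∀ t i, (Nat.iterate
          (fun (c : ℕ → Fin (Fintype.card S)) (i : ℕ) =>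
            if 1 ≤ i ∧ i ≤ w.length then
              e (δS (e.symm (c (i - 1))) (e.symm (c i)) (e.symm (c (i + 1)))) else e bS) t
          (fun (i : ℕ) => if 1 ≤ i ∧ i ≤ w.length then
            (w.map (fun x => e (inpS x))).getD (i - 1) (e bS) else e bS)) i =
        e ((Nat.iterate
          (fun (c : ℕ → S) (i : ℕ) =>
            if 1 ≤ i ∧ i ≤ w.length then δS (c (i - 1)) (c i) (c (i + 1)) else bS) t
          (fun (i : ℕ) => if 1 ≤ i ∧ i ≤ w.length then (w.map inpS).getD (i - 1) bS else bS)) i)
          := by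
    intro t
    induction t with
    | zero =>
      intro i
      simp only [Function.iterate_zero, id_eq]
      by_cases hi : 1 ≤ i ∧ i ≤ w.length
      · rw [if_pos hi, if_pos hi]
        rw [List.getD_eq_getElem _ _ (by simp; omega), List.getD_eq_getElem _ _ (by simp; omega)]
        simp
      · rw [if_neg hi, if_neg hi]
    | succ t ih =>
      intro i
      rw [Function.iterate_succ_apply', Function.iterate_succ_apply']
      by_cases hi : 1 ≤ i ∧ i ≤ w.length
      · simp only [if_pos hi]
        rw [ih, ih, ih]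
        simp
      · simp only [if_neg hi]
  rw [key t 1]
  simp

/-- every `LS` function gives a unary language accepted by a bounded cellular automaton -/
theorem ls_lca {F : ℕ → ℕ → ℕ} (hF : LS (fun ρ => F (ρ 0) (ρ 1))) :
    ∃ (k : ℕ) (inp : Fin 1 → Fin k) (b : Fin k) (δ : Fin k → Fin k → Fin k → Fin k)
        (A : Finset (Fin k)), ∀ (w : List (Fin 1)),
        ((w ≠ [] ∧ F (2 ^ w.length) w.length ≠ 0) ↔ ∃ t : ℕ,
        (Nat.iterate
          (fun (c : ℕ → Fin k) (i : ℕ) =>
            if 1 ≤ i ∧ i ≤ w.length then δ (c (i - 1)) (c i) (c (i + 1)) else b) t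
          (fun (i : ℕ) => if 1 ≤ i ∧ i ≤ w.length then (w.map inp).getD (i - 1) b else b)) 1 ∈ A)
          := by
  obtain ⟨K, D, M, C, a, h⟩ := ls_stp hF
  obtain ⟨k, inp, b, δ, A, htr⟩ := transport 1 (fun _ => (some none : St K D M)) none (delta C)
    (Acc a)
  refine ⟨k, inp, b, δ, A, ?_⟩
  intro w
  have hinit : (fun (i : ℕ) => if 1 ≤ i ∧ i ≤ w.length then
      (w.map (fun _ => (some none : St K D M))).getD (i - 1) none else none) = init w.length := by
    funext i
    by_cases hi : 1 ≤ i ∧ i ≤ w.length
    · rw [if_pos hi]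
      rw [List.getD_eq_getElem _ _ (by simp; omega)]
      simp [init, hi]
    · simp [init, hi]
  have hstp : (fun (c : ℕ → St K D M) (i : ℕ) =>
            if 1 ≤ i ∧ i ≤ w.length then delta C (c (i - 1)) (c i) (c (i + 1)) else none) =
            stp C w.length := rfl
  have h2 : (∃ t, Acc a ((stp C w.length)^[t] (init w.length : ℕ → St K D M) 1)) ↔ ∃ t : ℕ,
        (Nat.iterate
          (fun (c : ℕ → Fin k) (i : ℕ) =>
            if 1 ≤ i ∧ i ≤ w.length then δ (c (i - 1)) (c i) (c (i + 1)) else b) t
          (fun (i : ℕ) => if 1 ≤ i ∧ i ≤ w.length then (w.map inp).getD (i - 1) b else b)) 1 ∈ A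
          := by
    apply exists_congr
    intro t
    have := htr w t
    rw [hinit, hstp] at this
    exact this
  rw [← h2]
  by_cases hw : w = []
  · subst hw
    simp only [ne_eq, not_true_eq_false, false_and, List.length_nil, false_iff, not_exists]
    intro t ht
    have h3 : (stp C 0)^[t] (init 0 : ℕ → St K D M) 1 = none := by
      cases t with
      | zero => simp [init]
      | succ t => rw [Function.iterate_succ_apply']; simp [stp]
    rw [h3] at ht
    obtain ⟨d, m, hdm⟩ := ht
    simp at hdm
  · have hn : 1 ≤ w.length := List.length_pos_iff.2 hw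
    rw [← h w.length hn]
    simp [hw]

end Pool.Agent.H539R2
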