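import Pool.Agent.H539R2.Flag
import Pool.Agent.H539R2.LSCA

/-!
The diagonal language: a bounded cellular automaton language which is not accepted in
linear time.
-/

set_option linter.unusedSimpArgs false
set_option linter.unusedVariables false

namespace Pool.Agent.H539R2

theorem prime_params (B : ℕ) (hB : 1 ≤ B) : ∃ p g : ℕ, 3 * B + 1 < p ∧ p ≤ 2 * (3 * B + 1) ∧
    (g : ZMod p) ^ (p - 1) = 1 ∧
    ∀ k, 1 ≤ k → k ≤ 3 * B → ∑ i ∈ Finset.range (p - 1), ((g : ZMod p) ^ (i + 1)) ^ k = 0 := by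
  obtain ⟨p, hp, hp1, hp2⟩ := Nat.exists_prime_lt_and_le_two_mul (3 * B + 1) (by omega)
  have : Fact p.Prime := ⟨hp⟩
  obtain ⟨ζ, hζ⟩ := IsCyclic.exists_generator (α := (ZMod p)ˣ)
  have hord : orderOf ζ = p - 1 := by
    rw [orderOf_eq_card_of_forall_mem_zpowers hζ, Nat.card_eq_fintype_card, ZMod.card_units]
  refine ⟨p, (ζ : ZMod p).val, hp1, hp2, ?_, ?_⟩
  · rw [ZMod.natCast_zmod_val]
    exact ZMod.pow_card_sub_one_eq_one ζ.ne_zero
  · intro k hk1 hk2
    rw [ZMod.natCast_zmod_val]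
    have hne : (ζ : ZMod p) ^ k ≠ 1 := by
      intro h
      have h1 : ζ ^ k = 1 := by
        apply Units.ext
        rw [Units.val_pow_eq_pow_val, h, Units.val_one]
      have h2 := orderOf_dvd_of_pow_eq_one h1
      rw [hord] at h2
      have := Nat.le_of_dvd (by omega) h2
      omega
    have h1 : ∑ i ∈ Finset.range (p - 1), ((ζ : ZMod p) ^ (i + 1)) ^ k =
        (ζ : ZMod p) ^ k * ∑ i ∈ Finset.range (p - 1), ((ζ : ZMod p) ^ k) ^ i := by
      rw [Finset.mul_sum]
      apply Finset.sum_congr rfl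
      intro i _
      ring
    have h2 := geom_sum_mul ((ζ : ZMod p) ^ k) (p - 1)
    rw [← pow_mul, mul_comm k, pow_mul, ZMod.pow_card_sub_one_eq_one ζ.ne_zero, one_pow,
      sub_self] at h2
    rcases mul_eq_zero.1 h2 with h3 | h3
    · rw [h1, h3, mul_zero]
    · exact absurd (sub_eq_zero.1 h3) hne

/-- first code component -/
def cd1 (n : ℕ) : ℕ := (Nat.unpair (Nat.unpair (n + 1)).1).1

/-- the parameters decoded from a length -/
def dprm (X n : ℕ) : Prm where
  X := X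
  n := n
  q := (Nat.unpair (cd1 n)).1
  dc := (Nat.unpair (Nat.unpair (cd1 n)).2).1
  a := (Nat.unpair (Nat.unpair (Nat.unpair (cd1 n)).2).2).1
  b := (Nat.unpair (Nat.unpair (Nat.unpair (Nat.unpair (cd1 n)).2).2).2).1
  B := (Nat.unpair (n + 1)).1
  H := (Nat.unpair (Nat.unpair (Nat.unpair (Nat.unpair (cd1 n)).2).2).2).2 * (n + 1) /
    (Nat.unpair (n + 1)).1
  r0 := 0
  p := (Nat.unpair (Nat.unpair ((Nat.unpair (n + 1)).2 / (Nat.unpair (n + 1)).1)).1).1
  g := (Nat.unpair (Nat.unpair ((Nat.unpair (n + 1)).2 / (Nat.unpair (n + 1)).1)).1).2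

/-- the diagonal function -/
def U (X n : ℕ) : ℕ := if (dprm X n).sim % 2 = 1 then 0 else 1

theorem LS.cd1 : LS (fun ρ => cd1 (ρ 1)) := by
  unfold H539R2.cd1
  exact LS.unpair1 (LS.unpair1 (LS.var 1).succ)

theorem LS.dprm : LSPrm (fun ρ => dprm (ρ 0) (ρ 1)) := by
  have h1 : LS (fun ρ => (Nat.unpair (ρ 1 + 1)).1) := LS.unpair1 (LS.var 1).succ
  have h2 : LS (fun ρ => (Nat.unpair (ρ 1 + 1)).2) := LS.unpair2 (LS.var 1).succ
  have hc := LS.cd1
  have hc2 := LS.unpair2 hc
  have hc22 := LS.unpair2 hc2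
  have hc222 := LS.unpair2 hc22
  have hz : LS (fun ρ => (Nat.unpair (ρ 1 + 1)).2 / (Nat.unpair (ρ 1 + 1)).1) := h2.div h1
  have hz1 := LS.unpair1 hz
  refine ⟨?_, ?_, ?_, ?_, ?_, ?_, ?_, ?_, ?_, ?_, ?_⟩ <;> simp only [H539R2.dprm]
  · exact LS.var 0
  · exact LS.var 1
  · exact LS.unpair1 hc
  · exact LS.unpair1 hc2
  · exact LS.unpair1 hc22
  · exact LS.unpair1 hc222
  · exact h1
  · exact ((LS.unpair2 hc222).mul (LS.var 1).succ).div h1
  · exact LS.zero
  · exact LS.unpair1 hz1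
  · exact LS.unpair2 hz1

theorem LS.U : LS (fun ρ => U (ρ 0) (ρ 1)) := by
  unfold H539R2.U
  exact LS.ite (LSP.eq ((LS.sim LS.dprm).mod (LS.const 2)) (LS.const 1)) LS.zero (LS.const 1)

theorem exp_beats (A : ℕ) : ∀ κ, 2 * A + 2 ≤ κ → A * (κ + 1) ≤ 2 ^ κ := by
  intro κ hκ
  obtain ⟨i, hi⟩ : ∃ i, κ = A + i := ⟨κ - A, by omega⟩
  subst hi
  have h1 : A ≤ 2 ^ A := Nat.lt_two_pow_self.le
  have h2 : ∀ j, 2 * (j + 1) ≤ 2 ^ (j + 1) := by
    intro j
    induction j with
    | zero => simp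
    | succ j ih =>
      rw [pow_succ]
      omega
  obtain ⟨j, hj⟩ : ∃ j, i = j + 1 := ⟨i - 1, by omega⟩
  have h3 := h2 j
  rw [← hj] at h3
  rw [pow_add]
  exact Nat.mul_le_mul h1 (by omega)

/-- there is a block length suitable for the given code -/
theorem exists_block (e C : ℕ) : ∃ B pad κ : ℕ, B = Nat.pair e pad ∧ 2 ≤ B ∧
    8 * (2 * (3 * B + 1) - 1) ≤ 2 ^ κ ∧ 2 * C * κ ≤ B := by
  set A := 48 * (2 * C + 1) + 8 with hA
  set pad := (2 * C + 1) * (2 * A + 2) + 2 with hpad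
  set B := Nat.pair e pad with hB
  have hBpad : pad ≤ B := Nat.right_le_pair e pad
  refine ⟨B, pad, B / (2 * C + 1), rfl, by omega, ?_, ?_⟩
  · set κ := B / (2 * C + 1) with hκ
    have hκ1 : 2 * A + 2 ≤ κ := by
      rw [hκ, Nat.le_div_iff_mul_le (by omega), mul_comm]
      omega
    have hBκ : B < (2 * C + 1) * (κ + 1) := by
      rw [hκ]
      exact Nat.lt_mul_div_succ B (by omega)
    have h1 := exp_beats A κ hκ1
    have h2 : 48 * B + 8 ≤ A * (κ + 1) := by
      rw [hA]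
      have : 48 * B + 8 ≤ 48 * ((2 * C + 1) * (κ + 1)) + 8 * (κ + 1) := by omega
      calc 48 * B + 8 ≤ 48 * ((2 * C + 1) * (κ + 1)) + 8 * (κ + 1) := this
        _ = (48 * (2 * C + 1) + 8) * (κ + 1) := by ring
    omega
  · have := Nat.div_mul_le_self B (2 * C + 1)
    calc 2 * C * (B / (2 * C + 1)) ≤ (2 * C + 1) * (B / (2 * C + 1)) :=
          Nat.mul_le_mul_right _ (by omega)
      _ = B / (2 * C + 1) * (2 * C + 1) := by ring
      _ ≤ B := this

/-- the key parameters exist: for every machine code and constant there is a length where the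
decoded parameters are valid and simulate the machine for exactly `C * (n + 1)` steps -/
theorem exists_length (q dc a b C : ℕ) (hq : 1 ≤ q) (ha : a < q) (hb : b < q) :
    ∃ n, 1 ≤ n ∧ (dprm (2 ^ n) n).Valid ∧ (dprm (2 ^ n) n).q = q ∧ (dprm (2 ^ n) n).dc = dc ∧
      (dprm (2 ^ n) n).a = a ∧ (dprm (2 ^ n) n).b = b ∧
      (dprm (2 ^ n) n).r0 + (dprm (2 ^ n) n).H * (dprm (2 ^ n) n).B = C * (n + 1) := by
  set e := Nat.pair q (Nat.pair dc (Nat.pair a (Nat.pair b C))) with he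
  obtain ⟨B, pad, κ, hBe, hB2, hBκ, hCκ⟩ := exists_block e C
  obtain ⟨p, g, hp1, hp2, hg, hsum⟩ := prime_params B (by omega)
  set w := q ^ (3 * B) + p ^ (4 * B * q) + 3 with hw
  set z := Nat.pair (Nat.pair p g) w with hz
  have hzw : w ≤ z := Nat.right_le_pair _ _
  set y := B * z with hy
  have hBpos : 0 < B := by omega
  have hzy : z ≤ y := Nat.le_mul_of_pos_left _ hBpos
  have hBy : B < y := by
    rw [hy]
    have : B * 2 ≤ B * z := Nat.mul_le_mul_left _ (by omega)
    omega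
  have hpair : Nat.pair B y = y * y + B := by
    unfold Nat.pair
    rw [if_pos hBy]
  set n := Nat.pair B y - 1 with hn
  have hn1 : n + 1 = Nat.pair B y := by
    rw [hn, hpair]; omega
  have hyn : y ≤ n := by
    rw [hn, hpair]
    have : y * 1 ≤ y * y := Nat.mul_le_mul_left _ (by omega)
    omega
  have hnge : w ≤ n := hzw.trans (hzy.trans hyn)
  have hBdvd : B ∣ n + 1 := by
    rw [hn1, hpair, hy]
    exact ⟨z * (B * z) + 1, by ring⟩
  have e1 : (Nat.unpair (n + 1)).1 = B := by rw [hn1, Nat.unpair_pair]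
  have e2 : (Nat.unpair (n + 1)).2 = y := by rw [hn1, Nat.unpair_pair]
  have e3 : cd1 n = e := by unfold cd1; rw [e1, hBe, Nat.unpair_pair]
  have e4 : y / B = z := by rw [hy]; exact Nat.mul_div_cancel_left _ hBpos
  have fX : (dprm (2 ^ n) n).X = 2 ^ n := rfl
  have fn : (dprm (2 ^ n) n).n = n := rfl
  have fq : (dprm (2 ^ n) n).q = q := by simp [dprm, e3, he]
  have fdc : (dprm (2 ^ n) n).dc = dc := by simp [dprm, e3, he]
  have fa : (dprm (2 ^ n) n).a = a := by simp [dprm, e3, he]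
  have fb : (dprm (2 ^ n) n).b = b := by simp [dprm, e3, he]
  have fB : (dprm (2 ^ n) n).B = B := by simp only [dprm, e1]
  have fH : (dprm (2 ^ n) n).H = C * (n + 1) / B := by
    simp only [dprm, e1, e3]
    simp [he]
  have fr0 : (dprm (2 ^ n) n).r0 = 0 := rfl
  have fp : (dprm (2 ^ n) n).p = p := by
    simp only [dprm, e1, e2, e4, hz, Nat.unpair_pair]
  have fg : (dprm (2 ^ n) n).g = g := by
    simp only [dprm, e1, e2, e4, hz, Nat.unpair_pair]
  have hpow : ∀ A, A ≤ w → A ≤ 2 ^ n := fun A hA =>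
    (hA.trans hnge).trans Nat.lt_two_pow_self.le
  refine ⟨n, by omega, ?_, fq, fdc, fa, fb, ?_⟩
  · constructor
    · rw [fq]; exact hq
    · rw [fa, fq]; exact ha
    · rw [fb, fq]; exact hb
    · rw [fB]; exact hB2
    · rw [fr0]; omega
    · rw [fp]; omega
    · rw [fp, fg]; exact hg
    · rw [fp, fg, fB]; exact hsum
    · rw [fq, fB, fX]
      exact hpow _ (by omega)
    · rw [fp, fB, fq, fX]
      exact hpow _ (by omega)
    · rw [fp, fH, fX]
      have h1 : 8 * (p - 1) ≤ 2 ^ κ := by omega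
      calc (8 * (p - 1)) ^ (C * (n + 1) / B) ≤ (2 ^ κ) ^ (C * (n + 1) / B) :=
            Nat.pow_le_pow_left h1 _
        _ = 2 ^ (κ * (C * (n + 1) / B)) := by rw [← pow_mul]
        _ ≤ 2 ^ n := by
            apply Nat.pow_le_pow_right (by omega)
            obtain ⟨d, hd⟩ := hBdvd
            have h2 : C * (n + 1) / B = C * d := by
              rw [hd, show C * (B * d) = B * (C * d) by ring]
              exact Nat.mul_div_cancel_left _ hBpos
            rw [h2]
            have h3 : 2 * (κ * (C * d)) ≤ n + 1 := by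
              rw [hd]
              calc 2 * (κ * (C * d)) = (2 * C * κ) * d := by ring
                _ ≤ B * d := Nat.mul_le_mul_right _ hCκ
            omega
  · rw [fr0, fH, fB, zero_add]
    apply Nat.div_mul_cancel
    exact Dvd.dvd.mul_left hBdvd C

/-- the diagonal language -/
def DL : Set (List (Fin 1)) := {w | w ≠ [] ∧ U (2 ^ w.length) w.length ≠ 0}

/-- the diagonal language is not accepted in linear time -/
theorem DL_not_lin {k : ℕ} (inp : Fin 1 → Fin k) (b : Fin k) (δ : Fin k → Fin k → Fin k → Fin k)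
    (F : Finset (Fin k)) (C : ℕ) :
    ¬ ∀ n, ((List.replicate n (0 : Fin 1)) ∈ DL ↔ ∃ t ≤ C * (n + 1), conf inp b δ n t 1 ∈ F) := by
  intro hcon
  obtain ⟨q, dc, a, b', hq, ha, hb', hfl⟩ := flag_cc inp b δ F
  obtain ⟨n, hn1, hV, fq, fdc, fa, fb, hT⟩ := exists_length q dc a b' C hq ha hb'
  have h1 := hfl (dprm (2 ^ n) n) fq fdc fa fb hn1 (C * (n + 1))
  have h2 := Prm.sim_eq hV
  rw [hT] at h2
  rw [← h2] at h1
  have h3 := hcon n
  have fn : (dprm (2 ^ n) n).n = n := rfl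
  rw [fn] at h1
  rw [← h1] at h3
  have hne : List.replicate n (0 : Fin 1) ≠ [] := by
    intro h
    have := congrArg List.length h
    simp at this
    omega
  unfold DL U at h3
  simp only [Set.mem_ofPred_eq, List.length_replicate, ne_eq, hne, not_false_iff, true_and] at h3
  by_cases h4 : (dprm (2 ^ n) n).sim % 2 = 1
  · simp [h4] at h3
  · simp [h4] at h3

end Pool.Agent.H539R2
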