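import Pool.Agent.H539R2.LowD

/-!
The diagonal language against deterministic cellular automata of all dimensions.
-/

set_option linter.unusedSimpArgs false
set_option linter.unusedVariables false

namespace Pool.Agent.H539R2.DD

open Pool.Agent.H539R2 Filter

/-- the diagonal function for deterministic automata -/
def U1 (X n : ℕ) : ℕ := if (dprm 1 X n 0).sim % 2 = 0 then 1 else 0

theorem ls_U1 : LS (fun ρ => U1 (ρ 0) (ρ 1)) := by
  unfold U1
  exact LS.ite (LSP.eq ((ls_sim (ls_dprm (LS.const 1) (LS.var 0) (LS.var 1)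
    LS.zero)).mod (LS.const 2)) LS.zero) (LS.const 1) LS.zero

/-- a deterministic cellular automaton as a verifier with a one-letter witness alphabet -/
def DCA.toV {d : ℕ} (M : DCA d) : VDCA d 1 where
  Q := M.Q
  finQ := M.finQ
  blank := M.blank
  inp := fun b _ => M.inp b
  δ := M.δ
  acc := M.acc

theorem DCA.toV_run {d : ℕ} [NeZero d] (M : DCA d) (x : List Bool) (y : ℕ → Fin 1) (t : ℕ) :
    (DCA.toV M).run x y t = M.run x t := by
  unfold VDCA.run DCA.run
  have h0 : (DCA.toV M).init x y = M.init x := rfl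
  have hs : (DCA.toV M).step = M.step := rfl
  rw [h0, hs]
  rfl

theorem DCA.toV_accAt {d : ℕ} [NeZero d] (M : DCA d) (x : List Bool) (y : ℕ → Fin 1) (t : ℕ) :
    (DCA.toV M).AccAt x y t ↔ M.AccAt x t := by
  unfold VDCA.AccAt DCA.AccAt
  rw [DCA.toV_run]
  rfl

theorem mainD :
    ∃ A : LBA, (∀ w, A.Acc w → ∀ x ∈ w, x = true) ∧
      ∀ (d : ℕ) [NeZero d] (M : DCA d) (T : ℕ → ℕ),
        (fun n => (T n : ℝ)) =o[atTop]
          (fun n => ((n : ℝ) / Real.log n) ^ (1 + 1 / (d : ℝ))) →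
        M.InTime T → ¬ ∀ x, (A.Acc x ↔ M.Acc x) := by
  obtain ⟨A, hA1, hA2⟩ := ls_lba ls_U1
  refine ⟨A, hA1, ?_⟩
  intro d _ M T hT hin hAV
  have hd : 1 ≤ d := Nat.pos_of_ne_zero (NeZero.ne d)
  obtain ⟨q, dc, a, b, hq, hb, hV⟩ := vdca_code (DCA.toV M)
  set e := Nat.pair d (Nat.pair q (Nat.pair dc (Nat.pair a b))) with he
  obtain ⟨N, hN⟩ := eventually_atTop.1 ((growth d hd T q hq hT).and (big_eventually d q))
  set n := Nat.pair e (N + 1) with hn
  have hnN : N + 1 ≤ n := Nat.right_le_pair e (N + 1)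
  obtain ⟨h1, h2⟩ := hN n (by omega)
  have hue : e1 n = e := by unfold e1; rw [hn, Nat.unpair_pair]
  have hs := sim_spec 1 n d q dc a b hq hb h2 hue (DCA.toV M) hV 0 (fun _ => 0)
    (fun i _ => by simp [dg])
  have hU : U1 (2 ^ n) n ≠ 0 ↔ ¬ ∃ t ≤ tm n d q, M.AccAt (List.replicate n true) t := by
    simp only [DCA.toV_accAt] at hs
    rw [← hs]
    unfold U1
    constructor
    · intro h h'
      rw [if_neg (by omega)] at h
      exact h rfl
    · intro h
      rw [if_pos (by omega)]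
      exact Nat.one_ne_zero
  rw [← hA2 n (by omega), hAV] at hU
  by_cases hacc : M.Acc (List.replicate n true)
  · obtain ⟨t, ht, hy⟩ := hin _ hacc
    rw [List.length_replicate] at ht
    exact hU.1 hacc ⟨t, ht.trans h1, hy⟩
  · apply hacc
    rw [hU]
    rintro ⟨t, _, hy⟩
    exact hacc ⟨t, hy⟩

end Pool.Agent.H539R2.DD
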