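import Pool.Agent.H539R2.SimC

/-!
Coding of an arbitrary bounded cellular automaton (over a unary input alphabet), with a flag
remembering acceptance, by the numerical parameters of a simulation.
-/

set_option linter.unusedSimpArgs false
set_option linter.unusedVariables false

namespace Pool.Agent.H539R2

/-- the configuration of an automaton on the unary word of length `n` -/
def conf {k : ℕ} (inp : Fin 1 → Fin k) (b : Fin k) (δ : Fin k → Fin k → Fin k → Fin k) (n : ℕ)
    (t : ℕ) : ℕ → Fin k :=
  Nat.iterate
    (fun (c : ℕ → Fin k) (i : ℕ) =>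
      if 1 ≤ i ∧ i ≤ (List.replicate n (0 : Fin 1)).length then δ (c (i - 1)) (c i) (c (i + 1))
      else b) t
    (fun (i : ℕ) => if 1 ≤ i ∧ i ≤ (List.replicate n (0 : Fin 1)).length then
      ((List.replicate n (0 : Fin 1)).map inp).getD (i - 1) b else b)

theorem conf_zero {k : ℕ} (inp : Fin 1 → Fin k) (b : Fin k) (δ : Fin k → Fin k → Fin k → Fin k)
    (n i : ℕ) : conf inp b δ n 0 i = if 1 ≤ i ∧ i ≤ n then inp 0 else b := by
  unfold conf
  simp only [Function.iterate_zero, id_eq, List.length_replicate]
  by_cases hi : 1 ≤ i ∧ i ≤ n
  · rw [if_pos hi, if_pos hi, List.getD_eq_getElem _ _ (by simp; omega)]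
    simp
  · rw [if_neg hi, if_neg hi]

theorem conf_succ {k : ℕ} (inp : Fin 1 → Fin k) (b : Fin k) (δ : Fin k → Fin k → Fin k → Fin k)
    (n t i : ℕ) : conf inp b δ n (t + 1) i = if 1 ≤ i ∧ i ≤ n then
      δ (conf inp b δ n t (i - 1)) (conf inp b δ n t i) (conf inp b δ n t (i + 1)) else b := by
  unfold conf
  rw [Function.iterate_succ_apply']
  simp only [List.length_replicate]

theorem flag_cc {k : ℕ} (inp : Fin 1 → Fin k) (b : Fin k) (δ : Fin k → Fin k → Fin k → Fin k)
    (F : Finset (Fin k)) :
    ∃ (q dc a b' : ℕ), 1 ≤ q ∧ a < q ∧ b' < q ∧ ∀ (P : Prm), P.q = q → P.dc = dc → P.a = a →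
      P.b = b' → 1 ≤ P.n → ∀ T,
        (P.cc T 1 % 2 = 1 ↔ ∃ t ≤ T, conf inp b δ P.n t 1 ∈ F) := by
  classical
  set q := 2 * k with hq
  have hk : 0 < k := lt_of_le_of_lt (Nat.zero_le _) b.isLt
  have hq1 : 1 ≤ q := by omega
  set toF : ℕ → Fin k := fun l => if h : l / 2 < k then ⟨l / 2, h⟩ else b with htoF
  set δ' : ℕ → ℕ → ℕ → ℕ := fun l c r => 2 * (δ (toF l) (toF c) (toF r) : ℕ) +
    (if (c % 2 = 1 ∨ δ (toF l) (toF c) (toF r) ∈ F) then 1 else 0) with hδ'
  have hδ'lt : ∀ l c r, δ' l c r < q := by
    intro l c r
    have h1 := (δ (toF l) (toF c) (toF r)).isLt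
    simp only [hδ']
    split_ifs <;> omega
  set dc := digs q (q ^ 3) (fun i => δ' (i / q / q) (i / q % q) (i % q)) with hdc
  have hdg : ∀ l c r, l < q → c < q → r < q → dg q dc ((l * q + c) * q + r) = δ' l c r := by
    intro l c r hl hc hr
    have hlt : (l * q + c) * q + r < q ^ 3 := by
      have h1 : l * q + c + 1 ≤ q * q := by nlinarith
      have h2 : (l * q + c + 1) * q ≤ q * q * q := Nat.mul_le_mul_right _ h1
      have h3 : q ^ 3 = q * q * q := by ring
      rw [h3]
      nlinarith
    rw [hdc, dg_digs q (q ^ 3) hq1 _ (fun i _ => hδ'lt _ _ _) _ hlt]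
    have e1 : ((l * q + c) * q + r) / q = l * q + c := by
      rw [mul_comm, Nat.mul_add_div hq1, Nat.div_eq_of_lt hr, add_zero]
    have e2 : (l * q + c) / q = l := by
      rw [mul_comm, Nat.mul_add_div hq1, Nat.div_eq_of_lt hc, add_zero]
    have e3 : (l * q + c) % q = c := by
      rw [mul_comm, Nat.mul_add_mod, Nat.mod_eq_of_lt hc]
    have e4 : ((l * q + c) * q + r) % q = r := by
      rw [mul_comm, Nat.mul_add_mod, Nat.mod_eq_of_lt hr]
    rw [e1, e2, e3, e4]
  refine ⟨q, dc, 2 * (inp 0 : ℕ) + (if inp 0 ∈ F then 1 else 0), 2 * (b : ℕ), hq1, ?_, ?_, ?_⟩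
  · have := (inp 0).isLt
    split_ifs <;> omega
  · have := b.isLt
    omega
  · intro P hPq hPdc hPa hPb hn T
    have htoF_enc : ∀ (s : Fin k) (e : ℕ), e < 2 → toF (2 * (s : ℕ) + e) = s := by
      intro s e he
      have h1 : (2 * (s : ℕ) + e) / 2 = s := by omega
      simp only [htoF]
      rw [dif_pos (by rw [h1]; exact s.isLt)]
      apply Fin.ext
      simp only
      exact h1
    have key : ∀ t i, P.cc t i = if 1 ≤ i ∧ i ≤ P.n then
        2 * (conf inp b δ P.n t i : ℕ) + (if ∃ t' ≤ t, conf inp b δ P.n t' i ∈ F then 1 else 0)
        else 2 * (b : ℕ) := by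
      intro t
      induction t with
      | zero =>
        intro i
        unfold Prm.cc
        rw [hPa, hPb]
        by_cases hi : 1 ≤ i ∧ i ≤ P.n
        · rw [if_pos hi, if_pos hi, conf_zero, if_pos hi]
          congr 1
          have : (∃ t' ≤ 0, conf inp b δ P.n t' i ∈ F) ↔ inp 0 ∈ F := by
            constructor
            · rintro ⟨t', ht', h⟩
              have : t' = 0 := by omega
              subst this
              rw [conf_zero, if_pos hi] at h
              exact h
            · intro h
              refine ⟨0, le_rfl, ?_⟩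
              rw [conf_zero, if_pos hi]
              exact h
          simp only [this]
        · rw [if_neg hi, if_neg hi]
      | succ t ih =>
        intro i
        have hval : ∀ j, P.cc t j < q ∧ toF (P.cc t j) = conf inp b δ P.n t j := by
          intro j
          rw [ih j]
          by_cases hj : 1 ≤ j ∧ j ≤ P.n
          · rw [if_pos hj]
            have := (conf inp b δ P.n t j).isLt
            constructor
            · split_ifs <;> omega
            · apply htoF_enc
              split_ifs <;> omega
          · rw [if_neg hj]
            have hb : conf inp b δ P.n t j = b := by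
              cases t with
              | zero => rw [conf_zero, if_neg hj]
              | succ t => rw [conf_succ, if_neg hj]
            have := b.isLt
            constructor
            · omega
            · have := htoF_enc b 0 (by omega)
              rw [add_zero] at this
              rw [this, hb]
        unfold Prm.cc
        rw [hPq, hPdc, hPb]
        by_cases hi : 1 ≤ i ∧ i ≤ P.n
        · rw [if_pos hi, if_pos hi, hdg _ _ _ (hval _).1 (hval _).1 (hval _).1, conf_succ,
            if_pos hi]
          simp only [hδ']
          rw [(hval (i - 1)).2, (hval i).2, (hval (i + 1)).2]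
          congr 1
          have : (∃ t' ≤ t + 1, conf inp b δ P.n t' i ∈ F) ↔
              (P.cc t i % 2 = 1 ∨ δ (conf inp b δ P.n t (i - 1)) (conf inp b δ P.n t i)
                (conf inp b δ P.n t (i + 1)) ∈ F) := by
            rw [ih i, if_pos hi]
            constructor
            · rintro ⟨t', ht', h⟩
              by_cases h1 : t' ≤ t
              · left
                rw [if_pos ⟨t', h1, h⟩]
                omega
              · right
                have : t' = t + 1 := by omega
                subst this
                rw [conf_succ, if_pos hi] at h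
                exact h
            · rintro (h | h)
              · have h1 : ∃ t' ≤ t, conf inp b δ P.n t' i ∈ F := by
                  by_contra hcon
                  rw [if_neg hcon] at h
                  omega
                obtain ⟨t', ht', h2⟩ := h1
                exact ⟨t', by omega, h2⟩
              · refine ⟨t + 1, le_rfl, ?_⟩
                rw [conf_succ, if_pos hi]
                exact h
          simp only [this]
        · rw [if_neg hi, if_neg hi]
    rw [key T 1, if_pos (by omega)]
    constructor
    · intro h
      by_contra hcon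
      rw [if_neg hcon] at h
      omega
    · intro h
      rw [if_pos h]
      omega

end Pool.Agent.H539R2
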