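import Pool.Agent.H539R2.SimDC
import Pool.Agent.H539R2.DefsD

/-!
Coding of an arbitrary verifying `d`-dimensional cellular automaton, with a flag remembering
acceptance, by the numerical parameters of a simulation.
-/

set_option linter.unusedSimpArgs false
set_option linter.unusedVariables false

namespace Pool.Agent.H539R2.DD

open Pool.Agent.H539R2

theorem vdca_code {d K : ℕ} [NeZero d] (V : VDCA d K) :
    ∃ (q dc a b : ℕ), 1 ≤ q ∧ b < q ∧ ∀ (P : Prm) (y : ℕ → Fin K), P.q = q → P.dc = dc →
      P.a = a → P.b = b → P.d = d → (∀ i < P.n, dg P.k P.y i = (y i : ℕ)) → ∀ T,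
        (P.cz T (fun _ => 0) % 2 = 1 ↔ ∃ t ≤ T, V.AccAt (List.replicate P.n true) y t) := by
  classical
  have hd0 : 0 < d := Nat.pos_of_ne_zero (NeZero.ne d)
  have := V.finQ
  have hzz : ((0 : Fin d) : ℕ) = 0 := by simp
  set k := Fintype.card V.Q with hk
  set en := Fintype.equivFin V.Q with hen
  set q := 2 * k with hq
  have hkpos : 0 < k := Fintype.card_pos_iff.2 ⟨V.blank⟩
  have hq1 : 1 ≤ q := by omega
  set enc : V.Q → ℕ := fun s => 2 * (en s : ℕ) + (if V.acc s then 1 else 0) with henc
  have henclt : ∀ s, enc s < q := by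
    intro s
    have h1 := (en s).isLt
    simp only [henc]
    split_ifs <;> omega
  set toQ : ℕ → V.Q := fun l => if h : l / 2 < k then en.symm ⟨l / 2, h⟩ else V.blank with htoQ
  -- index of a neighbour
  set eidx : (Fin d → Fin 3) → ℕ := fun e => digs 3 d (fun j => if h : j < d then
    ((e ⟨j, h⟩ : Fin 3) : ℕ) else 0) with heidx
  have heb : ∀ (e : Fin d → Fin 3), ∀ j < d, (if h : j < d then
      ((e ⟨j, h⟩ : Fin 3) : ℕ) else 0) < 3 := by
    intro e j hj
    rw [dif_pos hj]
    exact (e ⟨j, hj⟩).isLt
  have heidxlt : ∀ e, eidx e < 3 ^ d := fun e => digs_lt _ _ _ (heb e)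
  have heidxdg : ∀ e (j : Fin d), dg 3 (eidx e) (j : ℕ) = ((e j : Fin 3) : ℕ) := by
    intro e j
    simp only [heidx]
    rw [dg_digs 3 d (by omega) _ (heb e) j j.isLt, dif_pos j.isLt]
  set ctr := digs 3 d (fun _ => 1) with hctr
  have hctrlt : ctr < 3 ^ d := digs_lt _ _ _ (fun _ _ => by omega)
  have hctrdg : ∀ j : Fin d, dg 3 ctr (j : ℕ) = 1 := by
    intro j
    rw [hctr, dg_digs 3 d (by omega) _ (fun _ _ => by omega) j j.isLt]
  set nx : ℕ → V.Q := fun i => V.δ (fun e => toQ (dg q i (eidx e))) with hnx
  set δ' : ℕ → ℕ := fun i => 2 * (en (nx i) : ℕ) +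
    (if (dg q i ctr % 2 = 1 ∨ V.acc (nx i)) then 1 else 0) with hδ'
  have hδ'lt : ∀ i, δ' i < q := by
    intro i
    have h1 := (en (nx i)).isLt
    simp only [hδ']
    split_ifs <;> omega
  set dc := digs q (q ^ (3 ^ d)) δ' with hdc
  have hdg : ∀ i < q ^ (3 ^ d), dg q dc i = δ' i := by
    intro i hi
    rw [hdc, dg_digs q _ hq1 _ (fun i _ => hδ'lt i) _ hi]
  set a := digs q K (fun j => if h : j < K then enc (V.inp true ⟨j, h⟩) else 0) with ha
  have hadg : ∀ j (h : j < K), dg q a j = enc (V.inp true ⟨j, h⟩) := by
    intro j h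
    rw [ha, dg_digs q K hq1 _ (fun i _ => by split_ifs; exact henclt _) j h, dif_pos h]
  refine ⟨q, dc, a, enc V.blank, hq1, henclt _, ?_⟩
  intro P y hPq hPdc hPa hPb hPd hy T
  have htoQ_enc : ∀ (s : V.Q) (e : ℕ), e < 2 → toQ (2 * (en s : ℕ) + e) = s := by
    intro s e he
    have h1 : (2 * (en s : ℕ) + e) / 2 = (en s : ℕ) := by omega
    simp only [htoQ]
    rw [dif_pos (by rw [h1]; exact (en s).isLt)]
    apply en.injective
    rw [Equiv.apply_symm_apply]
    apply Fin.ext
    exact h1
  have key : ∀ t (v : ℕ → ℤ), P.cz t v =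
      2 * (en (V.run (List.replicate P.n true) y t (fun j : Fin d => v j)) : ℕ) +
      (if ∃ t' ≤ t, V.acc (V.run (List.replicate P.n true) y t' (fun j : Fin d => v j))
        then 1 else 0) := by
    intro t
    induction t with
    | zero =>
      intro v
      have h0 : V.run (List.replicate P.n true) y 0 (fun j : Fin d => v j) =
          if (∀ j : Fin d, j ≠ 0 → v j = 0) ∧ 0 ≤ v 0 ∧ v 0 < P.n then
            V.inp true (y (v 0).toNat) else V.blank := by
        show V.init _ _ _ = _
        unfold VDCA.init
        have h00 : ((0 : Fin d) : ℕ) = 0 := hzz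
        rw [List.length_replicate]
        simp only [h00]
        by_cases hi : (∀ j : Fin d, j ≠ 0 → v j = 0) ∧ 0 ≤ v 0 ∧ v 0 < P.n
        · rw [if_pos hi, if_pos hi, List.getD_eq_getElem _ _ (by
            rw [List.length_replicate]; omega), List.getElem_replicate]
        · rw [if_neg hi, if_neg hi]
      have hiff : (∀ j < P.d, j ≠ 0 → v j = 0) ↔ (∀ j : Fin d, j ≠ 0 → v j = 0) := by
        rw [hPd]
        constructor
        · intro h j hj
          apply h j j.isLt
          intro h0
          apply hj
          apply Fin.ext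
          rw [h0, hzz]
        · intro h j hj hj0
          have := h ⟨j, hj⟩ (by
            intro h0
            apply hj0
            have h2 := congrArg (fun z : Fin d => (z : ℕ)) h0
            simp only [hzz] at h2
            exact h2)
          exact this
      have h1 : P.cz 0 v = enc (V.run (List.replicate P.n true) y 0 (fun j : Fin d => v j)) := by
        unfold Prm.cz
        rw [hPa, hPb, hPq, h0]
        by_cases hi : (∀ j : Fin d, j ≠ 0 → v j = 0) ∧ 0 ≤ v 0 ∧ v 0 < P.n
        · rw [if_pos hi, if_pos ⟨hiff.2 hi.1, hi.2⟩, hy _ (by omega), hadg _ (y (v 0).toNat).isLt]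
        · rw [if_neg hi, if_neg (fun h => hi ⟨hiff.1 h.1, h.2⟩)]
      rw [h1]
      simp only [henc]
      congr 1
      have : (∃ t' ≤ 0, V.acc (V.run (List.replicate P.n true) y t' (fun j : Fin d => v j))) ↔
          V.acc (V.run (List.replicate P.n true) y 0 (fun j : Fin d => v j)) := by
        constructor
        · rintro ⟨t', ht', h⟩
          have : t' = 0 := by omega
          subst this
          exact h
        · intro h
          exact ⟨0, le_rfl, h⟩
      simp only [this]
    | succ t ih =>
      intro v
      have hval : ∀ w : ℕ → ℤ, P.cz t w < q ∧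
          toQ (P.cz t w) = V.run (List.replicate P.n true) y t (fun j : Fin d => w j) := by
        intro w
        rw [ih w]
        have := (en (V.run (List.replicate P.n true) y t (fun j : Fin d => w j))).isLt
        constructor
        · split_ifs <;> omega
        · apply htoQ_enc
          split_ifs <;> omega
      set h : ℕ → ℕ := fun e => P.cz t (fun j => v j + (dg 3 e j : ℕ) - 1) with hh
      have hhlt : ∀ e < 3 ^ d, h e < q := fun e _ => (hval _).1
      have hilt : digs q (3 ^ d) h < q ^ (3 ^ d) := digs_lt _ _ _ hhlt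
      have hidg : ∀ e < 3 ^ d, dg q (digs q (3 ^ d) h) e = h e :=
        fun e he => dg_digs q _ hq1 _ hhlt e he
      have hnxe : nx (digs q (3 ^ d) h) = V.run (List.replicate P.n true) y (t + 1)
          (fun j : Fin d => v j) := by
        simp only [hnx]
        unfold VDCA.run
        rw [Function.iterate_succ_apply']
        show _ = V.δ (fun e => V.run (List.replicate P.n true) y t (nbr (fun j : Fin d => v j) e))
        congr 1
        funext e
        rw [hidg _ (heidxlt e)]
        simp only [hh]
        rw [(hval _).2]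
        congr 1
        funext j
        rw [heidxdg]
        rfl
      have hcz : P.cz (t + 1) v = δ' (digs q (3 ^ d) h) := by
        unfold Prm.cz
        rw [hPq, hPdc, hPd]
        exact hdg _ hilt
      rw [hcz]
      simp only [hδ']
      rw [hnxe, hidg _ hctrlt]
      congr 1
      have hc : h ctr = P.cz t (fun j => v j + (dg 3 ctr j : ℕ) - 1) := rfl
      have hrestr : (fun j : Fin d => v j + ((dg 3 ctr j : ℕ) : ℤ) - 1) =
          fun j : Fin d => v j := by
        funext j
        rw [hctrdg j]
        ring
      have : (∃ t' ≤ t + 1, V.acc (V.run (List.replicate P.n true) y t'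
          (fun j : Fin d => v j))) ↔
          (h ctr % 2 = 1 ∨ V.acc (V.run (List.replicate P.n true) y (t + 1)
            (fun j : Fin d => v j))) := by
        rw [hc, ih, hrestr]
        constructor
        · rintro ⟨t', ht', h⟩
          by_cases h1 : t' ≤ t
          · left
            rw [if_pos ⟨t', h1, h⟩]
            omega
          · right
            have : t' = t + 1 := by omega
            subst this
            exact h
        · rintro (h | h)
          · have h1 : ∃ t' ≤ t, V.acc (V.run (List.replicate P.n true) y t'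
                (fun j : Fin d => v j)) := by
              by_contra hcon
              rw [if_neg hcon] at h
              omega
            obtain ⟨t', ht', h2⟩ := h1
            exact ⟨t', by omega, h2⟩
          · exact ⟨t + 1, le_rfl, h⟩
      simp only [this]
  rw [key T (fun _ => 0)]
  unfold VDCA.AccAt
  constructor
  · intro h
    by_contra hcon
    rw [if_neg hcon] at h
    omega
  · intro h
    rw [if_pos h]
    omega

end Pool.Agent.H539R2.DD
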