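import Pool.Agent.H539R2.SimZC
import Pool.Agent.H539R2.Defs

/-!
Coding of an arbitrary verifying cellular automaton, with a flag remembering acceptance, by the
numerical parameters of a simulation.
-/

set_option linter.unusedSimpArgs false
set_option linter.unusedVariables false

namespace Pool.Agent.H539R2.ZZ

open Pool.Agent.H539R2

theorem vca_code {K : ℕ} (V : VCA K) :
    ∃ (q dc a b : ℕ), 1 ≤ q ∧ b < q ∧ ∀ (P : Prm) (y : ℕ → Fin K), P.q = q → P.dc = dc → P.a = a →
      P.b = b → (∀ i < P.n, dg P.k P.y i = (y i : ℕ)) → ∀ T,
        (P.cz T 0 % 2 = 1 ↔ ∃ t ≤ T, V.AccAt (List.replicate P.n true) y t) := by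
  classical
  have := V.finQ
  set k := Fintype.card V.Q with hk
  set en := Fintype.equivFin V.Q with hen
  set q := 2 * k with hq
  have hkpos : 0 < k := Fintype.card_pos_iff.2 ⟨V.blank⟩
  have hq1 : 1 ≤ q := by omega
  set nf : V.Q → ℕ := fun s => 2 * (en s : ℕ) with hnf
  set enc : V.Q → ℕ := fun s => 2 * (en s : ℕ) + (if V.acc s then 1 else 0) with henc
  have henclt : ∀ s, enc s < q := by
    intro s
    have h1 := (en s).isLt
    simp only [henc]
    split_ifs <;> omega
  set toQ : ℕ → V.Q := fun l => if h : l / 2 < k then en.symm ⟨l / 2, h⟩ else V.blank with htoQ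
  set δ' : ℕ → ℕ → ℕ → ℕ := fun l c r => 2 * (en (V.δ (toQ l) (toQ c) (toQ r)) : ℕ) +
    (if (c % 2 = 1 ∨ V.acc (V.δ (toQ l) (toQ c) (toQ r))) then 1 else 0) with hδ'
  have hδ'lt : ∀ l c r, δ' l c r < q := by
    intro l c r
    have h1 := (en (V.δ (toQ l) (toQ c) (toQ r))).isLt
    simp only [hδ']
    split_ifs <;> omega
  set dc := digs q (q ^ 3) (fun i => δ' (i / q / q) (i / q % q) (i % q)) with hdc
  have hdg : ∀ l c r, l < q → c < q → r < q → dg q dc ((l * q + c) * q + r) = δ' l c r := by
    intro l c r hl hc hr
    have hlt : (l * q + c) * q + r < q ^ 3 := by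
      have h1 : l * q + c + 1 ≤ q * q := by nlinarith
      have h2 : (l * q + c + 1) * q ≤ q * q * q := Nat.mul_le_mul_right _ h1
      have h3 : q ^ 3 = q * q * q := by ring
      rw [h3]
      nlinarith
    rw [hdc, dg_digs q (q ^ 3) hq1 _ (fun i _ => hδ'lt _ _ _) _ hlt]
    have e1 : ((l * q + c) * q + r) / q = l * q + c := by
      rw [mul_comm, Nat.mul_add_div hq1, Nat.div_eq_of_lt hr, add_zero]
    have e2 : (l * q + c) / q = l := by
      rw [mul_comm, Nat.mul_add_div hq1, Nat.div_eq_of_lt hc, add_zero]
    have e3 : (l * q + c) % q = c := by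
      rw [mul_comm, Nat.mul_add_mod, Nat.mod_eq_of_lt hc]
    have e4 : ((l * q + c) * q + r) % q = r := by
      rw [mul_comm, Nat.mul_add_mod, Nat.mod_eq_of_lt hr]
    rw [e1, e2, e3, e4]
  set a := digs q K (fun j => if h : j < K then enc (V.inp true ⟨j, h⟩) else 0) with ha
  have hadg : ∀ j (h : j < K), dg q a j = enc (V.inp true ⟨j, h⟩) := by
    intro j h
    rw [ha, dg_digs q K hq1 _ (fun i _ => by split_ifs; exact henclt _) j h, dif_pos h]
  refine ⟨q, dc, a, enc V.blank, hq1, henclt _, ?_⟩
  intro P y hPq hPdc hPa hPb hy T
  have htoQ_enc : ∀ (s : V.Q) (e : ℕ), e < 2 → toQ (2 * (en s : ℕ) + e) = s := by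
    intro s e he
    have h1 : (2 * (en s : ℕ) + e) / 2 = (en s : ℕ) := by omega
    simp only [htoQ]
    rw [dif_pos (by rw [h1]; exact (en s).isLt)]
    apply en.injective
    rw [Equiv.apply_symm_apply]
    apply Fin.ext
    exact h1
  have key : ∀ t (i : ℤ), P.cz t i = 2 * (en (V.run (List.replicate P.n true) y t i) : ℕ) +
      (if ∃ t' ≤ t, V.acc (V.run (List.replicate P.n true) y t' i) then 1 else 0) := by
    intro t
    induction t with
    | zero =>
      intro i
      have h0 : V.run (List.replicate P.n true) y 0 i =
          if 0 ≤ i ∧ i < P.n then V.inp true (y i.toNat) else V.blank := by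
        show V.init _ _ i = _
        unfold VCA.init
        rw [List.length_replicate]
        by_cases hi : 0 ≤ i ∧ i < P.n
        · rw [if_pos hi, if_pos hi, List.getD_eq_getElem _ _ (by simp; omega),
            List.getElem_replicate]
        · rw [if_neg hi, if_neg hi]
      have h1 : P.cz 0 i = enc (V.run (List.replicate P.n true) y 0 i) := by
        unfold Prm.cz
        rw [hPa, hPb, hPq, h0]
        by_cases hi : 0 ≤ i ∧ i < P.n
        · rw [if_pos hi, if_pos hi, hy _ (by omega), hadg _ (y i.toNat).isLt]
        · rw [if_neg hi, if_neg hi]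
      rw [h1]
      simp only [henc]
      congr 1
      have : (∃ t' ≤ 0, V.acc (V.run (List.replicate P.n true) y t' i)) ↔
          V.acc (V.run (List.replicate P.n true) y 0 i) := by
        constructor
        · rintro ⟨t', ht', h⟩
          have : t' = 0 := by omega
          subst this
          exact h
        · intro h
          exact ⟨0, le_rfl, h⟩
      simp only [this]
    | succ t ih =>
      intro i
      have hval : ∀ j, P.cz t j < q ∧ toQ (P.cz t j) = V.run (List.replicate P.n true) y t j := by
        intro j
        rw [ih j]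
        have := (en (V.run (List.replicate P.n true) y t j)).isLt
        constructor
        · split_ifs <;> omega
        · apply htoQ_enc
          split_ifs <;> omega
      have hrun : V.run (List.replicate P.n true) y (t + 1) i =
          V.δ (V.run (List.replicate P.n true) y t (i - 1)) (V.run (List.replicate P.n true) y t i)
            (V.run (List.replicate P.n true) y t (i + 1)) := by
        unfold VCA.run
        rw [Function.iterate_succ_apply']
        rfl
      unfold Prm.cz
      rw [hPq, hPdc, hdg _ _ _ (hval _).1 (hval _).1 (hval _).1, hrun]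
      simp only [hδ']
      rw [(hval (i - 1)).2, (hval i).2, (hval (i + 1)).2]
      congr 1
      have : (∃ t' ≤ t + 1, V.acc (V.run (List.replicate P.n true) y t' i)) ↔
          (P.cz t i % 2 = 1 ∨ V.acc (V.δ (V.run (List.replicate P.n true) y t (i - 1))
            (V.run (List.replicate P.n true) y t i)
            (V.run (List.replicate P.n true) y t (i + 1)))) := by
        rw [ih i, ← hrun]
        constructor
        · rintro ⟨t', ht', h⟩
          by_cases h1 : t' ≤ t
          · left
            rw [if_pos ⟨t', h1, h⟩]
            omega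
          · right
            have : t' = t + 1 := by omega
            subst this
            exact h
        · rintro (h | h)
          · have h1 : ∃ t' ≤ t, V.acc (V.run (List.replicate P.n true) y t' i) := by
              by_contra hcon
              rw [if_neg hcon] at h
              omega
            obtain ⟨t', ht', h2⟩ := h1
            exact ⟨t', by omega, h2⟩
          · exact ⟨t + 1, le_rfl, h⟩
      simp only [this]
  rw [key T 0]
  unfold VCA.AccAt
  constructor
  · intro h
    by_contra hcon
    rw [if_neg hcon] at h
    omega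
  · intro h
    rw [if_pos h]
    omega

end Pool.Agent.H539R2.ZZ
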