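import Pool.Agent.H539R2.Prg

/-!
Goto code for register programs.
-/

set_option linter.unusedSimpArgs false

namespace Pool.Agent.H539R2

/-- goto instructions -/
inductive Ins : Type
  | inc (r : ℕ) : Ins
  | dec (r : ℕ) : Ins
  | jz (r t : ℕ) : Ins
  | jmp (t : ℕ) : Ins

/-- the register used by an instruction -/
def Ins.reg : Ins → ℕ
  | .inc r => r
  | .dec r => r
  | .jz r _ => r
  | .jmp _ => 0

/-- one step of a goto machine with addresses at most `M` and values at most `N` -/
inductive GStep (M N : ℕ) (C : ℕ → Ins) : ℕ → (ℕ → ℕ) → ℕ → (ℕ → ℕ) → Prop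
  | inc {pc r : ℕ} {σ : ℕ → ℕ} (hC : C pc = .inc r) (hM : pc + 1 ≤ M) (h : σ r + 1 ≤ N) :
      GStep M N C pc σ (pc + 1) (Function.update σ r (σ r + 1))
  | dec {pc r : ℕ} {σ : ℕ → ℕ} (hC : C pc = .dec r) (hM : pc + 1 ≤ M) (h : σ r ≠ 0) :
      GStep M N C pc σ (pc + 1) (Function.update σ r (σ r - 1))
  | jzz {pc r t : ℕ} {σ : ℕ → ℕ} (hC : C pc = .jz r t) (hM : pc ≤ M) (hM' : t ≤ M)
      (h : σ r = 0) : GStep M N C pc σ t σ
  | jzn {pc r t : ℕ} {σ : ℕ → ℕ} (hC : C pc = .jz r t) (hM : pc + 1 ≤ M) (h : σ r ≠ 0) :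
      GStep M N C pc σ (pc + 1) σ
  | jmp {pc t : ℕ} {σ : ℕ → ℕ} (hC : C pc = .jmp t) (hM : pc ≤ M) (hM' : t ≤ M) :
      GStep M N C pc σ t σ

/-- several steps -/
inductive GSteps (M N : ℕ) (C : ℕ → Ins) : ℕ → (ℕ → ℕ) → ℕ → (ℕ → ℕ) → Prop
  | refl (pc : ℕ) (σ : ℕ → ℕ) : GSteps M N C pc σ pc σ
  | tail {pc pc' pc'' : ℕ} {σ σ' σ'' : ℕ → ℕ} (h1 : GSteps M N C pc σ pc' σ')
      (h2 : GStep M N C pc' σ' pc'' σ'') : GSteps M N C pc σ pc'' σ''

theorem GSteps.trans {M N : ℕ} {C : ℕ → Ins} {pc pc' pc'' : ℕ} {σ σ' σ'' : ℕ → ℕ}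
    (h1 : GSteps M N C pc σ pc' σ') (h2 : GSteps M N C pc' σ' pc'' σ'') :
    GSteps M N C pc σ pc'' σ'' := by
  induction h2 with
  | refl => exact h1
  | tail _ h ih => exact GSteps.tail (ih h1) h

theorem GSteps.one {M N : ℕ} {C : ℕ → Ins} {pc pc' : ℕ} {σ σ' : ℕ → ℕ}
    (h : GStep M N C pc σ pc' σ') : GSteps M N C pc σ pc' σ' := GSteps.tail (GSteps.refl _ _) h

/-- compilation at an address -/
def comp : Prg → ℕ → List Ins
  | .skip, _ => []
  | .inc r, _ => [.inc r]
  | .dec r, _ => [.dec r]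
  | .seq p q, a => comp p a ++ comp q (a + (comp p a).length)
  | .wh r p, a => .jz r (a + (comp p (a + 1)).length + 2) :: (comp p (a + 1) ++ [.jmp a])

/-- the code `c` sits at address `a` -/
def At (C : ℕ → Ins) (a : ℕ) (l : List Ins) : Prop := ∀ i (h : i < l.length), C (a + i) = l[i]

theorem At.left {C : ℕ → Ins} {a : ℕ} {c d : List Ins} (h : At C a (c ++ d)) : At C a c := by
  intro i hi
  rw [h i (by simp; omega), List.getElem_append_left]

theorem At.right {C : ℕ → Ins} {a : ℕ} {c d : List Ins} (h : At C a (c ++ d)) :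
    At C (a + c.length) d := by
  intro i hi
  have := h (c.length + i) (by simp; omega)
  rw [← add_assoc] at this
  rw [this, List.getElem_append_right (by omega)]
  simp

theorem At.head {C : ℕ → Ins} {a : ℕ} {x : Ins} {d : List Ins} (h : At C a (x :: d)) :
    C a = x := by
  have := h 0 (by simp)
  simpa using this

theorem At.tail {C : ℕ → Ins} {a : ℕ} {x : Ins} {d : List Ins} (h : At C a (x :: d)) :
    At C (a + 1) d := by
  intro i hi
  have := h (i + 1) (by simp; omega)
  rw [show a + 1 + i = a + (i + 1) by omega, this]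
  simp

theorem comp_sound {M N : ℕ} {C : ℕ → Ins} {p : Prg} {σ τ : ℕ → ℕ} (h : Run N p σ τ) :
    ∀ a, At C a (comp p a) → a + (comp p a).length ≤ M →
      GSteps M N C a σ (a + (comp p a).length) τ := by
  induction h with
  | skip σ =>
    intro a _ _
    exact GSteps.refl _ _
  | inc r σ h =>
    intro a hA hM
    exact GSteps.one (GStep.inc hA.head (by simpa [comp] using hM) h)
  | dec r σ h =>
    intro a hA hM
    exact GSteps.one (GStep.dec hA.head (by simpa [comp] using hM) h)
  | @seq p q σ σ' σ'' _ _ ih1 ih2 =>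
    intro a hA hM
    simp only [comp, List.length_append] at hA hM ⊢
    have h1 := ih1 a hA.left (by omega)
    have h2 := ih2 (a + (comp p a).length) hA.right (by omega)
    rw [← add_assoc]
    exact h1.trans h2
  | @whz r p σ h =>
    intro a hA hM
    simp only [comp, List.length_cons, List.length_append, List.length_nil] at hA hM ⊢
    have := GStep.jzz (M := M) (N := N) (σ := σ) hA.head (by omega) (by omega) h
    have h2 : a + (comp p (a + 1)).length + 2 = a + ((comp p (a + 1)).length + (0 + 1) + 1) := by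
      omega
    rw [h2] at this
    exact GSteps.one this
  | @whs r p σ σ' σ'' h _ _ ih1 ih2 =>
    intro a hA hM
    have hA' := hA
    have hM' := hM
    simp only [comp, List.length_cons, List.length_append, List.length_nil] at hA hM
    have h1 := GStep.jzn (M := M) (N := N) (σ := σ) hA.head (by omega) h
    have h2 := ih1 (a + 1) hA.tail.left (by omega)
    have h3 := GStep.jmp (M := M) (N := N) (σ := σ') hA.tail.right.head (by omega) (by omega)
    exact ((GSteps.one h1).trans (h2.trans (GSteps.one h3))).trans (ih2 a hA' hM')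

theorem exists_reg_bound (l : List Ins) : ∃ K, ∀ x ∈ l, x.reg < K := by
  induction l with
  | nil => exact ⟨0, by simp⟩
  | cons x l ih =>
    obtain ⟨K, hK⟩ := ih
    refine ⟨max K (x.reg + 1), ?_⟩
    intro y hy
    rcases List.mem_cons.1 hy with h | h
    · subst h; omega
    · have := hK y h; omega

end Pool.Agent.H539R2
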