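import Pool.Agent.H539R2.LSCA
import Pool.Agent.H539R2.Defs

/-!
Deterministic linear bounded automata over the input alphabet `{0,1}` (type `Bool`), and the fact
that every `LS` function gives a tally language accepted by such an automaton.
-/

set_option linter.unusedSimpArgs false
set_option linter.unusedVariables false

namespace Pool.Agent.H539R2

namespace LBA

theorem Cfg.ext' {A : LBA} {c c' : A.Cfg} (h1 : c.q = c'.q) (h2 : c.pos = c'.pos)
    (h3 : ∀ i, c.tape i = c'.tape i) : c = c' := by
  cases c
  cases c'
  simp only at h1 h2 h3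
  subst h1 h2
  congr 1
  funext i
  exact h3 i

theorem next_eq {A : LBA} {n : ℕ} {c : A.Cfg} {r : Option A.Γ} {s : A.Q} {o : Option A.Γ} {m : Mv}
    (c' : A.Cfg) (hr : A.rd n c = r) (h : A.step c.q r = (s, o, m))
    (h1 : s = c'.q) (h2 : shift n m c.pos = c'.pos)
    (h3 : ∀ i, (i = c.pos → 1 ≤ i → i ≤ n → o.getD (c.tape i) = c'.tape i) ∧
      (¬ (i = c.pos ∧ 1 ≤ i ∧ i ≤ n) → c.tape i = c'.tape i)) : A.next n c = c' := by
  subst hr
  apply Cfg.ext'
  · show (A.step c.q (A.rd n c)).1 = c'.q
    rw [h]; exact h1
  · show shift n (A.step c.q (A.rd n c)).2.2 c.pos = c'.pos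
    rw [h]; exact h2
  · intro i
    show (if i = c.pos ∧ 1 ≤ i ∧ i ≤ n then
      ((A.step c.q (A.rd n c)).2.1).getD (c.tape i) else c.tape i) = c'.tape i
    rw [h]
    by_cases hi : i = c.pos ∧ 1 ≤ i ∧ i ≤ n
    · rw [if_pos hi]; exact (h3 i).1 hi.1 hi.2.1 hi.2.2
    · rw [if_neg hi]; exact (h3 i).2 hi

theorem rd_pos {A : LBA} {n : ℕ} (c : A.Cfg) (h : 1 ≤ c.pos ∧ c.pos ≤ n) :
    A.rd n c = some (c.tape c.pos) := if_pos h

theorem rd_neg {A : LBA} {n : ℕ} (c : A.Cfg) (h : ¬ (1 ≤ c.pos ∧ c.pos ≤ n)) :
    A.rd n c = none := if_neg h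

end LBA

/-- The automaton executing goto code. States: `none` is the initial checking state,
`some (pc, b)` a scanning (`b = true`) or returning (`b = false`) head. The symbol `none` is the
bad input symbol. -/
def gLBA (K D M : ℕ) (C : ℕ → Ins) (a : Fin (M + 1)) : LBA where
  Q := Option (Option (Hd M))
  finQ := inferInstance
  Γ := Option (Dig K D)
  finΓ := inferInstance
  inp := fun x => if x then some (dig0 K D) else none
  start := none
  acc := fun s => ∃ m, s = some (some (a, m))
  step := fun s r =>
    match s, r with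
    -- initial state on the left end marker: start checking
    | none, none => (some none, none, .right)
    | none, some _ => (none, none, .stay)
    -- checking
    | some none, some (some _) => (some none, none, .right)
    | some none, some none => (none, none, .stay)
    | some none, none => (some (some (0, false)), none, .left)
    -- scanning
    | some (some (pc, true)), some (some d) =>
        match (act M C pc d).2 with
        | some q => (some (some (q, false)), some (some (act M C pc d).1), .stay)
        | none => (some (some (pc, true)), some (some (act M C pc d).1), .right)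
    | some (some (pc, true)), some none => (none, none, .stay)
    | some (some (pc, true)), none => (some (some (endp M C pc, false)), none, .left)
    -- returning
    | some (some (pc, false)), some _ => (some (some (pc, false)), none, .left)
    | some (some (pc, false)), none => (some (some (pc, true)), none, .right)

/-- standard configurations -/
def gcfg {K D M : ℕ} (C : ℕ → Ins) (a : Fin (M + 1)) (G : ℕ → Dig K D) (h : ℕ) (hd : Hd M) :
    (gLBA K D M C a).Cfg :=
  { q := some (some hd), pos := h, tape := fun i => some (G i) }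

section

variable {K D M : ℕ} (C : ℕ → Ins) (a : Fin (M + 1)) (n : ℕ)

theorem rd_in (G : ℕ → Dig K D) (h : ℕ) (hd : Hd M) (hh : 1 ≤ h ∧ h ≤ n) :
    (gLBA K D M C a).rd n (gcfg C a G h hd) = some (some (G h)) := if_pos hh

theorem rd_out (G : ℕ → Dig K D) (h : ℕ) (hd : Hd M) (hh : ¬ (1 ≤ h ∧ h ≤ n)) :
    (gLBA K D M C a).rd n (gcfg C a G h hd) = none := if_neg hh

theorem g_stop (G : ℕ → Dig K D) (h : ℕ) (pc q : Fin (M + 1)) (hh : 1 ≤ h ∧ h ≤ n)
    (hq : (act M C pc (G h)).2 = some q) :
    (gLBA K D M C a).next n (gcfg C a G h (pc, true)) =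
      gcfg C a (Function.update G h (act M C pc (G h)).1) h (q, false) := by
  have hst : (gLBA K D M C a).step (some (some (pc, true))) (some (some (G h))) =
      (some (some (q, false)), some (some (act M C pc (G h)).1), Mv.stay) := by
    simp only [gLBA, hq]
  refine LBA.next_eq _ (rd_in C a n G h _ hh) hst rfl rfl (fun i => ⟨fun hi _ _ => ?_, fun hi => ?_⟩)
  · have hi' : i = h := hi
    subst hi'
    show some _ = some (Function.update G i (act M C pc (G i)).1 i)
    rw [Function.update_self]
  · have hi' : i ≠ h := fun h' => hi ⟨h', by omega⟩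
    show some (G i) = some (Function.update G h (act M C pc (G h)).1 i)
    rw [Function.update_of_ne hi']

theorem g_go (G : ℕ → Dig K D) (h : ℕ) (pc : Fin (M + 1)) (hh : 1 ≤ h ∧ h ≤ n)
    (hq : (act M C pc (G h)).2 = none) :
    (gLBA K D M C a).next n (gcfg C a G h (pc, true)) =
      gcfg C a (Function.update G h (act M C pc (G h)).1) (h + 1) (pc, true) := by
  have hst : (gLBA K D M C a).step (some (some (pc, true))) (some (some (G h))) =
      (some (some (pc, true)), some (some (act M C pc (G h)).1), Mv.right) := by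
    simp only [gLBA, hq]
  refine LBA.next_eq _ (rd_in C a n G h _ hh) hst rfl ?_
    (fun i => ⟨fun hi _ _ => ?_, fun hi => ?_⟩)
  · show min (h + 1) (n + 1) = h + 1
    omega
  · have hi' : i = h := hi
    subst hi'
    show some _ = some (Function.update G i (act M C pc (G i)).1 i)
    rw [Function.update_self]
  · have hi' : i ≠ h := fun h' => hi ⟨h', by omega⟩
    show some (G i) = some (Function.update G h (act M C pc (G h)).1 i)
    rw [Function.update_of_ne hi']

theorem g_end (G : ℕ → Dig K D) (pc : Fin (M + 1)) :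
    (gLBA K D M C a).next n (gcfg C a G (n + 1) (pc, true)) =
      gcfg C a G n (endp M C pc, false) :=
  LBA.next_eq (s := some (some (endp M C pc, false))) (o := none) (m := Mv.left) _
    (rd_out C a n G (n + 1) _ (by omega)) rfl rfl rfl
    (fun i => ⟨fun hi _ _ => rfl, fun hi => rfl⟩)

theorem g_back (G : ℕ → Dig K D) (h : ℕ) (pc : Fin (M + 1)) (hh : 1 ≤ h ∧ h ≤ n) :
    (gLBA K D M C a).next n (gcfg C a G h (pc, false)) = gcfg C a G (h - 1) (pc, false) :=
  LBA.next_eq (s := some (some (pc, false))) (o := none) (m := Mv.left) _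
    (rd_in C a n G h _ hh) rfl rfl rfl
    (fun i => ⟨fun hi _ _ => rfl, fun hi => rfl⟩)

theorem g_back0 (G : ℕ → Dig K D) (pc : Fin (M + 1)) :
    (gLBA K D M C a).next n (gcfg C a G 0 (pc, false)) = gcfg C a G 1 (pc, true) :=
  LBA.next_eq (s := some (some (pc, true))) (o := none) (m := Mv.right) _
    (rd_out C a n G 0 _ (by omega)) rfl rfl
    (by show min (0 + 1) (n + 1) = 1; omega)
    (fun i => ⟨fun hi _ _ => rfl, fun hi => rfl⟩)

/-- reachability -/
def LReach (c c' : (gLBA K D M C a).Cfg) : Prop := ∃ t, ((gLBA K D M C a).next n)^[t] c = c'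

variable {C a n}

theorem LReach.refl (c : (gLBA K D M C a).Cfg) : LReach C a n c c := ⟨0, rfl⟩

theorem LReach.trans {c c' c'' : (gLBA K D M C a).Cfg} (h1 : LReach C a n c c')
    (h2 : LReach C a n c' c'') : LReach C a n c c'' := by
  obtain ⟨t, ht⟩ := h1
  obtain ⟨s, hs⟩ := h2
  refine ⟨s + t, ?_⟩
  rw [Function.iterate_add_apply, ht, hs]

theorem LReach.of {c c' : (gLBA K D M C a).Cfg} (h : (gLBA K D M C a).next n c = c') :
    LReach C a n c c' := ⟨1, h⟩

variable (C a n)

theorem lreach_back (G : ℕ → Dig K D) (pc : Fin (M + 1)) :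
    ∀ h, h ≤ n → LReach C a n (gcfg C a G h (pc, false)) (gcfg C a G 1 (pc, true)) := by
  intro h
  induction h with
  | zero => intro _; exact LReach.of (g_back0 C a n G pc)
  | succ h ih =>
    intro h2
    have h3 := g_back C a n G (h + 1) pc (by omega)
    rw [Nat.add_sub_cancel] at h3
    exact (LReach.of h3).trans (ih (by omega))

theorem lreach_inc (pc r : ℕ) (hpc : pc ≤ M) (hr : r < K)
    (hC : C pc = .inc r) : ∀ (m h : ℕ) (G : ℕ → Dig K D), h + m = n + 1 → 1 ≤ h →
    val G r m h + 1 < (D + 2) ^ m →
    ∃ G' h', LReach C a n (gcfg C a G h (nx M pc, true)) (gcfg C a G' h' (nx M (pc + 1), false)) ∧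
      h' ≤ n ∧ val G' r m h = val G r m h + 1 ∧ (∀ i < h, G' i = G i) ∧
      (∀ r' ≠ r, ∀ i, getD (G' i) r' = getD (G i) r') := by
  intro m
  induction m with
  | zero => intro h G _ _ hv; simp [val] at hv
  | succ m ih =>
    intro h G hm h1 hv
    have hpcv : ((nx M pc : Fin (M + 1)) : ℕ) = pc := nx_val M pc hpc
    by_cases hd : getD (G h) r = D + 1
    · have hact : act M C (nx M pc) (G h) = (setD (G h) r 0, none) := by
        unfold act
        rw [hpcv, hC]
        simp [hd]
      have hs := g_go C a n G h (nx M pc) (by omega) (by rw [hact])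
      rw [hact] at hs
      set G1 := Function.update G h (setD (G h) r 0) with hG1
      have hvG1 : val G1 r m (h + 1) = val G r m (h + 1) :=
        val_congr _ _ _ _ _ (fun i hi => by rw [hG1, Function.update_of_ne (by omega)])
      simp only [val, hd, pow_succ] at hv
      have hv' : val G1 r m (h + 1) + 1 < (D + 2) ^ m := by
        rw [hvG1]
        by_contra hcon
        push Not at hcon
        nlinarith
      obtain ⟨G', h', hR, hh2, hvv, hlo, hoth⟩ := ih (h + 1) G1 (by omega) (by omega) hv'
      refine ⟨G', h', (LReach.of hs).trans hR, hh2, ?_, ?_, ?_⟩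
      · simp only [val]
        rw [hvv, hvG1, hlo h (by omega), hd]
        rw [hG1, Function.update_self, getD_set _ _ _ hr (by omega)]
        ring
      · intro i hi
        rw [hlo i (by omega), hG1, Function.update_of_ne (by omega)]
      · intro r' hr' i
        rw [hoth r' hr' i, hG1]
        by_cases hih : i = h
        · subst hih
          rw [Function.update_self, getD_set_ne _ _ _ _ hr']
        · rw [Function.update_of_ne hih]
    · have hlt := getD_lt (G h) r
      have hact : act M C (nx M pc) (G h) =
          (setD (G h) r (getD (G h) r + 1), some (nx M (pc + 1))) := by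
        unfold act
        rw [hpcv, hC]
        simp [hd]
      have hs := g_stop C a n G h (nx M pc) (nx M (pc + 1)) (by omega) (by rw [hact])
      rw [hact] at hs
      refine ⟨_, h, LReach.of hs, by omega, ?_, ?_, ?_⟩
      · simp only [val]
        rw [Function.update_self, getD_set _ _ _ hr (by omega)]
        rw [val_congr (Function.update G h (setD (G h) r (getD (G h) r + 1))) G r m (h + 1)
          (fun i hi => by rw [Function.update_of_ne (by omega)])]
        ring
      · intro i hi
        rw [Function.update_of_ne (by omega)]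
      · intro r' hr' i
        by_cases hih : i = h
        · subst hih
          rw [Function.update_self, getD_set_ne _ _ _ _ hr']
        · rw [Function.update_of_ne hih]

theorem lreach_dec (pc r : ℕ) (hpc : pc ≤ M) (hr : r < K)
    (hC : C pc = .dec r) : ∀ (m h : ℕ) (G : ℕ → Dig K D), h + m = n + 1 → 1 ≤ h →
    val G r m h ≠ 0 →
    ∃ G' h', LReach C a n (gcfg C a G h (nx M pc, true)) (gcfg C a G' h' (nx M (pc + 1), false)) ∧
      h' ≤ n ∧ val G' r m h = val G r m h - 1 ∧ (∀ i < h, G' i = G i) ∧
      (∀ r' ≠ r, ∀ i, getD (G' i) r' = getD (G i) r') := by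
  intro m
  induction m with
  | zero => intro h G _ _ hv; simp [val] at hv
  | succ m ih =>
    intro h G hm h1 hv
    have hpcv : ((nx M pc : Fin (M + 1)) : ℕ) = pc := nx_val M pc hpc
    by_cases hd : getD (G h) r = 0
    · have hact : act M C (nx M pc) (G h) = (setD (G h) r (D + 1), none) := by
        unfold act
        rw [hpcv, hC]
        simp [hd]
      have hs := g_go C a n G h (nx M pc) (by omega) (by rw [hact])
      rw [hact] at hs
      set G1 := Function.update G h (setD (G h) r (D + 1)) with hG1
      have hvG1 : val G1 r m (h + 1) = val G r m (h + 1) :=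
        val_congr _ _ _ _ _ (fun i hi => by rw [hG1, Function.update_of_ne (by omega)])
      simp only [val, hd] at hv
      have hv' : val G1 r m (h + 1) ≠ 0 := by
        rw [hvG1]
        intro hcon
        rw [hcon] at hv
        simp at hv
      obtain ⟨G', h', hR, hh2, hvv, hlo, hoth⟩ := ih (h + 1) G1 (by omega) (by omega) hv'
      refine ⟨G', h', (LReach.of hs).trans hR, hh2, ?_, ?_, ?_⟩
      · simp only [val]
        rw [hvv, hvG1, hlo h (by omega), hd]
        rw [hG1, Function.update_self, getD_set _ _ _ hr (by omega)]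
        rw [hvG1] at hv'
        obtain ⟨v, hvs⟩ := Nat.exists_eq_succ_of_ne_zero hv'
        rw [hvs]
        simp only [Nat.succ_eq_add_one, Nat.add_sub_cancel, zero_add]
        rw [Nat.mul_add]
        omega
      · intro i hi
        rw [hlo i (by omega), hG1, Function.update_of_ne (by omega)]
      · intro r' hr' i
        rw [hoth r' hr' i, hG1]
        by_cases hih : i = h
        · subst hih
          rw [Function.update_self, getD_set_ne _ _ _ _ hr']
        · rw [Function.update_of_ne hih]
    · have hlt := getD_lt (G h) r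
      have hact : act M C (nx M pc) (G h) =
          (setD (G h) r (getD (G h) r - 1), some (nx M (pc + 1))) := by
        unfold act
        rw [hpcv, hC]
        simp [hd]
      have hs := g_stop C a n G h (nx M pc) (nx M (pc + 1)) (by omega) (by rw [hact])
      rw [hact] at hs
      refine ⟨_, h, LReach.of hs, by omega, ?_, ?_, ?_⟩
      · simp only [val]
        rw [Function.update_self, getD_set _ _ _ hr (by omega)]
        rw [val_congr (Function.update G h (setD (G h) r (getD (G h) r - 1))) G r m (h + 1)
          (fun i hi => by rw [Function.update_of_ne (by omega)])]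
        omega
      · intro i hi
        rw [Function.update_of_ne (by omega)]
      · intro r' hr' i
        by_cases hih : i = h
        · subst hih
          rw [Function.update_self, getD_set_ne _ _ _ _ hr']
        · rw [Function.update_of_ne hih]

theorem lreach_jzn (pc r tg : ℕ) (hpc : pc ≤ M)
    (hC : C pc = .jz r tg) : ∀ (m h : ℕ) (G : ℕ → Dig K D), h + m = n + 1 → 1 ≤ h →
    val G r m h ≠ 0 →
    ∃ h', LReach C a n (gcfg C a G h (nx M pc, true)) (gcfg C a G h' (nx M (pc + 1), false)) ∧
      h' ≤ n := by
  intro m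
  induction m with
  | zero => intro h G _ _ hv; simp [val] at hv
  | succ m ih =>
    intro h G hm h1 hv
    have hpcv : ((nx M pc : Fin (M + 1)) : ℕ) = pc := nx_val M pc hpc
    by_cases hd : getD (G h) r = 0
    · have hact : act M C (nx M pc) (G h) = (G h, none) := by
        unfold act
        rw [hpcv, hC]
        simp [hd]
      have hs := g_go C a n G h (nx M pc) (by omega) (by rw [hact])
      rw [hact, Function.update_eq_self] at hs
      simp only [val, hd] at hv
      have hv' : val G r m (h + 1) ≠ 0 := by
        intro hcon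
        rw [hcon] at hv
        simp at hv
      obtain ⟨h', hR, hh2⟩ := ih (h + 1) G (by omega) (by omega) hv'
      exact ⟨h', (LReach.of hs).trans hR, hh2⟩
    · have hact : act M C (nx M pc) (G h) = (G h, some (nx M (pc + 1))) := by
        unfold act
        rw [hpcv, hC]
        simp [hd]
      have hs := g_stop C a n G h (nx M pc) (nx M (pc + 1)) (by omega) (by rw [hact])
      rw [hact, Function.update_eq_self] at hs
      exact ⟨h, LReach.of hs, by omega⟩

theorem lreach_jzz (pc r tg : ℕ) (hpc : pc ≤ M)
    (hC : C pc = .jz r tg) : ∀ (m h : ℕ) (G : ℕ → Dig K D), h + m = n + 1 → 1 ≤ h →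
    val G r m h = 0 →
    LReach C a n (gcfg C a G h (nx M pc, true)) (gcfg C a G n (nx M tg, false)) := by
  intro m
  induction m with
  | zero =>
    intro h G hm h1 hv
    have hpcv : ((nx M pc : Fin (M + 1)) : ℕ) = pc := nx_val M pc hpc
    have : h = n + 1 := by omega
    subst this
    have hs := g_end C a n G (nx M pc)
    have he : endp M C (nx M pc) = nx M tg := by
      unfold endp
      rw [hpcv, hC]
    rw [he] at hs
    exact LReach.of hs
  | succ m ih =>
    intro h G hm h1 hv
    have hpcv : ((nx M pc : Fin (M + 1)) : ℕ) = pc := nx_val M pc hpc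
    have hv2 : getD (G h) r + (D + 2) * val G r m (h + 1) = 0 := hv
    have hd : getD (G h) r = 0 := by omega
    have hd' : val G r m (h + 1) = 0 := by
      rw [hd, zero_add] at hv2
      rcases Nat.mul_eq_zero.1 hv2 with h3 | h3
      · omega
      · exact h3
    have hact : act M C (nx M pc) (G h) = (G h, none) := by
      unfold act
      rw [hpcv, hC]
      simp [hd]
    have hs := g_go C a n G h (nx M pc) (by omega) (by rw [hact])
    rw [hact, Function.update_eq_self] at hs
    exact (LReach.of hs).trans (ih (h + 1) G (by omega) (by omega) hd')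

theorem lreach_step {N : ℕ} (hn : 1 ≤ n) (hN : N < (D + 2) ^ n)
    (hK : ∀ pc ≤ M, (C pc).reg < K) {pc pc' : ℕ} {σ σ' : ℕ → ℕ}
    (h : GStep M N C pc σ pc' σ') (G : ℕ → Dig K D) (hG : Rep n G σ) :
    ∃ G' : ℕ → Dig K D, Rep n G' σ' ∧
      LReach C a n (gcfg C a G 1 (nx M pc, true)) (gcfg C a G' 1 (nx M pc', true)) := by
  cases h with
  | inc hC hM h =>
    rename_i r
    have hr : r < K := by have := hK pc (by omega); rw [hC] at this; exact this
    obtain ⟨G', h', hR, hh2, hvv, _, hoth⟩ := lreach_inc C a n pc r (by omega) hr hC n 1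
      G (by omega) le_rfl (by rw [hG r hr]; omega)
    refine ⟨G', ?_, hR.trans (lreach_back C a n G' _ h' hh2)⟩
    intro r' hr'
    by_cases hrr : r' = r
    · subst hrr
      rw [hvv, hG r' hr', Function.update_self]
    · rw [Function.update_of_ne hrr, ← hG r' hr']
      exact val_congr _ _ _ _ _ (fun i _ => hoth r' hrr i)
  | dec hC hM h =>
    rename_i r
    have hr : r < K := by have := hK pc (by omega); rw [hC] at this; exact this
    obtain ⟨G', h', hR, hh2, hvv, _, hoth⟩ := lreach_dec C a n pc r (by omega) hr hC n 1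
      G (by omega) le_rfl (by rw [hG r hr]; exact h)
    refine ⟨G', ?_, hR.trans (lreach_back C a n G' _ h' hh2)⟩
    intro r' hr'
    by_cases hrr : r' = r
    · subst hrr
      rw [hvv, hG r' hr', Function.update_self]
    · rw [Function.update_of_ne hrr, ← hG r' hr']
      exact val_congr _ _ _ _ _ (fun i _ => hoth r' hrr i)
  | jzz hC hM hM' h =>
    rename_i r
    have hr : r < K := by have := hK pc (by omega); rw [hC] at this; exact this
    have := lreach_jzz C a n pc r pc' (by omega) hC n 1 G (by omega) le_rfl (by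
      rw [hG r hr]; exact h)
    exact ⟨G, hG, this.trans (lreach_back C a n G _ n le_rfl)⟩
  | jzn hC hM h =>
    rename_i r t
    have hr : r < K := by have := hK pc (by omega); rw [hC] at this; exact this
    obtain ⟨h', hR, hh2⟩ := lreach_jzn C a n pc r t (by omega) hC n 1 G (by omega)
      le_rfl (by rw [hG r hr]; exact h)
    exact ⟨G, hG, hR.trans (lreach_back C a n G _ h' hh2)⟩
  | jmp hC hM hM' =>
    have hpcv : ((nx M pc : Fin (M + 1)) : ℕ) = pc := nx_val M pc hM
    have hact : act M C (nx M pc) (G 1) = (G 1, some (nx M pc')) := by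
      unfold act
      rw [hpcv, hC]
    have hs := g_stop C a n G 1 (nx M pc) (nx M pc') (by omega) (by rw [hact])
    rw [hact, Function.update_eq_self] at hs
    exact ⟨G, hG, (LReach.of hs).trans (lreach_back C a n G _ 1 hn)⟩

theorem lreach_steps {N : ℕ} (hn : 1 ≤ n) (hN : N < (D + 2) ^ n)
    (hK : ∀ pc ≤ M, (C pc).reg < K) {pc pc' : ℕ} {σ σ' : ℕ → ℕ}
    (h : GSteps M N C pc σ pc' σ') (G : ℕ → Dig K D) (hG : Rep n G σ) :
    ∃ G' : ℕ → Dig K D, Rep n G' σ' ∧
      LReach C a n (gcfg C a G 1 (nx M pc, true)) (gcfg C a G' 1 (nx M pc', true)) := by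
  induction h with
  | refl => exact ⟨G, hG, LReach.refl _⟩
  | tail _ h ih =>
    obtain ⟨G1, hG1, hR1⟩ := ih hG
    obtain ⟨G2, hG2, hR2⟩ := lreach_step C a n hn hN hK h G1 hG1
    exact ⟨G2, hG2, hR1.trans hR2⟩

/-- configurations agreeing on the tape cells -/
def Same (c c' : (gLBA K D M C a).Cfg) : Prop :=
  c.q = c'.q ∧ c.pos = c'.pos ∧ ∀ i, 1 ≤ i → i ≤ n → c.tape i = c'.tape i

theorem same_next {c c' : (gLBA K D M C a).Cfg} (h : Same C a n c c') :
    Same C a n ((gLBA K D M C a).next n c) ((gLBA K D M C a).next n c') := by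
  obtain ⟨h1, h2, h3⟩ := h
  have hr : (gLBA K D M C a).rd n c = (gLBA K D M C a).rd n c' := by
    unfold LBA.rd
    rw [← h2]
    by_cases hh : 1 ≤ c.pos ∧ c.pos ≤ n
    · rw [if_pos hh, if_pos hh, h3 _ hh.1 hh.2]
    · rw [if_neg hh, if_neg hh]
  refine ⟨?_, ?_, ?_⟩
  · show ((gLBA K D M C a).step c.q ((gLBA K D M C a).rd n c)).1 =
      ((gLBA K D M C a).step c'.q ((gLBA K D M C a).rd n c')).1
    rw [hr, h1]
  · unfold LBA.next
    simp only [hr, h1, h2]
  · intro i hi1 hi2
    unfold LBA.next
    simp only [hr, h1, h2, h3 i hi1 hi2]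

theorem same_iter {c c' : (gLBA K D M C a).Cfg} (h : Same C a n c c') (t : ℕ) :
    Same C a n (((gLBA K D M C a).next n)^[t] c) (((gLBA K D M C a).next n)^[t] c') := by
  induction t with
  | zero => exact h
  | succ t ih =>
    rw [Function.iterate_succ_apply', Function.iterate_succ_apply']
    exact same_next C a n ih

/-- self loops: from `gcfg G 1 (a', true)` the machine keeps the code address `a'` -/
theorem lloop (a' : ℕ) (ha : a' ≤ M) (hC : C a' = .jmp a') (hn : 1 ≤ n) (G : ℕ → Dig K D)
    (t : ℕ) : ∃ h b, ((gLBA K D M C a).next n)^[t] (gcfg C a G 1 (nx M a', true)) =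
      gcfg C a G h (nx M a', b) ∧ ((h ≤ 1 ∧ b = false) ∨ (h = 1 ∧ b = true)) := by
  induction t with
  | zero => exact ⟨1, true, rfl, Or.inr ⟨rfl, rfl⟩⟩
  | succ t ih =>
    obtain ⟨h, b, he, hb⟩ := ih
    rw [Function.iterate_succ_apply', he]
    rcases hb with ⟨h1, h2⟩ | ⟨h1, h2⟩
    · subst h2
      rcases Nat.eq_zero_or_pos h with h0 | h0
      · subst h0
        exact ⟨1, true, g_back0 C a n G _, Or.inr ⟨rfl, rfl⟩⟩
      · have : h = 1 := by omega
        subst this
        exact ⟨0, false, g_back C a n G 1 _ (by omega), Or.inl ⟨by omega, rfl⟩⟩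
    · subst h1 h2
      have hact : act M C (nx M a') (G 1) = (G 1, some (nx M a')) := by
        unfold act
        rw [nx_val M a' ha, hC]
      have hs := g_stop C a n G 1 (nx M a') (nx M a') (by omega) (by rw [hact])
      rw [hact, Function.update_eq_self] at hs
      exact ⟨1, false, hs, Or.inl ⟨le_rfl, rfl⟩⟩

/-- the checking phase on good inputs -/
theorem check_good (hn : 1 ≤ n) : LReach C a n
    { q := none, pos := 0, tape := fun _ => some (dig0 K D) }
    (gcfg C a (fun _ => dig0 K D) n (nx M 0, false)) := by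
  have h1 : ∀ m, m ≤ n → LReach C a n
      { q := some none, pos := n + 1 - m, tape := fun _ => some (dig0 K D) }
      { q := some none, pos := n + 1, tape := fun _ => some (dig0 K D) } := by
    intro m
    induction m with
    | zero => intro _; exact LReach.refl _
    | succ m ih =>
      intro hm
      refine LReach.trans (LReach.of ?_) (ih (by omega))
      exact LBA.next_eq (r := some (some (dig0 K D))) (s := some none) (o := none)
        (m := Mv.right) _ (LBA.rd_pos _ (by
          show 1 ≤ n + 1 - (m + 1) ∧ n + 1 - (m + 1) ≤ n; omega)) rfl rfl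
        (by show min (n + 1 - (m + 1) + 1) (n + 1) = n + 1 - m; omega)
        (fun i => ⟨fun hi _ _ => rfl, fun hi => rfl⟩)
  have h2 : LReach C a n
      { q := none, pos := 0, tape := fun _ => some (dig0 K D) }
      { q := some none, pos := n + 1 - n, tape := fun _ => some (dig0 K D) } := by
    refine LReach.of ?_
    exact LBA.next_eq (r := none) (s := some none) (o := none)
        (m := Mv.right) _ (if_neg (by simp only; omega)) rfl rfl
        (by show min (0 + 1) (n + 1) = n + 1 - n; omega)
        (fun i => ⟨fun hi _ _ => rfl, fun hi => rfl⟩)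
  refine h2.trans ((h1 n le_rfl).trans (LReach.of ?_))
  exact LBA.next_eq (r := none) (s := some (some (0, false))) (o := none)
        (m := Mv.left) _ (if_neg (by simp only; omega)) rfl rfl rfl
        (fun i => ⟨fun hi _ _ => rfl, fun hi => rfl⟩)

/-- invariant on bad inputs -/
def BadInv (T : ℕ → Option (Dig K D)) (j : ℕ) (c : (gLBA K D M C a).Cfg) : Prop :=
  (c.q = none ∧ c = { q := none, pos := 0, tape := T }) ∨
  (∃ p, 1 ≤ p ∧ p ≤ j ∧ c = { q := some none, pos := p, tape := T }) ∨
  (∃ p, 1 ≤ p ∧ p ≤ n ∧ c = { q := none, pos := p, tape := T })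

theorem check_bad_step (T : ℕ → Option (Dig K D)) (j : ℕ) (hj : 1 ≤ j ∧ j ≤ n) (hT : T j = none)
    (c : (gLBA K D M C a).Cfg) (hc : BadInv C a n T j c) :
    BadInv C a n T j ((gLBA K D M C a).next n c) := by
  rcases hc with ⟨_, hc⟩ | ⟨p, hp1, hp2, hc⟩ | ⟨p, hp1, hp2, hc⟩
  · subst hc
    refine Or.inr (Or.inl ⟨1, le_rfl, hj.1, ?_⟩)
    exact LBA.next_eq (r := none) (s := some none) (o := none)
        (m := Mv.right) _ (if_neg (by simp only; omega)) rfl rfl
        (by show min (0 + 1) (n + 1) = 1; omega)
        (fun i => ⟨fun hi _ _ => rfl, fun hi => rfl⟩)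
  · subst hc
    cases hp : T p with
    | none =>
      refine Or.inr (Or.inr ⟨p, hp1, by omega, ?_⟩)
      exact LBA.next_eq (r := some none) (s := none) (o := none)
        (m := Mv.stay) _ ((if_pos (by simp only; omega)).trans (congrArg some hp)) rfl rfl rfl
        (fun i => ⟨fun hi _ _ => rfl, fun hi => rfl⟩)
    | some d =>
      have hne : p ≠ j := by
        intro h
        subst h
        rw [hT] at hp
        exact absurd hp (by simp)
      refine Or.inr (Or.inl ⟨p + 1, by omega, by omega, ?_⟩)
      exact LBA.next_eq (r := some (some d)) (s := some none) (o := none)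
        (m := Mv.right) _ ((if_pos (by simp only; omega)).trans (congrArg some hp)) rfl rfl
        (by show min (p + 1) (n + 1) = p + 1; omega)
        (fun i => ⟨fun hi _ _ => rfl, fun hi => rfl⟩)
  · subst hc
    refine Or.inr (Or.inr ⟨p, hp1, hp2, ?_⟩)
    exact LBA.next_eq (r := some (T p)) (s := none) (o := none)
        (m := Mv.stay) _ (LBA.rd_pos _ (by show 1 ≤ p ∧ p ≤ n; omega)) rfl rfl rfl
        (fun i => ⟨fun hi _ _ => rfl, fun hi => rfl⟩)

theorem check_bad (T : ℕ → Option (Dig K D)) (j : ℕ) (hj : 1 ≤ j ∧ j ≤ n) (hT : T j = none)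
    (t : ℕ) :
    BadInv C a n T j (((gLBA K D M C a).next n)^[t] { q := none, pos := 0, tape := T }) := by
  induction t with
  | zero => exact Or.inl ⟨rfl, rfl⟩
  | succ t ih =>
    rw [Function.iterate_succ_apply']
    exact check_bad_step C a n T j hj hT _ ih

/-- invariant of the configurations on good inputs -/
def GInv (c : (gLBA K D M C a).Cfg) : Prop :=
  (∀ i, 1 ≤ i → i ≤ n → ∃ d, c.tape i = some d) ∧
  (∀ pc : Fin (M + 1), c.q = some (some (pc, false)) → c.pos ≤ n) ∧
  (c.q = some (some (a, true)) → 1 ≤ c.pos ∧ c.pos ≤ n) ∧ c.pos ≤ n + 1 ∧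
  (c.q = some none → 1 ≤ c.pos)

theorem step_out (s : Option (Option (Hd M))) (r : Option (Option (Dig K D))) :
    ((gLBA K D M C a).step s r).2.1 = none ∨
      ∃ d, ((gLBA K D M C a).step s r).2.1 = some (some d) := by
  rcases s with _ | _ | ⟨pc, _ | _⟩ <;> rcases r with _ | _ | d
  all_goals try exact Or.inl rfl
  cases hact : (act M C pc d).2 with
  | none =>
    have h : (gLBA K D M C a).step (some (some (pc, true))) (some (some d)) =
        (some (some (pc, true)), some (some (act M C pc d).1), Mv.right) := by
      simp only [gLBA, hact]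
    exact Or.inr ⟨_, congrArg (fun z => z.2.1) h⟩
  | some q =>
    have h : (gLBA K D M C a).step (some (some (pc, true))) (some (some d)) =
        (some (some (q, false)), some (some (act M C pc d).1), Mv.stay) := by
      simp only [gLBA, hact]
    exact Or.inr ⟨_, congrArg (fun z => z.2.1) h⟩

theorem ginv_next (a0 : ℕ) (ha : a0 ≤ M) (haa : a = nx M a0) (hC : C a0 = .jmp a0) (hn : 1 ≤ n)
    (c : (gLBA K D M C a).Cfg) (hc : GInv C a n c) :
    GInv C a n ((gLBA K D M C a).next n c) ∧
      ((∃ b, c.q = some (some (a, b))) →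
        ∃ b, ((gLBA K D M C a).next n c).q = some (some (a, b))) := by
  obtain ⟨q, pos, tape⟩ := c
  obtain ⟨h1, h2, h3, h4, h7⟩ := hc
  simp only at h1 h2 h3 h4 h7
  have hT : ∀ i, 1 ≤ i → i ≤ n → ∃ d,
      ((gLBA K D M C a).next n ⟨q, pos, tape⟩).tape i = some d := by
    intro i hi1 hi2
    show ∃ d, (if i = pos ∧ 1 ≤ i ∧ i ≤ n then
      (((gLBA K D M C a).step q ((gLBA K D M C a).rd n ⟨q, pos, tape⟩)).2.1).getD (tape i)
      else tape i) = some d
    split_ifs with h5
    · rcases step_out C a q ((gLBA K D M C a).rd n ⟨q, pos, tape⟩) with h6 | ⟨d, h6⟩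
      · rw [h6]; exact h1 i hi1 hi2
      · rw [h6]; exact ⟨d, rfl⟩
    · exact h1 i hi1 hi2
  have hqn : ((gLBA K D M C a).next n ⟨q, pos, tape⟩).q =
    ((gLBA K D M C a).step q ((gLBA K D M C a).rd n ⟨q, pos, tape⟩)).1 := rfl
  have hpn : ((gLBA K D M C a).next n ⟨q, pos, tape⟩).pos = LBA.shift n
    ((gLBA K D M C a).step q ((gLBA K D M C a).rd n ⟨q, pos, tape⟩)).2.2 pos := rfl
  have hp4 : ((gLBA K D M C a).next n ⟨q, pos, tape⟩).pos ≤ n + 1 := by
    rw [hpn]
    unfold LBA.shift
    split <;> omega
  by_cases hin : 1 ≤ pos ∧ pos ≤ n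
  · obtain ⟨d, hd⟩ := h1 pos hin.1 hin.2
    have hrd : (gLBA K D M C a).rd n ⟨q, pos, tape⟩ = some (some d) := by
      rw [LBA.rd_pos _ hin]; exact congrArg some hd
    rw [hrd] at hqn hpn
    rcases q with _ | _ | ⟨pc, _ | _⟩
    · -- none
      have e1 : ((gLBA K D M C a).next n ⟨none, pos, tape⟩).q = none := hqn
      refine ⟨⟨hT, ?_, ?_, hp4, ?_⟩, ?_⟩
      · intro pc h; rw [e1] at h; cases h
      · intro h; rw [e1] at h; cases h
      · intro h; rw [e1] at h; cases h
      · rintro ⟨b, h⟩; cases h
    · have e1 : ((gLBA K D M C a).next n ⟨some none, pos, tape⟩).q = some none := hqn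
      have e2 : ((gLBA K D M C a).next n ⟨some none, pos, tape⟩).pos = min (pos + 1) (n + 1) :=
        hpn
      refine ⟨⟨hT, ?_, ?_, hp4, ?_⟩, ?_⟩
      · intro pc h; rw [e1] at h; cases h
      · intro h; rw [e1] at h; cases h
      · intro h; rw [e2]; omega
      · rintro ⟨b, h⟩; cases h
    · have e1 : ((gLBA K D M C a).next n ⟨some (some (pc, false)), pos, tape⟩).q =
        some (some (pc, false)) := hqn
      have e2 : ((gLBA K D M C a).next n ⟨some (some (pc, false)), pos, tape⟩).pos = pos - 1 :=
        hpn
      refine ⟨⟨hT, ?_, ?_, hp4, ?_⟩, ?_⟩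
      · intro pc' h; rw [e2]; omega
      · intro h; rw [e1] at h; cases h
      · intro h; rw [e1] at h; cases h
      · rintro ⟨b, h⟩
        rw [e1]
        cases h
        exact ⟨false, rfl⟩
    · cases hact : (act M C pc d).2 with
      | none =>
        have hst : (gLBA K D M C a).step (some (some (pc, true))) (some (some d)) =
            (some (some (pc, true)), some (some (act M C pc d).1), Mv.right) := by
          simp only [gLBA, hact]
        have e1 : ((gLBA K D M C a).next n ⟨some (some (pc, true)), pos, tape⟩).q =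
          some (some (pc, true)) := hqn.trans (congrArg (fun z => z.1) hst)
        have hpca : pc ≠ a := by
          intro h
          subst h
          have : act M C pc d = (d, some (nx M a0)) := by
            unfold act
            rw [haa, nx_val M a0 ha, hC]
          rw [this] at hact
          cases hact
        refine ⟨⟨hT, ?_, ?_, hp4, ?_⟩, ?_⟩
        · intro pc' h; rw [e1] at h; cases h
        · intro h; rw [e1] at h; cases h; exact absurd rfl hpca
        · intro h; rw [e1] at h; cases h
        · rintro ⟨b, h⟩; cases h; exact absurd rfl hpca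
      | some q =>
        have hst : (gLBA K D M C a).step (some (some (pc, true))) (some (some d)) =
            (some (some (q, false)), some (some (act M C pc d).1), Mv.stay) := by
          simp only [gLBA, hact]
        have e1 : ((gLBA K D M C a).next n ⟨some (some (pc, true)), pos, tape⟩).q =
          some (some (q, false)) := hqn.trans (congrArg (fun z => z.1) hst)
        have e2 : ((gLBA K D M C a).next n ⟨some (some (pc, true)), pos, tape⟩).pos = pos :=
          hpn.trans (congrArg (fun z => LBA.shift n z.2.2 pos) hst)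
        refine ⟨⟨hT, ?_, ?_, hp4, ?_⟩, ?_⟩
        · intro pc' h; rw [e2]; omega
        · intro h; rw [e1] at h; cases h
        · intro h; rw [e1] at h; cases h
        · rintro ⟨b, h⟩
          cases h
          have : act M C a d = (d, some (nx M a0)) := by
            unfold act
            rw [haa, nx_val M a0 ha, hC]
          rw [this] at hact
          rw [e1]
          refine ⟨false, ?_⟩
          rw [haa]
          simp only [Option.some.injEq] at hact
          rw [hact]
  · have hrd : (gLBA K D M C a).rd n ⟨q, pos, tape⟩ = none := LBA.rd_neg _ hin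
    rw [hrd] at hqn hpn
    rcases q with _ | _ | ⟨pc, _ | _⟩
    · have e1 : ((gLBA K D M C a).next n ⟨none, pos, tape⟩).q = some none := hqn
      have e2 : ((gLBA K D M C a).next n ⟨none, pos, tape⟩).pos = min (pos + 1) (n + 1) :=
        hpn
      refine ⟨⟨hT, ?_, ?_, hp4, ?_⟩, ?_⟩
      · intro pc h; rw [e1] at h; cases h
      · intro h; rw [e1] at h; cases h
      · intro h; rw [e2]; omega
      · rintro ⟨b, h⟩; cases h
    · have e1 : ((gLBA K D M C a).next n ⟨some none, pos, tape⟩).q = some (some (0, false)) :=
        hqn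
      have e2 : ((gLBA K D M C a).next n ⟨some none, pos, tape⟩).pos = pos - 1 := hpn
      refine ⟨⟨hT, ?_, ?_, hp4, ?_⟩, ?_⟩
      · intro pc h; rw [e2]; omega
      · intro h; rw [e1] at h; cases h
      · intro h; rw [e1] at h; cases h
      · rintro ⟨b, h⟩; cases h
    · have e1 : ((gLBA K D M C a).next n ⟨some (some (pc, false)), pos, tape⟩).q =
        some (some (pc, true)) := hqn
      have e2 : ((gLBA K D M C a).next n ⟨some (some (pc, false)), pos, tape⟩).pos =
        min (pos + 1) (n + 1) := hpn
      have hp : pos ≤ n := h2 pc rfl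
      have hp0 : pos = 0 := by omega
      refine ⟨⟨hT, ?_, ?_, hp4, ?_⟩, ?_⟩
      · intro pc' h; rw [e1] at h; cases h
      · intro h; rw [e2]; omega
      · intro h; rw [e1] at h; cases h
      · rintro ⟨b, h⟩
        rw [e1]
        cases h
        exact ⟨true, rfl⟩
    · have e1 : ((gLBA K D M C a).next n ⟨some (some (pc, true)), pos, tape⟩).q =
        some (some (endp M C pc, false)) := hqn
      have e2 : ((gLBA K D M C a).next n ⟨some (some (pc, true)), pos, tape⟩).pos =
        pos - 1 := hpn
      refine ⟨⟨hT, ?_, ?_, hp4, ?_⟩, ?_⟩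
      · intro pc' h; rw [e2]; omega
      · intro h; rw [e1] at h; cases h
      · intro h; rw [e1] at h; cases h
      · rintro ⟨b, h⟩
        cases h
        exact absurd (h3 rfl) hin

theorem ginv_iter (a0 : ℕ) (ha : a0 ≤ M) (haa : a = nx M a0) (hC : C a0 = .jmp a0) (hn : 1 ≤ n)
    (c : (gLBA K D M C a).Cfg) (hc : GInv C a n c) (t : ℕ) :
    GInv C a n (((gLBA K D M C a).next n)^[t] c) ∧
      ((∃ b, c.q = some (some (a, b))) →
        ∃ b, (((gLBA K D M C a).next n)^[t] c).q = some (some (a, b))) := by
  induction t with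
  | zero => exact ⟨hc, fun h => h⟩
  | succ t ih =>
    rw [Function.iterate_succ_apply']
    obtain ⟨h1, h2⟩ := ginv_next C a n a0 ha haa hC hn _ ih.1
    exact ⟨h1, fun h => h2 (ih.2 h)⟩

end

/-- every `LS` function gives a tally language accepted by a linear bounded automaton -/
theorem ls_lba {F : ℕ → ℕ → ℕ} (hF : LS (fun ρ => F (ρ 0) (ρ 1))) :
    ∃ A : LBA, (∀ w : List Bool, A.Acc w → ∀ x ∈ w, x = true) ∧
      ∀ n, 1 ≤ n → (A.Acc (List.replicate n true) ↔ F (2 ^ n) n ≠ 0) := by
  obtain ⟨D, P, hP⟩ := ls_prg hF
  set l := comp P 0 with hl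
  set A := l.length with hA
  set L := l ++ [Ins.jz 3 (A + 2), Ins.jmp (A + 1), Ins.jmp (A + 2)] with hL
  obtain ⟨K', hK'⟩ := exists_reg_bound L
  set K := max K' 4 with hKdef
  set C : ℕ → Ins := fun i => L.getD i (Ins.jmp 0) with hC
  set M := A + 2 with hM
  have hlen : L.length = A + 3 := by simp [hL, hA]
  have hCreg : ∀ pc ≤ M, (C pc).reg < K := by
    intro pc hpc
    have h1 : C pc = L[pc]'(by omega) := by
      simp only [hC]
      rw [List.getD_eq_getElem _ _ (by omega)]
    rw [h1]
    have := hK' (L[pc]'(by omega)) (List.getElem_mem _)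
    omega
  have hAt : At C 0 l := by
    intro i hi
    simp only [hC, hL, zero_add]
    rw [List.getD_eq_getElem _ _ (by simp; omega), List.getElem_append_left hi]
  have hCA : C A = .jz 3 (A + 2) := by
    simp only [hC, hL]
    rw [List.getD_eq_getElem _ _ (by simp [hA]), List.getElem_append_right (by omega)]
    simp [hA, hM]
  have hCA1 : C (A + 1) = .jmp (A + 1) := by
    simp only [hC, hL]
    rw [List.getD_eq_getElem _ _ (by simp [hA]), List.getElem_append_right (by omega)]
    simp [hA, hM]
  have hCA2 : C (A + 2) = .jmp (A + 2) := by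
    simp only [hC, hL]
    rw [List.getD_eq_getElem _ _ (by simp [hA]), List.getElem_append_right (by omega)]
    simp [hA, hM]
  set a := nx M (A + 1) with ha
  refine ⟨gLBA K D M C a, ?_, ?_⟩
  · rintro w ⟨t, ht⟩ x hx
    by_contra hxt
    have hxf : x = false := by simpa using hxt
    subst hxf
    obtain ⟨j, hj, hwj⟩ := List.mem_iff_getElem.1 hx
    have hc := check_bad C a w.length
      (fun i => (gLBA K D M C a).inp (w.getD (i - 1) false)) (j + 1) (by omega) (by
        simp only [Nat.add_sub_cancel]
        rw [List.getD_eq_getElem _ _ hj, hwj]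
        rfl) t
    obtain ⟨m, hm⟩ := ht
    have hm' : (((gLBA K D M C a).next w.length)^[t] (LBA.Cfg.mk (A := gLBA K D M C a) none 0
        (fun i => (gLBA K D M C a).inp (w.getD (i - 1) false)))).q = some (some (a, m)) := hm
    rcases hc with ⟨h6, _⟩ | ⟨p, _, _, h6⟩ | ⟨p, _, _, h6⟩
    · rw [h6] at hm'; cases hm'
    · rw [h6] at hm'; cases hm'
    · rw [h6] at hm'; cases hm'
  · intro n hn
    set σ0 : ℕ → ℕ := fun r => if r = 0 then repU (D + 2) n else 0 with hσ0
    obtain ⟨τ, hτ, hτ3⟩ := hP n hn σ0 (by simp [hσ0]) (by intro r hr; simp [hσ0]; omega)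
    have hsteps := comp_sound (M := M) (C := C) hτ 0 hAt (by rw [← hl]; omega)
    rw [zero_add] at hsteps
    have hNlt : (D + 2) ^ n - 1 < (D + 2) ^ n := by
      have : 0 < (D + 2) ^ n := by positivity
      omega
    have hrep0 : Rep n (fun _ => dig0 K D) σ0 := by
      intro r hr
      rw [val_dig0 (by omega)]
    have hsame : Same C a n ((gLBA K D M C a).init (List.replicate n true))
        { q := none, pos := 0, tape := fun _ => some (dig0 K D) } := by
      refine ⟨rfl, rfl, ?_⟩
      intro i hi1 hi2
      show (gLBA K D M C a).inp ((List.replicate n true).getD (i - 1) false) = _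
      rw [List.getD_eq_getElem _ _ (by simp; omega), List.getElem_replicate]
      rfl
    have hR0 : LReach C a n { q := none, pos := 0, tape := fun _ => some (dig0 K D) }
        (gcfg C a (fun _ => dig0 K D) 1 (nx M 0, true)) :=
      (check_good C a n hn).trans (lreach_back C a n _ _ n le_rfl)
    obtain ⟨G, hG, hR⟩ := lreach_steps (M := M) C a n hn hNlt hCreg hsteps (fun _ => dig0 K D)
      hrep0
    have hR1 := hR0.trans hR
    have hiff : (gLBA K D M C a).Acc (List.replicate n true) ↔
        ∃ t : ℕ, (gLBA K D M C a).acc (((gLBA K D M C a).next n)^[t]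
          { q := none, pos := 0, tape := fun _ => some (dig0 K D) }).q := by
      unfold LBA.Acc
      rw [List.length_replicate]
      apply exists_congr
      intro t
      rw [(same_iter C a n hsame t).1]
    rw [hiff]
    constructor
    · rintro ⟨t, ht⟩ heq
      have hst := GStep.jzz (M := M) (N := (D + 2) ^ n - 1) (σ := τ) hCA (by omega) (by omega)
        (by rw [hτ3]; exact heq)
      obtain ⟨G', hG', hR'⟩ := lreach_step C a n hn hNlt hCreg hst G hG
      obtain ⟨t', ht'⟩ := hR1.trans hR'
      have hG0 : GInv C a n { q := none, pos := 0, tape := fun _ => some (dig0 K D) } := by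
        refine ⟨fun i _ _ => ⟨_, rfl⟩, ?_, ?_, by show 0 ≤ n + 1; omega, ?_⟩
        · intro pc h; cases h
        · intro h; cases h
        · intro h; cases h
      have hGt := ginv_iter C a n (A + 1) (by omega) ha hCA1 hn _ hG0 t
      have hacc : ∃ b, (((gLBA K D M C a).next n)^[t]
          { q := none, pos := 0, tape := fun _ => some (dig0 K D) }).q = some (some (a, b)) := ht
      have hGl := (ginv_iter C a n (A + 1) (by omega) ha hCA1 hn _ hGt.1 t').2 hacc
      rw [← Function.iterate_add_apply, Nat.add_comm, Function.iterate_add_apply, ht'] at hGl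
      obtain ⟨h', b', he, _⟩ := lloop C a n (A + 2) (by omega) hCA2 hn G' t
      rw [he] at hGl
      obtain ⟨b, hb⟩ := hGl
      have hb2 : (some (some (nx M (A + 2), b')) : Option (Option (Hd M))) =
        some (some (a, b)) := hb
      simp only [Option.some.injEq, Prod.mk.injEq] at hb2
      have h4 := congrArg (fun x : Fin (M + 1) => (x : ℕ)) (hb2.1.trans ha)
      simp only [nx_val M (A + 2) (by omega), nx_val M (A + 1) (by omega)] at h4
      omega
    · intro hne
      have hst := GStep.jzn (M := M) (N := (D + 2) ^ n - 1) (σ := τ) hCA (by omega)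
        (by rw [hτ3]; exact hne)
      obtain ⟨G', hG', hR'⟩ := lreach_step C a n hn hNlt hCreg hst G hG
      obtain ⟨t, ht⟩ := hR1.trans hR'
      refine ⟨t, ?_⟩
      rw [ht]
      exact ⟨true, rfl⟩

end Pool.Agent.H539R2
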