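import Pool.Agent.H609R2.Line.Defs2
import Pool.Agent.H671R2.PolyAuto

/-!
# The queries and the evaluation of the answers are computable in polynomial time
-/

namespace Pool.Agent.H609R2.Line

open Pool.Agent.H549R2.Convex Pool.Agent.H549R2.PM Pool.Agent.NPC
  Pool.Agent.NPC.Cnt Pool.Agent.NPC.H549Convex Pool.Agent.NPC.H549PM

section General

theorem T_flatMap_min {β : Type} (n : ℕ) (f : ℕ → List β) :
    (List.range n).flatMap (fun i => f (min i n)) = (List.range n).flatMap f := by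
  rw [List.flatMap_def, List.flatMap_def]
  congr 1
  refine List.map_congr_left fun i hi => ?_
  rw [Nat.min_eq_left (List.mem_range.1 hi).le]

variable {α β : Type} [TEnc α] [TEnc β]

theorem T_replicate {n : α → ℕ} (hn : UPoly n) {b : α → β} (hb : NPC.Poly b) :
    NPC.Poly (fun a => List.replicate (n a) (b a)) := by
  refine (NPC.Poly.map (F := fun a (_ : ℕ) => b a) hn.range
    (hb.comp (NPC.Poly.fst NPC.Poly.id))).congr fun a => ?_
  simp

theorem T_dk {pr : α → List (ℕ × ℕ)} (h : NPC.Poly pr) : UPoly (fun a => dk (pr a)) :=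
  UPoly.mul (UPoly.length h) (UPoly.length h)

theorem T_dm {pr : α → List (ℕ × ℕ)} (h : NPC.Poly pr) : UPoly (fun a => dm (pr a)) :=
  UPoly.mul (UPoly.add (UPoly.mul (UPoly.const 8) (T_dk h)) (UPoly.const 1)) (UPoly.length h)

theorem T_kk {pr : α → List (ℕ × ℕ)} {i : α → ℕ} (h : NPC.Poly pr) (hi : NPC.Poly i) :
    UPoly (fun a => kk (pr a) (i a)) :=
  upoly_min (NPC.Poly.div hi (NPC.Poly.succ (T_dm h).toPoly)) (T_dk h)

theorem T_mm {pr : α → List (ℕ × ℕ)} {i : α → ℕ} (h : NPC.Poly pr) (hi : NPC.Poly i) :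
    UPoly (fun a => mm (pr a) (i a)) :=
  upoly_min (NPC.Poly.mod hi (NPC.Poly.succ (T_dm h).toPoly)) (T_dm h)

theorem T_pow {x n : α → ℕ} (hx : NPC.Poly x) (hn : UPoly n) :
    NPC.Poly (fun a => x a ^ n a) := by
  refine (poly_prod (T_replicate hn hx)).congr fun a => ?_
  rw [List.prod_replicate]

theorem T_fst : NPC.Poly (fun p : α × β => p.1) := NPC.Poly.fst NPC.Poly.id

theorem T_snd : NPC.Poly (fun p : α × β => p.2) := NPC.Poly.snd NPC.Poly.id

/-! ### Programs -/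

theorem T_sw {k : α → ℕ} (hk : NPC.Poly k) : NPC.Poly (fun a => sw (k a)) := by
  unfold sw
  fun_prop

theorem T_acc {q : α → ℕ} (hq : UPoly q) : NPC.Poly (fun a => acc (q a)) := by
  have hq' : NPC.Poly q := hq.toPoly
  have hq1 : NPC.Poly (fun p : α × ℕ => q p.1) := hq'.comp T_fst
  refine NPC.Poly.append (NPC.Poly.append ?_ (NPC.Poly.const _)) ?_
  · exact NPC.Poly.flatMap (F := fun a j => sw (q a - j)) hq.range
      (T_sw (NPC.Poly.sub hq1 T_snd))
  · exact NPC.Poly.flatMap (F := fun (_ : α) j => sw (j + 1)) hq.range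
      (T_sw (NPC.Poly.succ T_snd))

theorem T_blk : NPC.Poly (fun p : LL × ℕ => blk p.1.length (ent p.1) p.2) := by
  have hn : UPoly (fun p : LL × ℕ => p.1.length) := UPoly.length T_fst
  have hn1 : UPoly (fun z : (LL × ℕ) × ℕ => z.1.1.length) :=
    UPoly.length (NPC.Poly.fst (NPC.Poly.fst NPC.Poly.id))
  have he : NPC.Poly (fun z : (LL × ℕ) × ℕ => ent z.1.1 (min z.2 z.1.1.length) z.1.2) :=
    ent_poly.comp (f := fun z : (LL × ℕ) × ℕ => (z.1.1, min z.2 z.1.1.length, z.1.2))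
      (NPC.Poly.pair (NPC.Poly.fst (NPC.Poly.fst NPC.Poly.id)) (NPC.Poly.pair
        (upoly_min T_snd hn1).toPoly (NPC.Poly.snd (NPC.Poly.fst NPC.Poly.id))))
  have hacc : NPC.Poly (fun z : (LL × ℕ) × ℕ => acc (2 * min z.2 z.1.1.length + 1)) :=
    T_acc (UPoly.add (UPoly.mul (UPoly.const 2) (upoly_min T_snd hn1)) (UPoly.const 1))
  have h1 : NPC.Poly (fun z : (LL × ℕ) × ℕ =>
      if ent z.1.1 (min z.2 z.1.1.length) z.1.2 = true then
        acc (2 * min z.2 z.1.1.length + 1) else []) :=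
    NPC.Poly.ite (NPC.Poly.decide_bool he) hacc (NPC.Poly.const [])
  refine (NPC.Poly.flatMap (F := fun (p : LL × ℕ) i =>
    if ent p.1 (min i p.1.length) p.2 = true then acc (2 * min i p.1.length + 1) else [])
    hn.range h1).congr fun p => ?_
  exact T_flatMap_min p.1.length
    (fun i => if ent p.1 i p.2 = true then acc (2 * i + 1) else [])

theorem T_prA : NPC.Poly prA := by
  have hn : UPoly (fun A : LL => A.length) := UPoly.length (l := fun A : LL => A) NPC.Poly.id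
  have h1 : NPC.Poly (fun p : LL × ℕ => blk p.1.length (ent p.1) p.2 ++
      (0, 0) :: blk p.1.length (ent p.1) p.2) :=
    NPC.Poly.append T_blk (NPC.Poly.cons (NPC.Poly.const (0, 0)) T_blk)
  have h2 : NPC.Poly (fun p : LL × ℕ => (1, 2 * p.2 + 1)) := by fun_prop
  exact NPC.Poly.append (NPC.Poly.flatMap (F := fun (A : LL) j =>
    blk A.length (ent A) j ++ (0, 0) :: blk A.length (ent A) j) hn.range h1)
    (NPC.Poly.map (F := fun (_ : LL) i => (1, 2 * i + 1)) hn.range h2)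

theorem T_acc_le (q : ℕ) : ∀ p ∈ acc q, p.1 ≤ 5 := by
  intro p hp
  simp only [acc, sw, List.mem_append, List.mem_flatMap, List.mem_cons, List.mem_range,
    List.not_mem_nil, or_false] at hp
  rcases hp with (⟨j, _, h⟩ | h) | ⟨j, _, h⟩
  · rcases h with h | h | h | h <;> simp [h]
  · simp [h]
  · rcases h with h | h | h | h <;> simp [h]

theorem T_blk_le (n : ℕ) (a : ℕ → ℕ → Bool) (j : ℕ) : ∀ p ∈ blk n a j, p.1 ≤ 5 := by
  intro p hp
  rw [blk, List.mem_flatMap] at hp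
  obtain ⟨i, _, h⟩ := hp
  split_ifs at h
  · exact T_acc_le _ p h
  · simp at h

theorem T_prA_le (A : LL) : ∀ p ∈ prA A, p.1 ≤ 5 := by
  intro p hp
  simp only [prA, prog, List.mem_append, List.mem_flatMap, List.mem_cons, List.mem_map] at hp
  rcases hp with ⟨j, _, h | h | h⟩ | ⟨i, _, h⟩
  · exact T_blk_le _ _ _ p h
  · simp [h]
  · exact T_blk_le _ _ _ p h
  · simp [← h]

/-! ### Events -/

theorem T_exp1 {t : α → ℕ} {p : α → ℕ × ℕ} (ht : UPoly t) (hp : NPC.Poly p) :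
    NPC.Poly (fun a => exp1 (t a) (min (p a).1 5, (p a).2)) := by
  have hm : UPoly (fun a => min (p a).1 5) :=
    upoly_min (NPC.Poly.fst hp) (UPoly.const 5)
  have hm1 : UPoly (fun a => min (p a).1 5 - 1) :=
    UPoly.of_le (NPC.Poly.sub hm.toPoly (NPC.Poly.const 1)) hm (fun _ => Nat.sub_le _ _)
  have hr := UPoly.mul hm1 ht
  have hp2 : NPC.Poly (fun a => (p a).2) := NPC.Poly.snd hp
  exact NPC.Poly.ite (NPC.Poly.decide_eq hm.toPoly (NPC.Poly.const 0))
    (NPC.Poly.cons (NPC.Poly.pair (NPC.Poly.const true) (hp2)) (NPC.Poly.const []))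
    (NPC.Poly.ite (NPC.Poly.decide_eq hm.toPoly (NPC.Poly.const 1))
      (NPC.Poly.cons (NPC.Poly.pair (NPC.Poly.const false) (hp2))
        (NPC.Poly.const []))
      (NPC.Poly.append
        (T_replicate hr (NPC.Poly.pair (NPC.Poly.const true)
          (NPC.Poly.succ (hp2))))
        (T_replicate hr (NPC.Poly.pair (NPC.Poly.const false) (hp2)))))

theorem T_clip {p : ℕ × ℕ} (h : p.1 ≤ 5) : (min p.1 5, p.2) = p := by
  rw [Nat.min_eq_left h]

theorem T_expand {t : α → ℕ} {pr : α → List (ℕ × ℕ)} (ht : UPoly t) (hpr : NPC.Poly pr)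
    (h5 : ∀ a, ∀ p ∈ pr a, p.1 ≤ 5) : NPC.Poly (fun a => expand (t a) (pr a)) := by
  refine (NPC.Poly.flatMap (F := fun a p => exp1 (t a) (min p.1 5, p.2)) hpr
    (T_exp1 (ht.comp T_fst) T_snd)).congr fun a => ?_
  rw [expand, List.flatMap_def, List.flatMap_def]
  congr 1
  refine List.map_congr_left fun p hp => ?_
  rw [T_clip (h5 a p hp)]

theorem T_nor {t : α → ℕ} {pr : α → List (ℕ × ℕ)} (ht : UPoly t) (hpr : NPC.Poly pr)
    (h5 : ∀ a, ∀ p ∈ pr a, p.1 ≤ 5) : NPC.Poly (fun a => nor (t a) (pr a)) := by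
  have hm : UPoly (fun z : α × (ℕ × ℕ) => min z.2.1 5) :=
    upoly_min (NPC.Poly.fst T_snd) (UPoly.const 5)
  have hm1 : UPoly (fun z : α × (ℕ × ℕ) => min z.2.1 5 - 1) :=
    UPoly.of_le (NPC.Poly.sub hm.toPoly (NPC.Poly.const 1)) hm (fun _ => Nat.sub_le _ _)
  have hr := upoly_fact (UPoly.mul hm1 (ht.comp T_fst))
  have h1 : NPC.Poly (fun z : α × (ℕ × ℕ) =>
      if min z.2.1 5 ≤ 1 then 1 else ((min z.2.1 5 - 1) * t z.1).factorial) :=
    NPC.Poly.ite (NPC.Poly.decide_le hm.toPoly (NPC.Poly.const 1)) (NPC.Poly.const 1) hr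
  refine (poly_prod (NPC.Poly.map (F := fun a (p : ℕ × ℕ) =>
    if min p.1 5 ≤ 1 then 1 else ((min p.1 5 - 1) * t a).factorial) hpr h1)).congr fun a => ?_
  rw [nor]
  congr 1
  refine List.map_congr_left fun p hp => ?_
  rw [Nat.min_eq_left (h5 a p hp)]

theorem T_evPos_eq (b : Bool) (T : ℕ) (ev : List (Bool × ℕ)) : ∀ τ : ℕ,
    evPos b T τ ev = ((ev.zipIdx τ).filter (fun q => decide (q.1.1 = b))).map
      (fun q => q.1.2 * T + q.2 + 1) := by
  induction ev with
  | nil => intro τ; rfl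
  | cons e ev ih =>
    intro τ
    rw [evPos, List.zipIdx_cons, List.filter_cons, ih (τ + 1)]
    by_cases h : e.1 = b
    · simp [h]
    · simp [h]

theorem T_evPos (b : Bool) {T : α → ℕ} {ev : α → List (Bool × ℕ)} (hT : NPC.Poly T)
    (hev : NPC.Poly ev) : NPC.Poly (fun a => evPos b (T a) 0 (ev a)) := by
  have h1 : NPC.Poly (fun a => ((ev a).zipIdx.filter (fun q => decide (q.1.1 = b))).map
      (fun q => q.1.2 * T a + q.2 + 1)) := by fun_prop
  exact h1.congr fun a => (T_evPos_eq b (T a) (ev a) 0).symm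

theorem T_win {ev : α → List (Bool × ℕ)} (hev : NPC.Poly ev) :
    NPC.Poly (fun a => win (ev a)) := by
  unfold win
  fun_prop

theorem T_rows {R m : α → ℕ} {ev : α → List (Bool × ℕ)} (hR : UPoly R) (hm : UPoly m)
    (hev : NPC.Poly ev) : NPC.Poly (fun a => rowsB (R a) (m a) (ev a)) := by
  refine NPC.Poly.append ?_ (T_evPos false (T_win hev) hev)
  refine NPC.Poly.flatMap (F := fun a i => List.replicate (m a) (i * win (ev a))) hR.range ?_
  exact T_replicate (hm.comp T_fst) (NPC.Poly.mul T_snd ((T_win hev).comp T_fst))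

theorem T_cols {R m : α → ℕ} {ev : α → List (Bool × ℕ)} (hR : UPoly R) (hm : UPoly m)
    (hev : NPC.Poly ev) : NPC.Poly (fun a => colsB (R a) (m a) (ev a)) := by
  refine NPC.Poly.append (T_evPos true (T_win hev) hev) ?_
  refine NPC.Poly.flatMap (F := fun a i => List.replicate (m a)
    (i * win (ev a) + ((ev a).length + 1))) hR.range ?_
  exact T_replicate (hm.comp T_fst) (NPC.Poly.add
    (NPC.Poly.mul T_snd ((T_win hev).comp T_fst))
    ((NPC.Poly.succ (NPC.Poly.length hev)).comp T_fst))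

theorem T_inst {R m : α → ℕ} {ev : α → List (Bool × ℕ)} (hR : UPoly R) (hm : UPoly m)
    (hev : NPC.Poly ev) : NPC.Poly (fun a => inst (R a) (m a) (ev a)) := by
  have h1 := T_rows hR hm hev
  have h2 := T_cols hR hm hev
  have h3 := T_win hev
  refine NPC.Poly.pair (NPC.Poly.pair ?_ ?_) h3
  · exact NPC.Poly.map (F := fun a p => 2 * p + win (ev a)) h1
      (NPC.Poly.add (NPC.Poly.mul (NPC.Poly.const 2) T_snd) (h3.comp T_fst))
  · exact NPC.Poly.map (F := fun (_ : α) q => 2 * q) h2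
      (NPC.Poly.mul (NPC.Poly.const 2) T_snd)

/-! ### Weights -/

theorem T_oddp {D k : α → ℕ} (hD : UPoly D) (hk : NPC.Poly k) :
    NPC.Poly (fun a => oddp (D a) (k a)) := by
  refine poly_prod (NPC.Poly.map (F := fun a j => if j = k a then 1 else 2 * j + 1)
    (UPoly.add hD (UPoly.const 1)).range ?_)
  exact NPC.Poly.ite (NPC.Poly.decide_eq T_snd (hk.comp T_fst)) (NPC.Poly.const 1)
    (NPC.Poly.succ (NPC.Poly.mul (NPC.Poly.const 2) T_snd))

theorem T_wt {R k m : α → ℕ} {pr : α → List (ℕ × ℕ)} (hR : UPoly R) (hpr : NPC.Poly pr)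
    (h5 : ∀ a, ∀ p ∈ pr a, p.1 ≤ 5) (hk : UPoly k) (hm : UPoly m) (hk' : ∀ a, k a ≤ dk (pr a))
    (hm' : ∀ a, m a ≤ dm (pr a)) : NPC.Poly (fun a => wt (R a) (pr a) (k a) (m a)) := by
  have h1 := upoly_choose (T_dk hpr) hk hk'
  have h2 := T_oddp (T_dk hpr) hk.toPoly
  have h3 := upoly_choose (UPoly.add (T_dm hpr) (UPoly.const 1)) (UPoly.add hm (UPoly.const 1))
    (fun a => Nat.succ_le_succ (hm' a))
  have h4 := T_pow (NPC.Poly.div (upoly_fact (T_dm hpr)) (upoly_fact hm)) hR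
  have h6 := NPC.Poly.div (T_nor (T_dk hpr) hpr h5) (T_nor hk hpr h5)
  exact NPC.Poly.mul (NPC.Poly.mul (NPC.Poly.mul (NPC.Poly.mul h1 h2) h3) h4) h6

theorem T_zz {n R : α → ℕ} {pr : α → List (ℕ × ℕ)} (hn : UPoly n) (hR : UPoly R)
    (hpr : NPC.Poly pr) (h5 : ∀ a, ∀ p ∈ pr a, p.1 ≤ 5) :
    NPC.Poly (fun a => zz (n a) (R a) (pr a)) := by
  have h1 := upoly_fact (T_dk hpr)
  have h2 := T_pow (upoly_fact (T_dm hpr)) hR
  exact NPC.Poly.mul (upoly_pow2 hn) (NPC.Poly.mul (NPC.Poly.mul (NPC.Poly.mul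
    (upoly_pow2 (T_dk hpr)) h1) h2) (T_nor (T_dk hpr) hpr h5))

end General

theorem T_R : UPoly (fun A : LL => 2 * A.length + 1) :=
  UPoly.add (UPoly.mul (UPoly.const 2) (UPoly.length (l := fun A : LL => A) NPC.Poly.id))
    (UPoly.const 1)

theorem T_N : UPoly (fun A : LL => (dk (prA A) + 1) * (dm (prA A) + 1)) :=
  UPoly.mul (UPoly.add (T_dk T_prA) (UPoly.const 1)) (UPoly.add (T_dm T_prA) (UPoly.const 1))

/-- T1 -/
theorem qsL_poly : NPC.Poly qsL := by
  have hpr : NPC.Poly (fun p : LL × ℕ => prA p.1) := T_prA.comp T_fst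
  refine NPC.Poly.map (F := fun (A : LL) i => inst (2 * A.length + 1) (mm (prA A) i)
    (expand (kk (prA A) i) (prA A))) T_N.range ?_
  exact T_inst (T_R.comp T_fst) (T_mm hpr T_snd)
    (T_expand (T_kk hpr T_snd) hpr (fun p => T_prA_le p.1))

theorem T_part (b : ℕ) : NPC.Poly (part b) := by
  have hpr : NPC.Poly (fun p : LL × List ℕ => prA p.1) := T_prA.comp T_fst
  have hpr1 : NPC.Poly (fun z : (LL × List ℕ) × ℕ => prA z.1.1) :=
    T_prA.comp (NPC.Poly.fst (NPC.Poly.fst NPC.Poly.id))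
  have hd1 : NPC.Poly (fun z : (LL × List ℕ) × ℕ => dm (prA z.1.1) + 1) :=
    NPC.Poly.succ (T_dm hpr1).toPoly
  have h1 : NPC.Poly (fun p : LL × List ℕ =>
      (List.range ((dk (prA p.1) + 1) * (dm (prA p.1) + 1))).filter (fun i =>
        decide ((i / (dm (prA p.1) + 1) + i % (dm (prA p.1) + 1)) % 2 = b))) :=
    NPC.Poly.filter (p := fun (p : LL × List ℕ) i =>
      decide ((i / (dm (prA p.1) + 1) + i % (dm (prA p.1) + 1)) % 2 = b))
      (T_N.comp T_fst).range (NPC.Poly.decide_eq (NPC.Poly.mod (NPC.Poly.add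
        (NPC.Poly.div T_snd hd1) (NPC.Poly.mod T_snd hd1)) (NPC.Poly.const 2))
        (NPC.Poly.const b))
  have hR1 : UPoly (fun z : (LL × List ℕ) × ℕ => 2 * z.1.1.length + 1) :=
    T_R.comp (NPC.Poly.fst (NPC.Poly.fst NPC.Poly.id))
  have h2 : NPC.Poly (fun z : (LL × List ℕ) × ℕ => wt (2 * z.1.1.length + 1) (prA z.1.1)
      (kk (prA z.1.1) z.2) (mm (prA z.1.1) z.2) * z.1.2.getD z.2 0) :=
    NPC.Poly.mul (T_wt hR1 hpr1 (fun z => T_prA_le z.1.1) (T_kk hpr1 T_snd) (T_mm hpr1 T_snd)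
      (fun z => Nat.min_le_right _ _) (fun z => Nat.min_le_right _ _))
      (NPC.Poly.getD (NPC.Poly.snd (NPC.Poly.fst NPC.Poly.id)) T_snd (NPC.Poly.const 0))
  exact NPC.Poly.sum (NPC.Poly.map (F := fun (p : LL × List ℕ) i =>
    wt (2 * p.1.length + 1) (prA p.1) (kk (prA p.1) i) (mm (prA p.1) i) * p.2.getD i 0) h1 h2)

/-- T2 -/
theorem postL_poly : NPC.Poly postL := by
  have hpr : NPC.Poly (fun p : LL × List ℕ => prA p.1) := T_prA.comp T_fst
  exact NPC.Poly.div (NPC.Poly.sub (T_part 0) (T_part 1))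
    (T_zz (UPoly.length (l := fun p : LL × List ℕ => p.1) T_fst) (T_R.comp T_fst) hpr
      (fun p => T_prA_le p.1))

end Pool.Agent.H609R2.Line
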