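import Pool.Agent.H539R2.FlagZ
import Pool.Agent.H539R2.Diag
import Pool.Agent.H539R2.LBA

/-!
Search of the field parameters, the logarithm, and the diagonal function.
-/

set_option linter.unusedSimpArgs false
set_option linter.unusedVariables false

namespace Pool.Agent.H539R2.ZZ

open Pool.Agent.H539R2

/-- numeric badness of a pair -/
def bad (B p g : ℕ) : ℕ :=
  (if pmod p (fun _ => g) (p - 1) % p = 1 % p then 0 else 1) +
    ∑ k ∈ Finset.range (3 * B),
      (∑ i ∈ Finset.range (p - 1), pmod p (fun _ => g) ((i + 1) * (k + 1))) % p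

theorem bad_iff (B p g : ℕ) (hp : 2 ≤ p) : bad B p g = 0 ↔ ((g : ZMod p) ^ (p - 1) = 1 ∧
    ∀ k, 1 ≤ k → k ≤ 3 * B → ∑ i ∈ Finset.range (p - 1), ((g : ZMod p) ^ (i + 1)) ^ k = 0) := by
  have hpow : ∀ m, ((pmod p (fun _ => g) m : ℕ) : ZMod p) = (g : ZMod p) ^ m := by
    intro m
    rw [pmod_cast p (by omega)]
    simp
  unfold bad
  rw [Nat.add_eq_zero_iff, Finset.sum_eq_zero_iff]
  apply and_congr
  · rw [← hpow (p - 1)]
    constructor
    · intro h
      by_cases h1 : pmod p (fun _ => g) (p - 1) % p = 1 % p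
      · have := (ZMod.natCast_eq_natCast_iff' _ _ p).2 h1
        rw [this]; simp
      · rw [if_neg h1] at h; omega
    · intro h
      have h1 : ((pmod p (fun _ => g) (p - 1) : ℕ) : ZMod p) = ((1 : ℕ) : ZMod p) := by
        rw [h]; simp
      rw [if_pos ((ZMod.natCast_eq_natCast_iff' _ _ p).1 h1)]
  · constructor
    · intro h k hk1 hk2
      have h1 := h (k - 1) (Finset.mem_range.2 (by omega))
      have h2 : (((∑ i ∈ Finset.range (p - 1), pmod p (fun _ => g) ((i + 1) * (k - 1 + 1)) : ℕ)) :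
          ZMod p) = 0 := by
        rw [ZMod.natCast_eq_zero_iff]
        exact Nat.dvd_of_mod_eq_zero h1
      rw [Nat.cast_sum] at h2
      rw [← h2]
      apply Finset.sum_congr rfl
      intro i _
      rw [hpow, ← pow_mul]
      congr 2
      omega
    · intro h k hk
      rw [Finset.mem_range] at hk
      apply Nat.mod_eq_zero_of_dvd
      rw [← ZMod.natCast_eq_zero_iff, Nat.cast_sum, ← h (k + 1) (by omega) (by omega)]
      apply Finset.sum_congr rfl
      intro i _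
      rw [hpow, ← pow_mul]

theorem LS.bad {B p g : (ℕ → ℕ) → ℕ} (hB : LS B) (hp : LS p) (hg : LS g) :
    LS (fun ρ => bad (B ρ) (p ρ) (g ρ)) := by
  unfold ZZ.bad
  have h1 : LS (fun ρ => _root_.Pool.Agent.H539R2.pmod (p ρ) (fun _ => g ρ) (p ρ - 1)) :=
    LS.pmod (F := fun _ ρ => g ρ) hp (hp.sub (LS.const 1)) hg.wk
  refine LS.add (LS.ite (LSP.eq (h1.mod hp) ((LS.const 1).mod hp)) LS.zero (LS.const 1)) ?_
  refine LS.sum (F := fun k ρ => (∑ i ∈ Finset.range (p ρ - 1),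
    _root_.Pool.Agent.H539R2.pmod (p ρ) (fun _ => g ρ) ((i + 1) * (k + 1))) % p ρ)
    ((LS.const 3).mul hB) ?_
  refine LS.mod ?_ hp.wk
  refine LS.sum (F := fun i ρ => _root_.Pool.Agent.H539R2.pmod (p (tl ρ)) (fun _ => g (tl ρ))
    ((i + 1) * (ρ 0 + 1))) (hp.wk.sub (LS.const 1)) ?_
  exact LS.pmod (F := fun _ ρ => g (tl (tl ρ))) hp.wk.wk
    (((LS.var 0).succ).mul ((LS.var 1).succ)) hg.wk.wk.wk

/-- search -/
def fnd (B : ℕ) : ℕ :=
  nrec 0 (fun i acc => if acc = 0 ∧ 2 ≤ i / (6 * B + 3) ∧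
    bad B (i / (6 * B + 3)) (i % (6 * B + 3)) = 0 then i else acc) ((6 * B + 3) * (6 * B + 3))

theorem nrec_find (Q : ℕ → Prop) [DecidablePred Q] (hQ : ¬ Q 0) :
    ∀ N, (nrec 0 (fun i acc => if acc = 0 ∧ Q i then i else acc) N = 0 ∨
      (Q (nrec 0 (fun i acc => if acc = 0 ∧ Q i then i else acc) N) ∧
        nrec 0 (fun i acc => if acc = 0 ∧ Q i then i else acc) N < N)) ∧
      ((∃ i < N, Q i) → nrec 0 (fun i acc => if acc = 0 ∧ Q i then i else acc) N ≠ 0) := by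
  intro N
  induction N with
  | zero => exact ⟨Or.inl rfl, by rintro ⟨i, hi, _⟩; omega⟩
  | succ N ih =>
    rw [nrec_succ]
    obtain ⟨h1, h2⟩ := ih
    set r := nrec 0 (fun i acc => if acc = 0 ∧ Q i then i else acc) N with hr
    by_cases hc : r = 0 ∧ Q N
    · rw [if_pos hc]
      refine ⟨Or.inr ⟨hc.2, by omega⟩, ?_⟩
      intro _ h
      rw [h] at hc
      exact hQ hc.2
    · rw [if_neg hc]
      refine ⟨?_, ?_⟩
      · rcases h1 with h1 | h1
        · exact Or.inl h1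
        · exact Or.inr ⟨h1.1, by omega⟩
      · rintro ⟨i, hi, hQi⟩
        by_cases hiN : i = N
        · subst hiN
          intro h
          exact hc ⟨h, hQi⟩
        · exact h2 ⟨i, by omega, hQi⟩

theorem fnd_spec (B : ℕ) (hB : 1 ≤ B) : 2 ≤ fnd B / (6 * B + 3) ∧
    bad B (fnd B / (6 * B + 3)) (fnd B % (6 * B + 3)) = 0 ∧ fnd B / (6 * B + 3) < 6 * B + 3 := by
  set W := 6 * B + 3 with hW
  have h := nrec_find (fun i => 2 ≤ i / W ∧ bad B (i / W) (i % W) = 0) (by simp) (W * W)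
  obtain ⟨p, g, hp1, hp2, hg, hsum⟩ := prime_params B hB
  have hex : ∃ i < W * W, 2 ≤ i / W ∧ bad B (i / W) (i % W) = 0 := by
    have hgp : g % p < p := Nat.mod_lt _ (by omega)
    have hgW : g % p < W := by omega
    have hpW : p < W := by omega
    refine ⟨W * p + g % p, ?_, ?_⟩
    · nlinarith
    · have e1 : (W * p + g % p) / W = p := by
        rw [Nat.mul_add_div (by omega), Nat.div_eq_of_lt hgW, add_zero]
      have e2 : (W * p + g % p) % W = g % p := by
        rw [Nat.mul_add_mod, Nat.mod_eq_of_lt hgW]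
      rw [e1, e2]
      refine ⟨by omega, ?_⟩
      rw [bad_iff _ _ _ (by omega)]
      have e3 : ((g % p : ℕ) : ZMod p) = (g : ZMod p) := ZMod.natCast_mod g p
      rw [e3]
      exact ⟨hg, hsum⟩
  have hne := h.2 hex
  rcases h.1 with h1 | ⟨⟨h1, h2⟩, h3⟩
  · exact absurd h1 hne
  · refine ⟨h1, h2, ?_⟩
    rw [Nat.div_lt_iff_lt_mul (by omega)]
    exact h3

theorem LS.fnd {B : (ℕ → ℕ) → ℕ} (hB : LS B) : LS (fun ρ => fnd (B ρ)) := by
  have hW : LS (fun ρ => 6 * B ρ + 3) := ((LS.const 6).mul hB).add (LS.const 3)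
  refine LS.nrecB (c := fun ρ => (6 * B ρ + 3) * (6 * B ρ + 3)) (a := fun _ => 0)
    (b := fun i acc ρ => if acc = 0 ∧ 2 ≤ i / (6 * B ρ + 3) ∧
      _root_.Pool.Agent.H539R2.ZZ.bad (B ρ) (i / (6 * B ρ + 3)) (i % (6 * B ρ + 3)) = 0 then i
      else acc)
    (g := fun ρ => (6 * B ρ + 3) * (6 * B ρ + 3)) (hW.mul hW) LS.zero ?_ (hW.mul hW) ?_
  · have hW2 := hW.wk.wk
    have h1 := (LS.var 1).div hW2
    have h2 := (LS.var 1).mod hW2
    exact LS.ite (LSP.and (LSP.eq (LS.var 0) LS.zero) (LSP.and (LSP.le (LS.const 2) h1)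
      (LSP.eq (LS.bad hB.wk.wk h1 h2) LS.zero))) (LS.var 1) (LS.var 0)
  · intro ρ m hm
    have : ∀ m, nrec 0 (fun i acc => if acc = 0 ∧ 2 ≤ i / (6 * B ρ + 3) ∧
      _root_.Pool.Agent.H539R2.ZZ.bad (B ρ) (i / (6 * B ρ + 3)) (i % (6 * B ρ + 3)) = 0 then i
      else acc) m ≤ m := by
      intro m
      induction m with
      | zero => simp
      | succ m ih =>
        rw [nrec_succ]
        split_ifs
        · omega
        · omega
    exact (this m).trans hm

/-- binary logarithm, computed from `X = 2 ^ n` -/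
def lg (X n : ℕ) : ℕ := ∑ i ∈ Finset.range n, if powT X 2 (i + 1) ≤ n then 1 else 0

theorem lg_eq (n : ℕ) (hn : 1 ≤ n) : lg (2 ^ n) n = Nat.log 2 n := by
  unfold lg
  have h1 : ∀ i ∈ Finset.range n, (if powT (2 ^ n) 2 (i + 1) ≤ n then 1 else 0) =
      if i < Nat.log 2 n then 1 else 0 := by
    intro i hi
    rw [Finset.mem_range] at hi
    rw [powT_eq _ _ _ (by omega) (Nat.pow_le_pow_right (by omega) (by omega))]
    congr 1
    rw [← Nat.le_log_iff_pow_le (by omega) (by omega)]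
    apply propext
    omega
  rw [Finset.sum_congr rfl h1, ← Finset.sum_filter]
  have h2 : Finset.filter (fun i => i < Nat.log 2 n) (Finset.range n) =
      Finset.range (Nat.log 2 n) := by
    ext i
    rw [Finset.mem_filter, Finset.mem_range, Finset.mem_range]
    have : Nat.log 2 n ≤ n := Nat.log_le_self 2 n
    omega
  rw [h2]
  simp

theorem LS.lg {X n : (ℕ → ℕ) → ℕ} (hX : LS X) (hn : LS n) : LS (fun ρ => lg (X ρ) (n ρ)) := by
  unfold ZZ.lg
  exact LS.sum (F := fun i ρ => if _root_.Pool.Agent.H539R2.powT (X ρ) 2 (i + 1) ≤ n ρ then 1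
    else 0) hn (LS.ite (LSP.le (LS.powT hX.wk (LS.const 2) (LS.var 0).succ) hn.wk) (LS.const 1)
    LS.zero)

/-- block size -/
def bl (X n q : ℕ) : ℕ := n / (16 * q * (lg X n + 1))

/-- the parameters decoded from a length -/
def dprm (k X n y : ℕ) : Prm where
  X := X
  n := n
  q := (Nat.unpair (Nat.unpair n).1).1
  dc := (Nat.unpair (Nat.unpair (Nat.unpair n).1).2).1
  a := (Nat.unpair (Nat.unpair (Nat.unpair (Nat.unpair n).1).2).2).1
  b := (Nat.unpair (Nat.unpair (Nat.unpair (Nat.unpair n).1).2).2).2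
  B := bl X n (Nat.unpair (Nat.unpair n).1).1
  H := bl X n (Nat.unpair (Nat.unpair n).1).1
  p := fnd (bl X n (Nat.unpair (Nat.unpair n).1).1) /
    (6 * bl X n (Nat.unpair (Nat.unpair n).1).1 + 3)
  g := fnd (bl X n (Nat.unpair (Nat.unpair n).1).1) %
    (6 * bl X n (Nat.unpair (Nat.unpair n).1).1 + 3)
  k := k
  y := y

theorem LS.dprm (k : ℕ) : LSPrm (fun ρ => dprm k (ρ 1) (ρ 2) (ρ 0)) := by
  have hn1 : LS (fun ρ => (Nat.unpair (ρ 2)).1) := LS.unpair1 (LS.var 2)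
  have hq : LS (fun ρ => (Nat.unpair (Nat.unpair (ρ 2)).1).1) := LS.unpair1 hn1
  have h2 := LS.unpair2 hn1
  have h22 := LS.unpair2 h2
  have hb : LS (fun ρ => bl (ρ 1) (ρ 2) (Nat.unpair (Nat.unpair (ρ 2)).1).1) :=
    (LS.var 2).div (((LS.const 16).mul hq).mul ((LS.lg (LS.var 1) (LS.var 2)).succ))
  have hf := LS.fnd hb
  have hw : LS (fun ρ => 6 * bl (ρ 1) (ρ 2) (Nat.unpair (Nat.unpair (ρ 2)).1).1 + 3) :=
    ((LS.const 6).mul hb).add (LS.const 3)
  refine ⟨?_, ?_, ?_, ?_, ?_, ?_, ?_, ?_, ?_, ?_, ?_, ?_⟩ <;> simp only [ZZ.dprm]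
  · exact LS.var 1
  · exact LS.var 2
  · exact hq
  · exact LS.unpair1 h2
  · exact LS.unpair1 h22
  · exact LS.unpair2 h22
  · exact hb
  · exact hb
  · exact hf.div hw
  · exact hf.mod hw
  · exact LS.const k
  · exact LS.var 0

/-- the diagonal function -/
def U (k X n : ℕ) : ℕ :=
  if ∑ y ∈ Finset.range (powT (X ^ k) k n), (dprm k X n y).sim % 2 = 0 then 1 else 0

theorem LS.powc {f : (ℕ → ℕ) → ℕ} (hf : LS f) (k : ℕ) : LS (fun ρ => f ρ ^ k) := by
  induction k with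
  | zero => exact (LS.const 1).congr (fun ρ => (pow_zero _).symm)
  | succ k ih => exact (ih.mul hf).congr (fun ρ => (pow_succ _ _).symm)

theorem LS.U (k : ℕ) : LS (fun ρ => U k (ρ 0) (ρ 1)) := by
  unfold ZZ.U
  refine LS.ite (LSP.eq ?_ LS.zero) (LS.const 1) LS.zero
  refine LS.sum (F := fun y ρ => (_root_.Pool.Agent.H539R2.ZZ.dprm k (ρ 0) (ρ 1) y).sim % 2)
    (LS.powT (LS.powc (LS.var 0) k) (LS.const k) (LS.var 1)) ?_
  exact (LS.sim (LS.dprm k)).mod (LS.const 2)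

end Pool.Agent.H539R2.ZZ
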