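import Pool.Agent.H539R2.FlagD
import Pool.Agent.H539R2.SearchZ

/-!
Lower bounds for `d`-dimensional cellular automata: parameters and diagonal functions.
-/

set_option linter.unusedSimpArgs false
set_option linter.unusedVariables false

namespace Pool.Agent.H539R2.DD

open Pool.Agent.H539R2 Filter

theorem powT_min (X b i : ℕ) (hb : 1 ≤ b) (hX : 1 ≤ X) : powT X b i = min (b ^ i) X := by
  unfold powT
  induction i with
  | zero => simp [hX]
  | succ i ih =>
    rw [nrec_succ, ih, pow_succ]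
    rcases le_total (b ^ i) X with h | h
    · rw [min_eq_left h]
    · rw [min_eq_right h]
      have h1 : X ≤ X * b := Nat.le_mul_of_pos_right _ hb
      have h2 : X ≤ b ^ i * b := h.trans (Nat.le_mul_of_pos_right _ hb)
      rw [min_eq_right h1, min_eq_right h2]

/-- integer root -/
def rt (X n d W : ℕ) : ℕ := ∑ i ∈ Finset.range n, if powT X (i + 1) d ≤ W then 1 else 0

theorem rt_spec (X n d W : ℕ) (hd : 1 ≤ d) (hW : 1 ≤ W) (hWn : W ≤ n) (hX : W < X) :
    1 ≤ rt X n d W ∧ (rt X n d W) ^ d ≤ W ∧ W < (rt X n d W + 1) ^ d := by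
  have h1 : ∀ i, (powT X (i + 1) d ≤ W ↔ (i + 1) ^ d ≤ W) := by
    intro i
    rw [powT_min X (i + 1) d (by omega) (by omega)]
    constructor
    · intro h
      rcases min_le_iff.1 h with h | h
      · exact h
      · omega
    · intro h
      exact (min_le_left _ _).trans h
  have h2 : rt X n d W = (Finset.filter (fun i => (i + 1) ^ d ≤ W) (Finset.range n)).card := by
    unfold rt
    rw [Finset.card_filter]
    apply Finset.sum_congr rfl
    intro i _
    simp only [h1]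
  obtain ⟨r, hr1, hr2⟩ : ∃ r, (∀ i < r, (i + 1) ^ d ≤ W) ∧ W < (r + 1) ^ d := by
    have hex : ∃ r, W < (r + 1) ^ d := ⟨W, by
      calc W < W + 1 := Nat.lt_succ_self W
        _ ≤ (W + 1) ^ d := Nat.le_self_pow (by omega) _⟩
    refine ⟨Nat.find hex, ?_, Nat.find_spec hex⟩
    intro i hi
    have := Nat.find_min hex hi
    omega
  have hrn : r ≤ n := by
    by_contra hcon
    push Not at hcon
    have h3 := hr1 n hcon
    have h4 : n + 1 ≤ (n + 1) ^ d := Nat.le_self_pow (by omega) _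
    omega
  have h5 : Finset.filter (fun i => (i + 1) ^ d ≤ W) (Finset.range n) = Finset.range r := by
    ext i
    rw [Finset.mem_filter, Finset.mem_range, Finset.mem_range]
    constructor
    · rintro ⟨_, h6⟩
      by_contra hcon
      push Not at hcon
      have : (r + 1) ^ d ≤ (i + 1) ^ d := Nat.pow_le_pow_left (by omega) d
      omega
    · intro h6
      exact ⟨by omega, hr1 i h6⟩
  rw [h5, Finset.card_range] at h2
  rw [h2]
  have hr0 : 1 ≤ r := by
    by_contra hcon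
    have : r = 0 := by omega
    subst this
    simp at hr2
    omega
  refine ⟨hr0, ?_, hr2⟩
  have := hr1 (r - 1) (by omega)
  rw [Nat.sub_add_cancel hr0] at this
  exact this

theorem ls_rt {X n d W : (ℕ → ℕ) → ℕ} (hX : LS X) (hn : LS n) (hd : LS d) (hW : LS W) :
    LS (fun ρ => rt (X ρ) (n ρ) (d ρ) (W ρ)) := by
  unfold rt
  exact LS.sum (F := fun i ρ => if powT (X ρ) (i + 1) (d ρ) ≤ W ρ then 1 else 0) hn
    (LS.ite (LSP.le (LS.powT hX.wk (LS.var 0).succ hd.wk) hW.wk) (LS.const 1) LS.zero)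

/-- height -/
def wd (X n d q : ℕ) : ℕ :=
  n / (16 * ((powT X 3 d + 1) * (powT X 3 d + 1)) * q * (ZZ.lg X n + 1))

theorem ls_wd {X n d q : (ℕ → ℕ) → ℕ} (hX : LS X) (hn : LS n) (hd : LS d) (hq : LS q) :
    LS (fun ρ => wd (X ρ) (n ρ) (d ρ) (q ρ)) := by
  unfold wd
  have h3 := LS.powT hX (LS.const 3) hd
  exact hn.div ((((LS.const 16).mul (h3.succ.mul h3.succ)).mul hq).mul (ZZ.LS.lg hX hn).succ)

/-- the code of the automaton in the length -/
def e1 (n : ℕ) : ℕ := (Nat.unpair n).1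

def dd (n : ℕ) : ℕ := (Nat.unpair (e1 n)).1

def qq (n : ℕ) : ℕ := (Nat.unpair (Nat.unpair (e1 n)).2).1

/-- the side of the blocks -/
def sd (X n : ℕ) : ℕ := rt X n (dd n) (wd X n (dd n) (qq n))

/-- the parameters decoded from a length -/
def dprm (k X n y : ℕ) : Prm where
  X := X
  n := n
  q := qq n
  dc := (Nat.unpair (Nat.unpair (Nat.unpair (e1 n)).2).2).1
  a := (Nat.unpair (Nat.unpair (Nat.unpair (Nat.unpair (e1 n)).2).2).2).1
  b := (Nat.unpair (Nat.unpair (Nat.unpair (Nat.unpair (e1 n)).2).2).2).2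
  d := dd n
  s := sd X n
  H := wd X n (dd n) (qq n)
  p := ZZ.fnd (powT X 3 (dd n) * powT X (sd X n) (dd n)) /
    (6 * (powT X 3 (dd n) * powT X (sd X n) (dd n)) + 3)
  g := ZZ.fnd (powT X 3 (dd n) * powT X (sd X n) (dd n)) %
    (6 * (powT X 3 (dd n) * powT X (sd X n) (dd n)) + 3)
  k := k
  y := y

theorem ls_dprm {k X n y : (ℕ → ℕ) → ℕ} (hk : LS k) (hX : LS X) (hn : LS n) (hy : LS y) :
    LSPrm (fun ρ => dprm (k ρ) (X ρ) (n ρ) (y ρ)) := by
  have he1 : LS (fun ρ => e1 (n ρ)) := LS.unpair1 hn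
  have hdd : LS (fun ρ => dd (n ρ)) := LS.unpair1 he1
  have h2 := LS.unpair2 he1
  have hqq : LS (fun ρ => qq (n ρ)) := LS.unpair1 h2
  have h3 := LS.unpair2 h2
  have h4 := LS.unpair2 h3
  have hwd := ls_wd hX hn hdd hqq
  have hsd : LS (fun ρ => sd (X ρ) (n ρ)) := ls_rt hX hn hdd hwd
  have hfB := (LS.powT hX (LS.const 3) hdd).mul (LS.powT hX hsd hdd)
  have hf := ZZ.LS.fnd hfB
  have hw := ((LS.const 6).mul hfB).add (LS.const 3)
  refine ⟨?_, ?_, ?_, ?_, ?_, ?_, ?_, ?_, ?_, ?_, ?_, ?_, ?_⟩ <;> simp only [dprm]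
  · exact hX
  · exact hn
  · exact hqq
  · exact LS.unpair1 h3
  · exact LS.unpair1 h4
  · exact LS.unpair2 h4
  · exact hdd
  · exact hsd
  · exact hwd
  · exact hf.div hw
  · exact hf.mod hw
  · exact hk
  · exact hy

/-- the conditions under which the simulation is valid -/
structure Big (n d q : ℕ) : Prop where
  h1 : 16 * ((3 ^ d + 1) * (3 ^ d + 1)) * q * (Nat.log 2 n + 1) ≤ n
  h2 : (3 + (3 ^ d + 1) * (2 * n + 1)) ^ d ≤ 2 ^ n

theorem wd_eq (n d q : ℕ) (hn1 : 1 ≤ n) (h3 : 3 ^ d ≤ 2 ^ n) : wd (2 ^ n) n d q =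
    n / (16 * ((3 ^ d + 1) * (3 ^ d + 1)) * q * (Nat.log 2 n + 1)) := by
  unfold wd
  rw [powT_eq _ _ _ (by omega) h3, ZZ.lg_eq n hn1]

attribute [local irreducible] powT ZZ.fnd rt wd

theorem dprm_valid (n d q dc a b k y : ℕ) (hd : 1 ≤ d) (hq : 1 ≤ q) (hb : b < q)
    (hbig : Big n d q)
    (he : e1 n = Nat.pair d (Nat.pair q (Nat.pair dc (Nat.pair a b)))) :
    (dprm k (2 ^ n) n y).Valid := by
  obtain ⟨hn, hG⟩ := hbig
  set f := 3 ^ d with hf
  have hfpos : 1 ≤ f := Nat.one_le_pow _ _ (by omega)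
  set L := Nat.log 2 n with hL
  have hDpos : 0 < 16 * ((f + 1) * (f + 1)) * q * (L + 1) := by positivity
  have hn1 : 1 ≤ n := le_trans (by omega) hn
  have hfX : 3 ^ d ≤ 2 ^ n := by
    refine le_trans ?_ hG
    apply Nat.pow_le_pow_left
    omega
  set W := n / (16 * ((f + 1) * (f + 1)) * q * (L + 1)) with hW
  have hWe : wd (2 ^ n) n d q = W := wd_eq n d q hn1 hfX
  have hW1 : 1 ≤ W := by
    rw [hW, Nat.le_div_iff_mul_le hDpos, one_mul]
    exact hn
  have hWn : 16 * ((f + 1) * (f + 1)) * q * (L + 1) * W ≤ n := Nat.mul_div_le _ _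
  have hWlen : W ≤ n := Nat.div_le_self _ _
  have hWX : W < 2 ^ n := lt_of_le_of_lt hWlen Nat.lt_two_pow_self
  have hdd : dd n = d := by unfold dd; rw [he]; simp
  have hqq : qq n = q := by unfold qq; rw [he]; simp
  have hsd : sd (2 ^ n) n = rt (2 ^ n) n d W := by unfold sd; rw [hdd, hqq, hWe]
  obtain ⟨hs1, hs2, hs3⟩ := rt_spec (2 ^ n) n d W hd hW1 hWlen hWX
  set s := rt (2 ^ n) n d W with hs
  have fq : (dprm k (2 ^ n) n y).q = q := hqq
  have fb : (dprm k (2 ^ n) n y).b = b := by simp [dprm, he]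
  have fd : (dprm k (2 ^ n) n y).d = d := hdd
  have fs : (dprm k (2 ^ n) n y).s = s := hsd
  have fX : (dprm k (2 ^ n) n y).X = 2 ^ n := rfl
  have fH : (dprm k (2 ^ n) n y).H = W := by
    show wd (2 ^ n) n (dd n) (qq n) = W
    rw [hdd, hqq, hWe]
  have hf3 : powT (2 ^ n) 3 d = f := powT_eq _ _ _ (by omega) hfX
  have hB3 : powT (2 ^ n) s d = s ^ d := powT_eq _ _ _ hs1 (hs2.trans hWX.le)
  have ff : (dprm k (2 ^ n) n y).f = f := by
    unfold Prm.f
    rw [fX, fd, hf3]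
  have fB : (dprm k (2 ^ n) n y).B = s ^ d := by
    unfold Prm.B
    rw [fX, fd, fs, hB3]
  set B := s ^ d with hBdef
  have hB1 : 1 ≤ B := Nat.one_le_pow _ _ hs1
  have fp : (dprm k (2 ^ n) n y).p = ZZ.fnd (f * B) / (6 * (f * B) + 3) := by
    show ZZ.fnd (powT (2 ^ n) 3 (dd n) * powT (2 ^ n) (sd (2 ^ n) n) (dd n)) /
      (6 * (powT (2 ^ n) 3 (dd n) * powT (2 ^ n) (sd (2 ^ n) n) (dd n)) + 3) = _
    rw [hdd, hsd, hf3, hB3]
  have fg : (dprm k (2 ^ n) n y).g = ZZ.fnd (f * B) % (6 * (f * B) + 3) := by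
    show ZZ.fnd (powT (2 ^ n) 3 (dd n) * powT (2 ^ n) (sd (2 ^ n) n) (dd n)) %
      (6 * (powT (2 ^ n) 3 (dd n) * powT (2 ^ n) (sd (2 ^ n) n) (dd n)) + 3) = _
    rw [hdd, hsd, hf3, hB3]
  have hfB1 : 1 ≤ f * B := Nat.mul_pos hfpos hB1
  obtain ⟨hp2, hbad, hpW⟩ := ZZ.fnd_spec (f * B) hfB1
  have hgood := (ZZ.bad_iff _ _ _ hp2).1 hbad
  set p := ZZ.fnd (f * B) / (6 * (f * B) + 3) with hp
  have hnL : n < 2 ^ (L + 1) := Nat.lt_pow_succ_log_self (by omega) n
  have hqL : 1 ≤ q * (L + 1) := Nat.mul_pos hq (by omega)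
  have h16 : 16 * ((f + 1) * (f + 1)) * W ≤ n := by
    calc 16 * ((f + 1) * (f + 1)) * W = 16 * ((f + 1) * (f + 1)) * W * 1 := by ring
      _ ≤ 16 * ((f + 1) * (f + 1)) * W * (q * (L + 1)) := Nat.mul_le_mul_left _ hqL
      _ = 16 * ((f + 1) * (f + 1)) * q * (L + 1) * W := by ring
      _ ≤ n := hWn
  have hpn : 2 * (f + 1) * p ≤ n := by
    have h1 : p ≤ 6 * (f + 1) * W := by
      have h2 : 6 * (f * B) + 3 ≤ 6 * (f + 1) * W := by
        have h3 : 6 * (f * B) ≤ 6 * (f * W) := by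
          apply Nat.mul_le_mul_left
          exact Nat.mul_le_mul_left _ hs2
        nlinarith
      omega
    calc 2 * (f + 1) * p ≤ 2 * (f + 1) * (6 * (f + 1) * W) := Nat.mul_le_mul_left _ h1
      _ = 12 * ((f + 1) * (f + 1)) * W := by ring
      _ ≤ 16 * ((f + 1) * (f + 1)) * W := by
        apply Nat.mul_le_mul_right
        apply Nat.mul_le_mul_right
        omega
      _ ≤ n := h16
  have hpn1 : p ≤ n := by
    refine le_trans ?_ hpn
    exact Nat.le_mul_of_pos_left _ (by positivity)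
  refine ⟨?_, ?_, ?_, ?_, ?_, ?_, ?_, ?_, ?_, ?_, ?_, ?_, ?_⟩
  · rw [fq]; exact hq
  · rw [fb, fq]; exact hb
  · rw [fd]; exact hd
  · rw [fs]; exact hs1
  · rw [fp]; exact hp2
  · rw [fp, fg]; exact hgood.1
  · rw [fp, fg, ff, fB]
    intro k hk1 hk2
    exact hgood.2 k hk1 (by omega)
  · rw [fd, fX]; exact hfX
  · rw [fs, fd, fX]; exact hs2.trans hWX.le
  · have fG : (dprm k (2 ^ n) n y).G = 3 + (f + 1) * (2 * W + 1) := by
      unfold Prm.G
      rw [ff, fH]
    rw [fG, fd, fX]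
    refine le_trans ?_ hG
    apply Nat.pow_le_pow_left
    apply Nat.add_le_add_left
    apply Nat.mul_le_mul_left
    omega
  · rw [fq, ff, fB, fX]
    calc q ^ (f * B) ≤ (2 ^ q) ^ (f * B) := Nat.pow_le_pow_left Nat.lt_two_pow_self.le _
      _ = 2 ^ (q * (f * B)) := by rw [← pow_mul]
      _ ≤ 2 ^ n := by
        apply Nat.pow_le_pow_right (by omega)
        refine le_trans ?_ hWn
        calc q * (f * B) ≤ q * (f * W) := by
              apply Nat.mul_le_mul_left
              exact Nat.mul_le_mul_left _ hs2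
          _ = 1 * (f * 1) * q * 1 * W := by ring
          _ ≤ 16 * ((f + 1) * (f + 1)) * q * (L + 1) * W := by
            apply Nat.mul_le_mul_right
            apply Nat.mul_le_mul _ (by omega)
            apply Nat.mul_le_mul_right
            apply Nat.mul_le_mul (by omega)
            exact Nat.mul_le_mul (by omega) (by omega)
  · rw [fp, ff, fB, fq, fX]
    calc p ^ ((f + 1) * B * q) ≤ (2 ^ (L + 1)) ^ ((f + 1) * B * q) :=
          Nat.pow_le_pow_left (hpn1.trans hnL.le) _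
      _ = 2 ^ ((L + 1) * ((f + 1) * B * q)) := by rw [← pow_mul]
      _ ≤ 2 ^ n := by
        apply Nat.pow_le_pow_right (by omega)
        refine le_trans ?_ hWn
        calc (L + 1) * ((f + 1) * B * q) ≤ (L + 1) * ((f + 1) * W * q) := by
              apply Nat.mul_le_mul_left
              apply Nat.mul_le_mul_right
              exact Nat.mul_le_mul_left _ hs2
          _ = 1 * ((f + 1) * 1) * q * (L + 1) * W := by ring
          _ ≤ 16 * ((f + 1) * (f + 1)) * q * (L + 1) * W := by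
            apply Nat.mul_le_mul_right
            apply Nat.mul_le_mul_right
            apply Nat.mul_le_mul_right
            apply Nat.mul_le_mul (by omega)
            exact Nat.mul_le_mul_left _ (by omega)
  · have fK : (dprm k (2 ^ n) n y).K = 2 * (f + 1) * (p - 1) := by
      unfold Prm.K
      rw [ff, fp]
    rw [fK, fH, fX]
    have hK1 : 2 * (f + 1) * (p - 1) ≤ 2 ^ (L + 1) := by
      have : 2 * (f + 1) * (p - 1) ≤ 2 * (f + 1) * p := Nat.mul_le_mul_left _ (by omega)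
      omega
    calc (2 * (f + 1) * (p - 1)) ^ W ≤ (2 ^ (L + 1)) ^ W := Nat.pow_le_pow_left hK1 _
      _ = 2 ^ ((L + 1) * W) := by rw [← pow_mul]
      _ ≤ 2 ^ n := by
        apply Nat.pow_le_pow_right (by omega)
        refine le_trans ?_ hWn
        calc (L + 1) * W = 1 * (1 * 1) * 1 * (L + 1) * W := by ring
          _ ≤ 16 * ((f + 1) * (f + 1)) * q * (L + 1) * W := by
            apply Nat.mul_le_mul_right
            apply Nat.mul_le_mul_right
            apply Nat.mul_le_mul _ hq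
            apply Nat.mul_le_mul (by omega)
            exact Nat.mul_le_mul (by omega) (by omega)

/-- the number of simulated steps -/
def tm (n d q : ℕ) : ℕ := wd (2 ^ n) n d q * rt (2 ^ n) n d (wd (2 ^ n) n d q)

/-- the simulation of an automaton on the input `1^n` -/
theorem sim_spec (k n d q dc a b : ℕ) [NeZero d] (hq : 1 ≤ q) (hb : b < q)
    (hbig : Big n d q)
    (he : e1 n = Nat.pair d (Nat.pair q (Nat.pair dc (Nat.pair a b))))
    (V : VDCA d k)
    (hV : ∀ (P : Prm) (y : ℕ → Fin k), P.q = q → P.dc = dc →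
      P.a = a → P.b = b → P.d = d → (∀ i < P.n, dg P.k P.y i = (y i : ℕ)) → ∀ T,
        (P.cz T (fun _ => 0) % 2 = 1 ↔ ∃ t ≤ T, V.AccAt (List.replicate P.n true) y t))
    (y : ℕ) (w : ℕ → Fin k) (hy : ∀ i < n, dg k y i = (w i : ℕ)) :
    ((dprm k (2 ^ n) n y).sim % 2 = 1 ↔
      ∃ t ≤ tm n d q, V.AccAt (List.replicate n true) w t) := by
  have hd : 1 ≤ d := Nat.pos_of_ne_zero (NeZero.ne d)
  have hval := dprm_valid n d q dc a b k y hd hq hb hbig he
  have hdd : dd n = d := by unfold dd; rw [he]; simp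
  have hqq : qq n = q := by unfold qq; rw [he]; simp
  have hT : (dprm k (2 ^ n) n y).H * (dprm k (2 ^ n) n y).s = tm n d q := by
    show wd (2 ^ n) n (dd n) (qq n) * rt (2 ^ n) n (dd n) (wd (2 ^ n) n (dd n) (qq n)) = _
    rw [hdd, hqq]
    rfl
  rw [Prm.sim_eq hval, hT]
  exact hV (dprm k (2 ^ n) n y) w hqq (by simp [dprm, he])
      (by simp [dprm, he]) (by simp [dprm, he]) hdd hy (tm n d q)

/-- largeness -/
theorem big_eventually (d q : ℕ) : ∀ᶠ n : ℕ in atTop, Big n d q := by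
  set f := 3 ^ d with hf
  -- first condition
  have hlog : ∀ᶠ n : ℕ in atTop,
      16 * ((f + 1) * (f + 1)) * q * (Nat.log 2 n + 1) ≤ n := by
    have h1 := (Real.isLittleO_log_id_atTop.comp_tendsto tendsto_natCast_atTop_atTop).def
      (show (0 : ℝ) < 1 / (96 * ((16 * ((f + 1) * (f + 1)) * q : ℕ) + 1)) by positivity)
    filter_upwards [h1, eventually_ge_atTop 3] with n hn hn3
    simp only [Function.comp, id_eq, Real.norm_eq_abs] at hn
    have hnn : |(n : ℝ)| = n := abs_of_nonneg (Nat.cast_nonneg n)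
    rw [hnn] at hn
    have hlog2 := (le_abs_self _).trans hn
    set c : ℕ := 16 * ((f + 1) * (f + 1)) * q with hc
    have hnr : (3 : ℝ) ≤ n := by exact_mod_cast hn3
    have hlog1 : 1 ≤ Real.log n := by
      rw [Real.le_log_iff_exp_le (by linarith)]
      have := Real.exp_one_lt_d9
      linarith
    have hL : ((Nat.log 2 n : ℕ) : ℝ) + 1 ≤ 3 * Real.log n := by
      have h1 : ((Nat.log 2 n : ℕ) : ℝ) ≤ Real.logb 2 n := Real.natLog_le_logb n 2
      have h2 : Real.logb 2 n = Real.log n / Real.log 2 := rfl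
      have h3 : (0.6931471803 : ℝ) < Real.log 2 := Real.log_two_gt_d9
      have h4 : Real.log n / Real.log 2 ≤ 2 * Real.log n := by
        rw [div_le_iff₀ (by linarith)]
        nlinarith
      rw [h2] at h1
      linarith
    have h5 : ((c * (Nat.log 2 n + 1) : ℕ) : ℝ) ≤ n := by
      push_cast
      have hc0 : (0 : ℝ) ≤ (c : ℝ) := Nat.cast_nonneg c
      calc (c : ℝ) * ((Nat.log 2 n : ℕ) + 1) ≤ c * (3 * Real.log n) :=
            mul_le_mul_of_nonneg_left hL hc0
        _ ≤ (c + 1) * (3 * Real.log n) := by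
            apply mul_le_mul_of_nonneg_right (by linarith) (by linarith)
        _ ≤ (c + 1) * (3 * (1 / (96 * ((c : ℝ) + 1)) * n)) := by
            apply mul_le_mul_of_nonneg_left _ (by linarith)
            linarith
        _ = n / 32 := by field_simp; ring
        _ ≤ n := by
            have : (0 : ℝ) ≤ n := Nat.cast_nonneg n
            linarith
    exact_mod_cast h5
  -- second condition
  have hpow : ∀ᶠ n : ℕ in atTop, (3 + (f + 1) * (2 * n + 1)) ^ d ≤ 2 ^ n := by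
    have ht := tendsto_pow_const_div_const_pow_of_one_lt d (show (1 : ℝ) < 2 by norm_num)
    have hC : (0 : ℝ) < 1 / ((3 + (f + 1) * 3 : ℕ) : ℝ) ^ d := by positivity
    have h1 := ht.eventually (gt_mem_nhds hC)
    filter_upwards [h1, eventually_ge_atTop 1] with n hn hn1
    have h2 : (3 + (f + 1) * (2 * n + 1)) ^ d ≤ ((3 + (f + 1) * 3) * n) ^ d := by
      apply Nat.pow_le_pow_left
      nlinarith
    refine h2.trans ?_
    rw [div_lt_div_iff₀ (by positivity) (by positivity)] at hn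
    have h3 : (((3 + (f + 1) * 3) * n) ^ d : ℕ) ≤ ((2 : ℝ) ^ n) := by
      push_cast at hn ⊢
      rw [mul_pow]
      nlinarith
    exact_mod_cast h3
  filter_upwards [hlog, hpow] with n h1 h2
  exact ⟨h1, h2⟩

/-- growth: the time bound is eventually below the simulated time -/
theorem growth (d : ℕ) (hd : 1 ≤ d) (T : ℕ → ℕ) (q : ℕ) (hq : 1 ≤ q)
    (hT : (fun n => (T n : ℝ)) =o[atTop]
      (fun n => ((n : ℝ) / Real.log n) ^ (1 + 1 / (d : ℝ)))) :
    ∀ᶠ n : ℕ in atTop, T n ≤ tm n d q := by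
  set f := 3 ^ d with hf
  set c : ℕ := 16 * ((f + 1) * (f + 1)) * q with hc
  have hc1 : 1 ≤ c := by
    rw [hc]
    have : 0 < 16 * ((f + 1) * (f + 1)) * q := by positivity
    omega
  have hcr : (1 : ℝ) ≤ c := by exact_mod_cast hc1
  have hdr : (1 : ℝ) ≤ d := by exact_mod_cast hd
  have hTe := hT.def (show (0 : ℝ) < 1 / 2 * (1 / (6 * (c : ℝ))) ^ 2 by positivity)
  filter_upwards [big_eventually d q, hTe, eventually_ge_atTop 3] with n hbig hn2 hn3
  have hnr : (3 : ℝ) ≤ n := by exact_mod_cast hn3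
  have hlog1 : 1 ≤ Real.log n := by
    rw [Real.le_log_iff_exp_le (by linarith)]
    have := Real.exp_one_lt_d9
    linarith
  have hL : ((Nat.log 2 n : ℕ) : ℝ) + 1 ≤ 3 * Real.log n := by
    have h1 : ((Nat.log 2 n : ℕ) : ℝ) ≤ Real.logb 2 n := Real.natLog_le_logb n 2
    have h2 : Real.logb 2 n = Real.log n / Real.log 2 := rfl
    have h3 : (0.6931471803 : ℝ) < Real.log 2 := Real.log_two_gt_d9
    have h4 : Real.log n / Real.log 2 ≤ 2 * Real.log n := by
      rw [div_le_iff₀ (by linarith)]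
      nlinarith
    rw [h2] at h1
    linarith
  have hfX : 3 ^ d ≤ 2 ^ n := by
    refine le_trans ?_ hbig.h2
    apply Nat.pow_le_pow_left
    have : 0 < 3 ^ d + 1 := by positivity
    nlinarith
  set W := wd (2 ^ n) n d q with hW
  have hWe : W = n / (c * (Nat.log 2 n + 1)) := wd_eq n d q (by omega) hfX
  set D := c * (Nat.log 2 n + 1) with hD
  have hDpos : 0 < D := by rw [hD]; positivity
  have hDposr : (0 : ℝ) < D := by exact_mod_cast hDpos
  have hDn : D ≤ n := hbig.h1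
  have hDr : (D : ℝ) ≤ 3 * c * Real.log n := by
    rw [hD]
    push_cast
    calc (c : ℝ) * ((Nat.log 2 n : ℕ) + 1) ≤ c * (3 * Real.log n) := by
          apply mul_le_mul_of_nonneg_left hL (by positivity)
      _ = _ := by ring
  have hW1 : 1 ≤ W := by
    rw [hWe, Nat.le_div_iff_mul_le hDpos, one_mul]
    exact hDn
  have hWr : (n : ℝ) / (6 * c * Real.log n) ≤ W := by
    have h6 : n < D * (W + 1) := by rw [hWe]; exact Nat.lt_mul_div_succ n hDpos
    have h8 : n ≤ 2 * D * W := by nlinarith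
    have h9 : (n : ℝ) ≤ 2 * D * W := by exact_mod_cast h8
    rw [div_le_iff₀ (by positivity)]
    have hW0 : (0 : ℝ) ≤ W := Nat.cast_nonneg _
    calc (n : ℝ) ≤ 2 * D * W := h9
      _ ≤ 2 * (3 * c * Real.log n) * W := by
        apply mul_le_mul_of_nonneg_right _ hW0
        linarith
      _ = _ := by ring
  have hWn : W ≤ n := by rw [hWe]; exact Nat.div_le_self _ _
  obtain ⟨hs1, hs2, hs3⟩ := rt_spec (2 ^ n) n d W hd hW1 hWn
    (lt_of_le_of_lt hWn Nat.lt_two_pow_self)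
  set s := rt (2 ^ n) n d W with hs
  have htm : tm n d q = W * s := rfl
  have hWrpos : (1 : ℝ) ≤ W := by exact_mod_cast hW1
  have hsr : (W : ℝ) ^ (1 / (d : ℝ)) ≤ 2 * s := by
    have h1 : (W : ℝ) ≤ ((s : ℝ) + 1) ^ d := by exact_mod_cast hs3.le
    have h2 : (W : ℝ) ^ (1 / (d : ℝ)) ≤ (((s : ℝ) + 1) ^ d) ^ (1 / (d : ℝ)) :=
      Real.rpow_le_rpow (by linarith) h1 (by positivity)
    have h3 : (((s : ℝ) + 1) ^ d) ^ (1 / (d : ℝ)) = (s : ℝ) + 1 := by
      rw [one_div, Real.pow_rpow_inv_natCast (by positivity) (by omega)]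
    have h4 : (1 : ℝ) ≤ s := by exact_mod_cast hs1
    linarith
  have hprod : (1 / 2 : ℝ) * (W : ℝ) ^ (1 + 1 / (d : ℝ)) ≤ (W : ℝ) * s := by
    rw [Real.rpow_add (by linarith), Real.rpow_one]
    nlinarith
  have hexp : (1 : ℝ) + 1 / (d : ℝ) ≤ 2 := by
    have : 1 / (d : ℝ) ≤ 1 := by
      rw [div_le_one (by linarith)]
      exact hdr
    linarith
  have hexp0 : (0 : ℝ) ≤ 1 + 1 / (d : ℝ) := by positivity
  have hTr : (T n : ℝ) ≤ 1 / 2 * (1 / (6 * (c : ℝ))) ^ 2 *
      ((n : ℝ) / Real.log n) ^ (1 + 1 / (d : ℝ)) := by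
    have h9 : ‖((T n : ℕ) : ℝ)‖ = T n := by
      rw [Real.norm_eq_abs]; exact abs_of_nonneg (Nat.cast_nonneg _)
    have h10 : ‖((n : ℝ) / Real.log n) ^ (1 + 1 / (d : ℝ))‖ =
        ((n : ℝ) / Real.log n) ^ (1 + 1 / (d : ℝ)) := by
      rw [Real.norm_eq_abs]; exact abs_of_nonneg (by positivity)
    rw [h9, h10] at hn2
    exact hn2
  have hfin : (T n : ℝ) ≤ ((W * s : ℕ) : ℝ) := by
    push_cast
    refine hTr.trans (le_trans ?_ hprod)
    rw [mul_assoc]
    apply mul_le_mul_of_nonneg_left _ (by norm_num)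
    have h1 : (1 / (6 * (c : ℝ))) ^ 2 ≤ (1 / (6 * (c : ℝ))) ^ (1 + 1 / (d : ℝ)) := by
      have h2 : (1 / (6 * (c : ℝ))) ^ (2 : ℝ) ≤ (1 / (6 * (c : ℝ))) ^ (1 + 1 / (d : ℝ)) := by
        apply Real.rpow_le_rpow_of_exponent_ge (by positivity) _ hexp
        rw [div_le_one (by positivity)]
        linarith
      have h3 : (1 / (6 * (c : ℝ))) ^ (2 : ℝ) = (1 / (6 * (c : ℝ))) ^ 2 := by
        exact_mod_cast Real.rpow_natCast (1 / (6 * (c : ℝ))) 2
      rw [h3] at h2
      exact h2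
    calc (1 / (6 * (c : ℝ))) ^ 2 * ((n : ℝ) / Real.log n) ^ (1 + 1 / (d : ℝ))
        ≤ (1 / (6 * (c : ℝ))) ^ (1 + 1 / (d : ℝ)) *
          ((n : ℝ) / Real.log n) ^ (1 + 1 / (d : ℝ)) := by
          apply mul_le_mul_of_nonneg_right h1 (by positivity)
      _ = ((1 / (6 * (c : ℝ))) * ((n : ℝ) / Real.log n)) ^ (1 + 1 / (d : ℝ)) := by
          rw [Real.mul_rpow (by positivity) (by positivity)]
      _ ≤ (W : ℝ) ^ (1 + 1 / (d : ℝ)) := by
          apply Real.rpow_le_rpow (by positivity) _ hexp0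
          refine le_trans (le_of_eq ?_) hWr
          field_simp
  rw [htm]
  exact_mod_cast hfin

end Pool.Agent.H539R2.DD
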