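import Pool.Agent.H539R2.LowD

/-!
Parameters of the simulation with separate size parameter `m`, input length `n` and code `c`.
-/

set_option linter.unusedSimpArgs false
set_option linter.unusedVariables false

namespace Pool.Agent.H539R2.DD.TW

open Pool.Agent.H539R2 Filter

/-- the dimension in a code -/
def dd (c : ℕ) : ℕ := (Nat.unpair c).1

/-- the number of states in a code -/
def qq (c : ℕ) : ℕ := (Nat.unpair (Nat.unpair c).2).1

/-- the side of the blocks -/
def sd (X m c : ℕ) : ℕ := rt X m (dd c) (wd X m (dd c) (qq c))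

/-- the parameters given by size `m`, input length `n`, code `c` -/
def dprm (k X m n c y : ℕ) : Prm where
  X := X
  n := n
  q := qq c
  dc := (Nat.unpair (Nat.unpair (Nat.unpair c).2).2).1
  a := (Nat.unpair (Nat.unpair (Nat.unpair (Nat.unpair c).2).2).2).1
  b := (Nat.unpair (Nat.unpair (Nat.unpair (Nat.unpair c).2).2).2).2
  d := dd c
  s := sd X m c
  H := wd X m (dd c) (qq c)
  p := ZZ.fnd (powT X 3 (dd c) * powT X (sd X m c) (dd c)) /
    (6 * (powT X 3 (dd c) * powT X (sd X m c) (dd c)) + 3)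
  g := ZZ.fnd (powT X 3 (dd c) * powT X (sd X m c) (dd c)) %
    (6 * (powT X 3 (dd c) * powT X (sd X m c) (dd c)) + 3)
  k := k
  y := y

theorem ls_dprm {k X m n c y : (ℕ → ℕ) → ℕ} (hk : LS k) (hX : LS X) (hm : LS m) (hn : LS n)
    (hc : LS c) (hy : LS y) :
    LSPrm (fun ρ => dprm (k ρ) (X ρ) (m ρ) (n ρ) (c ρ) (y ρ)) := by
  have hdd : LS (fun ρ => dd (c ρ)) := LS.unpair1 hc
  have h2 := LS.unpair2 hc
  have hqq : LS (fun ρ => qq (c ρ)) := LS.unpair1 h2
  have h3 := LS.unpair2 h2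
  have h4 := LS.unpair2 h3
  have hwd := ls_wd hX hm hdd hqq
  have hsd : LS (fun ρ => sd (X ρ) (m ρ) (c ρ)) := ls_rt hX hm hdd hwd
  have hfB := (LS.powT hX (LS.const 3) hdd).mul (LS.powT hX hsd hdd)
  have hf := ZZ.LS.fnd hfB
  have hw := ((LS.const 6).mul hfB).add (LS.const 3)
  refine ⟨?_, ?_, ?_, ?_, ?_, ?_, ?_, ?_, ?_, ?_, ?_, ?_, ?_⟩ <;> simp only [dprm]
  · exact hX
  · exact hn
  · exact hqq
  · exact LS.unpair1 h3
  · exact LS.unpair1 h4
  · exact LS.unpair2 h4
  · exact hdd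
  · exact hsd
  · exact hwd
  · exact hf.div hw
  · exact hf.mod hw
  · exact hk
  · exact hy

attribute [local irreducible] powT ZZ.fnd rt wd

theorem dprm_valid (n l c d q dc a b k y : ℕ) (hd : 1 ≤ d) (hq : 1 ≤ q) (hb : b < q)
    (hbig : Big n d q)
    (he : c = Nat.pair d (Nat.pair q (Nat.pair dc (Nat.pair a b)))) :
    (dprm k (2 ^ n) n l c y).Valid := by
  obtain ⟨hn, hG⟩ := hbig
  set f := 3 ^ d with hf
  have hfpos : 1 ≤ f := Nat.one_le_pow _ _ (by omega)
  set L := Nat.log 2 n with hL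
  have hDpos : 0 < 16 * ((f + 1) * (f + 1)) * q * (L + 1) := by positivity
  have hn1 : 1 ≤ n := le_trans (by omega) hn
  have hfX : 3 ^ d ≤ 2 ^ n := by
    refine le_trans ?_ hG
    apply Nat.pow_le_pow_left
    omega
  set W := n / (16 * ((f + 1) * (f + 1)) * q * (L + 1)) with hW
  have hWe : wd (2 ^ n) n d q = W := wd_eq n d q hn1 hfX
  have hW1 : 1 ≤ W := by
    rw [hW, Nat.le_div_iff_mul_le hDpos, one_mul]
    exact hn
  have hWn : 16 * ((f + 1) * (f + 1)) * q * (L + 1) * W ≤ n := Nat.mul_div_le _ _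
  have hWlen : W ≤ n := Nat.div_le_self _ _
  have hWX : W < 2 ^ n := lt_of_le_of_lt hWlen Nat.lt_two_pow_self
  have hdd : dd c = d := by unfold dd; rw [he]; simp
  have hqq : qq c = q := by unfold qq; rw [he]; simp
  have hsd : sd (2 ^ n) n c = rt (2 ^ n) n d W := by unfold sd; rw [hdd, hqq, hWe]
  obtain ⟨hs1, hs2, hs3⟩ := rt_spec (2 ^ n) n d W hd hW1 hWlen hWX
  set s := rt (2 ^ n) n d W with hs
  have fq : (dprm k (2 ^ n) n l c y).q = q := hqq
  have fb : (dprm k (2 ^ n) n l c y).b = b := by simp [dprm, he]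
  have fd : (dprm k (2 ^ n) n l c y).d = d := hdd
  have fs : (dprm k (2 ^ n) n l c y).s = s := hsd
  have fX : (dprm k (2 ^ n) n l c y).X = 2 ^ n := rfl
  have fH : (dprm k (2 ^ n) n l c y).H = W := by
    show wd (2 ^ n) n (dd c) (qq c) = W
    rw [hdd, hqq, hWe]
  have hf3 : powT (2 ^ n) 3 d = f := powT_eq _ _ _ (by omega) hfX
  have hB3 : powT (2 ^ n) s d = s ^ d := powT_eq _ _ _ hs1 (hs2.trans hWX.le)
  have ff : (dprm k (2 ^ n) n l c y).f = f := by
    unfold Prm.f
    rw [fX, fd, hf3]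
  have fB : (dprm k (2 ^ n) n l c y).B = s ^ d := by
    unfold Prm.B
    rw [fX, fd, fs, hB3]
  set B := s ^ d with hBdef
  have hB1 : 1 ≤ B := Nat.one_le_pow _ _ hs1
  have fp : (dprm k (2 ^ n) n l c y).p = ZZ.fnd (f * B) / (6 * (f * B) + 3) := by
    show ZZ.fnd (powT (2 ^ n) 3 (dd c) * powT (2 ^ n) (sd (2 ^ n) n c) (dd c)) /
      (6 * (powT (2 ^ n) 3 (dd c) * powT (2 ^ n) (sd (2 ^ n) n c) (dd c)) + 3) = _
    rw [hdd, hsd, hf3, hB3]
  have fg : (dprm k (2 ^ n) n l c y).g = ZZ.fnd (f * B) % (6 * (f * B) + 3) := by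
    show ZZ.fnd (powT (2 ^ n) 3 (dd c) * powT (2 ^ n) (sd (2 ^ n) n c) (dd c)) %
      (6 * (powT (2 ^ n) 3 (dd c) * powT (2 ^ n) (sd (2 ^ n) n c) (dd c)) + 3) = _
    rw [hdd, hsd, hf3, hB3]
  have hfB1 : 1 ≤ f * B := Nat.mul_pos hfpos hB1
  obtain ⟨hp2, hbad, hpW⟩ := ZZ.fnd_spec (f * B) hfB1
  have hgood := (ZZ.bad_iff _ _ _ hp2).1 hbad
  set p := ZZ.fnd (f * B) / (6 * (f * B) + 3) with hp
  have hnL : n < 2 ^ (L + 1) := Nat.lt_pow_succ_log_self (by omega) n
  have hqL : 1 ≤ q * (L + 1) := Nat.mul_pos hq (by omega)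
  have h16 : 16 * ((f + 1) * (f + 1)) * W ≤ n := by
    calc 16 * ((f + 1) * (f + 1)) * W = 16 * ((f + 1) * (f + 1)) * W * 1 := by ring
      _ ≤ 16 * ((f + 1) * (f + 1)) * W * (q * (L + 1)) := Nat.mul_le_mul_left _ hqL
      _ = 16 * ((f + 1) * (f + 1)) * q * (L + 1) * W := by ring
      _ ≤ n := hWn
  have hpn : 2 * (f + 1) * p ≤ n := by
    have h1 : p ≤ 6 * (f + 1) * W := by
      have h2 : 6 * (f * B) + 3 ≤ 6 * (f + 1) * W := by
        have h3 : 6 * (f * B) ≤ 6 * (f * W) := by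
          apply Nat.mul_le_mul_left
          exact Nat.mul_le_mul_left _ hs2
        nlinarith
      omega
    calc 2 * (f + 1) * p ≤ 2 * (f + 1) * (6 * (f + 1) * W) := Nat.mul_le_mul_left _ h1
      _ = 12 * ((f + 1) * (f + 1)) * W := by ring
      _ ≤ 16 * ((f + 1) * (f + 1)) * W := by
        apply Nat.mul_le_mul_right
        apply Nat.mul_le_mul_right
        omega
      _ ≤ n := h16
  have hpn1 : p ≤ n := by
    refine le_trans ?_ hpn
    exact Nat.le_mul_of_pos_left _ (by positivity)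
  refine ⟨?_, ?_, ?_, ?_, ?_, ?_, ?_, ?_, ?_, ?_, ?_, ?_, ?_⟩
  · rw [fq]; exact hq
  · rw [fb, fq]; exact hb
  · rw [fd]; exact hd
  · rw [fs]; exact hs1
  · rw [fp]; exact hp2
  · rw [fp, fg]; exact hgood.1
  · rw [fp, fg, ff, fB]
    intro k hk1 hk2
    exact hgood.2 k hk1 (by omega)
  · rw [fd, fX]; exact hfX
  · rw [fs, fd, fX]; exact hs2.trans hWX.le
  · have fG : (dprm k (2 ^ n) n l c y).G = 3 + (f + 1) * (2 * W + 1) := by
      unfold Prm.G
      rw [ff, fH]
    rw [fG, fd, fX]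
    refine le_trans ?_ hG
    apply Nat.pow_le_pow_left
    apply Nat.add_le_add_left
    apply Nat.mul_le_mul_left
    omega
  · rw [fq, ff, fB, fX]
    calc q ^ (f * B) ≤ (2 ^ q) ^ (f * B) := Nat.pow_le_pow_left Nat.lt_two_pow_self.le _
      _ = 2 ^ (q * (f * B)) := by rw [← pow_mul]
      _ ≤ 2 ^ n := by
        apply Nat.pow_le_pow_right (by omega)
        refine le_trans ?_ hWn
        calc q * (f * B) ≤ q * (f * W) := by
              apply Nat.mul_le_mul_left
              exact Nat.mul_le_mul_left _ hs2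
          _ = 1 * (f * 1) * q * 1 * W := by ring
          _ ≤ 16 * ((f + 1) * (f + 1)) * q * (L + 1) * W := by
            apply Nat.mul_le_mul_right
            apply Nat.mul_le_mul _ (by omega)
            apply Nat.mul_le_mul_right
            apply Nat.mul_le_mul (by omega)
            exact Nat.mul_le_mul (by omega) (by omega)
  · rw [fp, ff, fB, fq, fX]
    calc p ^ ((f + 1) * B * q) ≤ (2 ^ (L + 1)) ^ ((f + 1) * B * q) :=
          Nat.pow_le_pow_left (hpn1.trans hnL.le) _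
      _ = 2 ^ ((L + 1) * ((f + 1) * B * q)) := by rw [← pow_mul]
      _ ≤ 2 ^ n := by
        apply Nat.pow_le_pow_right (by omega)
        refine le_trans ?_ hWn
        calc (L + 1) * ((f + 1) * B * q) ≤ (L + 1) * ((f + 1) * W * q) := by
              apply Nat.mul_le_mul_left
              apply Nat.mul_le_mul_right
              exact Nat.mul_le_mul_left _ hs2
          _ = 1 * ((f + 1) * 1) * q * (L + 1) * W := by ring
          _ ≤ 16 * ((f + 1) * (f + 1)) * q * (L + 1) * W := by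
            apply Nat.mul_le_mul_right
            apply Nat.mul_le_mul_right
            apply Nat.mul_le_mul_right
            apply Nat.mul_le_mul (by omega)
            exact Nat.mul_le_mul_left _ (by omega)
  · have fK : (dprm k (2 ^ n) n l c y).K = 2 * (f + 1) * (p - 1) := by
      unfold Prm.K
      rw [ff, fp]
    rw [fK, fH, fX]
    have hK1 : 2 * (f + 1) * (p - 1) ≤ 2 ^ (L + 1) := by
      have : 2 * (f + 1) * (p - 1) ≤ 2 * (f + 1) * p := Nat.mul_le_mul_left _ (by omega)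
      omega
    calc (2 * (f + 1) * (p - 1)) ^ W ≤ (2 ^ (L + 1)) ^ W := Nat.pow_le_pow_left hK1 _
      _ = 2 ^ ((L + 1) * W) := by rw [← pow_mul]
      _ ≤ 2 ^ n := by
        apply Nat.pow_le_pow_right (by omega)
        refine le_trans ?_ hWn
        calc (L + 1) * W = 1 * (1 * 1) * 1 * (L + 1) * W := by ring
          _ ≤ 16 * ((f + 1) * (f + 1)) * q * (L + 1) * W := by
            apply Nat.mul_le_mul_right
            apply Nat.mul_le_mul_right
            apply Nat.mul_le_mul _ hq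
            apply Nat.mul_le_mul (by omega)
            exact Nat.mul_le_mul (by omega) (by omega)


/-- the simulation of an automaton on the input `1^l`, with size parameter `n` -/
theorem sim_spec (k n l c d q dc a b : ℕ) [NeZero d] (hq : 1 ≤ q) (hb : b < q)
    (hbig : Big n d q)
    (he : c = Nat.pair d (Nat.pair q (Nat.pair dc (Nat.pair a b))))
    (V : VDCA d k)
    (hV : ∀ (P : Prm) (y : ℕ → Fin k), P.q = q → P.dc = dc →
      P.a = a → P.b = b → P.d = d → (∀ i < P.n, dg P.k P.y i = (y i : ℕ)) → ∀ T,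
        (P.cz T (fun _ => 0) % 2 = 1 ↔ ∃ t ≤ T, V.AccAt (List.replicate P.n true) y t))
    (y : ℕ) (w : ℕ → Fin k) (hy : ∀ i < l, dg k y i = (w i : ℕ)) :
    ((dprm k (2 ^ n) n l c y).sim % 2 = 1 ↔
      ∃ t ≤ tm n d q, V.AccAt (List.replicate l true) w t) := by
  have hd : 1 ≤ d := Nat.pos_of_ne_zero (NeZero.ne d)
  have hval := dprm_valid n l c d q dc a b k y hd hq hb hbig he
  have hdd : dd c = d := by unfold dd; rw [he]; simp
  have hqq : qq c = q := by unfold qq; rw [he]; simp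
  have hT : (dprm k (2 ^ n) n l c y).H * (dprm k (2 ^ n) n l c y).s = tm n d q := by
    show wd (2 ^ n) n (dd c) (qq c) * rt (2 ^ n) n (dd c) (wd (2 ^ n) n (dd c) (qq c)) = _
    rw [hdd, hqq]
    rfl
  rw [Prm.sim_eq hval, hT]
  exact hV (dprm k (2 ^ n) n l c y) w hqq (by simp [dprm, he])
      (by simp [dprm, he]) (by simp [dprm, he]) hdd hy (tm n d q)

end Pool.Agent.H539R2.DD.TW
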