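import Pool.Agent.H539R2.SearchZ

/-!
The lower bound.
-/

set_option linter.unusedSimpArgs false
set_option linter.unusedVariables false

namespace Pool.Agent.H539R2.ZZ

open Pool.Agent.H539R2 Filter

theorem bl_valid (n q dc a b k y : ℕ) (hq : 1 ≤ q) (hb : b < q)
    (hn : 16 * q * (Nat.log 2 n + 1) ≤ n)
    (he : (Nat.unpair n).1 = Nat.pair q (Nat.pair dc (Nat.pair a b))) :
    (dprm k (2 ^ n) n y).Valid := by
  have hn1 : 1 ≤ n := le_trans (by
    have : 1 * 1 * 1 ≤ 16 * q * (Nat.log 2 n + 1) := Nat.mul_le_mul (by omega) (by omega)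
    omega) hn
  set L := Nat.log 2 n with hL
  set B := n / (16 * q * (L + 1)) with hB
  have hDpos : 0 < 16 * q * (L + 1) := by positivity
  have hBe : bl (2 ^ n) n q = B := by
    unfold bl
    rw [lg_eq n hn1]
  have hB1 : 1 ≤ B := by
    rw [hB, Nat.le_div_iff_mul_le hDpos, one_mul]
    exact hn
  have hBn : 16 * q * (L + 1) * B ≤ n := Nat.mul_div_le _ _
  have fq : (dprm k (2 ^ n) n y).q = q := by simp [dprm, he]
  have fb : (dprm k (2 ^ n) n y).b = b := by simp [dprm, he]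
  have fX : (dprm k (2 ^ n) n y).X = 2 ^ n := rfl
  have hu1 : (Nat.unpair (Nat.unpair n).1).1 = q := by simp [he]
  have fB : (dprm k (2 ^ n) n y).B = B := by
    show bl (2 ^ n) n (Nat.unpair (Nat.unpair n).1).1 = B
    rw [hu1, hBe]
  have fH : (dprm k (2 ^ n) n y).H = B := by
    show bl (2 ^ n) n (Nat.unpair (Nat.unpair n).1).1 = B
    rw [hu1, hBe]
  have fp : (dprm k (2 ^ n) n y).p = fnd B / (6 * B + 3) := by
    show fnd (bl (2 ^ n) n (Nat.unpair (Nat.unpair n).1).1) /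
      (6 * bl (2 ^ n) n (Nat.unpair (Nat.unpair n).1).1 + 3) = _
    rw [hu1, hBe]
  have fg : (dprm k (2 ^ n) n y).g = fnd B % (6 * B + 3) := by
    show fnd (bl (2 ^ n) n (Nat.unpair (Nat.unpair n).1).1) %
      (6 * bl (2 ^ n) n (Nat.unpair (Nat.unpair n).1).1 + 3) = _
    rw [hu1, hBe]
  obtain ⟨hp2, hbad, hpW⟩ := fnd_spec B hB1
  have hgood := (bad_iff _ _ _ hp2).1 hbad
  set p := fnd B / (6 * B + 3) with hp
  have hnL : n < 2 ^ (L + 1) := Nat.lt_pow_succ_log_self (by omega) n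
  have hp3 : p ≤ 2 ^ (L + 3) := by
    have h1 : 16 * B ≤ n := by
      calc 16 * B = 16 * 1 * 1 * B := by ring
        _ ≤ 16 * q * (L + 1) * B := by
          apply Nat.mul_le_mul_right
          exact Nat.mul_le_mul (Nat.mul_le_mul_left _ hq) (by omega)
        _ ≤ n := hBn
    have h2 : 2 ^ (L + 3) = 4 * 2 ^ (L + 1) := by ring
    omega
  refine ⟨?_, ?_, ?_, ?_, ?_, ?_, ?_, ?_, ?_⟩
  · rw [fq]; exact hq
  · rw [fb, fq]; exact hb
  · rw [fB]; exact hB1
  · rw [fp]; exact hp2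
  · rw [fp, fg]; exact hgood.1
  · rw [fp, fg, fB]; exact hgood.2
  · rw [fq, fB, fX]
    calc q ^ (3 * B) ≤ (2 ^ q) ^ (3 * B) := Nat.pow_le_pow_left Nat.lt_two_pow_self.le _
      _ = 2 ^ (q * (3 * B)) := by rw [← pow_mul]
      _ ≤ 2 ^ n := by
        apply Nat.pow_le_pow_right (by omega)
        refine le_trans ?_ hBn
        calc q * (3 * B) = 3 * q * 1 * B := by ring
          _ ≤ 16 * q * (L + 1) * B := by
            apply Nat.mul_le_mul_right
            exact Nat.mul_le_mul (Nat.mul_le_mul_right _ (by omega)) (by omega)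
  · rw [fp, fB, fq, fX]
    calc p ^ (4 * B * q) ≤ (2 ^ (L + 3)) ^ (4 * B * q) := Nat.pow_le_pow_left hp3 _
      _ = 2 ^ ((L + 3) * (4 * B * q)) := by rw [← pow_mul]
      _ ≤ 2 ^ n := by
        apply Nat.pow_le_pow_right (by omega)
        refine le_trans ?_ hBn
        calc (L + 3) * (4 * B * q) ≤ (3 * (L + 1)) * (4 * B * q) :=
              Nat.mul_le_mul_right _ (by omega)
          _ = 12 * (q * (L + 1) * B) := by ring
          _ ≤ 16 * (q * (L + 1) * B) := Nat.mul_le_mul_right _ (by omega)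
          _ = 16 * q * (L + 1) * B := by ring
  · rw [fp, fH, fX]
    have h8 : 8 * (p - 1) ≤ 2 ^ (L + 6) := by
      have h2 : 2 ^ (L + 6) = 8 * 2 ^ (L + 3) := by ring
      omega
    calc (8 * (p - 1)) ^ B ≤ (2 ^ (L + 6)) ^ B := Nat.pow_le_pow_left h8 _
      _ = 2 ^ ((L + 6) * B) := by rw [← pow_mul]
      _ ≤ 2 ^ n := by
        apply Nat.pow_le_pow_right (by omega)
        refine le_trans ?_ hBn
        calc (L + 6) * B ≤ (6 * (L + 1)) * B := Nat.mul_le_mul_right _ (by omega)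
          _ = 6 * 1 * (L + 1) * B := by ring
          _ ≤ 16 * q * (L + 1) * B := by
            apply Nat.mul_le_mul_right
            apply Nat.mul_le_mul_right
            exact Nat.mul_le_mul (by omega) hq

/-- witnesses as numbers -/
theorem wit_exists (k n : ℕ) (hk : 1 ≤ k) (y : ℕ → Fin k) :
    ∃ m < k ^ n, ∀ i < n, dg k m i = (y i : ℕ) :=
  ⟨digs k n (fun i => (y i : ℕ)), digs_lt _ _ _ (fun i _ => (y i).isLt),
    fun i hi => dg_digs _ _ hk _ (fun i _ => (y i).isLt) i hi⟩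

theorem diag_value (k n q dc a b : ℕ) (hk : 1 ≤ k) (hq : 1 ≤ q) (hb : b < q)
    (hn : 16 * q * (Nat.log 2 n + 1) ≤ n)
    (he : (Nat.unpair n).1 = Nat.pair q (Nat.pair dc (Nat.pair a b)))
    (V : VCA k)
    (hV : ∀ (P : Prm) (y : ℕ → Fin k), P.q = q → P.dc = dc → P.a = a →
      P.b = b → (∀ i < P.n, dg P.k P.y i = (y i : ℕ)) → ∀ T,
        (P.cz T 0 % 2 = 1 ↔ ∃ t ≤ T, V.AccAt (List.replicate P.n true) y t)) :
    U k (2 ^ n) n ≠ 0 ↔ ¬ ∃ y : ℕ → Fin k,
      ∃ t ≤ (n / (16 * q * (Nat.log 2 n + 1))) * (n / (16 * q * (Nat.log 2 n + 1))),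
        V.AccAt (List.replicate n true) y t := by
  have hn1 : 1 ≤ n := le_trans (by
    have : 1 * 1 * 1 ≤ 16 * q * (Nat.log 2 n + 1) := Nat.mul_le_mul (by omega) (by omega)
    omega) hn
  set T := (n / (16 * q * (Nat.log 2 n + 1))) * (n / (16 * q * (Nat.log 2 n + 1))) with hT
  have hkn : powT ((2 ^ n) ^ k) k n = k ^ n := by
    apply powT_eq _ _ _ hk
    calc k ^ n ≤ (2 ^ k) ^ n := Nat.pow_le_pow_left Nat.lt_two_pow_self.le _
      _ = (2 ^ n) ^ k := by rw [← pow_mul, ← pow_mul, mul_comm]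
  have hHB : ∀ y, (dprm k (2 ^ n) n y).H * (dprm k (2 ^ n) n y).B = T := by
    intro y
    show bl (2 ^ n) n (Nat.unpair (Nat.unpair n).1).1 *
      bl (2 ^ n) n (Nat.unpair (Nat.unpair n).1).1 = T
    rw [he, Nat.unpair_pair]
    unfold bl
    rw [lg_eq n hn1]
  have hsim : ∀ (y : ℕ) (w : ℕ → Fin k), (∀ i < n, dg k y i = (w i : ℕ)) →
      ((dprm k (2 ^ n) n y).sim % 2 = 1 ↔ ∃ t ≤ T, V.AccAt (List.replicate n true) w t) := by
    intro y w hy
    have hval := bl_valid n q dc a b k y hq hb hn he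
    rw [Prm.sim_eq hval, hHB]
    exact hV (dprm k (2 ^ n) n y) w (by simp [dprm, he]) (by simp [dprm, he])
      (by simp [dprm, he]) (by simp [dprm, he]) hy T
  unfold U
  rw [hkn]
  constructor
  · intro h
    have h0 : ∑ y ∈ Finset.range (k ^ n), (dprm k (2 ^ n) n y).sim % 2 = 0 := by
      by_contra hcon
      rw [if_neg hcon] at h
      exact h rfl
    rw [Finset.sum_eq_zero_iff] at h0
    rintro ⟨w, hw⟩
    obtain ⟨y, hy1, hy2⟩ := wit_exists k n hk w
    have h1 := (hsim y w hy2).2 hw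
    have h2 := h0 y (Finset.mem_range.2 hy1)
    omega
  · intro h
    have h0 : ∑ y ∈ Finset.range (k ^ n), (dprm k (2 ^ n) n y).sim % 2 = 0 := by
      rw [Finset.sum_eq_zero_iff]
      intro y _
      by_contra hcon
      have h1 : (dprm k (2 ^ n) n y).sim % 2 = 1 := by omega
      refine h ⟨fun i => ⟨dg k y i, dg_lt _ _ _ hk⟩, ?_⟩
      exact (hsim y (fun i => ⟨dg k y i, dg_lt _ _ _ hk⟩) (fun i _ => rfl)).1 h1
    rw [if_pos h0]
    exact Nat.one_ne_zero

/-- growth: the time bound is eventually below the simulated time -/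
theorem growth (T : ℕ → ℕ) (q : ℕ) (hq : 1 ≤ q)
    (hT : (fun n => (T n : ℝ)) =o[atTop] (fun n => ((n : ℝ) / Real.log n) ^ 2)) :
    ∀ᶠ n : ℕ in atTop, 16 * q * (Nat.log 2 n + 1) ≤ n ∧
      T n ≤ (n / (16 * q * (Nat.log 2 n + 1))) * (n / (16 * q * (Nat.log 2 n + 1))) := by
  have hqr : (1 : ℝ) ≤ q := by exact_mod_cast hq
  have hlog : ∀ᶠ n : ℕ in atTop, Real.log n ≤ (1 / (96 * (q : ℝ))) * n := by
    have h1 := (Real.isLittleO_log_id_atTop.comp_tendsto tendsto_natCast_atTop_atTop).def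
      (show (0 : ℝ) < 1 / (96 * (q : ℝ)) by positivity)
    filter_upwards [h1, eventually_ge_atTop 1] with n hn hn1
    simp only [Function.comp, id_eq, Real.norm_eq_abs] at hn
    have hnn : |(n : ℝ)| = n := abs_of_nonneg (Nat.cast_nonneg n)
    rw [hnn] at hn
    exact (le_abs_self _).trans hn
  have hTe := hT.def (show (0 : ℝ) < 1 / (9216 * (q : ℝ) ^ 2) by positivity)
  filter_upwards [hlog, hTe, eventually_ge_atTop 3] with n hn1 hn2 hn3
  have hnr : (3 : ℝ) ≤ n := by exact_mod_cast hn3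
  have hlog1 : 1 ≤ Real.log n := by
    rw [Real.le_log_iff_exp_le (by linarith)]
    have := Real.exp_one_lt_d9
    linarith
  have hL : ((Nat.log 2 n : ℕ) : ℝ) + 1 ≤ 3 * Real.log n := by
    have h1 : ((Nat.log 2 n : ℕ) : ℝ) ≤ Real.logb 2 n := Real.natLog_le_logb n 2
    have h2 : Real.logb 2 n = Real.log n / Real.log 2 := rfl
    have h3 : (0.6931471803 : ℝ) < Real.log 2 := Real.log_two_gt_d9
    have h4 : Real.log n / Real.log 2 ≤ 2 * Real.log n := by
      rw [div_le_iff₀ (by linarith)]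
      nlinarith
    rw [h2] at h1
    linarith
  set D := 16 * q * (Nat.log 2 n + 1) with hD
  have hDr : (D : ℝ) ≤ 48 * q * Real.log n := by
    rw [hD]
    push_cast
    calc (16 : ℝ) * q * ((Nat.log 2 n : ℕ) + 1) ≤ 16 * q * (3 * Real.log n) := by
          apply mul_le_mul_of_nonneg_left hL (by positivity)
      _ = _ := by ring
  have hDpos : 0 < D := by rw [hD]; positivity
  have hDposr : (0 : ℝ) < D := by exact_mod_cast hDpos
  have h2D : 2 * (D : ℝ) ≤ n := by
    have : 48 * q * Real.log n ≤ 48 * q * ((1 / (96 * (q : ℝ))) * n) := by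
      apply mul_le_mul_of_nonneg_left hn1 (by positivity)
    have h5 : 48 * (q : ℝ) * ((1 / (96 * (q : ℝ))) * n) = n / 2 := by
      field_simp
      ring
    linarith
  have h2Dn : 2 * D ≤ n := by exact_mod_cast h2D
  refine ⟨by omega, ?_⟩
  -- floor estimate
  set f := n / D with hf
  have hfr : (n : ℝ) / (2 * D) ≤ f := by
    have h6 : n < D * (f + 1) := Nat.lt_mul_div_succ n hDpos
    have h7 : 1 ≤ f := by
      rw [hf, Nat.le_div_iff_mul_le hDpos]; omega
    have h8 : n ≤ 2 * D * f := by nlinarith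
    rw [div_le_iff₀ (by positivity)]
    have : (n : ℝ) ≤ 2 * D * f := by exact_mod_cast h8
    linarith
  have hTr : (T n : ℝ) ≤ (1 / (9216 * (q : ℝ) ^ 2)) * ((n : ℝ) / Real.log n) ^ 2 := by
    have h9 : ‖((T n : ℕ) : ℝ)‖ = T n := by
      rw [Real.norm_eq_abs]; exact abs_of_nonneg (Nat.cast_nonneg _)
    have h10 : ‖((n : ℝ) / Real.log n) ^ 2‖ = ((n : ℝ) / Real.log n) ^ 2 := by
      rw [Real.norm_eq_abs]; exact abs_of_nonneg (by positivity)
    rw [h9, h10] at hn2
    exact hn2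
  have hfin : (T n : ℝ) ≤ (f : ℝ) * f := by
    have h11 : (n : ℝ) / (2 * (48 * q * Real.log n)) ≤ n / (2 * D) := by
      apply div_le_div_of_nonneg_left (by positivity) (by positivity)
      linarith
    have h12 : (1 / (9216 * (q : ℝ) ^ 2)) * ((n : ℝ) / Real.log n) ^ 2 =
        ((n : ℝ) / (2 * (48 * q * Real.log n))) * ((n : ℝ) / (2 * (48 * q * Real.log n))) := by
      have hl : Real.log n ≠ 0 := by linarith
      have hq0 : (q : ℝ) ≠ 0 := by linarith
      field_simp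
      ring
    rw [h12] at hTr
    refine hTr.trans ?_
    have h13 := h11.trans hfr
    apply mul_le_mul h13 h13 (by positivity) (by positivity)
  exact_mod_cast hfin

theorem main (K : ℕ) (hK : 1 ≤ K) :
    ∃ A : LBA, (∀ w, A.Acc w → ∀ x ∈ w, x = true) ∧
      ∀ (V : VCA K) (T : ℕ → ℕ),
        (fun n => (T n : ℝ)) =o[atTop] (fun n => ((n : ℝ) / Real.log n) ^ 2) →
        V.InTime T → ¬ ∀ x, (A.Acc x ↔ V.Acc x) := by
  obtain ⟨A, hA1, hA2⟩ := ls_lba (LS.U K)
  refine ⟨A, hA1, ?_⟩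
  intro V T hT hin hAV
  obtain ⟨q, dc, a, b, hq, hb, hV⟩ := vca_code V
  set e := Nat.pair q (Nat.pair dc (Nat.pair a b)) with he
  have hgr := growth T q hq hT
  obtain ⟨N, hN⟩ := eventually_atTop.1 hgr
  set n := Nat.pair e (N + 1) with hn
  have hnN : N + 1 ≤ n := Nat.right_le_pair e (N + 1)
  obtain ⟨h1, h2⟩ := hN n (by omega)
  have hue : (Nat.unpair n).1 = e := by rw [hn, Nat.unpair_pair]
  have hd := diag_value K n q dc a b hK hq hb h1 hue V hV
  rw [← hA2 n (by omega), hAV] at hd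
  by_cases hacc : V.Acc (List.replicate n true)
  · obtain ⟨y, t, ht, hy⟩ := hin _ hacc
    rw [List.length_replicate] at ht
    exact hd.1 hacc ⟨y, t, ht.trans h2, hy⟩
  · apply hacc
    rw [hd]
    rintro ⟨y, t, _, hy⟩
    exact hacc ⟨y, t, hy⟩

end Pool.Agent.H539R2.ZZ
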