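import Pool.Agent.H539R2.QuantD

/-!
The diagonal language against quantified cellular automata.
-/

set_option linter.unusedSimpArgs false
set_option linter.unusedVariables false

namespace Pool.Agent.H539R2.DD

open Pool.Agent.H539R2 Filter

theorem mainQ (K k : ℕ) (hK : 1 ≤ K) :
    ∃ A : LBA, (∀ w, A.Acc w → ∀ x ∈ w, x = true) ∧
      ∀ (d : ℕ) [NeZero d] (V : QCA d k K) (σ : Fin k → Qf) (T : ℕ → ℕ),
        (fun n => (T n : ℝ)) =o[atTop]
          (fun n => ((n : ℝ) / Real.log n) ^ (1 + 1 / (d : ℝ))) →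
        V.InTime T → ¬ ∀ x, (A.Acc x ↔ Quant x.length K k σ (V.Acc x)) := by
  obtain ⟨A, hA1, hA2⟩ := ls_lba (ls_UQ K k)
  refine ⟨A, hA1, ?_⟩
  intro d _ V σ T hT hin hAV
  have hd : 1 ≤ d := Nat.pos_of_ne_zero (NeZero.ne d)
  obtain ⟨q, dc, a, b, hq, hb, hV⟩ := vdca_code (QCA.toV V)
  set e := Nat.pair d (Nat.pair q (Nat.pair dc (Nat.pair a b))) with he
  obtain ⟨N, hN⟩ := eventually_atTop.1 ((growth d hd T q hq hT).and (big_eventually d q))
  -- code of the prefix
  set s := digs 3 k (fun j => if h : k - 1 - j < k then (σ ⟨k - 1 - j, h⟩).code else 0) with hs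
  have hcode : ∀ τ : Qf, τ.code < 3 := by intro τ; cases τ <;> simp [Qf.code]
  have hdig : ∀ j < k,
      (fun j => if h : k - 1 - j < k then (σ ⟨k - 1 - j, h⟩).code else 0) j < 3 := by
    intro j hj
    dsimp only
    split_ifs
    · exact hcode _
    · omega
  have hslt : s < 3 ^ k := digs_lt _ _ _ hdig
  have hσ : ∀ j : Fin k, dg 3 s (k - 1 - j) = (σ j).code := by
    intro j
    have hj := j.isLt
    rw [hs, dg_digs 3 k (by omega) _ hdig _ (by omega)]
    have h1 : k - 1 - (k - 1 - (j : ℕ)) = j := by omega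
    rw [dif_pos (by omega)]
    congr 1
    congr 1
    exact Fin.ext h1
  set m := s + 3 ^ k * (N + 1) with hm
  have hms : m % 3 ^ k = s := by
    rw [hm, Nat.add_mul_mod_self_left, Nat.mod_eq_of_lt hslt]
  have hmN : N + 1 ≤ m := by
    have : 1 ≤ 3 ^ k := Nat.one_le_pow _ _ (by omega)
    have : 1 * (N + 1) ≤ 3 ^ k * (N + 1) := Nat.mul_le_mul_right _ this
    omega
  set n := Nat.pair e m with hn
  have hnN : m ≤ n := Nat.right_le_pair e m
  obtain ⟨h1, h2⟩ := hN n (by omega)
  have hue : e1 n = e := by unfold e1; rw [hn, Nat.unpair_pair]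
  have hum : (Nat.unpair n).2 = m := by rw [hn, Nat.unpair_pair]
  have hU := hA2 n (by omega)
  rw [hAV] at hU
  have hn1 : 1 ≤ n := by omega
  clear_value n
  obtain ⟨x, hx, hlen⟩ : ∃ x : List Bool, x = List.replicate x.length true ∧ x.length = n :=
    ⟨List.replicate n true, by simp, by simp⟩
  subst hlen
  rw [← hx] at hU
  obtain ⟨c1, c2, c3⟩ := cp_spec K k x.length hn1
  have hspec := qv_spec (n := x.length) (K := K) (s := s)
    (fun Z => (dprm (K ^ k) (2 ^ x.length) x.length
      (comb (cp K k (2 ^ x.length)) K k x.length Z)).sim % 2) k σ hσ 0 (V.Acc x) (by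
      intro ys
      refine ⟨by omega, ?_⟩
      have hKk : 0 < K ^ k := Nat.pow_pos (by omega)
      set w : ℕ → Fin (K ^ k) := fun i => if h : i < x.length then
        finFunctionFinEquiv (fun j => ys j ⟨i, h⟩) else ⟨0, hKk⟩ with hw
      have hw1 : ∀ i : Fin x.length, w i = finFunctionFinEquiv (fun j => ys j i) := by
        intro i
        simp only [hw]
        rw [dif_pos i.isLt]
      have hsim := sim_spec (K ^ k) x.length d q dc a b hq hb h2 hue (QCA.toV V) hV
        (comb (cp K k (2 ^ x.length)) K k x.length (fold k 0 ys)) w (by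
          intro i hi
          rw [comb_dg hK c1 c2 c3 ys ⟨i, hi⟩, hw1 ⟨i, hi⟩]
          rfl)
      rw [← hx] at hsim
      have e1 : (∃ t ≤ tm x.length d q, (QCA.toV V).AccAt x w t) ↔ V.Acc x ys := by
        constructor
        · rintro ⟨t, _, ht⟩
          exact ⟨t, (QCA.toV_accAt V x ys w hw1 t).1 ht⟩
        · intro hacc
          obtain ⟨t, ht, ht2⟩ := hin x ys hacc
          exact ⟨t, ht.trans h1, (QCA.toV_accAt V x ys w hw1 t).2 ht2⟩
      rw [e1] at hsim
      exact hsim)
  have hpT : powT (cp K k (2 ^ x.length)) K x.length = K ^ x.length := powT_eq _ _ _ (by omega) c3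
  have hUe : UQ K k (2 ^ x.length) x.length ≠ 0 ↔ ¬ Quant x.length K k σ (V.Acc x) := by
    rw [← hspec.2]
    unfold UQ
    rw [hum, hms, hpT]
    constructor
    · intro h h'
      rw [if_pos h'] at h
      exact h rfl
    · intro h
      rw [if_neg h]
      exact Nat.one_ne_zero
  rw [hUe] at hU
  by_cases hq : Quant x.length K k σ (V.Acc x)
  · exact hU.1 hq hq
  · exact hq (hU.2 hq)

/-- the alternating prefix -/
def altσ (k : ℕ) (b : Bool) : Fin k → Qf := fun j =>
  if (j : ℕ) % 2 = 0 then (if b then .ex else .all) else (if b then .all else .ex)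

theorem alt_iff (n K : ℕ) : ∀ (k : ℕ) (b : Bool) (P : (Fin k → Fin n → Fin K) → Prop),
    Alt n K k b P ↔ Quant n K k (altσ k b) P := by
  intro k
  induction k with
  | zero => intro b P; exact Iff.rfl
  | succ k ih =>
    intro b P
    have ht : Fin.tail (altσ (k + 1) b) = altσ k (!b) := by
      funext j
      unfold Fin.tail altσ
      rw [Fin.val_succ]
      rcases Nat.mod_two_eq_zero_or_one (j : ℕ) with h | h
      · have h' : ((j : ℕ) + 1) % 2 = 1 := by omega
        cases b <;> simp [h, h']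
      · have h' : ((j : ℕ) + 1) % 2 = 0 := by omega
        cases b <;> simp [h, h']
    cases b with
    | true =>
      show (∃ y, Alt n K k false _) ↔ (altσ (k + 1) true 0).app _
      have h0 : altσ (k + 1) true 0 = Qf.ex := by simp [altσ]
      rw [h0, ht]
      show _ ↔ ∃ y, _
      exact exists_congr (fun y => ih false _)
    | false =>
      show (∀ y, Alt n K k true _) ↔ (altσ (k + 1) false 0).app _
      have h0 : altσ (k + 1) false 0 = Qf.all := by simp [altσ]
      rw [h0, ht]
      show _ ↔ ∀ y, _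
      exact forall_congr' (fun y => ih true _)

theorem maj_iff (n K : ℕ) : ∀ (k : ℕ) (P : (Fin k → Fin n → Fin K) → Prop),
    Maj n K k P ↔ Quant n K k (fun _ => Qf.maj) P := by
  intro k
  induction k with
  | zero => intro P; exact Iff.rfl
  | succ k ih =>
    intro P
    show K ^ n < 2 * Nat.card {y : Fin n → Fin K // Maj n K k (fun ys => P (Fin.cons y ys))} ↔
      Fintype.card (Fin n → Fin K) < 2 * Nat.card {y : Fin n → Fin K // Quant n K k _ _}
    have hcard : Fintype.card (Fin n → Fin K) = K ^ n := by simp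
    rw [hcard]
    have h2 : Nat.card {y : Fin n → Fin K // Maj n K k (fun ys => P (Fin.cons y ys))} =
        Nat.card {y : Fin n → Fin K // Quant n K k (Fin.tail fun _ => Qf.maj)
          (fun ys => P (Fin.cons y ys))} := by
      apply Nat.card_congr
      exact Equiv.subtypeEquivRight (fun y => ih _)
    rw [h2]

theorem mainAlt (K k : ℕ) (hK : 1 ≤ K) :
    ∃ A : LBA, (∀ w, A.Acc w → ∀ x ∈ w, x = true) ∧
      ∀ (d : ℕ) [NeZero d] (V : QCA d k K) (b : Bool) (T : ℕ → ℕ),
        (fun n => (T n : ℝ)) =o[atTop]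
          (fun n => ((n : ℝ) / Real.log n) ^ (1 + 1 / (d : ℝ))) →
        V.InTime T → ¬ ∀ x, (A.Acc x ↔ Alt x.length K k b (V.Acc x)) := by
  obtain ⟨A, hA1, hA2⟩ := mainQ K k hK
  refine ⟨A, hA1, ?_⟩
  intro d _ V b T hT hin h
  exact hA2 d V (altσ k b) T hT hin (fun x => (h x).trans (alt_iff _ _ _ _ _))

theorem mainMaj (K k : ℕ) (hK : 1 ≤ K) :
    ∃ A : LBA, (∀ w, A.Acc w → ∀ x ∈ w, x = true) ∧
      ∀ (d : ℕ) [NeZero d] (V : QCA d k K) (T : ℕ → ℕ),
        (fun n => (T n : ℝ)) =o[atTop]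
          (fun n => ((n : ℝ) / Real.log n) ^ (1 + 1 / (d : ℝ))) →
        V.InTime T → ¬ ∀ x, (A.Acc x ↔ Maj x.length K k (V.Acc x)) := by
  obtain ⟨A, hA1, hA2⟩ := mainQ K k hK
  refine ⟨A, hA1, ?_⟩
  intro d _ V T hT hin h
  exact hA2 d V (fun _ => Qf.maj) T hT hin (fun x => (h x).trans (maj_iff _ _ _ _))

end Pool.Agent.H539R2.DD
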