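import Pool.Agent.H570R2.Mono.Stubs
import Pool.Agent.H671R2.PolyAuto

/-!
# The reduction runs in polynomial time
-/

namespace Pool.Agent.NPC.H570Mono

open Pool.Agent.H549R2.Convex Pool.Agent.NPC.Cnt Pool.Agent.NPC.H549Convex Pool.Agent.H570R2.Mono

section General

variable {α β : Type} [TEnc α] [TEnc β]

theorem P_fst : NPC.Poly (fun p : α × β => p.1) := NPC.Poly.fst NPC.Poly.id

theorem P_snd : NPC.Poly (fun p : α × β => p.2) := NPC.Poly.snd NPC.Poly.id

theorem P_replicate {n : α → ℕ} (hn : UPoly n) {b : α → β} (hb : NPC.Poly b) :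
    NPC.Poly (fun a => List.replicate (n a) (b a)) := by
  refine (NPC.Poly.map (F := fun a (_ : ℕ) => b a) hn.range (hb.comp P_fst)).congr fun a => ?_
  simp

theorem P_min {m : α → ℕ} (hm : NPC.Poly m) (c : ℕ) : UPoly (fun a => min (m a) c) :=
  UPoly.of_le (NPC.Poly.min hm (NPC.Poly.const c)) (UPoly.const c)
    (fun _ => Nat.min_le_right _ _)

/-! ### Programs -/

theorem P_rots {k : α → ℕ} (hk : UPoly k) : NPC.Poly (fun a => rots (k a)) :=
  NPC.Poly.flatten (P_replicate hk (NPC.Poly.const [deq, rst]))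

theorem P_at {pre post : α → ℕ} {l : α → List Ins} (h1 : UPoly pre) (h2 : UPoly post)
    (hl : NPC.Poly l) : NPC.Poly (fun a => at' (pre a) (post a) (l a)) :=
  NPC.Poly.append (NPC.Poly.append (P_rots h1) hl) (P_rots h2)

theorem P_add {k : α → ℕ} (hk : UPoly k) (c : ℕ) : UPoly (fun a => k a + c) :=
  UPoly.add hk (UPoly.const c)

theorem P_add' {k : α → ℕ} (hk : UPoly k) (c : ℕ) : UPoly (fun a => c + k a) :=
  UPoly.add (UPoly.const c) hk

theorem P_fxb {pre post : α → ℕ} (h1 : UPoly pre) (h2 : UPoly post) :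
    NPC.Poly (fun a => fxb (pre a) (post a)) :=
  NPC.Poly.append (P_at h1 h2 (NPC.Poly.const _)) (P_at h1 (P_add' h2 1) (NPC.Poly.const _))

theorem P_adv {pre post : α → ℕ} (h1 : UPoly pre) (h2 : UPoly post) :
    NPC.Poly (fun a => adv (pre a) (post a)) :=
  NPC.Poly.append (NPC.Poly.append (NPC.Poly.append
    (P_at h1 (P_add' h2 1) (NPC.Poly.const _)) (P_at h1 (P_add' h2 2) (NPC.Poly.const _)))
    (P_at (P_add h1 3) h2 (NPC.Poly.const _))) (P_fxb (P_add h1 1) h2)

theorem P_tok {b : α → Bool} (hb : NPC.Poly b) : NPC.Poly (fun a => tok (b a)) :=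
  NPC.Poly.cond hb (NPC.Poly.const _) (NPC.Poly.const _)

theorem P_cell {n : α → ℕ} {b : α → Bool} (hn : UPoly n) (hb : NPC.Poly b) :
    NPC.Poly (fun a => cell (n a) (b a)) := by
  have c : ∀ k : ℕ, UPoly (fun _ : α => k) := fun k => UPoly.const k
  have kk : ∀ l : List Ins, NPC.Poly (fun _ : α => l) := fun l => NPC.Poly.const l
  refine NPC.Poly.append (NPC.Poly.append (NPC.Poly.append (NPC.Poly.append (NPC.Poly.append
    (NPC.Poly.append (NPC.Poly.append (NPC.Poly.append (NPC.Poly.append (NPC.Poly.append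
    ?_ ?_) ?_) ?_) ?_) ?_) ?_) ?_) ?_) ?_) ?_
  · exact P_at (c 2) hn (kk _)
  · exact P_at (c 3) hn (kk _)
  · exact P_adv (c 1) (P_add hn 2)
  · exact P_at (c 0) (P_add hn 4) (kk _)
  · exact NPC.Poly.append (P_tok hb) (P_rots (P_add hn 1))
  · exact P_adv (c 1) hn
  · exact P_at (c 0) (P_add hn 3) (kk _)
  · exact P_at (c 1) (P_add hn 2) (kk _)
  · exact P_at (c 2) (P_add hn 1) (kk _)
  · exact P_fxb (c 0) (P_add hn 1)
  · exact P_rots (c 1)

theorem P_rowP {n : α → ℕ} {r : α → List Bool} (hn : UPoly n) (hr : NPC.Poly r) :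
    NPC.Poly (fun a => rowP (n a) (r a)) := by
  refine NPC.Poly.append (NPC.Poly.append (NPC.Poly.append (NPC.Poly.append
    (NPC.Poly.const _) ?_) ?_) (NPC.Poly.const _)) ?_
  · exact P_rots (P_add hn 1)
  · exact NPC.Poly.flatMap (F := fun a b => cell (n a) b) hr (P_cell (hn.comp P_fst) P_snd)
  · exact P_rots (UPoly.const 1)

theorem P_prog : NPC.Poly prog := by
  have hn : UPoly (fun A : LL => A.length) := UPoly.length (l := fun A : LL => A) NPC.Poly.id
  refine NPC.Poly.append (NPC.Poly.append ?_ (NPC.Poly.const _)) ?_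
  · exact P_replicate hn (NPC.Poly.const _)
  · exact NPC.Poly.flatMap (F := fun (A : LL) r => rowP A.length r) NPC.Poly.id
      (P_rowP (hn.comp P_fst) P_snd)

/-! ### The arguments of the instructions are small -/

/-- all the arguments are small -/
def P_small (l : List Ins) : Prop := ∀ i ∈ l, i.2.1 ≤ 6 ∧ i.2.2 ≤ 1

theorem P_sm_app {l l' : List Ins} (h : P_small l) (h' : P_small l') : P_small (l ++ l') := by
  intro i hi
  rcases List.mem_append.1 hi with hi | hi
  · exact h i hi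
  · exact h' i hi

theorem P_sm_rots (k : ℕ) : P_small (rots k) := by
  intro i hi
  rw [rots, List.mem_flatten] at hi
  obtain ⟨l, hl, hi⟩ := hi
  rw [(List.mem_replicate.1 hl).2] at hi
  simp only [List.mem_cons, List.not_mem_nil, or_false] at hi
  rcases hi with rfl | rfl <;> simp

theorem P_sm_at {pre post : ℕ} {l : List Ins} (h : P_small l) : P_small (at' pre post l) :=
  P_sm_app (P_sm_app (P_sm_rots _) h) (P_sm_rots _)

theorem P_sm_spl {a b : ℕ} (ha : a ≤ 6) (hb : b ≤ 1) : P_small (spl a b) := by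
  intro i hi
  simp only [spl, List.mem_cons, List.not_mem_nil, or_false] at hi
  rcases hi with rfl | rfl | rfl
  · simp
  · exact ⟨ha, hb⟩
  · simp

theorem P_sm_mrg (k : ℕ) : P_small (mrg k) := by
  intro i hi
  rw [mrg, List.mem_append] at hi
  rcases hi with hi | hi
  · rw [(List.mem_replicate.1 hi).2]; simp
  · rw [List.mem_singleton.1 hi]; simp

theorem P_sm_fxb (pre post : ℕ) : P_small (fxb pre post) := by
  refine P_sm_app (P_sm_at ?_) (P_sm_at (P_sm_mrg _))
  intro i hi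
  simp only [List.mem_cons, List.not_mem_nil, or_false] at hi
  rcases hi with rfl | rfl | rfl | rfl | rfl | rfl | rfl | rfl <;> simp

theorem P_sm_adv (pre post : ℕ) : P_small (adv pre post) :=
  P_sm_app (P_sm_app (P_sm_app (P_sm_at (P_sm_spl (by norm_num) (by norm_num)))
    (P_sm_at (P_sm_spl (by norm_num) (by norm_num))))
    (P_sm_at (P_sm_spl (by norm_num) (by norm_num)))) (P_sm_fxb _ _)

theorem P_sm_tok (b : Bool) : P_small (tok b) := by
  intro i hi
  cases b <;> simp only [tok, cond_true, cond_false, List.mem_cons, List.not_mem_nil,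
    or_false] at hi <;> rcases hi with rfl | rfl | rfl | rfl | rfl | rfl | rfl <;> simp

theorem P_sm_cell (n : ℕ) (b : Bool) : P_small (cell n b) := by
  refine P_sm_app (P_sm_app (P_sm_app (P_sm_app (P_sm_app (P_sm_app (P_sm_app (P_sm_app
    (P_sm_app (P_sm_app ?_ ?_) ?_) ?_) ?_) ?_) ?_) ?_) ?_) ?_) ?_
  · exact P_sm_at (P_sm_spl (by norm_num) (by norm_num))
  · exact P_sm_at (P_sm_spl (by norm_num) (by norm_num))
  · exact P_sm_adv _ _
  · exact P_sm_at (P_sm_mrg _)
  · exact P_sm_app (P_sm_tok _) (P_sm_rots _)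
  · exact P_sm_adv _ _
  · exact P_sm_at (P_sm_spl (by norm_num) (by norm_num))
  · exact P_sm_at (P_sm_mrg _)
  · exact P_sm_at (P_sm_spl (by norm_num) (by norm_num))
  · exact P_sm_fxb _ _
  · exact P_sm_rots _

theorem P_sm_flatMap {γ : Type} {l : List γ} {f : γ → List Ins} (h : ∀ x ∈ l, P_small (f x)) :
    P_small (l.flatMap f) := by
  intro i hi
  obtain ⟨x, hx, hi⟩ := List.mem_flatMap.1 hi
  exact h x hx i hi

theorem P_sm_row (n : ℕ) (r : List Bool) : P_small (rowP n r) := by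
  refine P_sm_app (P_sm_app (P_sm_app (P_sm_app ?_ (P_sm_rots _))
    (P_sm_flatMap fun b _ => P_sm_cell n b)) ?_) (P_sm_rots _)
  · intro i hi
    simp only [List.mem_cons, List.not_mem_nil, or_false] at hi
    rcases hi with rfl | rfl | rfl <;> simp
  · intro i hi
    simp only [List.mem_cons, List.not_mem_nil, or_false] at hi
    rcases hi with rfl | rfl | rfl <;> simp

theorem P_sm_prog (A : LL) : P_small (prog A) := by
  refine P_sm_app (P_sm_app ?_ ?_) (P_sm_flatMap fun r _ => P_sm_row _ r)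
  · intro i hi
    rw [(List.mem_replicate.1 hi).2]; simp
  · intro i hi
    rw [List.mem_singleton.1 hi]; simp

/-! ### States -/

/-- the instructions with the states before them -/
def P_stl : List Ins → ℕ × ℕ → List (Ins × (ℕ × ℕ))
  | [], _ => []
  | i :: p, s => (i, s) :: P_stl p (step s i)

theorem P_rws_eq (M : ℕ) (p : List Ins) : ∀ s : ℕ × ℕ,
    rws M p s = (P_stl p s).flatMap (fun z => rowsAt M z.1 z.2) := by
  induction p with
  | nil => intro s; rfl
  | cons i p ih => intro s; rw [rws, P_stl, List.flatMap_cons, ih]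

theorem P_cls_eq (M : ℕ) (p : List Ins) : ∀ s : ℕ × ℕ,
    cls M p s = (P_stl p s).flatMap (fun z => colsAt M z.1 z.2) := by
  induction p with
  | nil => intro s; rfl
  | cons i p ih => intro s; rw [cls, P_stl, List.flatMap_cons, ih]

/-- one step of the computation of the states -/
def P_stF (t : (ℕ × ℕ) × List (Ins × (ℕ × ℕ))) (i : Ins) : (ℕ × ℕ) × List (Ins × (ℕ × ℕ)) :=
  (step t.1 i, t.2 ++ [(i, t.1)])

theorem P_fold (l : List Ins) : ∀ (s : ℕ × ℕ) (acc : List (Ins × (ℕ × ℕ))),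
    l.foldl P_stF (s, acc) = (l.foldl step s, acc ++ P_stl l s) := by
  induction l with
  | nil => intro s acc; simp [P_stl]
  | cons i l ih =>
    intro s acc
    rw [List.foldl_cons, List.foldl_cons, P_stF, ih]
    simp [P_stl]

theorem P_step_le (s : ℕ × ℕ) (i : Ins) : (step s i).1 ≤ s.1 + 1 ∧ (step s i).2 ≤ s.2 + 1 := by
  unfold step
  split_ifs
  · exact ⟨Nat.min_le_left _ _, by simp⟩
  · exact ⟨by simp, by simp⟩
  · exact ⟨by simp, le_rfl⟩

theorem P_final_le (l : List Ins) : ∀ s : ℕ × ℕ,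
    (l.foldl step s).1 ≤ s.1 + l.length ∧ (l.foldl step s).2 ≤ s.2 + l.length := by
  induction l with
  | nil => intro s; simp
  | cons i l ih =>
    intro s
    have h1 := ih (step s i)
    have h2 := P_step_le s i
    rw [List.foldl_cons, List.length_cons]
    omega

theorem P_stl_mem (l : List Ins) : ∀ (s : ℕ × ℕ), ∀ z ∈ P_stl l s,
    z.1 ∈ l ∧ z.2.1 ≤ s.1 + l.length ∧ z.2.2 ≤ s.2 + l.length := by
  induction l with
  | nil => intro s z hz; simp [P_stl] at hz
  | cons i l ih =>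
    intro s z hz
    rw [P_stl, List.mem_cons] at hz
    rcases hz with rfl | hz
    · exact ⟨List.mem_cons_self, by simp, by simp⟩
    · obtain ⟨h1, h2, h3⟩ := ih _ z hz
      have h4 := P_step_le s i
      rw [List.length_cons]
      exact ⟨List.mem_cons_of_mem _ h1, by omega, by omega⟩

theorem P_stl_len (l : List Ins) : ∀ s : ℕ × ℕ, (P_stl l s).length = l.length := by
  induction l with
  | nil => intro s; rfl
  | cons i l ih => intro s; rw [P_stl, List.length_cons, List.length_cons, ih]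

theorem P_sz_nat {x n : ℕ} (h : x ≤ n) : sz x ≤ 4 * n + 1 := by
  have h1 := sz_nat_le x
  have h2 : x.size ≤ x := Nat.size_le.2 Nat.lt_two_pow_self
  omega

theorem P_sz_fold (p : List Ins) (k : ℕ) :
    sz ((p.take k).foldl P_stF ((1, 1), [])) ≤
      8 * (p.length + 1) + 5 + p.length * (sz p + 8 * (p.length + 1) + 5) := by
  rw [P_fold, List.nil_append]
  have hl : (p.take k).length ≤ p.length := by rw [List.length_take]; omega
  have h1 := P_final_le (p.take k) (1, 1)
  have h2 := P_sz_nat (n := p.length + 1) (h1.1.trans (by simp only; omega))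
  have h3 := P_sz_nat (n := p.length + 1) (h1.2.trans (by simp only; omega))
  have h4 := sz_le_length_mul (P_stl (p.take k) (1, 1)) (sz p + 8 * (p.length + 1) + 4)
    (fun z hz => by
      obtain ⟨h5, h6, h7⟩ := P_stl_mem _ _ z hz
      have h8 := P_sz_nat (n := p.length + 1) (h6.trans (by simp only; omega))
      have h9 := P_sz_nat (n := p.length + 1) (h7.trans (by simp only; omega))
      have h10 := sz_le_of_mem (List.mem_of_mem_take h5)
      obtain ⟨z1, z2, z3⟩ := z
      simp only [sz_pair] at h8 h9 h10 ⊢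
      omega)
  rw [P_stl_len] at h4
  have h5 := Nat.mul_le_mul_right (sz p + 8 * (p.length + 1) + 4 + 1) hl
  generalize List.foldl step (1, 1) (p.take k) = st at h2 h3 ⊢
  obtain ⟨u, v⟩ := st
  simp only [sz_pair] at h2 h3 ⊢
  rw [show sz p + 8 * (p.length + 1) + 4 + 1 = sz p + 8 * (p.length + 1) + 5 by omega] at h5 h4
  omega

theorem P_stF_poly : NPC.Poly (fun p : ((ℕ × ℕ) × List (Ins × (ℕ × ℕ))) × Ins =>
    P_stF p.1 p.2) := by
  unfold P_stF step
  fun_prop

theorem P_stl_poly {p : α → List Ins} (hp : NPC.Poly p) :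
    NPC.Poly (fun a => P_stl (p a) (1, 1)) := by
  obtain ⟨r, hr⟩ := hp.sz_le
  have h := NPC.Poly.foldl (l := p) (s := fun _ => (((1, 1), []) : (ℕ × ℕ) ×
    List (Ins × (ℕ × ℕ)))) (F := fun _ t i => P_stF t i) hp (NPC.Poly.const _)
    (P_stF_poly.comp P_snd)
    (Polynomial.C 8 * (r + Polynomial.C 1) + Polynomial.C 5 +
      r * (r + Polynomial.C 8 * (r + Polynomial.C 1) + Polynomial.C 5)) (fun a k _ => by
      refine (P_sz_fold (p a) k).trans ?_
      have h1 := hr a
      have h2 := length_lt_sz (p a)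
      have h3 : (p a).length ≤ r.eval (sz a) := by omega
      simp only [Polynomial.eval_add, Polynomial.eval_mul, Polynomial.eval_C]
      have h4 := Nat.mul_le_mul h3 (show sz (p a) + 8 * ((p a).length + 1) + 5 ≤
        r.eval (sz a) + 8 * (r.eval (sz a) + 1) + 5 by omega)
      omega)
  refine (NPC.Poly.snd h).congr fun a => ?_
  change (List.foldl P_stF ((1, 1), []) (p a)).2 = _
  rw [P_fold, List.nil_append]

/-! ### Rows and columns -/

theorem P_mult {m : α → ℕ} {i : α → Ins} (hm : UPoly m) (hi : NPC.Poly i) :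
    UPoly (fun a => min (i a).2.1 6 * m a + min (i a).2.2 1) := by
  have h1 : NPC.Poly (fun a => (i a).2.1) := NPC.Poly.fst (NPC.Poly.snd hi)
  have h2 : NPC.Poly (fun a => (i a).2.2) := NPC.Poly.snd (NPC.Poly.snd hi)
  exact UPoly.add (UPoly.mul (P_min h1 6) hm) (P_min h2 1)

/-- clipped rows -/
def P_rowsAt (M : ℕ) (i : Ins) (s : ℕ × ℕ) : List (ℕ × ℕ) :=
  if i.1 ≤ 1 then [] else if i.1 = 2 then [(s.1, s.2 - 1)]
  else List.replicate (min i.2.1 6 * M + min i.2.2 1) (s.1, s.2)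

/-- clipped columns -/
def P_colsAt (M : ℕ) (i : Ins) (s : ℕ × ℕ) : List ℕ :=
  if i.1 = 0 ∨ i.1 = 2 then [] else if i.1 = 1 then [s.2]
  else List.replicate (min i.2.1 6 * M + min i.2.2 1) s.2

theorem P_rowsAt_poly {m : α → ℕ} {i : α → Ins} {s : α → ℕ × ℕ} (hm : UPoly m)
    (hi : NPC.Poly i) (hs : NPC.Poly s) : NPC.Poly (fun a => P_rowsAt (m a) (i a) (s a)) := by
  have h0 : NPC.Poly (fun a => (i a).1) := NPC.Poly.fst hi
  have h1 : NPC.Poly (fun a => (s a).1) := NPC.Poly.fst hs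
  have h2 : NPC.Poly (fun a => (s a).2) := NPC.Poly.snd hs
  have h3 : NPC.Poly (fun a => [((s a).1, (s a).2 - 1)]) := by fun_prop
  exact NPC.Poly.ite (NPC.Poly.decide_le h0 (NPC.Poly.const 1)) (NPC.Poly.const [])
    (NPC.Poly.ite (NPC.Poly.decide_eq h0 (NPC.Poly.const 2)) h3
      (P_replicate (P_mult hm hi) (NPC.Poly.pair h1 h2)))

theorem P_colsAt_poly {m : α → ℕ} {i : α → Ins} {s : α → ℕ × ℕ} (hm : UPoly m)
    (hi : NPC.Poly i) (hs : NPC.Poly s) : NPC.Poly (fun a => P_colsAt (m a) (i a) (s a)) := by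
  have h0 : NPC.Poly (fun a => (i a).1) := NPC.Poly.fst hi
  have h2 : NPC.Poly (fun a => (s a).2) := NPC.Poly.snd hs
  have h3 : NPC.Poly (fun a => [(s a).2]) := NPC.Poly.cons h2 (NPC.Poly.const [])
  exact NPC.Poly.ite (NPC.Poly.decide_or (NPC.Poly.decide_eq h0 (NPC.Poly.const 0))
    (NPC.Poly.decide_eq h0 (NPC.Poly.const 2))) (NPC.Poly.const [])
    (NPC.Poly.ite (NPC.Poly.decide_eq h0 (NPC.Poly.const 1)) h3
      (P_replicate (P_mult hm hi) h2))

theorem P_rowsAt_eq {M : ℕ} {i : Ins} {s : ℕ × ℕ} (h : i.2.1 ≤ 6 ∧ i.2.2 ≤ 1) :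
    P_rowsAt M i s = rowsAt M i s := by
  unfold P_rowsAt rowsAt
  rw [Nat.min_eq_left h.1, Nat.min_eq_left h.2]

theorem P_colsAt_eq {M : ℕ} {i : Ins} {s : ℕ × ℕ} (h : i.2.1 ≤ 6 ∧ i.2.2 ≤ 1) :
    P_colsAt M i s = colsAt M i s := by
  unfold P_colsAt colsAt
  rw [Nat.min_eq_left h.1, Nat.min_eq_left h.2]

theorem P_rws {p : α → List Ins} {m : α → ℕ} (hp : NPC.Poly p) (hm : UPoly m)
    (h : ∀ x, ∀ i ∈ p x, i.2.1 ≤ 6 ∧ i.2.2 ≤ 1) : NPC.Poly (fun a => rws (m a) (p a) (1, 1)) := by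
  refine (NPC.Poly.flatMap (F := fun a (z : Ins × (ℕ × ℕ)) => P_rowsAt (m a) z.1 z.2)
    (P_stl_poly hp) (P_rowsAt_poly (hm.comp P_fst) (NPC.Poly.fst P_snd)
      (NPC.Poly.snd P_snd))).congr fun a => ?_
  rw [P_rws_eq, List.flatMap_def, List.flatMap_def]
  congr 1
  refine List.map_congr_left fun z hz => ?_
  exact P_rowsAt_eq (h a z.1 (P_stl_mem _ _ z hz).1)

theorem P_cls {p : α → List Ins} {m : α → ℕ} (hp : NPC.Poly p) (hm : UPoly m)
    (h : ∀ x, ∀ i ∈ p x, i.2.1 ≤ 6 ∧ i.2.2 ≤ 1) : NPC.Poly (fun a => cls (m a) (p a) (1, 1)) := by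
  refine (NPC.Poly.flatMap (F := fun a (z : Ins × (ℕ × ℕ)) => P_colsAt (m a) z.1 z.2)
    (P_stl_poly hp) (P_colsAt_poly (hm.comp P_fst) (NPC.Poly.fst P_snd)
      (NPC.Poly.snd P_snd))).congr fun a => ?_
  rw [P_cls_eq, List.flatMap_def, List.flatMap_def]
  congr 1
  refine List.map_congr_left fun z hz => ?_
  exact P_colsAt_eq (h a z.1 (P_stl_mem _ _ z hz).1)

theorem P_facP {p : α → List Ins} {m : α → ℕ} (hp : NPC.Poly p) (hm : UPoly m)
    (h : ∀ x, ∀ i ∈ p x, i.2.1 ≤ 6 ∧ i.2.2 ≤ 1) : NPC.Poly (fun a => facP (p a) (m a)) := by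
  have hc : NPC.Poly (fun z : α × ℕ => cls (m z.1) (p z.1) (1, 1)) :=
    (P_cls hp hm h).comp P_fst
  have hf : NPC.Poly (fun z : α × ℕ => (cls (m z.1) (p z.1) (1, 1)).filter
      (fun x => decide (x = z.2))) :=
    NPC.Poly.filter (p := fun (z : α × ℕ) x => decide (x = z.2)) hc
      (NPC.Poly.decide_eq P_snd (P_snd.comp P_fst))
  have h1 := upoly_fact (UPoly.length hf)
  have h2 := poly_prod (NPC.Poly.map (F := fun a κ =>
    ((cls (m a) (p a) (1, 1)).filter (fun x => decide (x = κ))).length.factorial)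
    (UPoly.add (UPoly.length hp) (UPoly.const 1)).range h1)
  refine h2.congr fun a => ?_
  rw [facP]
  congr 1
  refine List.map_congr_left fun κ _ => ?_
  rw [List.count, List.countP_eq_length_filter]
  rfl

theorem P_pts : NPC.Poly (fun x : List (ℕ × ℕ) × List ℕ => pts x.1 x.2) := by
  have r1 : NPC.Poly (fun x : List (ℕ × ℕ) × List ℕ => List.range x.1.length) :=
    NPC.Poly.range_length P_fst
  have r2 : NPC.Poly (fun x : List (ℕ × ℕ) × List ℕ => List.range x.2.length) :=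
    NPC.Poly.range_length P_snd
  refine NPC.Poly.append (NPC.Poly.map (F := fun (x : List (ℕ × ℕ) × List ℕ) i =>
    (2 * ((x.1.getD i (0, 0)).2 + 1) * (x.1.length + 1) + i,
      2 * (x.1.getD i (0, 0)).1 * (x.1.length + 1) + i)) r1 ?_)
    (NPC.Poly.map (F := fun (x : List (ℕ × ℕ) × List ℕ) j =>
      ((2 * x.2.getD j 0 + 1) * (x.1.length + 1) + j,
        (2 * x.2.getD j 0 + 1) * (x.1.length + 1) + j)) r2 ?_)
  · fun_prop
  · fun_prop

end General

theorem stub_poly : StubPoly := by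
  refine ⟨P_prog, fun A => P_sm_prog A, ?_, P_pts⟩
  intro α _ p m hp hm h
  have h1 := P_rws hp hm h
  have h2 := P_cls hp hm h
  exact ⟨mat_poly.comp (NPC.Poly.pair h1 h2), P_facP hp hm h, h1, h2⟩

end Pool.Agent.NPC.H570Mono
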