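import Mathlib

/-!
Register programs with a bound on the register values, and the class `LS` of
functions computed by such programs within polynomially bounded values
(a semantic form of linear space / Grzegorczyk class two).
-/

set_option linter.unusedSimpArgs false

namespace Pool.Agent.H539R2

/-- environment extension -/
def cons (a : ℕ) (ρ : ℕ → ℕ) : ℕ → ℕ
  | 0 => a
  | (i + 1) => ρ i

@[simp] theorem cons_zero (a : ℕ) (ρ : ℕ → ℕ) : cons a ρ 0 = a := rfl
@[simp] theorem cons_succ (a : ℕ) (ρ : ℕ → ℕ) (i : ℕ) : cons a ρ (i + 1) = ρ i := rfl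

/-- environment tail -/
def tl (ρ : ℕ → ℕ) : ℕ → ℕ := fun i => ρ (i + 1)

@[simp] theorem tl_apply (ρ : ℕ → ℕ) (i : ℕ) : tl ρ i = ρ (i + 1) := rfl

/-- while programs over registers -/
inductive Prg : Type
  | skip : Prg
  | inc (r : ℕ) : Prg
  | dec (r : ℕ) : Prg
  | seq (p q : Prg) : Prg
  | wh (r : ℕ) (p : Prg) : Prg

/-- big step semantics where all values written are at most `N` -/
inductive Run (N : ℕ) : Prg → (ℕ → ℕ) → (ℕ → ℕ) → Prop
  | skip (σ : ℕ → ℕ) : Run N Prg.skip σ σ
  | inc (r : ℕ) (σ : ℕ → ℕ) (h : σ r + 1 ≤ N) :
      Run N (Prg.inc r) σ (Function.update σ r (σ r + 1))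
  | dec (r : ℕ) (σ : ℕ → ℕ) (h : σ r ≠ 0) :
      Run N (Prg.dec r) σ (Function.update σ r (σ r - 1))
  | seq {p q : Prg} {σ σ' σ'' : ℕ → ℕ} (h1 : Run N p σ σ') (h2 : Run N q σ' σ'') :
      Run N (Prg.seq p q) σ σ''
  | whz {r : ℕ} {p : Prg} {σ : ℕ → ℕ} (h : σ r = 0) : Run N (Prg.wh r p) σ σ
  | whs {r : ℕ} {p : Prg} {σ σ' σ'' : ℕ → ℕ} (h : σ r ≠ 0) (h1 : Run N p σ σ')
      (h2 : Run N (Prg.wh r p) σ' σ'') : Run N (Prg.wh r p) σ σ''

theorem Run.mono {N M : ℕ} (hNM : N ≤ M) {p : Prg} {σ τ : ℕ → ℕ} (h : Run N p σ τ) :
    Run M p σ τ := by
  induction h with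
  | skip σ => exact Run.skip σ
  | inc r σ h => exact Run.inc r σ (h.trans hNM)
  | dec r σ h => exact Run.dec r σ h
  | seq _ _ ih1 ih2 => exact Run.seq ih1 ih2
  | whz h => exact Run.whz h
  | whs h _ _ ih1 ih2 => exact Run.whs h ih1 ih2

theorem Run.seq' {N : ℕ} {p q : Prg} {σ σ' σ'' : ℕ → ℕ} (h1 : Run N p σ σ')
    (h2 : Run N q σ' σ'') : Run N (Prg.seq p q) σ σ'' := Run.seq h1 h2

/-- clear a register -/
def clr (r : ℕ) : Prg := Prg.wh r (Prg.dec r)

theorem run_clr (N r : ℕ) : ∀ (m : ℕ) (σ : ℕ → ℕ), σ r = m →
    Run N (clr r) σ (Function.update σ r 0) := by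
  intro m
  induction m with
  | zero =>
    intro σ h
    have : Function.update σ r 0 = σ := by
      funext x; by_cases hx : x = r
      · subst hx; simp [h]
      · simp [Function.update_apply, hx]
    rw [this]
    exact Run.whz h
  | succ m ih =>
    intro σ h
    have h1 := Run.dec (N := N) r σ (by omega)
    have h2 := ih (Function.update σ r (σ r - 1)) (by simp [h])
    rw [Function.update_idem] at h2
    exact Run.whs (by omega) h1 h2

/-- move register `a` into register `b` (adding) -/
def mv (a b : ℕ) : Prg := Prg.wh a (Prg.seq (Prg.dec a) (Prg.inc b))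

theorem run_mv (N a b : ℕ) (hab : a ≠ b) : ∀ (m : ℕ) (σ : ℕ → ℕ), σ a = m → σ b + m ≤ N →
    Run N (mv a b) σ (Function.update (Function.update σ a 0) b (σ b + m)) := by
  intro m
  induction m with
  | zero =>
    intro σ h hN
    have : Function.update (Function.update σ a 0) b (σ b + 0) = σ := by
      funext x
      by_cases hx : x = b
      · subst hx; simp
      · by_cases hy : x = a
        · subst hy; simp [Function.update_apply, hx, h]
        · simp [Function.update_apply, hx, hy]
    rw [this]
    exact Run.whz h
  | succ m ih =>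
    intro σ h hN
    have h1 := Run.dec (N := N) a σ (by omega)
    have h2 := Run.inc (N := N) b (Function.update σ a (σ a - 1))
      (by rw [Function.update_of_ne (Ne.symm hab)]; omega)
    rw [Function.update_of_ne (Ne.symm hab)] at h2
    have h3 := ih (Function.update (Function.update σ a (σ a - 1)) b (σ b + 1))
      (by rw [Function.update_of_ne hab, Function.update_self]; omega)
      (by rw [Function.update_self]; omega)
    have : Function.update (Function.update (Function.update (Function.update σ a (σ a - 1)) b
        (σ b + 1)) a 0) b (Function.update (Function.update σ a (σ a - 1)) b (σ b + 1) b + m) =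
        Function.update (Function.update σ a 0) b (σ b + (m + 1)) := by
      funext x
      by_cases hx : x = b
      · subst hx; simp; omega
      · by_cases hy : x = a
        · subst hy; simp [Function.update_apply, hx]
        · simp [Function.update_apply, hx, hy]
    rw [this] at h3
    exact Run.whs (by omega) (Run.seq h1 h2) h3

/-- move register `a` into both `b` and `t` (adding) -/
def mv2 (a b t : ℕ) : Prg := Prg.wh a (Prg.seq (Prg.dec a) (Prg.seq (Prg.inc b) (Prg.inc t)))

theorem run_mv2 (N a b t : ℕ) (hab : a ≠ b) (hat : a ≠ t) (hbt : b ≠ t) :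
    ∀ (m : ℕ) (σ : ℕ → ℕ), σ a = m → σ b + m ≤ N → σ t + m ≤ N →
    Run N (mv2 a b t) σ (Function.update (Function.update (Function.update σ a 0) b (σ b + m))
      t (σ t + m)) := by
  intro m
  induction m with
  | zero =>
    intro σ h hN hN'
    have : Function.update (Function.update (Function.update σ a 0) b (σ b + 0)) t (σ t + 0)
        = σ := by
      funext x
      by_cases hz : x = t
      · subst hz; simp
      · by_cases hx : x = b
        · subst hx; simp [Function.update_apply, hz]
        · by_cases hy : x = a
          · subst hy; simp [Function.update_apply, hx, h, hz]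
          · simp [Function.update_apply, hx, hy, hz]
    rw [this]
    exact Run.whz h
  | succ m ih =>
    intro σ h hN hN'
    have h1 := Run.dec (N := N) a σ (by omega)
    have h2 := Run.inc (N := N) b (Function.update σ a (σ a - 1))
      (by rw [Function.update_of_ne (Ne.symm hab)]; omega)
    rw [Function.update_of_ne (Ne.symm hab)] at h2
    have h2' := Run.inc (N := N) t (Function.update (Function.update σ a (σ a - 1)) b (σ b + 1))
      (by rw [Function.update_of_ne (Ne.symm hbt), Function.update_of_ne (Ne.symm hat)]; omega)
    rw [Function.update_of_ne (Ne.symm hbt), Function.update_of_ne (Ne.symm hat)] at h2'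
    have h3 := ih (Function.update (Function.update (Function.update σ a (σ a - 1)) b
      (σ b + 1)) t (σ t + 1))
      (by rw [Function.update_of_ne hat, Function.update_of_ne hab, Function.update_self]; omega)
      (by rw [Function.update_of_ne hbt, Function.update_self]; omega)
      (by rw [Function.update_self]; omega)
    have : Function.update (Function.update (Function.update (Function.update (Function.update
        (Function.update σ a (σ a - 1)) b (σ b + 1)) t (σ t + 1)) a 0) b
        (Function.update (Function.update (Function.update σ a (σ a - 1)) b (σ b + 1)) t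
          (σ t + 1) b + m)) t
        (Function.update (Function.update (Function.update σ a (σ a - 1)) b (σ b + 1)) t
          (σ t + 1) t + m) =
        Function.update (Function.update (Function.update σ a 0) b (σ b + (m + 1))) t
          (σ t + (m + 1)) := by
      funext x
      by_cases hz : x = t
      · subst hz; simp; omega
      · by_cases hx : x = b
        · subst hx; simp [Function.update_apply, hz, hbt]; omega
        · by_cases hy : x = a
          · subst hy; simp [Function.update_apply, hx, hz]
          · simp [Function.update_apply, hx, hy, hz]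
    rw [this] at h3
    exact Run.whs (by omega) (Run.seq h1 (Run.seq h2 h2')) h3

/-- copy register `a` into `b` using scratch `t` -/
def cp (a b t : ℕ) : Prg := Prg.seq (mv2 a b t) (mv t a)

theorem run_cp (N a b t : ℕ) (hab : a ≠ b) (hat : a ≠ t) (hbt : b ≠ t) (σ : ℕ → ℕ)
    (hb : σ b = 0) (ht : σ t = 0) (hN : σ a ≤ N) :
    Run N (cp a b t) σ (Function.update σ b (σ a)) := by
  have h1 := run_mv2 N a b t hab hat hbt (σ a) σ rfl (by omega) (by omega)
  set σ1 := Function.update (Function.update (Function.update σ a 0) b (σ b + σ a))
      t (σ t + σ a) with hσ1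
  have h2 := run_mv N t a (Ne.symm hat) (σ1 t) σ1 rfl (by
    simp [hσ1, Function.update_apply, hat, hab, ht]; omega)
  have : Function.update (Function.update σ1 t 0) a (σ1 a + σ1 t) = Function.update σ b (σ a) := by
    funext x
    by_cases hz : x = t
    · subst hz; simp [hσ1, Function.update_apply, Ne.symm hbt, Ne.symm hat, ht]
    · by_cases hx : x = b
      · subst hx; simp [hσ1, Function.update_apply, hbt, Ne.symm hab, hb]
      · by_cases hy : x = a
        · subst hy; simp [hσ1, Function.update_apply, hx, hz, ht]
        · simp [hσ1, Function.update_apply, hx, hy, hz]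
  rw [this] at h2
  exact Run.seq h1 h2

/-- functions of an environment computed by register programs with polynomially
bounded register values -/
def LS (f : (ℕ → ℕ) → ℕ) : Prop :=
  ∃ c : ℕ, (∀ X : ℕ, 2 ≤ X → ∀ ρ : ℕ → ℕ, (∀ i, ρ i ≤ X) → f ρ ≤ X ^ c) ∧
    ∀ (env : ℕ → ℕ) (out base : ℕ), (∀ i, env i < base) → out < base → (∀ i, env i ≠ out) →
      ∃ P : Prg, ∀ (X : ℕ) (σ : ℕ → ℕ), 2 ≤ X → (∀ i, σ (env i) ≤ X) →
        (∀ r, base ≤ r → σ r = 0) → σ out = 0 →
        Run (X ^ c) P σ (Function.update σ out (f (fun i => σ (env i))))

theorem LS.bound {f : (ℕ → ℕ) → ℕ} (h : LS f) :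
    ∃ c : ℕ, ∀ X : ℕ, 2 ≤ X → ∀ ρ : ℕ → ℕ, (∀ i, ρ i ≤ X) → f ρ ≤ X ^ c := by
  obtain ⟨c, h, _⟩ := h
  exact ⟨c, h⟩

theorem LS.var (i : ℕ) : LS (fun ρ => ρ i) := by
  refine ⟨1, ?_, ?_⟩
  · intro X hX ρ hρ
    simpa using hρ i
  · intro env out base henv hout hne
    refine ⟨cp (env i) out base, ?_⟩
    intro X σ hX hσ hz ho
    apply run_cp
    · exact hne i
    · exact (henv i).ne
    · exact hout.ne
    · exact ho
    · exact hz base le_rfl
    · simpa using hσ i

theorem LS.zero : LS (fun _ => 0) := by
  refine ⟨0, ?_, ?_⟩
  · intro X hX ρ hρ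
    simp
  · intro env out base henv hout hne
    refine ⟨Prg.skip, ?_⟩
    intro X σ hX hσ hz ho
    have : Function.update σ out 0 = σ := by
      funext x; by_cases hx : x = out
      · subst hx; simp [ho]
      · simp [Function.update_apply, hx]
    rw [this]
    exact Run.skip σ

theorem LS.succ {f : (ℕ → ℕ) → ℕ} (hf : LS f) : LS (fun ρ => f ρ + 1) := by
  obtain ⟨c, hb, hp⟩ := hf
  have key : ∀ X : ℕ, 2 ≤ X → X ^ c + 1 ≤ X ^ (c + 1) := by
    intro X hX
    have h1 : 1 ≤ X ^ c := Nat.one_le_pow _ _ (by omega)
    have h2 : X ^ (c + 1) = X ^ c * X := pow_succ X c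
    rw [h2]
    nlinarith
  refine ⟨c + 1, ?_, ?_⟩
  · intro X hX ρ hρ
    exact (Nat.add_le_add_right (hb X hX ρ hρ) 1).trans (key X hX)
  · intro env out base henv hout hne
    obtain ⟨P, hP⟩ := hp env out base henv hout hne
    refine ⟨Prg.seq P (Prg.inc out), ?_⟩
    intro X σ hX hσ hz ho
    have h1 := hP X σ hX hσ hz ho
    have h1' := h1.mono (Nat.pow_le_pow_right (by omega) (Nat.le_succ c))
    have h2 := Run.inc (N := X ^ (c + 1)) out
      (Function.update σ out (f (fun i => σ (env i)))) (by
        rw [Function.update_self]
        exact (Nat.add_le_add_right (hb X hX _ hσ) 1).trans (key X hX))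
    rw [Function.update_self, Function.update_idem] at h2
    exact Run.seq h1' h2

theorem LS.const (k : ℕ) : LS (fun _ => k) := by
  induction k with
  | zero => exact LS.zero
  | succ k ih => exact LS.succ ih

theorem LS.ren {f : (ℕ → ℕ) → ℕ} (hf : LS f) (s : ℕ → ℕ) : LS (fun ρ => f (fun i => ρ (s i))) := by
  obtain ⟨c, hb, hp⟩ := hf
  refine ⟨c, ?_, ?_⟩
  · intro X hX ρ hρ
    exact hb X hX _ (fun i => hρ (s i))
  · intro env out base henv hout hne
    obtain ⟨P, hP⟩ := hp (fun i => env (s i)) out base (fun i => henv _) hout (fun i => hne _)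
    refine ⟨P, ?_⟩
    intro X σ hX hσ hz ho
    exact hP X σ hX (fun i => hσ _) hz ho

/-- weakening -/
theorem LS.wk {f : (ℕ → ℕ) → ℕ} (hf : LS f) : LS (fun ρ => f (tl ρ)) := hf.ren (fun i => i + 1)

theorem LS.lett {e f : (ℕ → ℕ) → ℕ} (he : LS e) (hf : LS f) : LS (fun ρ => f (cons (e ρ) ρ)) := by
  obtain ⟨ce, heb, hep⟩ := he
  obtain ⟨cf, hfb, hfp⟩ := hf
  have hX' : ∀ X : ℕ, 2 ≤ X → 2 ≤ X ^ (ce + 1) := by
    intro X hX
    calc 2 ≤ X := hX
      _ = X ^ 1 := (pow_one X).symm
      _ ≤ X ^ (ce + 1) := Nat.pow_le_pow_right (by omega) (by omega)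
  have hle : ∀ X : ℕ, 2 ≤ X → X ≤ X ^ (ce + 1) := by
    intro X hX
    calc X = X ^ 1 := (pow_one X).symm
      _ ≤ X ^ (ce + 1) := Nat.pow_le_pow_right (by omega) (by omega)
  have hcons : ∀ (X : ℕ), 2 ≤ X → ∀ ρ : ℕ → ℕ, (∀ i, ρ i ≤ X) →
      ∀ i, cons (e ρ) ρ i ≤ X ^ (ce + 1) := by
    intro X hX ρ hρ i
    cases i with
    | zero => exact (heb X hX ρ hρ).trans (Nat.pow_le_pow_right (by omega) (by omega))
    | succ i => exact (hρ i).trans (hle X hX)
  refine ⟨max ce ((ce + 1) * cf), ?_, ?_⟩
  · intro X hX ρ hρ
    have := hfb (X ^ (ce + 1)) (hX' X hX) (cons (e ρ) ρ) (hcons X hX ρ hρ)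
    rw [← pow_mul] at this
    exact this.trans (Nat.pow_le_pow_right (by omega) (le_max_right _ _))
  · intro env out base henv hout hne
    obtain ⟨Pe, hPe⟩ := hep env base (base + 1) (fun i => (henv i).trans (Nat.lt_succ_self _))
      (Nat.lt_succ_self _) (fun i => (henv i).ne)
    obtain ⟨Pf, hPf⟩ := hfp (cons base env) out (base + 1)
      (fun i => by cases i with
        | zero => exact Nat.lt_succ_self _
        | succ i => exact (henv i).trans (Nat.lt_succ_self _))
      (hout.trans (Nat.lt_succ_self _))
      (fun i => by cases i with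
        | zero => exact (hout.ne).symm
        | succ i => exact hne i)
    refine ⟨Prg.seq Pe (Prg.seq Pf (clr base)), ?_⟩
    intro X σ hX hσ hz ho
    have h1 := hPe X σ hX hσ (fun r hr => hz r (by omega)) (hz base le_rfl)
    set v := e (fun i => σ (env i)) with hv
    set σ1 := Function.update σ base v with hσ1
    have henv1 : (fun i => σ1 (cons base env i)) = cons v (fun i => σ (env i)) := by
      funext i
      cases i with
      | zero => simp [hσ1]
      | succ i =>
        simp only [cons_succ, hσ1]
        rw [Function.update_of_ne (henv i).ne]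
    have h2 := hPf (X ^ (ce + 1)) σ1 (hX' X hX)
      (fun i => by
        have := hcons X hX (fun i => σ (env i)) hσ i
        have h3 : σ1 (cons base env i) = cons v (fun i => σ (env i)) i := congrFun henv1 i
        rw [h3]; exact this)
      (fun r hr => by
        rw [hσ1, Function.update_of_ne (by omega)]
        exact hz r (by omega))
      (by rw [hσ1, Function.update_of_ne hout.ne]; exact ho)
    rw [henv1, ← pow_mul] at h2
    set w := f (cons v (fun i => σ (env i))) with hw
    have h3 := run_clr (X ^ (max ce ((ce + 1) * cf))) base _ (Function.update σ1 out w) rfl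
    have : Function.update (Function.update σ1 out w) base 0 = Function.update σ out w := by
      funext x
      by_cases hx : x = base
      · subst hx
        simp [Function.update_apply, hout.ne', hz x le_rfl]
      · by_cases hy : x = out
        · subst hy; simp [Function.update_apply, hx]
        · simp [Function.update_apply, hx, hy, hσ1]
    rw [this] at h3
    exact Run.seq (h1.mono (Nat.pow_le_pow_right (by omega) (le_max_left _ _)))
      (Run.seq (h2.mono (Nat.pow_le_pow_right (by omega) (le_max_right _ _))) h3)

/-- the bounded iteration -/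
def It (a b : (ℕ → ℕ) → ℕ) (ρ : ℕ → ℕ) (m : ℕ) : ℕ :=
  Nat.rec (a ρ) (fun i acc => b (cons acc (cons i ρ))) m

@[simp] theorem It_zero (a b : (ℕ → ℕ) → ℕ) (ρ : ℕ → ℕ) : It a b ρ 0 = a ρ := rfl
@[simp] theorem It_succ (a b : (ℕ → ℕ) → ℕ) (ρ : ℕ → ℕ) (m : ℕ) :
    It a b ρ (m + 1) = b (cons (It a b ρ m) (cons m ρ)) := rfl

theorem LS.iter {c a b : (ℕ → ℕ) → ℕ} (hc : LS c) (ha : LS a) (hb : LS b)
    (hbd : ∃ d : ℕ, ∀ X : ℕ, 2 ≤ X → ∀ ρ : ℕ → ℕ, (∀ i, ρ i ≤ X) → ∀ m ≤ c ρ,
      It a b ρ m ≤ X ^ d) :
    LS (fun ρ => It a b ρ (c ρ)) := by
  obtain ⟨cc, hcb, hcp⟩ := hc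
  obtain ⟨ca, hab, hap⟩ := ha
  obtain ⟨cb, hbb, hbp⟩ := hb
  obtain ⟨d, hd⟩ := hbd
  -- exponents
  set k := cc + d + 1 with hk
  set K := cc + ca + d + k * cb + 1 with hK
  have hpow : ∀ X : ℕ, 2 ≤ X → ∀ j, j ≤ K → X ^ j ≤ X ^ K := by
    intro X hX j hj
    exact Nat.pow_le_pow_right (by omega) hj
  have hX' : ∀ X : ℕ, 2 ≤ X → 2 ≤ X ^ k := by
    intro X hX
    calc 2 ≤ X := hX
      _ = X ^ 1 := (pow_one X).symm
      _ ≤ X ^ k := Nat.pow_le_pow_right (by omega) (by omega)
  refine ⟨K, ?_, ?_⟩
  · intro X hX ρ hρ
    exact (hd X hX ρ hρ _ le_rfl).trans (hpow X hX d (by omega))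
  · intro env out base henv hout hne
    obtain ⟨Pc, hPc⟩ := hcp env base (base + 4) (fun i => (henv i).trans (by omega))
      (by omega) (fun i => (henv i).ne)
    obtain ⟨Pa, hPa⟩ := hap env (base + 2) (base + 4) (fun i => (henv i).trans (by omega))
      (by omega) (fun i => ((henv i).trans (by omega)).ne)
    obtain ⟨Pb, hPb⟩ := hbp (cons (base + 2) (cons (base + 1) env)) (base + 3) (base + 4)
      (fun i => by
        rcases i with _ | _ | i
        · simp
        · simp
        · exact (henv i).trans (by omega))
      (by omega)
      (fun i => by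
        rcases i with _ | _ | i
        · simp
        · simp
        · exact ((henv i).trans (by omega)).ne)
    refine ⟨Prg.seq Pc (Prg.seq Pa (Prg.seq (Prg.wh base (Prg.seq (Prg.dec base)
      (Prg.seq Pb (Prg.seq (clr (base + 2)) (Prg.seq (mv (base + 3) (base + 2))
        (Prg.inc (base + 1))))))) (Prg.seq (mv (base + 2) out) (clr (base + 1))))), ?_⟩
    intro X σ hX hσ hz ho
    set ρ : ℕ → ℕ := fun i => σ (env i) with hρ
    -- the loop state
    set S : ℕ → ℕ → ℕ → ℕ := fun i m => Function.update (Function.update (Function.update σ base m)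
      (base + 1) i) (base + 2) (It a b ρ i) with hS
    have h1 := hPc X σ hX hσ (fun r hr => hz r (by omega)) (hz base le_rfl)
    have h2 := hPa X (Function.update σ base (c ρ)) hX
      (fun i => by rw [Function.update_of_ne (henv i).ne]; exact hσ i)
      (fun r hr => by rw [Function.update_of_ne (by omega)]; exact hz r (by omega))
      (by rw [Function.update_of_ne (by omega)]; exact hz _ (by omega))
    have hS0 : Function.update (Function.update σ base (c ρ)) (base + 2)
        (a (fun i => Function.update σ base (c ρ) (env i))) = S 0 (c ρ) := by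
      have h3 : (fun i => Function.update σ base (c ρ) (env i)) = ρ := by
        funext i; rw [Function.update_of_ne (henv i).ne]
      rw [h3]
      funext x
      simp only [hS, It_zero]
      by_cases hx : x = base + 2
      · subst hx; simp
      · by_cases hx1 : x = base + 1
        · subst hx1; simp [Function.update_apply, hz (base + 1) (by omega)]
        · simp [Function.update_apply, hx, hx1]
    rw [hS0] at h2
    -- loop
    have hloop : ∀ m i, i + m = c ρ → Run (X ^ K) (Prg.wh base (Prg.seq (Prg.dec base)
      (Prg.seq Pb (Prg.seq (clr (base + 2)) (Prg.seq (mv (base + 3) (base + 2))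
        (Prg.inc (base + 1))))))) (S i m) (S (c ρ) 0) := by
      intro m
      induction m with
      | zero =>
        intro i hi
        have : i = c ρ := by omega
        subst this
        apply Run.whz
        simp [hS, Function.update_apply]
      | succ m ih =>
        intro i hi
        have hcρ : c ρ ≤ X ^ cc := hcb X hX ρ hσ
        have hI : It a b ρ i ≤ X ^ d := hd X hX ρ hσ i (by omega)
        have hI' : It a b ρ (i + 1) ≤ X ^ d := hd X hX ρ hσ (i + 1) (by omega)
        have e1 := Run.dec (N := X ^ K) base (S i (m + 1)) (by simp [hS, Function.update_apply])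
        have e1' : Function.update (S i (m + 1)) base (S i (m + 1) base - 1) = S i m := by
          funext x
          by_cases hx : x = base
          · subst hx; simp [hS, Function.update_apply]
          · simp [hS, Function.update_apply, hx]
        rw [e1'] at e1
        have henvS : (fun j => S i m (cons (base + 2) (cons (base + 1) env) j)) =
            cons (It a b ρ i) (cons i ρ) := by
          funext j
          rcases j with _ | _ | j
          · simp [hS]
          · simp [hS, Function.update_apply]
          · have h4 : env j < base := henv j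
            simp only [cons_succ, hS, hρ]
            rw [Function.update_of_ne (by omega), Function.update_of_ne (by omega),
              Function.update_of_ne (by omega)]
        have e2 := hPb (X ^ k) (S i m) (hX' X hX)
          (fun j => by
            have h5 : S i m (cons (base + 2) (cons (base + 1) env) j) =
                cons (It a b ρ i) (cons i ρ) j := congrFun henvS j
            rw [h5]
            rcases j with _ | _ | j
            · exact hI.trans (Nat.pow_le_pow_right (by omega) (by omega))
            · simp only [cons_succ, cons_zero]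
              exact (by omega : i ≤ c ρ).trans (hcρ.trans (Nat.pow_le_pow_right (by omega)
                (by omega)))
            · simp only [cons_succ]
              calc ρ j ≤ X := hσ j
                _ = X ^ 1 := (pow_one X).symm
                _ ≤ X ^ k := Nat.pow_le_pow_right (by omega) (by omega))
          (fun r hr => by
            simp only [hS]
            rw [Function.update_of_ne (by omega), Function.update_of_ne (by omega),
              Function.update_of_ne (by omega)]
            exact hz r (by omega))
          (by
            simp only [hS]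
            rw [Function.update_of_ne (by omega), Function.update_of_ne (by omega),
              Function.update_of_ne (by omega)]
            exact hz _ (by omega))
        rw [henvS, ← pow_mul, show b (cons (It a b ρ i) (cons i ρ)) = It a b ρ (i + 1) from rfl]
          at e2
        have e2' := e2.mono (hpow X hX (k * cb) (by omega))
        set T1 := Function.update (S i m) (base + 3) (It a b ρ (i + 1)) with hT1
        have e3 := run_clr (X ^ K) (base + 2) _ T1 rfl
        have e4 := run_mv (X ^ K) (base + 3) (base + 2) (by omega) (It a b ρ (i + 1))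
          (Function.update T1 (base + 2) 0)
          (by rw [Function.update_of_ne (by omega), hT1, Function.update_self])
          (by rw [Function.update_self]
              simpa using hI'.trans (hpow X hX d (by omega)))
        set T2 := Function.update (Function.update (Function.update T1 (base + 2) 0) (base + 3) 0)
          (base + 2) (Function.update T1 (base + 2) 0 (base + 2) + It a b ρ (i + 1)) with hT2
        have hT2b : T2 (base + 1) = i := by
          simp [hT2, hT1, hS, Function.update_apply]
        have e5 := Run.inc (N := X ^ K) (base + 1) T2 (by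
          rw [hT2b]
          have : i + 1 ≤ c ρ := by omega
          exact this.trans (hcρ.trans (hpow X hX cc (by omega))))
        have e5' : Function.update T2 (base + 1) (T2 (base + 1) + 1) = S (i + 1) m := by
          rw [hT2b]
          funext x
          by_cases hx : x = base + 1
          · subst hx; simp [hS, Function.update_apply]
          · by_cases hx2 : x = base + 2
            · subst hx2; simp [hS, hT2, hT1, Function.update_apply]
            · by_cases hx3 : x = base + 3
              · subst hx3
                simp [hS, hT2, Function.update_apply, hz (base + 3) (by omega)]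
              · simp [hS, hT2, hT1, Function.update_apply, hx, hx2, hx3]
        rw [e5'] at e5
        exact Run.whs (by simp [hS, Function.update_apply])
          (Run.seq e1 (Run.seq e2' (Run.seq e3 (Run.seq e4 e5)))) (ih (i + 1) (by omega))
    have h3 := hloop (c ρ) 0 (by omega)
    have hfin : It a b ρ (c ρ) ≤ X ^ d := hd X hX ρ hσ _ le_rfl
    have hSo : S (c ρ) 0 out = 0 := by
      simp only [hS]
      rw [Function.update_of_ne (by omega), Function.update_of_ne (by omega),
        Function.update_of_ne (by omega)]
      exact ho
    have h4 := run_mv (X ^ K) (base + 2) out (by omega) (It a b ρ (c ρ)) (S (c ρ) 0)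
      (by simp [hS])
      (by rw [hSo, zero_add]; exact hfin.trans (hpow X hX d (by omega)))
    rw [hSo, zero_add] at h4
    have h5 := run_clr (X ^ K) (base + 1) _
      (Function.update (Function.update (S (c ρ) 0) (base + 2) 0) out (It a b ρ (c ρ))) rfl
    have h6 : Function.update (Function.update (Function.update (S (c ρ) 0) (base + 2) 0) out
        (It a b ρ (c ρ))) (base + 1) 0 = Function.update σ out (It a b ρ (c ρ)) := by
      funext x
      by_cases hx : x = out
      · subst hx
        rw [Function.update_of_ne (by omega), Function.update_self, Function.update_self]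
      · by_cases hx0 : x = base
        · subst hx0
          simp [hS, Function.update_apply, hout.ne', hz x le_rfl]
        · by_cases hx1 : x = base + 1
          · subst hx1
            simp [Function.update_apply, hz (base + 1) (by omega), hx]
          · by_cases hx2 : x = base + 2
            · subst hx2
              simp [Function.update_apply, hz (base + 2) (by omega), hx]
            · simp [hS, Function.update_apply, hx, hx0, hx1, hx2]
    rw [h6] at h5
    exact Run.seq (h1.mono (hpow X hX cc (by omega)))
      (Run.seq (h2.mono (hpow X hX ca (by omega))) (Run.seq h3 (Run.seq h4 h5)))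

end Pool.Agent.H539R2
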