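import Pool.Agent.H539R2.LowD
import Pool.Agent.H539R2.DefsQ

/-!
Quantifier prefixes evaluated in linear space.
-/

set_option linter.unusedSimpArgs false
set_option linter.unusedVariables false

namespace Pool.Agent.H539R2.DD

open Pool.Agent.H539R2 Filter

/-- quantifiers -/
inductive Qf : Type
  | ex : Qf
  | all : Qf
  | maj : Qf

/-- codes of the quantifiers -/
def Qf.code : Qf → ℕ
  | .ex => 0
  | .all => 1
  | .maj => 2

/-- application of a quantifier -/
def Qf.app {α : Type} [Fintype α] (q : Qf) (R : α → Prop) : Prop :=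
  match q with
  | .ex => ∃ y, R y
  | .all => ∀ y, R y
  | .maj => Fintype.card α < 2 * Nat.card {y : α // R y}

/-- quantifier prefixes -/
def Quant (n K : ℕ) : (k : ℕ) → (Fin k → Qf) → ((Fin k → Fin n → Fin K) → Prop) → Prop
  | 0, _, P => P (fun j => j.elim0)
  | k + 1, σ, P => (σ 0).app (fun y : Fin n → Fin K =>
      Quant n K k (Fin.tail σ) (fun ys => P (Fin.cons y ys)))

/-- numeric application of a quantifier to the number of witnesses -/
def qt (τ M c : ℕ) : ℕ :=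
  if τ = 0 then (if c = 0 then 0 else 1) else
    if τ = 1 then (if c = M then 1 else 0) else (if M < 2 * c then 1 else 0)

/-- numeric evaluation of a prefix -/
def qv (M s : ℕ) (f : ℕ → ℕ) : ℕ → ℕ → ℕ
  | 0, Y => f Y
  | r + 1, Y => qt (dg 3 s r) M (∑ y ∈ Finset.range M, qv M s f r (Y * M + y))

/-- code of a word -/
def enc {n K : ℕ} (y : Fin n → Fin K) : ℕ := (finFunctionFinEquiv y : ℕ)

theorem enc_lt {n K : ℕ} (y : Fin n → Fin K) : enc y < K ^ n := (finFunctionFinEquiv y).isLt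

theorem dg_enc {n K : ℕ} (y : Fin n → Fin K) (i : Fin n) : dg K (enc y) i = (y i : ℕ) := by
  have h := congrArg (fun z : Fin n → Fin K => ((z i : Fin K) : ℕ))
    (finFunctionFinEquiv.symm_apply_apply y)
  exact h

theorem sum_enc {n K : ℕ} (F : ℕ → ℕ) :
    ∑ y ∈ Finset.range (K ^ n), F y = ∑ y : Fin n → Fin K, F (enc y) := by
  rw [Finset.sum_range]
  exact (Equiv.sum_comp finFunctionFinEquiv (fun a : Fin (K ^ n) => F (a : ℕ))).symm

/-- code of a tuple of words -/
def fold {n K : ℕ} : (r : ℕ) → ℕ → (Fin r → Fin n → Fin K) → ℕ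
  | 0, Y, _ => Y
  | r + 1, Y, ys => fold r (Y * K ^ n + enc (ys 0)) (Fin.tail ys)

theorem fold_div {n K : ℕ} (hK : 0 < K ^ n) : ∀ (r Y : ℕ) (ys : Fin r → Fin n → Fin K),
    fold r Y ys / (K ^ n) ^ r = Y := by
  intro r
  induction r with
  | zero => intro Y ys; simp [fold]
  | succ r ih =>
    intro Y ys
    rw [pow_succ, ← Nat.div_div_eq_div_mul]
    show fold r (Y * K ^ n + enc (ys 0)) (Fin.tail ys) / (K ^ n) ^ r / K ^ n = Y
    rw [ih, mul_comm, Nat.mul_add_div hK, Nat.div_eq_of_lt (enc_lt _), add_zero]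

theorem fold_dg {n K : ℕ} (hK : 0 < K ^ n) : ∀ (r Y : ℕ) (ys : Fin r → Fin n → Fin K)
    (j : Fin r), dg (K ^ n) (fold r Y ys) (r - 1 - j) = enc (ys j) := by
  intro r
  induction r with
  | zero => intro Y ys j; exact j.elim0
  | succ r ih =>
    intro Y ys j
    show dg (K ^ n) (fold r (Y * K ^ n + enc (ys 0)) (Fin.tail ys)) _ = _
    refine Fin.cases ?_ (fun j => ?_) j
    · unfold dg
      have : r + 1 - 1 - ((0 : Fin (r + 1)) : ℕ) = r := by simp
      rw [this, fold_div hK, mul_comm, Nat.mul_add_mod, Nat.mod_eq_of_lt (enc_lt _)]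
    · have h1 : r + 1 - 1 - ((j.succ : Fin (r + 1)) : ℕ) = r - 1 - j := by
        rw [Fin.val_succ]; omega
      rw [h1, ih]
      rfl

theorem fold_lt {n K : ℕ} (hK : 0 < K ^ n) : ∀ (r Y : ℕ) (ys : Fin r → Fin n → Fin K),
    fold r Y ys < (Y + 1) * (K ^ n) ^ r := by
  intro r
  induction r with
  | zero => intro Y ys; simp [fold]
  | succ r ih =>
    intro Y ys
    show fold r (Y * K ^ n + enc (ys 0)) (Fin.tail ys) < _
    refine lt_of_lt_of_le (ih _ _) ?_
    rw [pow_succ', ← mul_assoc]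
    apply Nat.mul_le_mul_right
    have := enc_lt (ys 0)
    nlinarith

theorem qt_le (τ M c : ℕ) : qt τ M c ≤ 1 := by
  unfold qt
  split_ifs <;> simp

theorem qt_spec {α : Type} [Fintype α] (q : Qf) (R : α → Prop) (g : α → ℕ)
    (hg : ∀ y, g y ≤ 1 ∧ (g y = 1 ↔ R y)) :
    qt q.code (Fintype.card α) (∑ y, g y) = 1 ↔ q.app R := by
  classical
  have hc : ∑ y, g y = Nat.card {y : α // R y} := by
    rw [Nat.card_eq_fintype_card, Fintype.card_subtype, Finset.card_filter]
    apply Finset.sum_congr rfl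
    intro y _
    obtain ⟨h1, h2⟩ := hg y
    split_ifs with h
    · exact h2.2 h
    · have : g y ≠ 1 := fun h' => h (h2.1 h')
      omega
  cases q with
  | ex =>
    unfold qt Qf.code Qf.app
    simp only [if_true]
    by_cases h0 : ∑ y, g y = 0
    · rw [if_pos h0]
      constructor
      · intro h; omega
      · rintro ⟨y, hy⟩
        rw [Finset.sum_eq_zero_iff] at h0
        have := h0 y (Finset.mem_univ _)
        have := (hg y).2.2 hy
        omega
    · rw [if_neg h0]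
      constructor
      · intro _
        by_contra hcon
        apply h0
        apply Finset.sum_eq_zero
        intro y _
        have h1 : ¬ R y := fun h => hcon ⟨y, h⟩
        have h2 : g y ≠ 1 := fun h' => h1 ((hg y).2.1 h')
        have := (hg y).1
        omega
      · intro _; rfl
  | all =>
    unfold qt Qf.code Qf.app
    simp only [if_true, Nat.one_ne_zero, if_false]
    by_cases h0 : ∑ y, g y = Fintype.card α
    · rw [if_pos h0]
      refine ⟨fun _ => ?_, fun _ => rfl⟩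
      intro y
      by_contra hcon
      have h1 : g y ≠ 1 := fun h' => hcon ((hg y).2.1 h')
      have h2 : g y < 1 := by have := (hg y).1; omega
      have h3 : ∑ y, g y < ∑ y : α, 1 :=
        Finset.sum_lt_sum (fun z _ => (hg z).1) ⟨y, Finset.mem_univ _, h2⟩
      rw [Finset.sum_const, Finset.card_univ, smul_eq_mul, mul_one] at h3
      omega
    · rw [if_neg h0]
      refine ⟨fun h => by omega, fun h => ?_⟩
      exfalso
      apply h0
      have : ∑ y, g y = ∑ y : α, 1 := Finset.sum_congr rfl (fun y _ => (hg y).2.2 (h y))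
      rw [this, Finset.sum_const, Finset.card_univ, smul_eq_mul, mul_one]
  | maj =>
    unfold qt Qf.code Qf.app
    have h2 : ¬ (2 = 1) := by omega
    have h2' : ¬ (2 = 0) := by omega
    simp only [h2, h2', if_false]
    rw [← hc]
    by_cases h : Fintype.card α < 2 * ∑ y, g y
    · rw [if_pos h]; exact ⟨fun _ => h, fun _ => rfl⟩
    · rw [if_neg h]; exact ⟨fun h' => by omega, fun h' => absurd h' h⟩

theorem qv_spec {n K s : ℕ} (f : ℕ → ℕ) : ∀ (r : ℕ) (σ : Fin r → Qf)
    (_ : ∀ j : Fin r, dg 3 s (r - 1 - j) = (σ j).code) (Y : ℕ)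
    (P : (Fin r → Fin n → Fin K) → Prop)
    (_ : ∀ ys, f (fold r Y ys) ≤ 1 ∧ (f (fold r Y ys) = 1 ↔ P ys)),
    qv (K ^ n) s f r Y ≤ 1 ∧ (qv (K ^ n) s f r Y = 1 ↔ Quant n K r σ P) := by
  intro r
  induction r with
  | zero =>
    intro σ _ Y P hf
    exact hf (fun j => j.elim0)
  | succ r ih =>
    intro σ hσ Y P hf
    refine ⟨qt_le _ _ _, ?_⟩
    have hg : ∀ y : Fin n → Fin K, qv (K ^ n) s f r (Y * K ^ n + enc y) ≤ 1 ∧
        (qv (K ^ n) s f r (Y * K ^ n + enc y) = 1 ↔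
          Quant n K r (Fin.tail σ) (fun ys => P (Fin.cons y ys))) := by
      intro y
      apply ih
      · intro j
        have := hσ j.succ
        rw [Fin.val_succ] at this
        have h1 : r + 1 - 1 - ((j : ℕ) + 1) = r - 1 - j := by omega
        rw [h1] at this
        exact this
      · intro ys
        have := hf (Fin.cons y ys)
        have h1 : fold (r + 1) Y (Fin.cons y ys : Fin (r + 1) → Fin n → Fin K) =
            fold r (Y * K ^ n + enc y) ys := by
          show fold r (Y * K ^ n + enc ((Fin.cons y ys : Fin (r + 1) → Fin n → Fin K) 0))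
            (Fin.tail (Fin.cons y ys : Fin (r + 1) → Fin n → Fin K)) = _
          rw [Fin.cons_zero, Fin.tail_cons]
        rw [h1] at this
        exact this
    show qt (dg 3 s r) (K ^ n) (∑ y ∈ Finset.range (K ^ n), qv (K ^ n) s f r (Y * K ^ n + y)) = 1 ↔
      (σ 0).app _
    have h0 : dg 3 s r = (σ 0).code := by
      have := hσ 0
      simpa using this
    rw [h0, sum_enc]
    have := qt_spec (σ 0) (fun y : Fin n → Fin K =>
      Quant n K r (Fin.tail σ) (fun ys => P (Fin.cons y ys)))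
      (fun y => qv (K ^ n) s f r (Y * K ^ n + enc y)) hg
    have hcard : Fintype.card (Fin n → Fin K) = K ^ n := by simp
    rw [hcard] at this
    exact this

theorem ls_qt {τ M c : (ℕ → ℕ) → ℕ} (hτ : LS τ) (hM : LS M) (hc : LS c) :
    LS (fun ρ => qt (τ ρ) (M ρ) (c ρ)) := by
  unfold qt
  exact LS.ite (LSP.eq hτ LS.zero) (LS.ite (LSP.eq hc LS.zero) LS.zero (LS.const 1))
    (LS.ite (LSP.eq hτ (LS.const 1)) (LS.ite (LSP.eq hc hM) (LS.const 1) LS.zero)
      (LS.ite (LSP.lt hM ((LS.const 2).mul hc)) (LS.const 1) LS.zero))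

theorem ls_qv : ∀ (r : ℕ) {M s Y : (ℕ → ℕ) → ℕ} {f : ℕ → (ℕ → ℕ) → ℕ} (_ : LS M) (_ : LS s)
    (_ : LS Y) (_ : LS (fun ρ => f (ρ 0) (tl ρ))),
    LS (fun ρ => qv (M ρ) (s ρ) (fun Z => f Z ρ) r (Y ρ)) := by
  intro r
  induction r with
  | zero =>
    intro M s Y f hM hs hY hf
    exact LS.lett (f := fun ρ' => f (ρ' 0) (tl ρ')) hY hf
  | succ r ih =>
    intro M s Y f hM hs hY hf
    refine ls_qt (LS.dg (LS.const 3) hs (LS.const r)) hM
      (LS.sum (F := fun y ρ => qv (M ρ) (s ρ) (fun Z => f Z ρ) r (Y ρ * M ρ + y)) hM ?_)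
    refine ih (f := fun Z ρ => f Z (tl ρ)) hM.wk hs.wk ((hY.wk.mul hM.wk).add (LS.var 0)) ?_
    exact LS.ren hf (fun i => if i = 0 then 0 else i + 1)

/-- numbers with given digits, with truncated powers -/
def digsT (cap β N : ℕ) (h : ℕ → ℕ) : ℕ := ∑ i ∈ Finset.range N, h i * powT cap β i

theorem digsT_eq (cap β N : ℕ) (h : ℕ → ℕ) (hβ : 0 < β) (hcap : β ^ N ≤ cap) :
    digsT cap β N h = digs β N h := by
  unfold digsT digs
  apply Finset.sum_congr rfl
  intro i hi
  rw [Finset.mem_range] at hi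
  rw [powT_eq _ _ _ hβ ((Nat.pow_le_pow_right hβ (by omega)).trans hcap)]

theorem ls_digsT {cap β N : (ℕ → ℕ) → ℕ} {h : ℕ → (ℕ → ℕ) → ℕ} (hc : LS cap) (hβ : LS β)
    (hN : LS N) (hh : LS (fun ρ => h (ρ 0) (tl ρ))) :
    LS (fun ρ => digsT (cap ρ) (β ρ) (N ρ) (fun i => h i ρ)) := by
  unfold digsT
  exact LS.sum (F := fun i ρ => h i ρ * powT (cap ρ) (β ρ) i) hN
    (hh.mul (LS.powT hc.wk hβ.wk (LS.var 0)))

/-- the combined word -/
def comb (cap K k n Z : ℕ) : ℕ :=
  digsT cap (K ^ k) n (fun i => digsT cap K k (fun j => dg K (dg (powT cap K n) Z (k - 1 - j)) i))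

theorem ls_comb (K k : ℕ) {cap n Z : (ℕ → ℕ) → ℕ} (hc : LS cap) (hn : LS n) (hZ : LS Z) :
    LS (fun ρ => comb (cap ρ) K k (n ρ) (Z ρ)) := by
  unfold comb
  refine ls_digsT (h := fun i ρ => digsT (cap ρ) K k
    (fun j => dg K (dg (powT (cap ρ) K (n ρ)) (Z ρ) (k - 1 - j)) i)) hc (LS.const _) hn ?_
  refine ls_digsT (h := fun j ρ => dg K (dg (powT (cap (tl ρ)) K (n (tl ρ))) (Z (tl ρ))
    (k - 1 - j)) (ρ 0)) hc.wk (LS.const _) (LS.const _) ?_
  exact LS.dg (LS.const _) (LS.dg (LS.powT hc.wk.wk (LS.const _) hn.wk.wk) hZ.wk.wk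
    ((LS.const (k - 1)).sub (LS.var 0))) (LS.var 1)

theorem comb_dg {K k n cap : ℕ} (hK : 1 ≤ K) (hcap : K ^ (k * n) ≤ cap) (hcap1 : K ^ k ≤ cap)
    (hcap2 : K ^ n ≤ cap) (ys : Fin k → Fin n → Fin K) (i : Fin n) :
    dg (K ^ k) (comb cap K k n (fold k 0 ys)) i = enc (fun j => ys j i) := by
  have hKk : 0 < K ^ k := Nat.pow_pos (by omega)
  have hKn : 0 < K ^ n := Nat.pow_pos (by omega)
  unfold comb
  rw [digsT_eq _ _ _ _ hKk (by rw [← pow_mul]; exact hcap)]
  rw [dg_digs _ _ hKk _ _ i i.isLt]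
  · rw [digsT_eq _ _ _ _ (by omega) hcap1]
    unfold digs enc
    rw [Finset.sum_range, finFunctionFinEquiv_apply]
    apply Finset.sum_congr rfl
    intro j _
    show dg K (dg (powT cap K n) (fold k 0 ys) (k - 1 - j)) i * K ^ (j : ℕ) = _
    rw [powT_eq _ _ _ (by omega) hcap2, fold_dg hKn, dg_enc]
  · intro i' _
    rw [digsT_eq _ _ _ _ (by omega) hcap1]
    exact digs_lt _ _ _ (fun j _ => dg_lt _ _ _ (by omega))

/-- the automaton reading combined letters -/
def QCA.toV {d k K : ℕ} (V : QCA d k K) : VDCA d (K ^ k) where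
  Q := V.Q
  finQ := V.finQ
  blank := V.blank
  inp := fun b l => V.inp b (finFunctionFinEquiv.symm l)
  δ := V.δ
  acc := V.acc

theorem QCA.toV_run {d k K : ℕ} [NeZero d] (V : QCA d k K) (x : List Bool)
    (ys : Fin k → Fin x.length → Fin K) (w : ℕ → Fin (K ^ k))
    (hw : ∀ i : Fin x.length, w i = finFunctionFinEquiv (fun j => ys j i)) (t : ℕ) :
    (QCA.toV V).run x w t = V.run x ys t := by
  unfold VDCA.run QCA.run
  have h0 : (QCA.toV V).init x w = V.init x ys := by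
    funext v
    unfold VDCA.init QCA.init
    by_cases h : (∀ j, j ≠ 0 → v j = 0) ∧ 0 ≤ v 0 ∧ v 0 < x.length
    · rw [if_pos h, dif_pos h]
      have hlt : (v 0).toNat < x.length := by omega
      show V.inp _ (finFunctionFinEquiv.symm (w (v 0).toNat)) = _
      rw [hw ⟨(v 0).toNat, hlt⟩, Equiv.symm_apply_apply]
      congr 1
      rw [List.getD_eq_getElem _ _ hlt]
      rfl
    · rw [if_neg h, dif_neg h]
      rfl
  have hs : (QCA.toV V).step = V.step := rfl
  rw [h0, hs]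
  rfl

theorem QCA.toV_accAt {d k K : ℕ} [NeZero d] (V : QCA d k K) (x : List Bool)
    (ys : Fin k → Fin x.length → Fin K) (w : ℕ → Fin (K ^ k))
    (hw : ∀ i : Fin x.length, w i = finFunctionFinEquiv (fun j => ys j i)) (t : ℕ) :
    (QCA.toV V).AccAt x w t ↔ V.AccAt x ys t := by
  unfold VDCA.AccAt QCA.AccAt
  rw [QCA.toV_run V x ys w hw]
  rfl

/-- bound for all powers of `K` used -/
def cp (K k X : ℕ) : ℕ := X ^ (K * (k + 1))

theorem cp_spec (K k n : ℕ) (hn : 1 ≤ n) : K ^ (k * n) ≤ cp K k (2 ^ n) ∧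
    K ^ k ≤ cp K k (2 ^ n) ∧ K ^ n ≤ cp K k (2 ^ n) := by
  have h1 : cp K k (2 ^ n) = (2 ^ K) ^ ((k + 1) * n) := by
    unfold cp
    rw [← pow_mul, ← pow_mul]
    congr 1
    ring
  have h2 : K ^ ((k + 1) * n) ≤ cp K k (2 ^ n) := by
    rw [h1]
    exact Nat.pow_le_pow_left Nat.lt_two_pow_self.le _
  rcases Nat.eq_zero_or_pos K with h0 | hK
  · subst h0
    have h3 : cp 0 k (2 ^ n) = 1 := by unfold cp; simp
    have h4 : ∀ m : ℕ, 0 ^ m ≤ 1 := by
      intro m
      cases m with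
      | zero => simp
      | succ m => simp
    rw [h3]
    exact ⟨h4 _, h4 _, h4 _⟩
  · refine ⟨le_trans (Nat.pow_le_pow_right hK ?_) h2, le_trans (Nat.pow_le_pow_right hK ?_) h2,
      le_trans (Nat.pow_le_pow_right hK ?_) h2⟩ <;> nlinarith

/-- the diagonal function -/
def UQ (K k X n : ℕ) : ℕ :=
  if qv (powT (cp K k X) K n) ((Nat.unpair n).2 % 3 ^ k)
    (fun Z => (dprm (K ^ k) X n (comb (cp K k X) K k n Z)).sim % 2) k 0 = 1 then 0 else 1

theorem ls_UQ (K k : ℕ) : LS (fun ρ => UQ K k (ρ 0) (ρ 1)) := by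
  unfold UQ
  have hcp : LS (fun ρ => cp K k (ρ 0)) := ZZ.LS.powc (LS.var 0) _
  refine LS.ite (LSP.eq ?_ (LS.const 1)) LS.zero (LS.const 1)
  refine ls_qv k (f := fun Z ρ => (dprm (K ^ k) (ρ 0) (ρ 1)
    (comb (cp K k (ρ 0)) K k (ρ 1) Z)).sim % 2)
    (LS.powT hcp (LS.const _) (LS.var 1)) ((LS.unpair2 (LS.var 1)).mod (LS.const _)) LS.zero ?_
  exact (ls_sim (ls_dprm (LS.const _) (LS.var 1) (LS.var 2)
    (ls_comb K k (ZZ.LS.powc (LS.var 1) _) (LS.var 2) (LS.var 0)))).mod (LS.const 2)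

end Pool.Agent.H539R2.DD
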