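import Pool.Agent.H539R2.Sim

/-!
Correctness of the number-coded simulation.
-/

set_option linter.unusedSimpArgs false
set_option linter.unusedVariables false

namespace Pool.Agent.H539R2

theorem dg_mod (β a s i : ℕ) (hi : i < s) : dg β (a % β ^ s) i = dg β a i := by
  unfold dg
  have e : β ^ s = β ^ i * β ^ (s - i) := by
    rw [← pow_add]; congr 1; omega
  rw [e, Nat.mod_mul_right_div_self]
  apply Nat.mod_mod_of_dvd
  exact dvd_pow_self β (by omega)

theorem nrec_congr {a : ℕ} {f h : ℕ → ℕ → ℕ} (n : ℕ) (hfh : ∀ i < n, ∀ x, f i x = h i x) :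
    nrec a f n = nrec a h n := by
  induction n with
  | zero => rfl
  | succ n ih => rw [nrec_succ, nrec_succ, ih (fun i hi => hfh i (by omega)), hfh n (by omega)]

namespace Prm

/-- validity of the parameters -/
structure Valid (P : Prm) : Prop where
  q : 1 ≤ P.q
  a : P.a < P.q
  b : P.b < P.q
  B : 2 ≤ P.B
  r0 : P.r0 ≤ P.B
  p : 2 ≤ P.p
  hg : (P.g : ZMod P.p) ^ (P.p - 1) = 1
  hsum : ∀ k, 1 ≤ k → k ≤ 3 * P.B →
    ∑ i ∈ Finset.range (P.p - 1), ((P.g : ZMod P.p) ^ (i + 1)) ^ k = 0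
  hX1 : P.q ^ (3 * P.B) ≤ P.X
  hX2 : P.p ^ (4 * P.B * P.q) ≤ P.X
  hX3 : (8 * (P.p - 1)) ^ P.H ≤ P.X

/-- the true configuration at each time -/
def cc (P : Prm) : ℕ → ℕ → ℕ
  | 0, i => if 1 ≤ i ∧ i ≤ P.n then P.a else P.b
  | (t + 1), i => if 1 ≤ i ∧ i ≤ P.n then
      dg P.q P.dc ((P.cc t (i - 1) * P.q + P.cc t i) * P.q + P.cc t (i + 1)) else P.b

variable {P : Prm} (hP : P.Valid)
include hP

theorem cc_lt (t i : ℕ) : P.cc t i < P.q := by
  cases t with
  | zero =>
    unfold cc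
    split_ifs
    · exact hP.a
    · exact hP.b
  | succ t =>
    unfold cc
    split_ifs
    · exact dg_lt _ _ _ hP.q
    · exact hP.b

theorem powq (z : ℕ) (hz : z ≤ 3 * P.B) : powT P.X P.q z = P.q ^ z :=
  powT_eq _ _ _ hP.q ((Nat.pow_le_pow_right hP.q hz).trans hP.hX1)

theorem cellN_lt (v w z : ℕ) : P.cellN v w z < P.q := by
  unfold cellN
  split_ifs
  · exact dg_lt _ _ _ hP.q
  · exact hP.b

theorem estep_dg (v w z : ℕ) (hz : z < 3 * P.B) : dg P.q (P.estep v w) z = P.cellN v w z := by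
  have : P.estep v w = digs P.q (3 * P.B) (fun z => P.cellN v w z) := by
    unfold estep digs
    apply Finset.sum_congr rfl
    intro i hi
    rw [powq hP i (Finset.mem_range.1 hi).le]
  rw [this, dg_digs _ _ hP.q _ (fun i _ => cellN_lt hP v w i) z hz]

theorem w0_dg (v z : ℕ) (hz : z < 3 * P.B) : dg P.q (P.w0 v) z = P.cc 0 (P.cidx v z) := by
  have : P.w0 v = digs P.q (3 * P.B) (fun z => P.cc 0 (P.cidx v z)) := by
    unfold w0 digs cc
    apply Finset.sum_congr rfl
    intro i hi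
    rw [powq hP i (Finset.mem_range.1 hi).le]
  rw [this, dg_digs _ _ hP.q _ (fun i _ => cc_lt hP 0 _) z hz]

theorem evo_dg (t v w : ℕ) (hw : ∀ z < 3 * P.B, dg P.q w z = P.cc t (P.cidx v z)) :
    ∀ r ≤ P.B, ∀ z, r ≤ z → z + r < 3 * P.B → dg P.q (P.evo v w r) z = P.cc (t + r) (P.cidx v z)
    := by
  intro r
  induction r with
  | zero =>
    intro _ z _ hz
    exact hw z (by omega)
  | succ r ih =>
    intro hr z hz1 hz2
    have e : P.evo v w (r + 1) = P.estep v (P.evo v w r) := rfl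
    rw [e, estep_dg hP v _ z (by omega)]
    unfold cellN
    rw [← add_assoc t r 1]
    conv_rhs => unfold cc
    split_ifs with hc
    · rw [ih (by omega) (z - 1) (by omega) (by omega), ih (by omega) z (by omega) (by omega),
        ih (by omega) (z + 1) (by omega) (by omega)]
      have h1 : P.cidx v (z - 1) = P.cidx v z - 1 := by
        unfold cidx at *; omega
      have h2 : P.cidx v (z + 1) = P.cidx v z + 1 := by
        unfold cidx at *; omega
      rw [h1, h2]
    · rfl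

theorem Z_dg : ∀ (s u x : ℕ), x < P.B →
    dg P.q (Z P.q P.B P.F P.Z0 u s) x = P.cc (P.r0 + s * P.B) ((u + s) * P.B + x - P.H * P.B) := by
  intro s
  induction s with
  | zero =>
    intro u x hx
    have h1 := evo_dg hP 0 u (P.w0 u) (fun z hz => w0_dg hP u z hz) P.r0 hP.r0 (P.B + x)
      (by have := hP.r0; omega) (by have := hP.r0; omega)
    show dg P.q (P.Z0 u) x = _
    have h2 : dg P.q (P.Z0 u) x = dg P.q (P.evo u (P.w0 u) P.r0) (P.B + x) := by
      unfold Z0 dg
      rw [Nat.div_div_eq_div_mul, ← pow_add]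
    rw [h2, h1]
    congr 1
    · omega
    · unfold cidx
      have e1 : (P.H + 1) * P.B = P.H * P.B + P.B := by ring
      rw [e1, add_zero]
      omega
  | succ s ih =>
    intro u x hx
    set y := Y P.q P.B P.F P.Z0 u s with hy
    show dg P.q (P.F u s y) x = _
    have h2 : dg P.q (P.F u s y) x = dg P.q (P.evo (u + s + 1) y P.B) (P.B + x) := by
      unfold F dg
      rw [Nat.div_div_eq_div_mul, ← pow_add]
    have hyd : ∀ z < 3 * P.B, dg P.q y z = P.cc (P.r0 + s * P.B) (P.cidx (u + s + 1) z) := by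
      intro z hz
      rw [hy]
      unfold Y
      rw [dg_digs _ _ hP.q _ (fun i _ => dg_lt _ _ _ hP.q) z hz]
      have hB : 0 < P.B := by have := hP.B; omega
      rw [ih (u + z / P.B) (z % P.B) (Nat.mod_lt _ hB)]
      congr 1
      unfold cidx
      have e1 : (P.H + 1) * P.B = P.H * P.B + P.B := by ring
      have e2 : (u + s + 1) * P.B = (u + s) * P.B + P.B := by ring
      have e3 : (u + z / P.B + s) * P.B + z % P.B = (u + s) * P.B + z := by
        have := Nat.div_add_mod z P.B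
        calc (u + z / P.B + s) * P.B + z % P.B = (u + s) * P.B + (P.B * (z / P.B) + z % P.B) := by
              ring
          _ = _ := by rw [this]
      rw [e1, e2, e3]
      omega
    rw [h2, evo_dg hP _ _ _ hyd P.B le_rfl (P.B + x) (by omega) (by omega)]
    congr 1
    · ring
    · unfold cidx
      have e1 : (P.H + 1) * P.B = P.H * P.B + P.B := by ring
      have e2 : (u + s + 1) * P.B = (u + (s + 1)) * P.B := by ring
      rw [e1, e2]
      omega

omit hP in
theorem D_mod (τ s i : ℕ) (hi : i < s) : P.D (τ % P.K ^ s) i = P.D τ i := dg_mod _ _ _ _ hi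

omit hP in
theorem lev_mod (τ s : ℕ) : P.lev (τ % P.K ^ s) s = P.lev τ s := by
  unfold lev
  apply nrec_congr
  intro i hi x
  rw [D_mod τ s i hi]

omit hP in
theorem uu_mod (τ s : ℕ) : P.uu (τ % P.K ^ s) s = P.uu τ s := by
  unfold uu
  rw [lev_mod]
  apply Finset.sum_congr rfl
  intro i hi
  rw [D_mod τ s i (Finset.mem_range.1 hi)]

/-- sign -/
def sgR (P : Prm) (τ s : ℕ) (ε0 : ZMod P.p) : ZMod P.p :=
  if P.lev τ s < s then (if P.D τ (P.lev τ s) / 4 % 2 = 0 then 1 else -1) else ε0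

/-- closed form of the operations -/
def cop (P : Prm) (s u0 : ℕ) (ε0 : ZMod P.p) (τ : ℕ) :
    (ℕ → ℕ → ℕ → ZMod P.p) → (ℕ → ℕ → ℕ → ZMod P.p) :=
  if P.lev τ s = 0 then leafOp P.q P.Z0 (u0 + P.uu τ s) (P.sgR τ s ε0)
  else if τ % P.K ^ (P.lev τ s - 1) = 0 then
    (if P.D τ (P.lev τ s - 1) % 8 = 0 then scaleOp (P.g : ZMod P.p) (u0 + P.uu τ s) (P.lev τ s)
     else polyOp P.q P.B P.F (-1 : ZMod P.p) (u0 + P.uu τ s) (P.lev τ s - 1) (P.sgR τ s ε0))
  else id

omit hP in
theorem opS_eq_cop : ∀ (s u0 : ℕ) (ε0 : ZMod P.p) (τ : ℕ), τ < P.K ^ s →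
    opS P.q P.B (P.p - 1) P.F P.Z0 (P.g : ZMod P.p) (-1) s u0 ε0 τ = P.cop s u0 ε0 τ := by
  intro s
  induction s with
  | zero =>
    intro u0 ε0 τ _
    simp [opS, cop, lev, uu, sgR]
  | succ s ih =>
    intro u0 ε0 τ hτ
    have hKs : 0 < P.K ^ s := by
      rcases Nat.eq_zero_or_pos (P.K ^ s) with h | h
      · rw [pow_succ, h] at hτ; omega
      · exact h
    have hDs : P.D τ s = τ / P.K ^ s := by
      unfold D dg
      apply Nat.mod_eq_of_lt
      rw [Nat.div_lt_iff_lt_mul hKs, mul_comm, ← pow_succ]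
      exact hτ
    have hlevs : P.lev τ (s + 1) = if P.D τ s % 4 = 0 then s + 1 else P.lev τ s := rfl
    have hK' : 8 * (P.p - 1) = P.K := rfl
    rw [opS, hK', ← hDs]
    by_cases h4 : P.D τ s % 4 = 0
    · rw [if_pos h4]
      rw [if_pos h4] at hlevs
      unfold cop
      rw [hlevs]
      have huu : P.uu τ (s + 1) = 0 := by
        unfold uu
        apply Finset.sum_eq_zero
        intro i hi
        rw [Finset.mem_range] at hi
        rw [hlevs, if_neg (by omega)]
      have hsg : P.sgR τ (s + 1) ε0 = ε0 := by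
        unfold sgR
        rw [hlevs, if_neg (by omega)]
      rw [huu, hsg, if_neg (Nat.succ_ne_zero s)]
      rfl
    · rw [if_neg h4]
      rw [if_neg h4] at hlevs
      rw [ih _ _ _ (Nat.mod_lt _ hKs)]
      have hle := lev_le P τ s
      unfold cop
      rw [lev_mod, uu_mod, hlevs]
      have huu : P.uu τ (s + 1) = P.uu τ s + (P.D τ s % 4 - 1) := by
        unfold uu
        rw [Finset.sum_range_succ, hlevs, if_pos hle]
      have hsg : P.sgR (τ % P.K ^ s) s (if P.D τ s / 4 % 2 = 0 then 1 else -1) =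
          P.sgR τ (s + 1) ε0 := by
        unfold sgR
        rw [lev_mod, hlevs, if_pos (by omega : P.lev τ s < s + 1)]
        by_cases h5 : P.lev τ s < s
        · rw [if_pos h5, D_mod _ _ _ h5]
        · rw [if_neg h5]
          have : P.lev τ s = s := by omega
          rw [this]
      have hu : u0 + (P.D τ s % 4 - 1) + P.uu τ s = u0 + P.uu τ (s + 1) := by
        rw [huu]; ring
      rw [hsg, hu]
      by_cases h0 : P.lev τ s = 0
      · rw [if_pos h0, if_pos h0]
      · rw [if_neg h0, if_neg h0]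
        have hmod : τ % P.K ^ s % P.K ^ (P.lev τ s - 1) = τ % P.K ^ (P.lev τ s - 1) := by
          apply Nat.mod_mod_of_dvd
          exact pow_dvd_pow _ (by omega)
        rw [hmod, D_mod _ _ _ (by omega : P.lev τ s - 1 < s)]

theorem pcast : ((P.p - 1 : ℕ) : ZMod P.p) = -1 := by
  have := hP.p
  rw [Nat.cast_sub (by omega)]
  simp

theorem sgn_cast (τ s : ℕ) : ((P.sgn τ s : ℕ) : ZMod P.p) = P.sgR τ s 1 := by
  unfold sgn sgR
  split_ifs
  · simp
  · exact pcast hP
  · simp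

theorem Pn_cast (u s R x σ : ℕ) (ρ : ℕ → ℕ → ℕ → ZMod P.p)
    (hρ : ∀ o x σ, o < 4 → x < P.B → σ < P.q → (dg P.p R (P.rix o x σ) : ZMod P.p) = ρ o x σ) :
    ((P.Pn u s R x σ : ℕ) : ZMod P.p) = H539R2.P P.q P.B P.F u s ρ x σ := by
  unfold Pn H539R2.P
  rw [powq hP _ le_rfl, Nat.cast_sum]
  apply Finset.sum_congr rfl
  intro y _
  rw [Nat.cast_mul, pmod_cast _ (by have := hP.p; omega)]
  congr 1
  · unfold oneh
    split_ifs <;> simp
  · apply Finset.prod_congr rfl
    intro z _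
    have hB : 0 < P.B := by have := hP.B; omega
    exact hρ _ _ _ (Nat.mod_lt _ (by omega)) (Nat.mod_lt _ hB) (dg_lt _ _ _ hP.q)

theorem powK (j : ℕ) (hj : j ≤ P.H) : powT P.X P.K j = P.K ^ j := by
  have hK : 0 < P.K := by unfold K; have := hP.p; omega
  exact powT_eq _ _ _ hK ((Nat.pow_le_pow_right hK hj).trans hP.hX3)

theorem nd_lt (τ R o x σ cur : ℕ) (hcur : cur < P.p) : P.nd τ R o x σ cur < P.p := by
  have hp : 0 < P.p := by have := hP.p; omega
  unfold nd
  split_ifs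
  all_goals first
    | exact hcur
    | exact Nat.mod_lt _ hp

theorem nd_cast (τ R o x σ cur : ℕ) (hτ : τ < P.K ^ P.H)
    (ρ : ℕ → ℕ → ℕ → ZMod P.p)
    (hρ : ∀ o x σ, o < 4 → x < P.B → σ < P.q → (dg P.p R (P.rix o x σ) : ZMod P.p) = ρ o x σ)
    (hcur : (cur : ZMod P.p) = ρ o x σ) :
    ((P.nd τ R o x σ cur : ℕ) : ZMod P.p) =
      opS P.q P.B (P.p - 1) P.F P.Z0 (P.g : ZMod P.p) (-1) P.H 0 1 τ ρ o x σ := by
  rw [opS_eq_cop P.H 0 1 τ hτ]
  have hle := lev_le P τ P.H
  unfold nd cop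
  rw [powK hP _ (by omega), zero_add]
  by_cases h0 : P.lev τ P.H = 0
  · rw [if_pos h0, if_pos h0]
    unfold leafOp
    by_cases ho : o = blk (P.uu τ P.H) 0
    · simp only [if_pos ho]
      rw [ZMod.natCast_mod, Nat.cast_add, Nat.cast_mul, sgn_cast hP, hcur]
      unfold oneh
      split_ifs <;> simp
    · simp only [if_neg ho]
      exact hcur
  · rw [if_neg h0, if_neg h0]
    by_cases h1 : τ % P.K ^ (P.lev τ P.H - 1) = 0
    · rw [if_pos h1, if_pos h1]
      by_cases h2 : P.D τ (P.lev τ P.H - 1) % 8 = 0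
      · rw [if_pos h2, if_pos h2]
        unfold scaleOp
        by_cases ho : o = blk (P.uu τ P.H) (P.lev τ P.H)
        · simp only [if_pos ho]
          exact hcur
        · simp only [if_neg ho]
          rw [ZMod.natCast_mod, Nat.cast_mul, hcur]
      · rw [if_neg h2, if_neg h2]
        unfold polyOp
        have h3 : P.lev τ P.H - 1 + 1 = P.lev τ P.H := by omega
        rw [h3]
        by_cases ho : o = blk (P.uu τ P.H) (P.lev τ P.H)
        · simp only [if_pos ho]
          rw [ZMod.natCast_mod, Nat.cast_add, Nat.cast_mul, Nat.cast_mul, sgn_cast hP, hcur,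
            pcast hP, Pn_cast hP _ _ _ _ _ ρ hρ]
        · simp only [if_neg ho]
          exact hcur
    · rw [if_neg h1, if_neg h1]
      exact hcur

omit hP in
theorem rix_lt (o x σ : ℕ) (ho : o < 4) (hx : x < P.B) (hσ : σ < P.q) :
    P.rix o x σ < 4 * P.B * P.q := by
  unfold rix
  have h1 : o * P.B + x < 4 * P.B := by nlinarith
  nlinarith

omit hP in
theorem rix_dec (o x σ : ℕ) (hx : x < P.B) (hσ : σ < P.q) :
    P.rix o x σ / (P.B * P.q) = o ∧ P.rix o x σ / P.q % P.B = x ∧ P.rix o x σ % P.q = σ := by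
  have hq : 0 < P.q := by omega
  have hB : 0 < P.B := by omega
  unfold rix
  have h1 : ((o * P.B + x) * P.q + σ) / P.q = o * P.B + x := by
    rw [mul_comm, Nat.mul_add_div hq, Nat.div_eq_of_lt hσ, add_zero]
  refine ⟨?_, ?_, ?_⟩
  · rw [mul_comm P.B P.q, ← Nat.div_div_eq_div_mul, h1, mul_comm, Nat.mul_add_div hB,
      Nat.div_eq_of_lt hx, add_zero]
  · rw [h1, mul_comm, Nat.mul_add_mod, Nat.mod_eq_of_lt hx]
  · rw [mul_comm, Nat.mul_add_mod, Nat.mod_eq_of_lt hσ]

theorem ostep_dg (τ R o x σ : ℕ) (ho : o < 4) (hx : x < P.B) (hσ : σ < P.q) :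
    dg P.p (P.ostep τ R) (P.rix o x σ) = P.nd τ R o x σ (dg P.p R (P.rix o x σ)) := by
  have hp : 0 < P.p := by have := hP.p; omega
  have hlt : ∀ i, P.nd τ R (i / (P.B * P.q)) (i / P.q % P.B) (i % P.q) (dg P.p R i) < P.p :=
    fun i => nd_lt hP _ _ _ _ _ _ (dg_lt _ _ _ hp)
  have : P.ostep τ R = digs P.p (4 * P.B * P.q) (fun i =>
      P.nd τ R (i / (P.B * P.q)) (i / P.q % P.B) (i % P.q) (dg P.p R i)) := by
    unfold ostep digs
    apply Finset.sum_congr rfl
    intro i hi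
    rw [min_eq_left (hlt i).le, powT_eq _ _ _ hp ((Nat.pow_le_pow_right hp
      (Finset.mem_range.1 hi).le).trans hP.hX2)]
  rw [this, dg_digs _ _ hp _ (fun i _ => hlt i) _ (rix_lt o x σ ho hx hσ)]
  obtain ⟨h1, h2, h3⟩ := rix_dec (P := P) o x σ hx hσ
  rw [h1, h2, h3]

theorem regs_inv : ∀ τ, τ ≤ P.K ^ P.H → ∀ o x σ, o < 4 → x < P.B → σ < P.q →
    (dg P.p (nrec 0 (fun τ R => P.ostep τ R) τ) (P.rix o x σ) : ZMod P.p) =
      H539R2.run (opS P.q P.B (P.p - 1) P.F P.Z0 (P.g : ZMod P.p) (-1) P.H 0 1) τ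
        (fun _ _ _ => 0) o x σ := by
  intro τ
  induction τ with
  | zero =>
    intro _ o x σ _ _ _
    simp [dg, run]
  | succ τ ih =>
    intro hτ o x σ ho hx hσ
    rw [nrec_succ, ostep_dg hP _ _ _ _ _ ho hx hσ, run]
    exact nd_cast hP τ _ o x σ _ (by omega) _ (ih (by omega)) (ih (by omega) o x σ ho hx hσ)

/-- correctness of the simulation -/
theorem sim_eq : P.sim = P.cc (P.r0 + P.H * P.B) 1 := by
  have hp2 := hP.p
  have hBpos : 0 < P.B := by have := hP.B; omega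
  have hfin := run_opS P.q P.B (P.p - 1) hP.q hBpos (by omega) P.F P.Z0 (P.g : ZMod P.p) (-1)
    hP.hg (by rw [pcast hP]; ring) hP.hsum P.H 0 1 (fun _ _ _ => 0)
  have hregs : ∀ σ < P.q, dg P.p P.regs (P.rix (blk 0 P.H) 1 σ) =
      if P.cc (P.r0 + P.H * P.B) 1 = σ then 1 else 0 := by
    intro σ hσ
    have h1 := regs_inv hP (P.K ^ P.H) le_rfl (blk 0 P.H) 1 σ (Nat.mod_lt _ (by omega))
      (by have := hP.B; omega) hσ
    have hK : (8 * (P.p - 1)) ^ P.H = P.K ^ P.H := rfl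
    rw [hK] at hfin
    rw [hfin] at h1
    have hZ : dg P.q (Z P.q P.B P.F P.Z0 0 P.H) 1 = P.cc (P.r0 + P.H * P.B) 1 := by
      rw [Z_dg hP P.H 0 1 (by have := hP.B; omega)]
      congr 1
      rw [zero_add]
      omega
    unfold EV oneh at h1
    rw [if_pos rfl, hZ, zero_add, one_mul] at h1
    have h2 : P.regs = nrec 0 (fun τ R => P.ostep τ R) (P.K ^ P.H) := by
      unfold regs
      rw [powK hP _ le_rfl]
    rw [← h2] at h1
    have hlt : dg P.p P.regs (P.rix (blk 0 P.H) 1 σ) < P.p := dg_lt _ _ _ (by omega)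
    have h3 : (dg P.p P.regs (P.rix (blk 0 P.H) 1 σ) : ZMod P.p) =
        ((if P.cc (P.r0 + P.H * P.B) 1 = σ then 1 else 0 : ℕ) : ZMod P.p) := by
      rw [h1]; split_ifs <;> simp
    have h4 := (ZMod.natCast_eq_natCast_iff' _ _ _).1 h3
    rw [Nat.mod_eq_of_lt hlt, Nat.mod_eq_of_lt (by split_ifs <;> omega)] at h4
    exact h4
  unfold sim
  have h5 : ∀ σ ∈ Finset.range P.q, σ * dg P.p P.regs (P.rix (blk 0 P.H) 1 σ) =
      if P.cc (P.r0 + P.H * P.B) 1 = σ then σ else 0 := by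
    intro σ hσ
    rw [hregs σ (Finset.mem_range.1 hσ)]
    split_ifs <;> simp
  rw [Finset.sum_congr rfl h5, Finset.sum_ite_eq, if_pos (Finset.mem_range.2 (cc_lt hP _ _))]

end Prm

end Pool.Agent.H539R2
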