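import Pool.Agent.H539R2.CMG

/-!
The number-coded simulation of a `d`-dimensional cellular automaton (cells indexed by `ℤ^d`) with
a witness `y` written on the first axis, by the tree evaluation procedure, as an `LS` function.
-/

set_option linter.unusedSimpArgs false
set_option linter.unusedVariables false

namespace Pool.Agent.H539R2.DD

open Pool.Agent.H539R2

/-- parameters of a simulation: `X` a large number, `n` the length of the input, `q` the number of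
states, `dc` the code of the local rule, `a` the codes of the input states, `b` the blank state,
`d` the dimension, `s` the side of the blocks, `H` the height, `p`, `g` modulus and generator,
`k` the size of the witness alphabet, `y` the witness -/
structure Prm where
  X : ℕ
  n : ℕ
  q : ℕ
  dc : ℕ
  a : ℕ
  b : ℕ
  d : ℕ
  s : ℕ
  H : ℕ
  p : ℕ
  g : ℕ
  k : ℕ
  y : ℕ

/-- all parameters are given by `LS` functions -/
structure LSPrm (P : (ℕ → ℕ) → Prm) : Prop where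
  X : LS (fun ρ => (P ρ).X)
  n : LS (fun ρ => (P ρ).n)
  q : LS (fun ρ => (P ρ).q)
  dc : LS (fun ρ => (P ρ).dc)
  a : LS (fun ρ => (P ρ).a)
  b : LS (fun ρ => (P ρ).b)
  d : LS (fun ρ => (P ρ).d)
  s : LS (fun ρ => (P ρ).s)
  H : LS (fun ρ => (P ρ).H)
  p : LS (fun ρ => (P ρ).p)
  g : LS (fun ρ => (P ρ).g)
  k : LS (fun ρ => (P ρ).k)
  y : LS (fun ρ => (P ρ).y)

theorem LSPrm.wk {P : (ℕ → ℕ) → Prm} (h : LSPrm P) : LSPrm (fun ρ => P (tl ρ)) :=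
  ⟨h.X.wk, h.n.wk, h.q.wk, h.dc.wk, h.a.wk, h.b.wk, h.d.wk, h.s.wk, h.H.wk, h.p.wk, h.g.wk,
    h.k.wk, h.y.wk⟩

namespace Prm

/-- number of cells of a block -/
def B (P : Prm) : ℕ := powT P.X P.s P.d

/-- fan-in -/
def f (P : Prm) : ℕ := powT P.X 3 P.d

/-- base of the position vectors of blocks -/
def G (P : Prm) : ℕ := 3 + (P.f + 1) * (2 * P.H + 1)

/-- coordinate `j` of the window position `z` -/
def crd (P : Prm) (z j : ℕ) : ℕ := dg 3 (z / P.B) j * P.s + dg P.s (z % P.B) j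

/-- neighbour `e` of the window position `z` -/
def nb (P : Prm) (z e : ℕ) : ℕ :=
  (∑ j ∈ Finset.range P.d, (P.crd z j + dg 3 e j - 1) / P.s * powT P.X 3 j) * P.B +
    ∑ j ∈ Finset.range P.d, (P.crd z j + dg 3 e j - 1) % P.s * powT P.X P.s j

/-- new cell content in a window -/
def cellN (P : Prm) (w z : ℕ) : ℕ :=
  dg P.q P.dc (∑ e ∈ Finset.range P.f, dg P.q w (P.nb z e) * powT P.X P.q e)

/-- one step of a window -/
def estep (P : Prm) (w : ℕ) : ℕ :=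
  ∑ z ∈ Finset.range (P.f * P.B), P.cellN w z * powT P.X P.q z

/-- several steps of a window -/
def evo (P : Prm) (w r : ℕ) : ℕ := nrec w (fun _ acc => P.estep acc) r

/-- index of the central block -/
def ctr (P : Prm) : ℕ := ∑ j ∈ Finset.range P.d, powT P.X 3 j

/-- next block -/
def F (P : Prm) (u s y : ℕ) : ℕ := P.evo y P.s / P.q ^ (P.ctr * P.B)

/-- offset of a child -/
def off (P : Prm) (c : ℕ) : ℕ := ∑ j ∈ Finset.range P.d, dg 3 c j * powT P.X P.G j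

/-- label of a node -/
def lab (P : Prm) (u s : ℕ) : ℕ := (u + P.f * s) % (P.f + 1)

/-- shifted coordinate `j` of the cell `x` of the leaf block `u` -/
def ucrd (P : Prm) (u x j : ℕ) : ℕ := dg P.G u j * P.s + dg P.s x j

/-- number of wrong coordinates -/
def wrong (P : Prm) (u x : ℕ) : ℕ :=
  ∑ j ∈ Finset.range P.d, if j = 0 then 0 else if P.ucrd u x j = P.H * P.s then 0 else 1

/-- initial cell content -/
def cell0 (P : Prm) (u x : ℕ) : ℕ :=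
  if P.wrong u x = 0 ∧ P.H * P.s ≤ P.ucrd u x 0 ∧ P.ucrd u x 0 < P.H * P.s + P.n then
    dg P.q P.a (dg P.k P.y (P.ucrd u x 0 - P.H * P.s)) else P.b

/-- leaf block -/
def Z0 (P : Prm) (u : ℕ) : ℕ := ∑ x ∈ Finset.range P.B, P.cell0 u x * powT P.X P.q x

/-- base of the operation index -/
def K (P : Prm) : ℕ := 2 * (P.f + 1) * (P.p - 1)

/-- digit of the operation index -/
def D (P : Prm) (τ i : ℕ) : ℕ := dg P.K τ i

/-- level of the operation -/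
def lev (P : Prm) (τ s : ℕ) : ℕ :=
  nrec 0 (fun i acc => if P.D τ i % (P.f + 1) = 0 then i + 1 else acc) s

/-- position of the operation -/
def uu (P : Prm) (τ s : ℕ) : ℕ :=
  ∑ i ∈ Finset.range s, if P.lev τ s ≤ i then P.off (P.D τ i % (P.f + 1) - 1) else 0

/-- sign of the operation as a residue -/
def sgn (P : Prm) (τ s : ℕ) : ℕ :=
  if P.lev τ s < s then (if P.D τ (P.lev τ s) / (P.f + 1) % 2 = 0 then 1 else P.p - 1) else 1

/-- index of a register digit -/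
def rix (P : Prm) (o x σ : ℕ) : ℕ := (o * P.B + x) * P.q + σ

/-- the polynomial, numerically -/
def Pn (P : Prm) (u s R x σ : ℕ) : ℕ :=
  ∑ y ∈ Finset.range (powT P.X P.q (P.f * P.B)),
    (if dg P.q (P.F u s y) x = σ then 1 else 0) *
      pmod P.p (fun z => dg P.p R (P.rix (P.lab (u + P.off (z / P.B)) s) (z % P.B)
        (dg P.q y z))) (P.f * P.B)

/-- the new register digit for block `o`, position `x`, symbol `σ`, with old digit `cur` -/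
def nd (P : Prm) (τ R o x σ cur : ℕ) : ℕ :=
  if P.lev τ P.H = 0 then
    (if o = P.lab (P.uu τ P.H) 0 then
      (cur + P.sgn τ P.H * (if dg P.q (P.Z0 (P.uu τ P.H)) x = σ then 1 else 0)) % P.p else cur)
  else if τ % (powT P.X P.K (P.lev τ P.H - 1)) = 0 then
    (if P.D τ (P.lev τ P.H - 1) % (2 * (P.f + 1)) = 0 then
      (if o = P.lab (P.uu τ P.H) (P.lev τ P.H) then cur else (P.g * cur) % P.p)
    else
      (if o = P.lab (P.uu τ P.H) (P.lev τ P.H) then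
        (cur + (P.p - 1) * P.sgn τ P.H * P.Pn (P.uu τ P.H) (P.lev τ P.H - 1) R x σ) % P.p
      else cur))
  else cur

/-- one operation on the register number -/
def ostep (P : Prm) (τ R : ℕ) : ℕ :=
  ∑ i ∈ Finset.range ((P.f + 1) * P.B * P.q),
    min (P.nd τ R (i / (P.B * P.q)) (i / P.q % P.B) (i % P.q) (dg P.p R i)) P.p * powT P.X P.p i

/-- the whole computation -/
def regs (P : Prm) : ℕ := nrec 0 (fun τ R => P.ostep τ R) (powT P.X P.K P.H)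

/-- the computed state of the cell zero -/
def sim (P : Prm) : ℕ :=
  ∑ σ ∈ Finset.range P.q, σ * dg P.p P.regs (P.rix (P.lab 0 P.H) 0 σ)

end Prm

section

variable {P : (ℕ → ℕ) → Prm} (hP : LSPrm P)
include hP

theorem ls_B : LS (fun ρ => (P ρ).B) := LS.powT hP.X hP.s hP.d

theorem ls_f : LS (fun ρ => (P ρ).f) := LS.powT hP.X (LS.const 3) hP.d

theorem ls_G : LS (fun ρ => (P ρ).G) :=
  (LS.const 3).add (((ls_f hP).succ).mul ((((LS.const 2).mul hP.H)).succ))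

theorem ls_crd {z j : (ℕ → ℕ) → ℕ} (hz : LS z) (hj : LS j) :
    LS (fun ρ => (P ρ).crd (z ρ) (j ρ)) :=
  ((LS.dg (LS.const 3) (hz.div (ls_B hP)) hj).mul hP.s).add
    (LS.dg hP.s (hz.mod (ls_B hP)) hj)

theorem ls_nb {z e : (ℕ → ℕ) → ℕ} (hz : LS z) (he : LS e) :
    LS (fun ρ => (P ρ).nb (z ρ) (e ρ)) := by
  unfold Prm.nb
  have h1 : LS (fun ρ => (P (tl ρ)).crd (z (tl ρ)) (ρ 0) + dg 3 (e (tl ρ)) (ρ 0) - 1) :=
    ((ls_crd hP.wk hz.wk (LS.var 0)).add (LS.dg (LS.const 3) he.wk (LS.var 0))).sub (LS.const 1)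
  refine LS.add (LS.mul ?_ (ls_B hP)) ?_
  · exact LS.sum (F := fun j ρ => ((P ρ).crd (z ρ) j + dg 3 (e ρ) j - 1) / (P ρ).s *
      powT (P ρ).X 3 j) hP.d
      ((h1.div hP.wk.s).mul (LS.powT hP.wk.X (LS.const 3) (LS.var 0)))
  · exact LS.sum (F := fun j ρ => ((P ρ).crd (z ρ) j + dg 3 (e ρ) j - 1) % (P ρ).s *
      powT (P ρ).X (P ρ).s j) hP.d
      ((h1.mod hP.wk.s).mul (LS.powT hP.wk.X hP.wk.s (LS.var 0)))

theorem ls_cellN {w z : (ℕ → ℕ) → ℕ} (hw : LS w) (hz : LS z) :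
    LS (fun ρ => (P ρ).cellN (w ρ) (z ρ)) := by
  unfold Prm.cellN
  refine LS.dg hP.q hP.dc ?_
  exact LS.sum (F := fun e ρ => dg (P ρ).q (w ρ) ((P ρ).nb (z ρ) e) * powT (P ρ).X (P ρ).q e)
    (ls_f hP) ((LS.dg hP.wk.q hw.wk (ls_nb hP.wk hz.wk (LS.var 0))).mul
      (LS.powT hP.wk.X hP.wk.q (LS.var 0)))

theorem ls_estep {w : (ℕ → ℕ) → ℕ} (hw : LS w) :
    LS (fun ρ => (P ρ).estep (w ρ)) := by
  unfold Prm.estep
  exact LS.sum (F := fun z ρ => (P ρ).cellN (w ρ) z * powT (P ρ).X (P ρ).q z)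
    ((ls_f hP).mul (ls_B hP))
    ((ls_cellN hP.wk hw.wk (LS.var 0)).mul (LS.powT hP.wk.X hP.wk.q (LS.var 0)))

omit hP in
theorem estep_le (P : Prm) (w : ℕ) : P.estep w ≤ (P.f * P.B) * (P.dc * (P.X + 1)) := by
  unfold Prm.estep
  calc ∑ z ∈ Finset.range (P.f * P.B), P.cellN w z * powT P.X P.q z
      ≤ ∑ z ∈ Finset.range (P.f * P.B), P.dc * (P.X + 1) := by
        apply Finset.sum_le_sum
        intro z _
        apply Nat.mul_le_mul _ (powT_le _ _ _)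
        unfold Prm.cellN
        exact dg_le _ _ _
    _ = _ := by simp

theorem ls_evo {w r : (ℕ → ℕ) → ℕ} (hw : LS w) (hr : LS r) :
    LS (fun ρ => (P ρ).evo (w ρ) (r ρ)) := by
  unfold Prm.evo
  refine LS.nrecB (c := r) (a := w) (b := fun _ acc ρ => (P ρ).estep acc)
    (g := fun ρ => w ρ + ((P ρ).f * (P ρ).B) * ((P ρ).dc * ((P ρ).X + 1)))
    hr hw (ls_estep hP.wk.wk (LS.var 0))
    (hw.add (((ls_f hP).mul (ls_B hP)).mul (hP.dc.mul hP.X.succ))) ?_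
  intro ρ m _
  cases m with
  | zero => simp
  | succ m =>
    rw [nrec_succ]
    exact (estep_le _ _).trans (Nat.le_add_left _ _)

theorem ls_ctr : LS (fun ρ => (P ρ).ctr) := by
  unfold Prm.ctr
  exact LS.sum (F := fun j ρ => powT (P ρ).X 3 j) hP.d (LS.powT hP.wk.X (LS.const 3) (LS.var 0))

theorem ls_F {u s y : (ℕ → ℕ) → ℕ} (hu : LS u) (hs : LS s) (hy : LS y) :
    LS (fun ρ => (P ρ).F (u ρ) (s ρ) (y ρ)) := by
  unfold Prm.F
  exact LS.shift hP.q (ls_evo hP hy hP.s) ((ls_ctr hP).mul (ls_B hP))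

theorem ls_off {c : (ℕ → ℕ) → ℕ} (hc : LS c) : LS (fun ρ => (P ρ).off (c ρ)) := by
  unfold Prm.off
  exact LS.sum (F := fun j ρ => dg 3 (c ρ) j * powT (P ρ).X (P ρ).G j) hP.d
    ((LS.dg (LS.const 3) hc.wk (LS.var 0)).mul (LS.powT hP.wk.X (ls_G hP.wk) (LS.var 0)))

theorem ls_lab {u s : (ℕ → ℕ) → ℕ} (hu : LS u) (hs : LS s) :
    LS (fun ρ => (P ρ).lab (u ρ) (s ρ)) :=
  (hu.add ((ls_f hP).mul hs)).mod (ls_f hP).succ

theorem ls_ucrd {u x j : (ℕ → ℕ) → ℕ} (hu : LS u) (hx : LS x) (hj : LS j) :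
    LS (fun ρ => (P ρ).ucrd (u ρ) (x ρ) (j ρ)) :=
  ((LS.dg (ls_G hP) hu hj).mul hP.s).add (LS.dg hP.s hx hj)

theorem ls_wrong {u x : (ℕ → ℕ) → ℕ} (hu : LS u) (hx : LS x) :
    LS (fun ρ => (P ρ).wrong (u ρ) (x ρ)) := by
  unfold Prm.wrong
  exact LS.sum (F := fun j ρ => if j = 0 then 0 else
    if (P ρ).ucrd (u ρ) (x ρ) j = (P ρ).H * (P ρ).s then 0 else 1) hP.d
    (LS.ite (LSP.eq (LS.var 0) LS.zero) LS.zero
      (LS.ite (LSP.eq (ls_ucrd hP.wk hu.wk hx.wk (LS.var 0)) (hP.wk.H.mul hP.wk.s)) LS.zero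
        (LS.const 1)))

theorem ls_cell0 {u x : (ℕ → ℕ) → ℕ} (hu : LS u) (hx : LS x) :
    LS (fun ρ => (P ρ).cell0 (u ρ) (x ρ)) := by
  unfold Prm.cell0
  have hc := ls_ucrd hP hu hx LS.zero
  have ho := hP.H.mul hP.s
  exact LS.ite (LSP.and (LSP.eq (ls_wrong hP hu hx) LS.zero)
      (LSP.and (LSP.le ho hc) (LSP.lt hc (ho.add hP.n))))
    (LS.dg hP.q hP.a (LS.dg hP.k hP.y (hc.sub ho))) hP.b

theorem ls_Z0 {u : (ℕ → ℕ) → ℕ} (hu : LS u) : LS (fun ρ => (P ρ).Z0 (u ρ)) := by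
  unfold Prm.Z0
  exact LS.sum (F := fun x ρ => (P ρ).cell0 (u ρ) x * powT (P ρ).X (P ρ).q x) (ls_B hP)
    ((ls_cell0 hP.wk hu.wk (LS.var 0)).mul (LS.powT hP.wk.X hP.wk.q (LS.var 0)))

theorem ls_K : LS (fun ρ => (P ρ).K) :=
  ((LS.const 2).mul (ls_f hP).succ).mul (hP.p.sub (LS.const 1))

theorem ls_D {τ i : (ℕ → ℕ) → ℕ} (hτ : LS τ) (hi : LS i) : LS (fun ρ => (P ρ).D (τ ρ) (i ρ)) :=
  LS.dg (ls_K hP) hτ hi

omit hP in
theorem lev_le (P : Prm) (τ s : ℕ) : P.lev τ s ≤ s := by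
  unfold Prm.lev
  induction s with
  | zero => simp
  | succ s ih =>
    rw [nrec_succ]
    split_ifs <;> omega

theorem ls_lev {τ s : (ℕ → ℕ) → ℕ} (hτ : LS τ) (hs : LS s) :
    LS (fun ρ => (P ρ).lev (τ ρ) (s ρ)) := by
  refine LS.nrecB (c := s) (a := fun _ => 0)
    (b := fun i acc ρ => if (P ρ).D (τ ρ) i % ((P ρ).f + 1) = 0 then i + 1 else acc)
    (g := s) hs LS.zero ?_ hs ?_
  · exact LS.ite (LSP.eq ((ls_D hP.wk.wk hτ.wk.wk (LS.var 1)).mod (ls_f hP.wk.wk).succ) LS.zero)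
      (LS.var 1).succ (LS.var 0)
  · intro ρ m hm
    exact (lev_le (P ρ) (τ ρ) m).trans hm

theorem ls_uu {τ s : (ℕ → ℕ) → ℕ} (hτ : LS τ) (hs : LS s) :
    LS (fun ρ => (P ρ).uu (τ ρ) (s ρ)) := by
  unfold Prm.uu
  exact LS.sum (F := fun i ρ => if (P ρ).lev (τ ρ) (s ρ) ≤ i then
      (P ρ).off ((P ρ).D (τ ρ) i % ((P ρ).f + 1) - 1) else 0)
    hs (LS.ite (LSP.le (ls_lev hP.wk hτ.wk hs.wk) (LS.var 0))
      (ls_off hP.wk (((ls_D hP.wk hτ.wk (LS.var 0)).mod (ls_f hP.wk).succ).sub (LS.const 1)))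
      LS.zero)

theorem ls_sgn {τ s : (ℕ → ℕ) → ℕ} (hτ : LS τ) (hs : LS s) :
    LS (fun ρ => (P ρ).sgn (τ ρ) (s ρ)) := by
  unfold Prm.sgn
  have hl := ls_lev hP hτ hs
  exact LS.ite (LSP.lt hl hs) (LS.ite (LSP.eq (((ls_D hP hτ hl).div (ls_f hP).succ).mod
    (LS.const 2)) LS.zero) (LS.const 1) (hP.p.sub (LS.const 1))) (LS.const 1)

theorem ls_rix {o x σ : (ℕ → ℕ) → ℕ} (ho : LS o) (hx : LS x) (hσ : LS σ) :
    LS (fun ρ => (P ρ).rix (o ρ) (x ρ) (σ ρ)) := (((ho.mul (ls_B hP)).add hx).mul hP.q).add hσ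

theorem ls_Pn {u s R x σ : (ℕ → ℕ) → ℕ} (hu : LS u) (hs : LS s) (hR : LS R) (hx : LS x)
    (hσ : LS σ) : LS (fun ρ => (P ρ).Pn (u ρ) (s ρ) (R ρ) (x ρ) (σ ρ)) := by
  unfold Prm.Pn
  refine LS.sum (F := fun y ρ => (if dg (P ρ).q ((P ρ).F (u ρ) (s ρ) y) (x ρ) = (σ ρ) then 1
      else 0) *
      pmod (P ρ).p (fun z => dg (P ρ).p (R ρ) ((P ρ).rix
        ((P ρ).lab (u ρ + (P ρ).off (z / (P ρ).B)) (s ρ)) (z % (P ρ).B)
        (dg (P ρ).q y z))) ((P ρ).f * (P ρ).B))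
    (LS.powT hP.X hP.q ((ls_f hP).mul (ls_B hP))) ?_
  refine LS.mul (LS.ite (LSP.eq (LS.dg hP.wk.q (ls_F hP.wk hu.wk hs.wk (LS.var 0)) hx.wk) hσ.wk)
    (LS.const 1) LS.zero) ?_
  exact LS.pmod (F := fun z ρ => dg (P (tl ρ)).p (R (tl ρ)) ((P (tl ρ)).rix
      ((P (tl ρ)).lab (u (tl ρ) + (P (tl ρ)).off (z / (P (tl ρ)).B)) (s (tl ρ)))
      (z % (P (tl ρ)).B) (dg (P (tl ρ)).q (ρ 0) z)))
    hP.wk.p ((ls_f hP.wk).mul (ls_B hP.wk))
    (LS.dg hP.wk.wk.p hR.wk.wk (ls_rix hP.wk.wk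
      (ls_lab hP.wk.wk (hu.wk.wk.add (ls_off hP.wk.wk ((LS.var 0).div (ls_B hP.wk.wk))))
        hs.wk.wk) ((LS.var 0).mod (ls_B hP.wk.wk))
      (LS.dg hP.wk.wk.q (LS.var 1) (LS.var 0))))

theorem ls_nd {τ R o x σ cur : (ℕ → ℕ) → ℕ} (hτ : LS τ) (hR : LS R) (ho : LS o) (hx : LS x)
    (hσ : LS σ) (hcur : LS cur) :
    LS (fun ρ => (P ρ).nd (τ ρ) (R ρ) (o ρ) (x ρ) (σ ρ) (cur ρ)) := by
  unfold Prm.nd
  have hl := ls_lev hP hτ hP.H
  have hu := ls_uu hP hτ hP.H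
  have hsg := ls_sgn hP hτ hP.H
  have hl1 := hl.sub (LS.const 1)
  refine LS.ite (LSP.eq hl LS.zero) (LS.ite (LSP.eq ho (ls_lab hP hu LS.zero))
    ((hcur.add (hsg.mul (LS.ite (LSP.eq (LS.dg hP.q (ls_Z0 hP hu) hx) hσ) (LS.const 1)
      LS.zero))).mod hP.p) hcur) ?_
  refine LS.ite (LSP.eq (hτ.mod (LS.powT hP.X (ls_K hP) hl1)) LS.zero) ?_ hcur
  refine LS.ite (LSP.eq ((ls_D hP hτ hl1).mod ((LS.const 2).mul (ls_f hP).succ)) LS.zero)
    (LS.ite (LSP.eq ho (ls_lab hP hu hl)) hcur ((hP.g.mul hcur).mod hP.p)) ?_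
  exact LS.ite (LSP.eq ho (ls_lab hP hu hl)) ((hcur.add (((hP.p.sub (LS.const 1)).mul hsg).mul
    (ls_Pn hP hu hl1 hR hx hσ))).mod hP.p) hcur

theorem ls_ostep {τ R : (ℕ → ℕ) → ℕ} (hτ : LS τ) (hR : LS R) :
    LS (fun ρ => (P ρ).ostep (τ ρ) (R ρ)) := by
  unfold Prm.ostep
  exact LS.sum (F := fun i ρ => Nat.min ((P ρ).nd (τ ρ) (R ρ) (i / ((P ρ).B * (P ρ).q))
      (i / (P ρ).q % (P ρ).B) (i % (P ρ).q) (dg (P ρ).p (R ρ) i)) (P ρ).p *
      powT (P ρ).X (P ρ).p i)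
    (((ls_f hP).succ.mul (ls_B hP)).mul hP.q)
    ((LS.min (ls_nd hP.wk hτ.wk hR.wk ((LS.var 0).div ((ls_B hP.wk).mul hP.wk.q))
      (((LS.var 0).div hP.wk.q).mod (ls_B hP.wk)) ((LS.var 0).mod hP.wk.q)
      (LS.dg hP.wk.p hR.wk (LS.var 0))) hP.wk.p).mul (LS.powT hP.wk.X hP.wk.p (LS.var 0)))

omit hP in
theorem ostep_le (P : Prm) (τ R : ℕ) :
    P.ostep τ R ≤ ((P.f + 1) * P.B * P.q) * (P.p * (P.X + 1)) := by
  unfold Prm.ostep
  calc _ ≤ ∑ i ∈ Finset.range ((P.f + 1) * P.B * P.q), P.p * (P.X + 1) := by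
        apply Finset.sum_le_sum
        intro i _
        exact Nat.mul_le_mul (min_le_right _ _) (powT_le _ _ _)
    _ = _ := by simp

theorem ls_regs : LS (fun ρ => (P ρ).regs) := by
  unfold Prm.regs
  refine LS.nrecB (a := fun _ => 0) (b := fun τ R ρ => (P ρ).ostep τ R)
    (g := fun ρ => (((P ρ).f + 1) * (P ρ).B * (P ρ).q) * ((P ρ).p * ((P ρ).X + 1)))
    (LS.powT hP.X (ls_K hP) hP.H) LS.zero (ls_ostep hP.wk.wk (LS.var 1) (LS.var 0))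
    ((((ls_f hP).succ.mul (ls_B hP)).mul hP.q).mul (hP.p.mul hP.X.succ)) ?_
  intro ρ m _
  cases m with
  | zero => simp
  | succ m =>
    rw [nrec_succ]
    exact ostep_le _ _ _

theorem ls_sim : LS (fun ρ => (P ρ).sim) := by
  unfold Prm.sim
  exact LS.sum (F := fun σ ρ => σ * dg (P ρ).p (P ρ).regs ((P ρ).rix ((P ρ).lab 0 (P ρ).H) 0 σ))
    hP.q ((LS.var 0).mul (LS.dg hP.wk.p (ls_regs hP.wk) (ls_rix hP.wk
      (ls_lab hP.wk LS.zero hP.wk.H) LS.zero (LS.var 0))))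

end

end Pool.Agent.H539R2.DD
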