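import Pool.Agent.H539R2.SimD
import Pool.Agent.H539R2.SimZC

/-!
Correctness of the number-coded simulation of `d`-dimensional cellular automata.
-/

set_option linter.unusedSimpArgs false
set_option linter.unusedVariables false

namespace Pool.Agent.H539R2.DD

open Pool.Agent.H539R2

theorem digs_congr (β N : ℕ) {f f' : ℕ → ℕ} (h : ∀ i < N, f i = f' i) :
    digs β N f = digs β N f' := by
  unfold digs
  apply Finset.sum_congr rfl
  intro i hi
  rw [h i (Finset.mem_range.1 hi)]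

theorem digs_add (β N : ℕ) (f f' : ℕ → ℕ) :
    digs β N f + digs β N f' = digs β N (fun i => f i + f' i) := by
  unfold digs
  rw [← Finset.sum_add_distrib]
  apply Finset.sum_congr rfl
  intro i _
  ring

theorem digs_modEq {m β β' : ℕ} (h : β ≡ β' [MOD m]) (N : ℕ) (f : ℕ → ℕ) :
    digs β N f ≡ digs β' N f [MOD m] := by
  unfold digs
  induction N with
  | zero => rfl
  | succ N ih =>
    rw [Finset.sum_range_succ, Finset.sum_range_succ]
    exact ih.add ((Nat.ModEq.refl _).mul (h.pow N))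

namespace Prm

/-- validity of the parameters -/
structure Valid (P : Prm) : Prop where
  q : 1 ≤ P.q
  b : P.b < P.q
  d : 1 ≤ P.d
  s : 1 ≤ P.s
  p : 2 ≤ P.p
  hg : (P.g : ZMod P.p) ^ (P.p - 1) = 1
  hsum : ∀ k, 1 ≤ k → k ≤ P.f * P.B →
    ∑ i ∈ Finset.range (P.p - 1), ((P.g : ZMod P.p) ^ (i + 1)) ^ k = 0
  hXf : 3 ^ P.d ≤ P.X
  hXB : P.s ^ P.d ≤ P.X
  hXG : P.G ^ P.d ≤ P.X
  hX1 : P.q ^ (P.f * P.B) ≤ P.X
  hX2 : P.p ^ ((P.f + 1) * P.B * P.q) ≤ P.X
  hX3 : P.K ^ P.H ≤ P.X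

/-- the true configuration at each time -/
def cz (P : Prm) : ℕ → (ℕ → ℤ) → ℕ
  | 0, v => if (∀ j < P.d, j ≠ 0 → v j = 0) ∧ 0 ≤ v 0 ∧ v 0 < P.n then
      dg P.q P.a (dg P.k P.y (v 0).toNat) else P.b
  | (t + 1), v => dg P.q P.dc (digs P.q (3 ^ P.d)
      (fun e => P.cz t (fun j => v j + (dg 3 e j : ℕ) - 1)))

variable {P : Prm} (hP : P.Valid)
include hP

theorem f_eq : P.f = 3 ^ P.d := powT_eq _ _ _ (by omega) hP.hXf

theorem B_eq : P.B = P.s ^ P.d := powT_eq _ _ _ hP.s hP.hXB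

theorem f_pos : 0 < P.f := by rw [f_eq hP]; positivity

theorem B_pos : 0 < P.B := by
  rw [B_eq hP]
  have := hP.s
  positivity

omit hP in
theorem G_pos : 0 < P.G := by unfold G; omega

theorem cz_lt (t : ℕ) (v : ℕ → ℤ) : P.cz t v < P.q := by
  cases t with
  | zero =>
    unfold cz
    split_ifs
    · exact dg_lt _ _ _ hP.q
    · exact hP.b
  | succ t =>
    unfold cz
    exact dg_lt _ _ _ hP.q

theorem cz_congr (t : ℕ) : ∀ (v v' : ℕ → ℤ), (∀ j < P.d, v j = v' j) → P.cz t v = P.cz t v' := by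
  induction t with
  | zero =>
    intro v v' h
    have hd := hP.d
    have h0 := h 0 (by omega)
    unfold cz
    have h1 : (∀ j < P.d, j ≠ 0 → v j = 0) ↔ (∀ j < P.d, j ≠ 0 → v' j = 0) := by
      constructor
      · intro hh j hj hj0
        rw [← h j hj]; exact hh j hj hj0
      · intro hh j hj hj0
        rw [h j hj]; exact hh j hj hj0
    simp only [h0, h1]
  | succ t ih =>
    intro v v' h
    unfold cz
    congr 1
    apply digs_congr
    intro e _
    apply ih
    intro j hj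
    rw [h j hj]

theorem powq (z : ℕ) (hz : z ≤ P.f * P.B) : powT P.X P.q z = P.q ^ z :=
  powT_eq _ _ _ hP.q ((Nat.pow_le_pow_right hP.q hz).trans hP.hX1)

theorem pow3 (j : ℕ) (hj : j ≤ P.d) : powT P.X 3 j = 3 ^ j :=
  powT_eq _ _ _ (by omega) ((Nat.pow_le_pow_right (by omega) hj).trans hP.hXf)

theorem pows (j : ℕ) (hj : j ≤ P.d) : powT P.X P.s j = P.s ^ j :=
  powT_eq _ _ _ hP.s ((Nat.pow_le_pow_right hP.s hj).trans hP.hXB)

theorem powG (j : ℕ) (hj : j ≤ P.d) : powT P.X P.G j = P.G ^ j :=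
  powT_eq _ _ _ G_pos ((Nat.pow_le_pow_right G_pos hj).trans hP.hXG)

theorem crd_lt (z j : ℕ) : P.crd z j < 3 * P.s := by
  unfold crd
  have h1 := dg_lt 3 (z / P.B) j (by omega)
  have h2 := dg_lt P.s (z % P.B) j hP.s
  nlinarith

/-- a window position from its coordinates -/
theorem crd_mk (F : ℕ → ℕ) (hF : ∀ j < P.d, F j < 3 * P.s) :
    digs 3 P.d (fun j => F j / P.s) * P.B + digs P.s P.d (fun j => F j % P.s) < P.f * P.B ∧
    ∀ j < P.d, P.crd (digs 3 P.d (fun j => F j / P.s) * P.B +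
      digs P.s P.d (fun j => F j % P.s)) j = F j := by
  have hs := hP.s
  have h1 : ∀ j < P.d, F j / P.s < 3 := by
    intro j hj
    rw [Nat.div_lt_iff_lt_mul hs]
    exact hF j hj
  have h2 : ∀ j < P.d, F j % P.s < P.s := fun j _ => Nat.mod_lt _ hs
  have h3 : digs 3 P.d (fun j => F j / P.s) < P.f := by
    rw [f_eq hP]; exact digs_lt _ _ _ h1
  have h4 : digs P.s P.d (fun j => F j % P.s) < P.B := by
    rw [B_eq hP]; exact digs_lt _ _ _ h2
  have hB := B_pos hP
  refine ⟨?_, ?_⟩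
  · nlinarith
  · intro j hj
    unfold crd
    rw [mul_comm _ P.B, Nat.mul_add_div hB, Nat.div_eq_of_lt h4, add_zero, Nat.mul_add_mod,
      Nat.mod_eq_of_lt h4, dg_digs 3 P.d (by omega) _ h1 j hj, dg_digs P.s P.d hs _ h2 j hj]
    exact Nat.div_add_mod' _ _

theorem crd_nb (z e : ℕ) (hz : ∀ j < P.d, 1 ≤ P.crd z j ∧ P.crd z j + 1 < 3 * P.s) :
    P.nb z e < P.f * P.B ∧ ∀ j < P.d, P.crd (P.nb z e) j = P.crd z j + dg 3 e j - 1 := by
  have h := crd_mk hP (fun j => P.crd z j + dg 3 e j - 1) (by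
    intro j hj
    have h1 := dg_lt 3 e j (by omega)
    have h2 := hz j hj
    show P.crd z j + dg 3 e j - 1 < 3 * P.s
    omega)
  have e1 : P.nb z e = digs 3 P.d (fun j => (P.crd z j + dg 3 e j - 1) / P.s) * P.B +
      digs P.s P.d (fun j => (P.crd z j + dg 3 e j - 1) % P.s) := by
    unfold nb digs
    congr 1
    · congr 1
      apply Finset.sum_congr rfl
      intro j hj
      rw [pow3 hP j (Finset.mem_range.1 hj).le]
    · apply Finset.sum_congr rfl
      intro j hj
      rw [pows hP j (Finset.mem_range.1 hj).le]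
  rw [e1]
  exact h

theorem cellN_lt (w z : ℕ) : P.cellN w z < P.q := dg_lt _ _ _ hP.q

theorem estep_dg (w z : ℕ) (hz : z < P.f * P.B) : dg P.q (P.estep w) z = P.cellN w z := by
  have : P.estep w = digs P.q (P.f * P.B) (fun z => P.cellN w z) := by
    unfold estep digs
    apply Finset.sum_congr rfl
    intro i hi
    rw [powq hP i (Finset.mem_range.1 hi).le]
  rw [this, dg_digs _ _ hP.q _ (fun i _ => cellN_lt hP w i) z hz]

theorem cellN_eq (w z : ℕ) :
    P.cellN w z = dg P.q P.dc (digs P.q (3 ^ P.d) (fun e => dg P.q w (P.nb z e))) := by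
  unfold cellN
  congr 1
  rw [← f_eq hP]
  unfold digs
  apply Finset.sum_congr rfl
  intro e he
  rw [Finset.mem_range] at he
  rw [powq hP e (by
    have := B_pos hP
    nlinarith)]

theorem evo_dg (t : ℕ) (base : ℕ → ℤ) (w : ℕ)
    (hw : ∀ z < P.f * P.B, dg P.q w z = P.cz t (fun j => base j + (P.crd z j : ℕ))) :
    ∀ r ≤ P.s, ∀ z < P.f * P.B, (∀ j < P.d, r ≤ P.crd z j ∧ P.crd z j + r < 3 * P.s) →
      dg P.q (P.evo w r) z = P.cz (t + r) (fun j => base j + (P.crd z j : ℕ)) := by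
  intro r
  induction r with
  | zero =>
    intro _ z hz _
    exact hw z hz
  | succ r ih =>
    intro hr z hz hzz
    have e : P.evo w (r + 1) = P.estep (P.evo w r) := rfl
    rw [e, estep_dg hP _ z hz, cellN_eq hP]
    rw [← add_assoc t r 1]
    conv_rhs => unfold cz
    congr 1
    apply digs_congr
    intro e _
    have hnb := crd_nb hP z e (fun j hj => by have := hzz j hj; omega)
    rw [ih (by omega) (P.nb z e) hnb.1 (by
      intro j hj
      rw [hnb.2 j hj]
      have h1 := hzz j hj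
      have h2 := dg_lt 3 e j (by omega)
      omega)]
    apply cz_congr hP
    intro j hj
    show base j + ((P.crd (P.nb z e) j : ℕ) : ℤ) =
      base j + ((P.crd z j : ℕ) : ℤ) + ((dg 3 e j : ℕ) : ℤ) - 1
    rw [hnb.2 j hj]
    have h1 := hzz j hj
    omega

theorem off_eq (c : ℕ) : P.off c = digs P.G P.d (fun j => dg 3 c j) := by
  unfold off digs
  apply Finset.sum_congr rfl
  intro j hj
  rw [powG hP j (Finset.mem_range.1 hj).le]

theorem ctr_eq : P.ctr = digs 3 P.d (fun _ => 1) := by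
  unfold ctr digs
  apply Finset.sum_congr rfl
  intro j hj
  rw [pow3 hP j (Finset.mem_range.1 hj).le, one_mul]

theorem Z_dg : ∀ (l : ℕ) (v : ℕ → ℕ), (∀ j < P.d, v j + 2 * l ≤ 2 * P.H) → ∀ x < P.B,
    dg P.q (Z P.q P.B P.f P.off P.F P.Z0 (digs P.G P.d v) l) x =
      P.cz (l * P.s) (fun j => (((v j + l) * P.s + dg P.s x j : ℕ) : ℤ) - (P.H * P.s : ℕ)) := by
  intro l
  induction l with
  | zero =>
    intro v hv x hx
    have hvG : ∀ j < P.d, v j < P.G := by
      intro j hj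
      have := hv j hj
      unfold G
      nlinarith [Nat.zero_le P.f, Nat.zero_le P.H]
    have hu : ∀ j < P.d, P.ucrd (digs P.G P.d v) x j = v j * P.s + dg P.s x j := by
      intro j hj
      unfold ucrd
      rw [dg_digs P.G P.d G_pos v hvG j hj]
    show dg P.q (P.Z0 (digs P.G P.d v)) x = _
    have h1 : P.Z0 (digs P.G P.d v) = digs P.q P.B (fun x => P.cell0 (digs P.G P.d v) x) := by
      unfold Z0 digs
      apply Finset.sum_congr rfl
      intro i hi
      rw [Finset.mem_range] at hi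
      rw [powq hP i (by have := f_pos hP; nlinarith)]
    have hlt : ∀ u x, P.cell0 u x < P.q := by
      intro u x
      unfold cell0
      split_ifs
      · exact dg_lt _ _ _ hP.q
      · exact hP.b
    rw [h1, dg_digs P.q P.B hP.q _ (fun i _ => hlt _ i) x hx]
    have e0 : 0 * P.s = 0 := by ring
    rw [e0]
    unfold cell0 cz
    have hd := hP.d
    have hw : P.wrong (digs P.G P.d v) x = 0 ↔ ∀ j < P.d, j ≠ 0 →
        (((v j + 0) * P.s + dg P.s x j : ℕ) : ℤ) - (P.H * P.s : ℕ) = 0 := by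
      unfold wrong
      rw [Finset.sum_eq_zero_iff]
      constructor
      · intro h j hj hj0
        have h2 := h j (Finset.mem_range.2 hj)
        rw [if_neg hj0, hu j hj] at h2
        by_contra hcon
        rw [if_neg] at h2
        · omega
        · intro h3
          apply hcon
          rw [add_zero, h3]
          simp
      · intro h j hj
        rw [Finset.mem_range] at hj
        by_cases hj0 : j = 0
        · rw [if_pos hj0]
        · rw [if_neg hj0, hu j hj, if_pos]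
          have h2 := h j hj hj0
          rw [add_zero] at h2
          omega
    have h0 := hu 0 (by omega)
    have hz : (v 0 + 0) * P.s = v 0 * P.s := by ring
    rw [h0]
    by_cases hc : P.wrong (digs P.G P.d v) x = 0 ∧ P.H * P.s ≤ v 0 * P.s + dg P.s x 0 ∧
        v 0 * P.s + dg P.s x 0 < P.H * P.s + P.n
    · rw [if_pos hc, if_pos]
      · simp only [hz]
        congr 2
        omega
      · refine ⟨hw.1 hc.1, ?_, ?_⟩
        · show (0 : ℤ) ≤ (((v 0 + 0) * P.s + dg P.s x 0 : ℕ) : ℤ) - (P.H * P.s : ℕ)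
          rw [hz]; omega
        · show (((v 0 + 0) * P.s + dg P.s x 0 : ℕ) : ℤ) - (P.H * P.s : ℕ) < P.n
          rw [hz]; omega
    · rw [if_neg hc, if_neg]
      rintro ⟨h3, h4, h5⟩
      apply hc
      have h4' : (0 : ℤ) ≤ (((v 0 + 0) * P.s + dg P.s x 0 : ℕ) : ℤ) - (P.H * P.s : ℕ) := h4
      have h5' : (((v 0 + 0) * P.s + dg P.s x 0 : ℕ) : ℤ) - (P.H * P.s : ℕ) < P.n := h5
      rw [hz] at h4' h5'
      exact ⟨hw.2 h3, by omega, by omega⟩
  | succ l ih =>
    intro v hv x hx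
    set u := digs P.G P.d v with hu
    set y := Y P.q P.B P.f P.off P.F P.Z0 u l with hy
    show dg P.q (P.F u l y) x = _
    have hBp := B_pos hP
    have h2 : dg P.q (P.F u l y) x = dg P.q (P.evo y P.s) (P.ctr * P.B + x) := by
      unfold F dg
      rw [Nat.div_div_eq_div_mul, ← pow_add]
    set base : ℕ → ℤ := fun j => (((v j + l) * P.s : ℕ) : ℤ) - (P.H * P.s : ℕ) with hbase
    have hyd : ∀ z < P.f * P.B, dg P.q y z = P.cz (l * P.s)
        (fun j => base j + (P.crd z j : ℕ)) := by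
      intro z hz
      rw [hy]
      unfold Y
      rw [dg_digs _ _ hP.q _ (fun i _ => dg_lt _ _ _ hP.q) z hz]
      rw [off_eq hP, hu, digs_add]
      rw [ih (fun i => v i + dg 3 (z / P.B) i) (by
        intro j hj
        have h3 := hv j hj
        have h4 := dg_lt 3 (z / P.B) j (by omega)
        show v j + dg 3 (z / P.B) j + 2 * l ≤ 2 * P.H
        omega) (z % P.B) (Nat.mod_lt _ hBp)]
      apply cz_congr hP
      intro j hj
      simp only [hbase, crd]
      push_cast
      ring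
    rw [h2]
    have hctr : P.ctr < P.f := by
      rw [ctr_eq hP, f_eq hP]
      exact digs_lt _ _ _ (fun _ _ => by omega)
    have hzlt : P.ctr * P.B + x < P.f * P.B := by nlinarith
    have hcr : ∀ j < P.d, P.crd (P.ctr * P.B + x) j = P.s + dg P.s x j := by
      intro j hj
      unfold crd
      rw [mul_comm _ P.B, Nat.mul_add_div hBp, Nat.div_eq_of_lt hx, add_zero, Nat.mul_add_mod,
        Nat.mod_eq_of_lt hx, ctr_eq hP, dg_digs 3 P.d (by omega) _ (fun _ _ => by omega) j hj,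
        one_mul]
    rw [evo_dg hP _ base _ hyd P.s le_rfl _ hzlt (by
      intro j hj
      rw [hcr j hj]
      have := dg_lt P.s x j hP.s
      omega)]
    have e4 : l * P.s + P.s = (l + 1) * P.s := by ring
    rw [e4]
    apply cz_congr hP
    intro j hj
    rw [hcr j hj]
    simp only [hbase]
    push_cast
    ring

theorem off_mod (c : ℕ) (hc : c < P.f) : P.off c ≡ c [MOD (P.f + 1)] := by
  rw [off_eq hP]
  have h1 : P.G ≡ 3 [MOD (P.f + 1)] := by
    unfold G Nat.ModEq
    rw [Nat.add_mul_mod_self_left]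
  have h2 := digs_modEq h1 P.d (fun j => dg 3 c j)
  have h3 : digs 3 P.d (fun j => dg 3 c j) = c := by
    have := digs_dg 3 (by omega) P.d c
    rw [Nat.mod_eq_of_lt (by rw [← f_eq hP]; exact hc)] at this
    exact this
  rw [h3] at h2
  exact h2

theorem lab_ne (u s c : ℕ) (hc : c < P.f) : P.lab (u + P.off c) s ≠ P.lab u (s + 1) := by
  intro h
  have h1 : u + P.off c + P.f * s ≡ u + P.f * (s + 1) [MOD (P.f + 1)] := h
  have h2 : u + P.off c + P.f * s ≡ u + c + P.f * s [MOD (P.f + 1)] :=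
    ((Nat.ModEq.refl u).add (off_mod hP c hc)).add (Nat.ModEq.refl _)
  have h3 : (u + P.f * s) + c ≡ (u + P.f * s) + P.f [MOD (P.f + 1)] := by
    have e1 : (u + P.f * s) + c = u + c + P.f * s := by ring
    have e2 : (u + P.f * s) + P.f = u + P.f * (s + 1) := by ring
    rw [e1, e2]
    exact h2.symm.trans h1
  have h4 := Nat.ModEq.add_left_cancel' _ h3
  unfold Nat.ModEq at h4
  rw [Nat.mod_eq_of_lt (by omega), Nat.mod_eq_of_lt (by omega)] at h4
  omega

theorem lab_inj (u s c c' : ℕ) (hc : c < P.f) (hc' : c' < P.f)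
    (h : P.lab (u + P.off c) s = P.lab (u + P.off c') s) : c = c' := by
  have h1 : u + P.off c + P.f * s ≡ u + P.off c' + P.f * s [MOD (P.f + 1)] := h
  have h2 : u + P.off c + P.f * s ≡ u + c + P.f * s [MOD (P.f + 1)] :=
    ((Nat.ModEq.refl u).add (off_mod hP c hc)).add (Nat.ModEq.refl _)
  have h2' : u + P.off c' + P.f * s ≡ u + c' + P.f * s [MOD (P.f + 1)] :=
    ((Nat.ModEq.refl u).add (off_mod hP c' hc')).add (Nat.ModEq.refl _)
  have h3 : (u + P.f * s) + c ≡ (u + P.f * s) + c' [MOD (P.f + 1)] := by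
    have e1 : (u + P.f * s) + c = u + c + P.f * s := by ring
    have e2 : (u + P.f * s) + c' = u + c' + P.f * s := by ring
    rw [e1, e2]
    exact (h2.symm.trans h1).trans h2'
  have h4 := Nat.ModEq.add_left_cancel' _ h3
  unfold Nat.ModEq at h4
  rw [Nat.mod_eq_of_lt (by omega), Nat.mod_eq_of_lt (by omega)] at h4
  exact h4

omit hP in
theorem D_mod (τ s i : ℕ) (hi : i < s) : P.D (τ % P.K ^ s) i = P.D τ i :=
  ZZ.dg_mod _ _ _ _ hi

omit hP in
theorem lev_mod (τ s : ℕ) : P.lev (τ % P.K ^ s) s = P.lev τ s := by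
  unfold lev
  apply ZZ.nrec_congr
  intro i hi x
  rw [D_mod τ s i hi]

omit hP in
theorem uu_mod (τ s : ℕ) : P.uu (τ % P.K ^ s) s = P.uu τ s := by
  unfold uu
  rw [lev_mod]
  apply Finset.sum_congr rfl
  intro i hi
  rw [D_mod τ s i (Finset.mem_range.1 hi)]

/-- sign -/
def sgR (P : Prm) (τ s : ℕ) (ε0 : ZMod P.p) : ZMod P.p :=
  if P.lev τ s < s then (if P.D τ (P.lev τ s) / (P.f + 1) % 2 = 0 then 1 else -1) else ε0

/-- closed form of the operations -/
def cop (P : Prm) (s u0 : ℕ) (ε0 : ZMod P.p) (τ : ℕ) :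
    (ℕ → ℕ → ℕ → ZMod P.p) → (ℕ → ℕ → ℕ → ZMod P.p) :=
  if P.lev τ s = 0 then leafOp P.q P.lab P.Z0 (u0 + P.uu τ s) (P.sgR τ s ε0)
  else if τ % P.K ^ (P.lev τ s - 1) = 0 then
    (if P.D τ (P.lev τ s - 1) % (2 * (P.f + 1)) = 0 then
      scaleOp P.lab (P.g : ZMod P.p) (u0 + P.uu τ s) (P.lev τ s)
     else polyOp P.q P.B P.f P.off P.lab P.F (-1 : ZMod P.p) (u0 + P.uu τ s) (P.lev τ s - 1)
      (P.sgR τ s ε0))
  else id

omit hP in
theorem opS_eq_cop : ∀ (s u0 : ℕ) (ε0 : ZMod P.p) (τ : ℕ), τ < P.K ^ s →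
    opS P.q P.B P.f (P.p - 1) P.off P.lab P.F P.Z0 (P.g : ZMod P.p) (-1) s u0 ε0 τ =
      P.cop s u0 ε0 τ := by
  intro s
  induction s with
  | zero =>
    intro u0 ε0 τ _
    simp [opS, cop, lev, uu, sgR]
  | succ s ih =>
    intro u0 ε0 τ hτ
    have hKs : 0 < P.K ^ s := by
      rcases Nat.eq_zero_or_pos (P.K ^ s) with h | h
      · rw [pow_succ, h] at hτ; omega
      · exact h
    have hDs : P.D τ s = τ / P.K ^ s := by
      unfold D dg
      apply Nat.mod_eq_of_lt
      rw [Nat.div_lt_iff_lt_mul hKs, mul_comm, ← pow_succ]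
      exact hτ
    have hlevs : P.lev τ (s + 1) = if P.D τ s % (P.f + 1) = 0 then s + 1 else P.lev τ s := rfl
    have hK' : 2 * (P.f + 1) * (P.p - 1) = P.K := rfl
    rw [opS, hK', ← hDs]
    by_cases h4 : P.D τ s % (P.f + 1) = 0
    · rw [if_pos h4]
      rw [if_pos h4] at hlevs
      unfold cop
      rw [hlevs]
      have huu : P.uu τ (s + 1) = 0 := by
        unfold uu
        apply Finset.sum_eq_zero
        intro i hi
        rw [Finset.mem_range] at hi
        rw [hlevs, if_neg (by omega)]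
      have hsg : P.sgR τ (s + 1) ε0 = ε0 := by
        unfold sgR
        rw [hlevs, if_neg (by omega)]
      rw [huu, hsg, if_neg (Nat.succ_ne_zero s)]
      rfl
    · rw [if_neg h4]
      rw [if_neg h4] at hlevs
      rw [ih _ _ _ (Nat.mod_lt _ hKs)]
      have hle := lev_le P τ s
      unfold cop
      rw [lev_mod, uu_mod, hlevs]
      have huu : P.uu τ (s + 1) = P.uu τ s + P.off (P.D τ s % (P.f + 1) - 1) := by
        unfold uu
        rw [Finset.sum_range_succ, hlevs, if_pos hle]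
      have hsg : P.sgR (τ % P.K ^ s) s (if P.D τ s / (P.f + 1) % 2 = 0 then 1 else -1) =
          P.sgR τ (s + 1) ε0 := by
        unfold sgR
        rw [lev_mod, hlevs, if_pos (by omega : P.lev τ s < s + 1)]
        by_cases h5 : P.lev τ s < s
        · rw [if_pos h5, D_mod _ _ _ h5]
        · rw [if_neg h5]
          have : P.lev τ s = s := by omega
          rw [this]
      have hu : u0 + P.off (P.D τ s % (P.f + 1) - 1) + P.uu τ s = u0 + P.uu τ (s + 1) := by
        rw [huu]; ring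
      rw [hsg, hu]
      by_cases h0 : P.lev τ s = 0
      · rw [if_pos h0, if_pos h0]
      · rw [if_neg h0, if_neg h0]
        have hmod : τ % P.K ^ s % P.K ^ (P.lev τ s - 1) = τ % P.K ^ (P.lev τ s - 1) := by
          apply Nat.mod_mod_of_dvd
          exact pow_dvd_pow _ (by omega)
        rw [hmod, D_mod _ _ _ (by omega : P.lev τ s - 1 < s)]

theorem pcast : ((P.p - 1 : ℕ) : ZMod P.p) = -1 := by
  have := hP.p
  rw [Nat.cast_sub (by omega)]
  simp

theorem sgn_cast (τ s : ℕ) : ((P.sgn τ s : ℕ) : ZMod P.p) = P.sgR τ s 1 := by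
  unfold sgn sgR
  split_ifs
  · simp
  · exact pcast hP
  · simp

omit hP in
theorem lab_lt (u s : ℕ) : P.lab u s < P.f + 1 := Nat.mod_lt _ (by omega)

theorem Pn_cast (u s R x σ : ℕ) (ρ : ℕ → ℕ → ℕ → ZMod P.p)
    (hρ : ∀ o x σ, o < P.f + 1 → x < P.B → σ < P.q →
      (dg P.p R (P.rix o x σ) : ZMod P.p) = ρ o x σ) :
    ((P.Pn u s R x σ : ℕ) : ZMod P.p) = DD.P P.q P.B P.f P.off P.lab P.F u s ρ x σ := by
  unfold Pn DD.P
  rw [powq hP _ le_rfl, Nat.cast_sum]
  apply Finset.sum_congr rfl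
  intro y _
  rw [Nat.cast_mul, pmod_cast _ (by have := hP.p; omega)]
  congr 1
  · unfold oneh
    split_ifs <;> simp
  · apply Finset.prod_congr rfl
    intro z _
    exact hρ _ _ _ (lab_lt _ _) (Nat.mod_lt _ (B_pos hP)) (dg_lt _ _ _ hP.q)

theorem K_pos : 0 < P.K := by
  unfold K
  have := hP.p
  have h1 : 0 < P.p - 1 := by omega
  positivity

theorem powK (j : ℕ) (hj : j ≤ P.H) : powT P.X P.K j = P.K ^ j := by
  exact powT_eq _ _ _ (K_pos hP) ((Nat.pow_le_pow_right (K_pos hP) hj).trans hP.hX3)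

theorem nd_lt (τ R o x σ cur : ℕ) (hcur : cur < P.p) : P.nd τ R o x σ cur < P.p := by
  have hp : 0 < P.p := by have := hP.p; omega
  unfold nd
  split_ifs
  all_goals first
    | exact hcur
    | exact Nat.mod_lt _ hp

theorem nd_cast (τ R o x σ cur : ℕ) (hτ : τ < P.K ^ P.H)
    (ρ : ℕ → ℕ → ℕ → ZMod P.p)
    (hρ : ∀ o x σ, o < P.f + 1 → x < P.B → σ < P.q →
      (dg P.p R (P.rix o x σ) : ZMod P.p) = ρ o x σ)
    (hcur : (cur : ZMod P.p) = ρ o x σ) :
    ((P.nd τ R o x σ cur : ℕ) : ZMod P.p) =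
      opS P.q P.B P.f (P.p - 1) P.off P.lab P.F P.Z0 (P.g : ZMod P.p) (-1) P.H 0 1 τ ρ o x σ := by
  rw [opS_eq_cop P.H 0 1 τ hτ]
  have hle := lev_le P τ P.H
  unfold nd cop
  rw [powK hP _ (by omega), zero_add]
  by_cases h0 : P.lev τ P.H = 0
  · rw [if_pos h0, if_pos h0]
    unfold leafOp
    by_cases ho : o = P.lab (P.uu τ P.H) 0
    · simp only [if_pos ho]
      rw [ZMod.natCast_mod, Nat.cast_add, Nat.cast_mul, sgn_cast hP, hcur]
      unfold oneh
      split_ifs <;> simp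
    · simp only [if_neg ho]
      exact hcur
  · rw [if_neg h0, if_neg h0]
    by_cases h1 : τ % P.K ^ (P.lev τ P.H - 1) = 0
    · rw [if_pos h1, if_pos h1]
      by_cases h2 : P.D τ (P.lev τ P.H - 1) % (2 * (P.f + 1)) = 0
      · rw [if_pos h2, if_pos h2]
        unfold scaleOp
        by_cases ho : o = P.lab (P.uu τ P.H) (P.lev τ P.H)
        · simp only [if_pos ho]
          exact hcur
        · simp only [if_neg ho]
          rw [ZMod.natCast_mod, Nat.cast_mul, hcur]
      · rw [if_neg h2, if_neg h2]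
        unfold polyOp
        have h3 : P.lev τ P.H - 1 + 1 = P.lev τ P.H := by omega
        rw [h3]
        by_cases ho : o = P.lab (P.uu τ P.H) (P.lev τ P.H)
        · simp only [if_pos ho]
          rw [ZMod.natCast_mod, Nat.cast_add, Nat.cast_mul, Nat.cast_mul, sgn_cast hP, hcur,
            pcast hP, Pn_cast hP _ _ _ _ _ ρ hρ]
        · simp only [if_neg ho]
          exact hcur
    · rw [if_neg h1, if_neg h1]
      exact hcur

omit hP in
theorem rix_lt (m o x σ : ℕ) (ho : o < m) (hx : x < P.B) (hσ : σ < P.q) :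
    P.rix o x σ < m * P.B * P.q := by
  unfold rix
  have h1 : o * P.B + x < m * P.B := by nlinarith
  nlinarith

omit hP in
theorem rix_dec (o x σ : ℕ) (hx : x < P.B) (hσ : σ < P.q) :
    P.rix o x σ / (P.B * P.q) = o ∧ P.rix o x σ / P.q % P.B = x ∧ P.rix o x σ % P.q = σ := by
  have hq : 0 < P.q := by omega
  have hB : 0 < P.B := by omega
  unfold rix
  have h1 : ((o * P.B + x) * P.q + σ) / P.q = o * P.B + x := by
    rw [mul_comm, Nat.mul_add_div hq, Nat.div_eq_of_lt hσ, add_zero]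
  refine ⟨?_, ?_, ?_⟩
  · rw [mul_comm P.B P.q, ← Nat.div_div_eq_div_mul, h1, mul_comm, Nat.mul_add_div hB,
      Nat.div_eq_of_lt hx, add_zero]
  · rw [h1, mul_comm, Nat.mul_add_mod, Nat.mod_eq_of_lt hx]
  · rw [mul_comm, Nat.mul_add_mod, Nat.mod_eq_of_lt hσ]

theorem ostep_dg (τ R o x σ : ℕ) (ho : o < P.f + 1) (hx : x < P.B) (hσ : σ < P.q) :
    dg P.p (P.ostep τ R) (P.rix o x σ) = P.nd τ R o x σ (dg P.p R (P.rix o x σ)) := by
  have hp : 0 < P.p := by have := hP.p; omega
  have hlt : ∀ i, P.nd τ R (i / (P.B * P.q)) (i / P.q % P.B) (i % P.q) (dg P.p R i) < P.p :=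
    fun i => nd_lt hP _ _ _ _ _ _ (dg_lt _ _ _ hp)
  have : P.ostep τ R = digs P.p ((P.f + 1) * P.B * P.q) (fun i =>
      P.nd τ R (i / (P.B * P.q)) (i / P.q % P.B) (i % P.q) (dg P.p R i)) := by
    unfold ostep digs
    apply Finset.sum_congr rfl
    intro i hi
    rw [min_eq_left (hlt i).le, powT_eq _ _ _ hp ((Nat.pow_le_pow_right hp
      (Finset.mem_range.1 hi).le).trans hP.hX2)]
  rw [this, dg_digs _ _ hp _ (fun i _ => hlt i) _ (rix_lt _ o x σ ho hx hσ)]
  obtain ⟨h1, h2, h3⟩ := rix_dec (P := P) o x σ hx hσ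
  rw [h1, h2, h3]

theorem regs_inv : ∀ τ, τ ≤ P.K ^ P.H → ∀ o x σ, o < P.f + 1 → x < P.B → σ < P.q →
    (dg P.p (nrec 0 (fun τ R => P.ostep τ R) τ) (P.rix o x σ) : ZMod P.p) =
      H539R2.run (opS P.q P.B P.f (P.p - 1) P.off P.lab P.F P.Z0 (P.g : ZMod P.p) (-1) P.H 0 1) τ
        (fun _ _ _ => 0) o x σ := by
  intro τ
  induction τ with
  | zero =>
    intro _ o x σ _ _ _
    simp [dg, run]
  | succ τ ih =>
    intro hτ o x σ ho hx hσ
    rw [nrec_succ, ostep_dg hP _ _ _ _ _ ho hx hσ, run]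
    exact nd_cast hP τ _ o x σ _ (by omega) _ (ih (by omega)) (ih (by omega) o x σ ho hx hσ)

/-- correctness of the simulation -/
theorem sim_eq : P.sim = P.cz (P.H * P.s) (fun _ => 0) := by
  have hp2 := hP.p
  have hBpos := B_pos hP
  have hfin := run_opS P.q P.B P.f (P.p - 1) P.off P.lab P.F P.Z0 (P.g : ZMod P.p) (-1)
    (lab_ne hP) (lab_inj hP) hP.q hBpos (by omega) hP.hg (by rw [pcast hP]; ring) hP.hsum
    P.H 0 1 (fun _ _ _ => 0)
  have hcz0 : P.cz (P.H * P.s) (fun _ => 0) < P.q := cz_lt hP _ _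
  have hregs : ∀ σ < P.q, dg P.p P.regs (P.rix (P.lab 0 P.H) 0 σ) =
      if P.cz (P.H * P.s) (fun _ => 0) = σ then 1 else 0 := by
    intro σ hσ
    have h1 := regs_inv hP (P.K ^ P.H) le_rfl (P.lab 0 P.H) 0 σ (lab_lt _ _) hBpos hσ
    have hK : (2 * (P.f + 1) * (P.p - 1)) ^ P.H = P.K ^ P.H := rfl
    rw [hK] at hfin
    rw [hfin] at h1
    have hZ : dg P.q (Z P.q P.B P.f P.off P.F P.Z0 0 P.H) 0 = P.cz (P.H * P.s) (fun _ => 0) := by
      have h0 : (0 : ℕ) = digs P.G P.d (fun _ => 0) := by simp [digs]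
      have h5 := Z_dg hP P.H (fun _ => 0) (fun j _ => by omega) 0 hBpos
      rw [← h0] at h5
      rw [h5]
      apply cz_congr hP
      intro j _
      simp [dg]
    unfold EV oneh at h1
    rw [if_pos rfl, hZ, zero_add, one_mul] at h1
    have h2 : P.regs = nrec 0 (fun τ R => P.ostep τ R) (P.K ^ P.H) := by
      unfold regs
      rw [powK hP _ le_rfl]
    rw [← h2] at h1
    have hlt : dg P.p P.regs (P.rix (P.lab 0 P.H) 0 σ) < P.p := dg_lt _ _ _ (by omega)
    have h3 : (dg P.p P.regs (P.rix (P.lab 0 P.H) 0 σ) : ZMod P.p) =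
        ((if P.cz (P.H * P.s) (fun _ => 0) = σ then 1 else 0 : ℕ) : ZMod P.p) := by
      rw [h1]; split_ifs <;> simp
    have h4 := (ZMod.natCast_eq_natCast_iff' _ _ _).1 h3
    rw [Nat.mod_eq_of_lt hlt, Nat.mod_eq_of_lt (by split_ifs <;> omega)] at h4
    exact h4
  unfold sim
  have h5 : ∀ σ ∈ Finset.range P.q, σ * dg P.p P.regs (P.rix (P.lab 0 P.H) 0 σ) =
      if P.cz (P.H * P.s) (fun _ => 0) = σ then σ else 0 := by
    intro σ hσ
    rw [hregs σ (Finset.mem_range.1 hσ)]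
    split_ifs <;> simp
  rw [Finset.sum_congr rfl h5, Finset.sum_ite_eq, if_pos (Finset.mem_range.2 hcz0)]

end Prm

end Pool.Agent.H539R2.DD
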