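import Pool.Agent.H539R2.LowT
import Pool.Agent.H539R2.DiagD
import Pool.Agent.H539R2.DefsT

/-!
Separation at all levels of the space-time hierarchy.
-/

set_option linter.unusedSimpArgs false
set_option linter.unusedVariables false

namespace Pool.Agent.H539R2.DD.TW

open Pool.Agent.H539R2 Filter

theorem le_tower (i y : ℕ) : y ≤ tower i y := by
  induction i with
  | zero => exact le_rfl
  | succ i ih => exact ih.trans Nat.lt_two_pow_self.le

theorem lg_eq' (X n : ℕ) (hn : 1 ≤ n) (hX : 2 ^ n ≤ X) : ZZ.lg X n = Nat.log 2 n := by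
  unfold ZZ.lg
  have h1 : ∀ i ∈ Finset.range n, (if powT X 2 (i + 1) ≤ n then 1 else 0) =
      if i < Nat.log 2 n then 1 else 0 := by
    intro i hi
    rw [Finset.mem_range] at hi
    rw [powT_eq _ _ _ (by omega) ((Nat.pow_le_pow_right (by omega) (by omega)).trans hX)]
    congr 1
    rw [← Nat.le_log_iff_pow_le (by omega) (by omega)]
    apply propext
    omega
  rw [Finset.sum_congr rfl h1, ← Finset.sum_filter]
  have h2 : Finset.filter (fun i => i < Nat.log 2 n) (Finset.range n) =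
      Finset.range (Nat.log 2 n) := by
    ext i
    rw [Finset.mem_filter, Finset.mem_range, Finset.mem_range]
    have : Nat.log 2 n ≤ n := Nat.log_le_self 2 n
    omega
  rw [h2]
  simp

/-- iterated logarithm -/
def il (X : ℕ) : ℕ → ℕ → ℕ
  | 0, m => m
  | i + 1, m => il X i (ZZ.lg X m)

theorem ls_il (i : ℕ) : ∀ {X m : (ℕ → ℕ) → ℕ} (_ : LS X) (_ : LS m),
    LS (fun ρ => il (X ρ) i (m ρ)) := by
  induction i with
  | zero => intro X m _ hm; exact hm
  | succ i ih => intro X m hX hm; exact ih hX (ZZ.LS.lg hX hm)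

theorem il_eq (X : ℕ) : ∀ (i y : ℕ), 1 ≤ y → 2 ^ tower i y ≤ X → il X i (tower i y) = y := by
  intro i
  induction i with
  | zero => intro y _ _; rfl
  | succ i ih =>
    intro y hy hX
    show il X i (ZZ.lg X (2 ^ tower i y)) = y
    have h1 : 1 ≤ 2 ^ tower i y := Nat.one_le_two_pow
    rw [lg_eq' X _ h1 hX, Nat.log_pow (by omega)]
    apply ih y hy
    have h2 : tower i y ≤ tower (i + 1) y := Nat.lt_two_pow_self.le
    exact (Nat.pow_le_pow_right (by omega) h2).trans hX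

/-- input length from the number of tape cells -/
def len (i k X m : ℕ) : ℕ := rt X m k (il X i m)

theorem len_eq (i k n : ℕ) (hk : 1 ≤ k) (hn : 1 ≤ n) :
    len i k (2 ^ tower i (n ^ k)) (tower i (n ^ k)) = n := by
  unfold len
  have h1 : 1 ≤ n ^ k := Nat.one_le_pow _ _ hn
  have h0 : 1 ≤ tower i (n ^ k) := h1.trans (le_tower i _)
  rw [il_eq _ i (n ^ k) h1 le_rfl]
  obtain ⟨_, h2, h3⟩ := rt_spec (2 ^ tower i (n ^ k)) (tower i (n ^ k)) k (n ^ k) hk h1
    (le_tower i _) (lt_of_le_of_lt (le_tower i _) Nat.lt_two_pow_self)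
  have h4 := (Nat.pow_le_pow_iff_left (by omega : k ≠ 0)).1 h2
  have h5 := (Nat.pow_lt_pow_iff_left (by omega : k ≠ 0)).1 h3
  omega

/-- the diagonal function -/
def UT (i k X m : ℕ) : ℕ :=
  if (dprm 1 X m (len i k X m) (Nat.unpair (len i k X m)).1 0).sim % 2 = 0 then 1 else 0

theorem ls_UT (i k : ℕ) : LS (fun ρ => UT i k (ρ 0) (ρ 1)) := by
  unfold UT
  have hl : LS (fun ρ => len i k (ρ 0) (ρ 1)) :=
    ls_rt (LS.var 0) (LS.var 1) (LS.const k) (ls_il i (LS.var 0) (LS.var 1))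
  exact LS.ite (LSP.eq ((ls_sim (ls_dprm (LS.const 1) (LS.var 0) (LS.var 1) hl
    (LS.unpair1 hl) LS.zero)).mod (LS.const 2)) LS.zero) (LS.const 1) LS.zero

/-- lower bound for the simulated time -/
theorem growth_low (d : ℕ) (hd : 1 ≤ d) (q : ℕ) (hq : 1 ≤ q) :
    ∃ ε : ℝ, 0 < ε ∧ ∀ᶠ n : ℕ in atTop,
      ε * ((n : ℝ) / Real.log n) ^ (1 + 1 / (d : ℝ)) ≤ tm n d q := by
  set f := 3 ^ d with hf
  set c : ℕ := 16 * ((f + 1) * (f + 1)) * q with hc
  have hc1 : 1 ≤ c := by
    rw [hc]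
    have : 0 < 16 * ((f + 1) * (f + 1)) * q := by positivity
    omega
  have hcr : (1 : ℝ) ≤ c := by exact_mod_cast hc1
  have hdr : (1 : ℝ) ≤ d := by exact_mod_cast hd
  refine ⟨1 / 2 * (1 / (6 * (c : ℝ))) ^ 2, by positivity, ?_⟩
  filter_upwards [big_eventually d q, eventually_ge_atTop 3] with n hbig hn3
  have hnr : (3 : ℝ) ≤ n := by exact_mod_cast hn3
  have hlog1 : 1 ≤ Real.log n := by
    rw [Real.le_log_iff_exp_le (by linarith)]
    have := Real.exp_one_lt_d9
    linarith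
  have hL : ((Nat.log 2 n : ℕ) : ℝ) + 1 ≤ 3 * Real.log n := by
    have h1 : ((Nat.log 2 n : ℕ) : ℝ) ≤ Real.logb 2 n := Real.natLog_le_logb n 2
    have h2 : Real.logb 2 n = Real.log n / Real.log 2 := rfl
    have h3 : (0.6931471803 : ℝ) < Real.log 2 := Real.log_two_gt_d9
    have h4 : Real.log n / Real.log 2 ≤ 2 * Real.log n := by
      rw [div_le_iff₀ (by linarith)]
      nlinarith
    rw [h2] at h1
    linarith
  have hfX : 3 ^ d ≤ 2 ^ n := by
    refine le_trans ?_ hbig.h2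
    apply Nat.pow_le_pow_left
    have : 0 < 3 ^ d + 1 := by positivity
    nlinarith
  set W := wd (2 ^ n) n d q with hW
  have hWe : W = n / (c * (Nat.log 2 n + 1)) := wd_eq n d q (by omega) hfX
  set D := c * (Nat.log 2 n + 1) with hD
  have hDpos : 0 < D := by rw [hD]; positivity
  have hDposr : (0 : ℝ) < D := by exact_mod_cast hDpos
  have hDn : D ≤ n := hbig.h1
  have hDr : (D : ℝ) ≤ 3 * c * Real.log n := by
    rw [hD]
    push_cast
    calc (c : ℝ) * ((Nat.log 2 n : ℕ) + 1) ≤ c * (3 * Real.log n) := by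
          apply mul_le_mul_of_nonneg_left hL (by positivity)
      _ = _ := by ring
  have hW1 : 1 ≤ W := by
    rw [hWe, Nat.le_div_iff_mul_le hDpos, one_mul]
    exact hDn
  have hWr : (n : ℝ) / (6 * c * Real.log n) ≤ W := by
    have h6 : n < D * (W + 1) := by rw [hWe]; exact Nat.lt_mul_div_succ n hDpos
    have h8 : n ≤ 2 * D * W := by nlinarith
    have h9 : (n : ℝ) ≤ 2 * D * W := by exact_mod_cast h8
    rw [div_le_iff₀ (by positivity)]
    have hW0 : (0 : ℝ) ≤ W := Nat.cast_nonneg _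
    calc (n : ℝ) ≤ 2 * D * W := h9
      _ ≤ 2 * (3 * c * Real.log n) * W := by
        apply mul_le_mul_of_nonneg_right _ hW0
        linarith
      _ = _ := by ring
  have hWn : W ≤ n := by rw [hWe]; exact Nat.div_le_self _ _
  obtain ⟨hs1, hs2, hs3⟩ := rt_spec (2 ^ n) n d W hd hW1 hWn
    (lt_of_le_of_lt hWn Nat.lt_two_pow_self)
  set s := rt (2 ^ n) n d W with hs
  have htm : tm n d q = W * s := rfl
  have hWrpos : (1 : ℝ) ≤ W := by exact_mod_cast hW1
  have hsr : (W : ℝ) ^ (1 / (d : ℝ)) ≤ 2 * s := by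
    have h1 : (W : ℝ) ≤ ((s : ℝ) + 1) ^ d := by exact_mod_cast hs3.le
    have h2 : (W : ℝ) ^ (1 / (d : ℝ)) ≤ (((s : ℝ) + 1) ^ d) ^ (1 / (d : ℝ)) :=
      Real.rpow_le_rpow (by linarith) h1 (by positivity)
    have h3 : (((s : ℝ) + 1) ^ d) ^ (1 / (d : ℝ)) = (s : ℝ) + 1 := by
      rw [one_div, Real.pow_rpow_inv_natCast (by positivity) (by omega)]
    have h4 : (1 : ℝ) ≤ s := by exact_mod_cast hs1
    linarith
  have hprod : (1 / 2 : ℝ) * (W : ℝ) ^ (1 + 1 / (d : ℝ)) ≤ (W : ℝ) * s := by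
    rw [Real.rpow_add (by linarith), Real.rpow_one]
    nlinarith
  have hexp : (1 : ℝ) + 1 / (d : ℝ) ≤ 2 := by
    have : 1 / (d : ℝ) ≤ 1 := by
      rw [div_le_one (by linarith)]
      exact hdr
    linarith
  have hexp0 : (0 : ℝ) ≤ 1 + 1 / (d : ℝ) := by positivity
  rw [htm]
  push_cast
  refine le_trans ?_ hprod
  rw [mul_assoc]
  apply mul_le_mul_of_nonneg_left _ (by norm_num)
  have h1 : (1 / (6 * (c : ℝ))) ^ 2 ≤ (1 / (6 * (c : ℝ))) ^ (1 + 1 / (d : ℝ)) := by
    have h2 : (1 / (6 * (c : ℝ))) ^ (2 : ℝ) ≤ (1 / (6 * (c : ℝ))) ^ (1 + 1 / (d : ℝ)) := by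
      apply Real.rpow_le_rpow_of_exponent_ge (by positivity) _ hexp
      rw [div_le_one (by positivity)]
      linarith
    have h3 : (1 / (6 * (c : ℝ))) ^ (2 : ℝ) = (1 / (6 * (c : ℝ))) ^ 2 := by
      exact_mod_cast Real.rpow_natCast (1 / (6 * (c : ℝ))) 2
    rw [h3] at h2
    exact h2
  calc (1 / (6 * (c : ℝ))) ^ 2 * ((n : ℝ) / Real.log n) ^ (1 + 1 / (d : ℝ))
      ≤ (1 / (6 * (c : ℝ))) ^ (1 + 1 / (d : ℝ)) *
        ((n : ℝ) / Real.log n) ^ (1 + 1 / (d : ℝ)) := by
        apply mul_le_mul_of_nonneg_right h1 (by positivity)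
    _ = ((1 / (6 * (c : ℝ))) * ((n : ℝ) / Real.log n)) ^ (1 + 1 / (d : ℝ)) := by
        rw [Real.mul_rpow (by positivity) (by positivity)]
    _ ≤ (W : ℝ) ^ (1 + 1 / (d : ℝ)) := by
        apply Real.rpow_le_rpow (by positivity) _ hexp0
        refine le_trans (le_of_eq ?_) hWr
        field_simp

/-- growth along a sequence of sizes -/
theorem growthS (d : ℕ) (hd : 1 ≤ d) (T S : ℕ → ℕ) (q : ℕ) (hq : 1 ≤ q)
    (hS : Tendsto S atTop atTop)
    (hT : (fun n => (T n : ℝ)) =o[atTop]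
      (fun n => ((S n : ℝ) / Real.log (S n)) ^ (1 + 1 / (d : ℝ)))) :
    ∀ᶠ n : ℕ in atTop, T n ≤ tm (S n) d q := by
  obtain ⟨ε, hε, h⟩ := growth_low d hd q hq
  filter_upwards [hS.eventually h, hT.def hε, hS.eventually (eventually_ge_atTop 3)]
    with n h1 h2 h3
  have hnr : (3 : ℝ) ≤ S n := by exact_mod_cast h3
  have hlog1 : 0 ≤ Real.log (S n) := Real.log_nonneg (by linarith)
  have h9 : ‖((T n : ℕ) : ℝ)‖ = T n := by
    rw [Real.norm_eq_abs]; exact abs_of_nonneg (Nat.cast_nonneg _)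
  have h10 : ‖((S n : ℝ) / Real.log (S n)) ^ (1 + 1 / (d : ℝ))‖ =
      ((S n : ℝ) / Real.log (S n)) ^ (1 + 1 / (d : ℝ)) := by
    rw [Real.norm_eq_abs]; exact abs_of_nonneg (by positivity)
  rw [h9, h10] at h2
  exact_mod_cast h2.trans h1

/-- configurations agreeing on the tape cells run in the same way -/
theorem same_next (A : LBA) (n : ℕ) {c c' : A.Cfg}
    (h : c.q = c'.q ∧ c.pos = c'.pos ∧ ∀ i, 1 ≤ i → i ≤ n → c.tape i = c'.tape i) :
    (A.next n c).q = (A.next n c').q ∧ (A.next n c).pos = (A.next n c').pos ∧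
      ∀ i, 1 ≤ i → i ≤ n → (A.next n c).tape i = (A.next n c').tape i := by
  obtain ⟨h1, h2, h3⟩ := h
  have hrd : A.rd n c = A.rd n c' := by
    unfold LBA.rd
    rw [← h2]
    split_ifs with h4
    · rw [h3 _ h4.1 h4.2]
    · rfl
  refine ⟨?_, ?_, ?_⟩
  · show (A.step c.q (A.rd n c)).1 = (A.step c'.q (A.rd n c')).1
    rw [h1, hrd]
  · show LBA.shift n (A.step c.q (A.rd n c)).2.2 c.pos =
      LBA.shift n (A.step c'.q (A.rd n c')).2.2 c'.pos
    rw [h1, hrd, h2]
  · intro i hi1 hi2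
    show (if i = c.pos ∧ 1 ≤ i ∧ i ≤ n then ((A.step c.q (A.rd n c)).2.1).getD (c.tape i)
      else c.tape i) = (if i = c'.pos ∧ 1 ≤ i ∧ i ≤ n then
        ((A.step c'.q (A.rd n c')).2.1).getD (c'.tape i) else c'.tape i)
    rw [h1, hrd, h2, h3 i hi1 hi2]

theorem same_iter (A : LBA) (n : ℕ) {c c' : A.Cfg}
    (h : c.q = c'.q ∧ c.pos = c'.pos ∧ ∀ i, 1 ≤ i → i ≤ n → c.tape i = c'.tape i) (t : ℕ) :
    ((A.next n)^[t] c).q = ((A.next n)^[t] c').q ∧
      ((A.next n)^[t] c).pos = ((A.next n)^[t] c').pos ∧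
      ∀ i, 1 ≤ i → i ≤ n → ((A.next n)^[t] c).tape i = ((A.next n)^[t] c').tape i := by
  induction t with
  | zero => exact h
  | succ t ih =>
    rw [Function.iterate_succ_apply', Function.iterate_succ_apply']
    exact same_next A n ih

/-- a linear bounded automaton on padded inputs -/
def pad (A : LBA) : STM := { A with blank := A.inp true }

theorem pad_acc (A : LBA) (S : ℕ → ℕ) (w : List Bool) (hS : w.length ≤ S w.length) :
    (pad A).Acc S w ↔ A.Acc (w ++ List.replicate (S w.length - w.length) true) := by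
  unfold STM.Acc LBA.Acc
  have hlen : (w ++ List.replicate (S w.length - w.length) true).length = S w.length := by
    simp; omega
  rw [hlen]
  apply exists_congr
  intro t
  have := (same_iter A (S w.length) (c := (pad A).init w)
    (c' := A.init (w ++ List.replicate (S w.length - w.length) true)) ⟨rfl, rfl, by
      intro i hi1 hi2
      show (if i ≤ w.length then A.inp (w.getD (i - 1) false) else A.inp true) =
        A.inp ((w ++ List.replicate (S w.length - w.length) true).getD (i - 1) false)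
      split_ifs with h
      · rw [List.getD_append _ _ _ _ (by omega)]
      · rw [List.getD_append_right _ _ _ _ (by omega), List.getD_eq_getElem _ _ (by simp; omega),
          List.getElem_replicate]⟩ t).1
  have h2 : (pad A).acc ((((pad A).toLBA.next (S w.length))^[t] ((pad A).init w)).q) ↔
      A.acc (((A.next (S w.length))^[t]
        (A.init (w ++ List.replicate (S w.length - w.length) true))).q) := by
    rw [← this]
    exact Iff.rfl
  exact h2

theorem mainT (i k : ℕ) (hk : 1 ≤ k) :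
    ∃ A : STM, (∀ w, A.Acc (fun n => tower i (n ^ k)) w → ∀ x ∈ w, x = true) ∧
      ∀ (d : ℕ) [NeZero d] (M : DCA d) (T : ℕ → ℕ),
        (fun n => (T n : ℝ)) =o[atTop] (fun n : ℕ =>
          ((tower i (n ^ k) : ℝ) / Real.log (tower i (n ^ k))) ^ (1 + 1 / (d : ℝ))) →
        M.InTime T → ¬ ∀ x, (A.Acc (fun n => tower i (n ^ k)) x ↔ M.Acc x) := by
  obtain ⟨A, hA1, hA2⟩ := ls_lba (ls_UT i k)
  set S : ℕ → ℕ := fun n => tower i (n ^ k) with hS
  have hSn : ∀ n, n ≤ S n := fun n => (Nat.le_self_pow (by omega) n).trans (le_tower i _)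
  have hSt : Tendsto S atTop atTop := tendsto_atTop_mono hSn tendsto_id
  refine ⟨pad A, ?_, ?_⟩
  · intro w hw x hx
    rw [pad_acc A S w (hSn _)] at hw
    exact hA1 _ hw x (List.mem_append_left _ hx)
  intro d _ M T hT hin hAV
  have hd : 1 ≤ d := Nat.pos_of_ne_zero (NeZero.ne d)
  obtain ⟨q, dc, a, b, hq, hb, hV⟩ := vdca_code (DCA.toV M)
  set e := Nat.pair d (Nat.pair q (Nat.pair dc (Nat.pair a b))) with he
  obtain ⟨N, hN⟩ := eventually_atTop.1 ((growthS d hd T S q hq hSt hT).and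
    (hSt.eventually (big_eventually d q)))
  set n := Nat.pair e (N + 1) with hn
  have hnN : N + 1 ≤ n := Nat.right_le_pair e (N + 1)
  obtain ⟨h1, h2⟩ := hN n (by omega)
  have hue : (Nat.unpair n).1 = e := by rw [hn, Nat.unpair_pair]
  have hs := sim_spec 1 (S n) n e d q dc a b hq hb h2 he (DCA.toV M) hV 0 (fun _ => 0)
    (fun i _ => by simp [dg])
  have hlen : len i k (2 ^ S n) (S n) = n := len_eq i k n hk (by omega)
  have hU : UT i k (2 ^ S n) (S n) ≠ 0 ↔
      ¬ ∃ t ≤ tm (S n) d q, M.AccAt (List.replicate n true) t := by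
    simp only [DCA.toV_accAt] at hs
    rw [← hs]
    unfold UT
    rw [hlen, hue]
    constructor
    · intro h h'
      rw [if_neg (by omega)] at h
      exact h rfl
    · intro h
      rw [if_pos (by omega)]
      exact Nat.one_ne_zero
  have hp := pad_acc A S (List.replicate n true) (by rw [List.length_replicate]; exact hSn n)
  rw [List.length_replicate, ← List.replicate_add, Nat.add_sub_cancel' (hSn n)] at hp
  rw [← hA2 (S n) (by have := hSn n; omega), ← hp, hAV] at hU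
  by_cases hacc : M.Acc (List.replicate n true)
  · obtain ⟨t, ht, hy⟩ := hin _ hacc
    rw [List.length_replicate] at ht
    exact hU.1 hacc ⟨t, ht.trans h1, hy⟩
  · apply hacc
    rw [hU]
    rintro ⟨t, _, hy⟩
    exact hacc ⟨t, hy⟩

end Pool.Agent.H539R2.DD.TW
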