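import Pool.Agent.H539R2.TowerD
import Pool.Agent.H539R2.QuantD
import Pool.Agent.H539R2.DefsW

/-!
Separation from verifying cellular automata with witnesses of length `S n`.
-/

set_option linter.unusedSimpArgs false
set_option linter.unusedVariables false

namespace Pool.Agent.H539R2.DD.TW

open Pool.Agent.H539R2 Filter

/-- letters of the witness combined with the mark of the input -/
def cw (cap K m n y : ℕ) : ℕ :=
  digsT cap (2 * K) m (fun i => dg K y i + if i < n then K else 0)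

theorem ls_cw (K : ℕ) {cap m n y : (ℕ → ℕ) → ℕ} (hc : LS cap) (hm : LS m) (hn : LS n)
    (hy : LS y) : LS (fun ρ => cw (cap ρ) K (m ρ) (n ρ) (y ρ)) := by
  unfold cw
  exact ls_digsT (h := fun i ρ => dg K (y ρ) i + if i < n ρ then K else 0) hc (LS.const _) hm
    ((LS.dg (LS.const K) hy.wk (LS.var 0)).add
      (LS.ite (LSP.lt (LS.var 0) hn.wk) (LS.const K) LS.zero))

theorem cw_dg {cap K m n y : ℕ} (hK : 1 ≤ K) (hcap : (2 * K) ^ m ≤ cap) (i : ℕ) (hi : i < m) :
    dg (2 * K) (cw cap K m n y) i = dg K y i + if i < n then K else 0 := by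
  unfold cw
  rw [digsT_eq _ _ _ _ (by omega) hcap, dg_digs _ _ (by omega) _ _ i hi]
  intro i _
  have := dg_lt K y i (by omega)
  split_ifs <;> omega

/-- the automaton reading combined letters -/
def WCA.toV {d K : ℕ} (V : WCA d K) : VDCA d (2 * K) where
  Q := V.Q
  finQ := V.finQ
  blank := V.blank
  inp := fun b l => if h : (l : ℕ) < K then V.inp none ⟨l, h⟩ else
    V.inp (some b) ⟨(l : ℕ) - K, by have := l.isLt; omega⟩
  δ := V.δ
  acc := V.acc

theorem WCA.toV_accAt {d K : ℕ} [NeZero d] (V : WCA d K) (m n : ℕ) (y : ℕ → Fin K)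
    (w : ℕ → Fin (2 * K)) (hw : ∀ i < m, (w i : ℕ) = (y i : ℕ) + if i < n then K else 0)
    (t : ℕ) :
    (WCA.toV V).AccAt (List.replicate m true) w t ↔
      V.AccAt m (List.replicate n true) y t := by
  unfold VDCA.AccAt WCA.AccAt VDCA.run WCA.run
  have h0 : (WCA.toV V).init (List.replicate m true) w = V.init m (List.replicate n true) y := by
    funext v
    unfold VDCA.init WCA.init
    rw [List.length_replicate]
    by_cases h : (∀ j, j ≠ 0 → v j = 0) ∧ 0 ≤ v 0 ∧ v 0 < m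
    · rw [if_pos h, if_pos h]
      have hlt : (v 0).toNat < m := by omega
      rw [List.getD_eq_getElem _ _ (by simpa using hlt), List.getElem_replicate]
      have hwi := hw _ hlt
      have hyi := (y (v 0).toNat).isLt
      show (if h : (w (v 0).toNat : ℕ) < K then V.inp none ⟨w (v 0).toNat, h⟩ else
        V.inp (some true) ⟨(w (v 0).toNat : ℕ) - K, _⟩) = _
      by_cases hn : (v 0).toNat < n
      · rw [if_pos hn] at hwi
        rw [dif_neg (by omega)]
        have e1 : (List.replicate n true)[(v 0).toNat]? = some true := by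
          rw [List.getElem?_replicate, if_pos hn]
        rw [e1]
        congr 1
        apply Fin.ext
        show (w (v 0).toNat : ℕ) - K = _
        omega
      · rw [if_neg hn] at hwi
        rw [dif_pos (by omega)]
        have e1 : (List.replicate n true)[(v 0).toNat]? = none := by
          rw [List.getElem?_replicate, if_neg hn]
        rw [e1]
        congr 1
        apply Fin.ext
        show (w (v 0).toNat : ℕ) = _
        omega
    · rw [if_neg h, if_neg h]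
      rfl
  have hs : (WCA.toV V).step = V.step := rfl
  rw [h0, hs]
  rfl

/-- the diagonal function -/
def UW (K : ℕ) (L : ℕ → ℕ → ℕ) (X m : ℕ) : ℕ :=
  if ∑ y ∈ Finset.range (powT (X ^ (2 * K)) K m),
    (dprm (2 * K) X m m (Nat.unpair (L X m)).1 (cw (X ^ (2 * K)) K m (L X m) y)).sim % 2 = 0
  then 1 else 0

theorem ls_UW (K : ℕ) {L : ℕ → ℕ → ℕ} (hL : LS (fun ρ => L (ρ 0) (ρ 1))) :
    LS (fun ρ => UW K L (ρ 0) (ρ 1)) := by
  unfold UW
  refine LS.ite (LSP.eq ?_ LS.zero) (LS.const 1) LS.zero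
  refine LS.sum (F := fun y ρ => (dprm (2 * K) (ρ 0) (ρ 1) (ρ 1) (Nat.unpair (L (ρ 0) (ρ 1))).1
    (cw (ρ 0 ^ (2 * K)) K (ρ 1) (L (ρ 0) (ρ 1)) y)).sim % 2)
    (LS.powT (ZZ.LS.powc (LS.var 0) _) (LS.const K) (LS.var 1)) ?_
  exact (ls_sim (ls_dprm (LS.const _) (LS.var 1) (LS.var 2) (LS.var 2) (LS.unpair1 hL.wk)
    (ls_cw K (ZZ.LS.powc (LS.var 1) _) (LS.var 2) hL.wk (LS.var 0)))).mod (LS.const 2)

/-- witnesses as numbers -/
theorem wit_exists (k n : ℕ) (hk : 1 ≤ k) (y : ℕ → Fin k) :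
    ∃ m < k ^ n, ∀ i < n, dg k m i = (y i : ℕ) :=
  ⟨digs k n (fun i => (y i : ℕ)), digs_lt _ _ _ (fun i _ => (y i).isLt),
    fun i hi => dg_digs _ _ hk _ (fun i _ => (y i).isLt) i hi⟩

theorem mainW (K : ℕ) (hK : 1 ≤ K) (S : ℕ → ℕ) (hS : ∀ n, n ≤ S n) (L : ℕ → ℕ → ℕ)
    (hL : LS (fun ρ => L (ρ 0) (ρ 1))) (hLS : ∀ n, 1 ≤ n → L (2 ^ S n) (S n) = n) :
    ∃ A : STM, (∀ w, A.Acc S w → ∀ x ∈ w, x = true) ∧
      ∀ (d : ℕ) [NeZero d] (V : WCA d K) (T : ℕ → ℕ),
        (fun n => (T n : ℝ)) =o[atTop]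
          (fun n => ((S n : ℝ) / Real.log (S n)) ^ (1 + 1 / (d : ℝ))) →
        V.InTime S T → ¬ ∀ x, (A.Acc S x ↔ V.Acc S x) := by
  obtain ⟨A, hA1, hA2⟩ := ls_lba (ls_UW K hL)
  have hSt : Tendsto S atTop atTop := tendsto_atTop_mono hS tendsto_id
  refine ⟨pad A, ?_, ?_⟩
  · intro w hw x hx
    rw [pad_acc A S w (hS _)] at hw
    exact hA1 _ hw x (List.mem_append_left _ hx)
  intro d _ V T hT hin hAV
  have hd : 1 ≤ d := Nat.pos_of_ne_zero (NeZero.ne d)
  obtain ⟨q, dc, a, b, hq, hb, hV⟩ := vdca_code (WCA.toV V)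
  set e := Nat.pair d (Nat.pair q (Nat.pair dc (Nat.pair a b))) with he
  obtain ⟨N, hN⟩ := eventually_atTop.1 ((growthS d hd T S q hq hSt hT).and
    (hSt.eventually (big_eventually d q)))
  set n := Nat.pair e (N + 1) with hn
  have hnN : N + 1 ≤ n := Nat.right_le_pair e (N + 1)
  obtain ⟨h1, h2⟩ := hN n (by omega)
  have hue : (Nat.unpair n).1 = e := by rw [hn, Nat.unpair_pair]
  have hlen : L (2 ^ S n) (S n) = n := hLS n (by omega)
  have hcap : (2 * K) ^ S n ≤ (2 ^ S n) ^ (2 * K) := by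
    calc (2 * K) ^ S n ≤ (2 ^ (2 * K)) ^ S n := Nat.pow_le_pow_left Nat.lt_two_pow_self.le _
      _ = (2 ^ S n) ^ (2 * K) := by rw [← pow_mul, ← pow_mul, mul_comm]
  have hcap2 : K ^ S n ≤ (2 ^ S n) ^ (2 * K) :=
    le_trans (Nat.pow_le_pow_left (by omega) _) hcap
  have hpow : powT ((2 ^ S n) ^ (2 * K)) K (S n) = K ^ S n := powT_eq _ _ _ hK hcap2
  have hsim : ∀ (y : ℕ) (z : ℕ → Fin K), (∀ i < S n, dg K y i = (z i : ℕ)) →
      ((dprm (2 * K) (2 ^ S n) (S n) (S n) e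
        (cw ((2 ^ S n) ^ (2 * K)) K (S n) n y)).sim % 2 = 1 ↔
        ∃ t ≤ tm (S n) d q, V.AccAt (S n) (List.replicate n true) z t) := by
    intro y z hy
    set w : ℕ → Fin (2 * K) := fun i => ⟨(z i : ℕ) + if i < n then K else 0, by
      have := (z i).isLt
      split_ifs <;> omega⟩ with hw
    have hs := sim_spec (2 * K) (S n) (S n) e d q dc a b hq hb h2 he (WCA.toV V) hV
      (cw ((2 ^ S n) ^ (2 * K)) K (S n) n y) w (by
        intro i hi
        rw [cw_dg hK hcap i hi, hy i hi])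
    rw [hs]
    apply exists_congr
    intro t
    rw [WCA.toV_accAt V (S n) n z w (fun i _ => rfl) t]
  have hU : UW K L (2 ^ S n) (S n) ≠ 0 ↔ ¬ ∃ z : ℕ → Fin K, ∃ t ≤ tm (S n) d q,
      V.AccAt (S n) (List.replicate n true) z t := by
    unfold UW
    rw [hlen, hue, hpow]
    constructor
    · intro h
      have h0 : ∑ y ∈ Finset.range (K ^ S n), (dprm (2 * K) (2 ^ S n) (S n) (S n) e
          (cw ((2 ^ S n) ^ (2 * K)) K (S n) n y)).sim % 2 = 0 := by
        by_contra hcon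
        rw [if_neg hcon] at h
        exact h rfl
      rw [Finset.sum_eq_zero_iff] at h0
      rintro ⟨z, hz⟩
      obtain ⟨y, hy1, hy2⟩ := wit_exists K (S n) hK z
      have h1 := (hsim y z hy2).2 hz
      have h2 := h0 y (Finset.mem_range.2 hy1)
      omega
    · intro h
      have h0 : ∑ y ∈ Finset.range (K ^ S n), (dprm (2 * K) (2 ^ S n) (S n) (S n) e
          (cw ((2 ^ S n) ^ (2 * K)) K (S n) n y)).sim % 2 = 0 := by
        rw [Finset.sum_eq_zero_iff]
        intro y _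
        by_contra hcon
        have h1 : (dprm (2 * K) (2 ^ S n) (S n) (S n) e
          (cw ((2 ^ S n) ^ (2 * K)) K (S n) n y)).sim % 2 = 1 := by omega
        refine h ⟨fun i => ⟨dg K y i, dg_lt _ _ _ hK⟩, ?_⟩
        exact (hsim y (fun i => ⟨dg K y i, dg_lt _ _ _ hK⟩) (fun i _ => rfl)).1 h1
      rw [if_pos h0]
      exact Nat.one_ne_zero
  have hp := pad_acc A S (List.replicate n true) (by rw [List.length_replicate]; exact hS n)
  rw [List.length_replicate, ← List.replicate_add, Nat.add_sub_cancel' (hS n)] at hp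
  rw [← hA2 (S n) (by have := hS n; omega), ← hp, hAV] at hU
  by_cases hacc : V.Acc S (List.replicate n true)
  · obtain ⟨y, t, ht, hy⟩ := hin _ hacc
    rw [List.length_replicate] at ht hy
    exact hU.1 hacc ⟨y, t, ht.trans h1, hy⟩
  · apply hacc
    rw [hU]
    rintro ⟨y, t, _, hy⟩
    apply hacc
    refine ⟨y, t, ?_⟩
    rw [List.length_replicate]
    exact hy

/-- polynomial bounds -/
theorem mainWpoly (K k : ℕ) (hK : 1 ≤ K) (hk : 1 ≤ k) :
    ∃ A : STM, (∀ w, A.Acc (fun n => n ^ k) w → ∀ x ∈ w, x = true) ∧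
      ∀ (d : ℕ) [NeZero d] (V : WCA d K) (T : ℕ → ℕ),
        (fun n => (T n : ℝ)) =o[atTop] (fun n : ℕ =>
          (((n ^ k : ℕ) : ℝ) / Real.log ((n ^ k : ℕ) : ℝ)) ^ (1 + 1 / (d : ℝ))) →
        V.InTime (fun n => n ^ k) T →
        ¬ ∀ x, (A.Acc (fun n => n ^ k) x ↔ V.Acc (fun n => n ^ k) x) := by
  refine mainW K hK (fun n => n ^ k) (fun n => Nat.le_self_pow (by omega) n) (len 0 k) ?_ ?_
  · exact ls_rt (LS.var 0) (LS.var 1) (LS.const k) (ls_il 0 (LS.var 0) (LS.var 1))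
  · intro n hn
    exact len_eq 0 k n hk hn

/-- exponential bounds -/
theorem mainWexp (K c : ℕ) (hK : 1 ≤ K) (hc : 1 ≤ c) :
    ∃ A : STM, (∀ w, A.Acc (fun n => 2 ^ (c * n)) w → ∀ x ∈ w, x = true) ∧
      ∀ (d : ℕ) [NeZero d] (V : WCA d K) (T : ℕ → ℕ),
        (fun n => (T n : ℝ)) =o[atTop] (fun n : ℕ =>
          (((2 ^ (c * n) : ℕ) : ℝ) / Real.log ((2 ^ (c * n) : ℕ) : ℝ)) ^ (1 + 1 / (d : ℝ))) →
        V.InTime (fun n => 2 ^ (c * n)) T →
        ¬ ∀ x, (A.Acc (fun n => 2 ^ (c * n)) x ↔ V.Acc (fun n => 2 ^ (c * n)) x) := by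
  refine mainW K hK (fun n => 2 ^ (c * n)) ?_ (fun X m => ZZ.lg X m / c) ?_ ?_
  · intro n
    have h1 : n ≤ c * n := Nat.le_mul_of_pos_left n hc
    exact h1.trans Nat.lt_two_pow_self.le
  · exact (ZZ.LS.lg (LS.var 0) (LS.var 1)).div (LS.const c)
  · intro n hn
    show ZZ.lg (2 ^ 2 ^ (c * n)) (2 ^ (c * n)) / c = n
    rw [lg_eq' _ _ Nat.one_le_two_pow le_rfl, Nat.log_pow (by omega),
      Nat.mul_div_cancel_left _ hc]

end Pool.Agent.H539R2.DD.TW
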